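import Pool.Agent.DWC.StK
import Pool.Agent.GAM.Asm
import Pool.Agent.GAM.ThEx

/-!
# DWC, module ExpUn: the exponents of the CM point depend only on the imaginary quadratic field
-/

set_option autoImplicit false

namespace DWC

open scoped ComplexConjugate
open GAM (PLat IsTh HasExp CMF CMT)
open PST

private theorem ExpUn_conj_zd (d : ℚ) : conj (zd d) = -zd d := by
  rw [zd, map_mul, Complex.conj_ofReal, Complex.conj_I]
  ring

private theorem ExpUn_den {ι : Type} [Fintype ι] (q : ι → ℚ) :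
    ∃ N : ℕ, N ≠ 0 ∧ ∃ m : ι → ℤ, ∀ s, (N : ℚ) * q s = m s := by
  classical
  refine ⟨∏ s, (q s).den, Finset.prod_ne_zero_iff.2 fun s _ => (q s).den_nz, ?_⟩
  have h : ∀ s, ∃ m : ℤ, ((∏ s, (q s).den : ℕ) : ℚ) * q s = m := by
    intro s
    refine ⟨(∏ t ∈ Finset.univ.erase s, ((q t).den : ℤ)) * (q s).num, ?_⟩
    rw [← Finset.mul_prod_erase Finset.univ (fun s => (q s).den) (Finset.mem_univ s)]
    push_cast
    have h1 : ((q s).den : ℚ) * q s = (q s).num := Rat.den_mul_eq_num (q s)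
    calc ((q s).den : ℚ) * (∏ t ∈ Finset.univ.erase s, ((q t).den : ℚ)) * q s
        = (∏ t ∈ Finset.univ.erase s, ((q t).den : ℚ)) * (((q s).den : ℚ) * q s) := by ring
      _ = _ := by rw [h1]
  choose m hm using h
  exact ⟨m, hm⟩

private theorem ExpUn_alg {d q : ℚ} {r : ℝ} (hd : 0 < d) (h : (q : ℝ) = r ^ 2 * Real.sqrt (d : ℝ)) :
    IsAlgebraic ℚ (r : ℂ) := by
  have h1 : (r : ℂ) ^ 4 = ((q ^ 2 / d : ℚ) : ℂ) := by
    have hd' : (0 : ℝ) < (d : ℝ) := by exact_mod_cast hd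
    have h2 : Real.sqrt (d : ℝ) ^ 2 = d := Real.sq_sqrt hd'.le
    have h3 : r ^ 4 * (d : ℝ) = (q : ℝ) ^ 2 := by
      rw [h, mul_pow, h2]
      ring
    have h4 : r ^ 4 = (q : ℝ) ^ 2 / (d : ℝ) := by
      rw [eq_div_iff hd'.ne', h3]
    have h5 : ((r ^ 4 : ℝ) : ℂ) = (((q : ℝ) ^ 2 / (d : ℝ) : ℝ) : ℂ) := by rw [h4]
    push_cast at h5 ⊢
    exact h5
  have h2 : IsAlgebraic ℚ ((r : ℂ) ^ 4) := by
    rw [h1]
    exact isAlgebraic_algebraMap (A := ℂ) (q ^ 2 / d)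
  exact IsAlgebraic.of_pow (by norm_num : 0 < 4) h2

/-- [ExpUn] the exponents of all CM points with the same field are equal -/
def St_ExpUn : Prop := ∀ d : ℚ, 0 < d → ∃ A : Derivation ℚ ℂ ℂ → ℂ,
  (∃ δ : Derivation ℚ ℂ ℂ, A δ - δ Real.pi / (2 * Real.pi) ≠ 0) ∧
  ∀ (α β : Type) [Fintype α] [Fintype β] [DecidableEq α] [DecidableEq β]
    (r : α ⊕ β → ℝ) (q : α ⊕ β → ℚ) (L : Submodule ℤ (Ix α β Unit → ℂ))
    (χ θ : (Ix α β Unit → ℂ) → ℂ), IsR d r q → Nonempty (α ⊕ β) → PLat L χ → IsLK d r q L →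
    IsTh L χ θ → (∃ v, θ v ≠ 0) → ∀ δ : Derivation ℚ ℂ ℂ,
      ∃ k : ℂ, HasHat δ L θ k (A δ • (1 : Matrix α α ℂ)) (A δ • (1 : Matrix β β ℂ)) 0

private theorem ExpUn_core (h1 : St_CMK) (h3 : St_EqK) (h4 : St_ExpS) (d : ℚ)
    (K : Type) [Field K] [NumberField K] (c : K →+* K) (φ : Unit ⊕ Empty → K →+* ℂ)
    (hcm : CMF K c) (hct : CMT K c φ) (D : ℕ) (hD : D ≠ 0)
    (hDx : ∀ (s : Unit ⊕ Empty) (x : NumberField.RingOfIntegers K), ∃ a b : ℤ,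
      φ s ((D : K) * (x : K)) = (a : ℂ) + (b : ℂ) * zd d)
    (α β : Type) [Fintype α] [Fintype β] [DecidableEq α] [DecidableEq β]
    (r : α ⊕ β → ℝ) (q : α ⊕ β → ℚ) (L : Submodule ℤ (Ix α β Unit → ℂ))
    (χ θ : (Ix α β Unit → ℂ) → ℂ) (hR : IsR d r q) (hne : Nonempty (α ⊕ β)) (hP : PLat L χ)
    (hL : IsLK d r q L) (hT : IsTh L χ θ) (hz : ∃ v, θ v ≠ 0) (δ : Derivation ℚ ℂ ℂ) :
    ∃ (a k : ℂ), GAM.IsExp δ K φ (fun _ => a) ∧
      HasHat δ L θ k (a • (1 : Matrix α α ℂ)) (a • (1 : Matrix β β ℂ)) 0 := by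
  obtain ⟨s, hs⟩ := h1 α β d r q L hR hL
  obtain ⟨s₀⟩ := hne
  obtain ⟨N, hN, m, hm⟩ := ExpUn_den q
  have hq0 : ∀ s, (q s : ℂ) ≠ 0 := by
    intro s hs
    have e1 : (q s : ℝ) = 0 := by exact_mod_cast hs
    rw [hR.rq s] at e1
    have e2 : (0 : ℝ) < (d : ℝ) := by exact_mod_cast hR.pos
    exact (mul_pos (pow_pos (hR.rpos s) 2) (Real.sqrt_pos.2 e2)).ne' e1
  obtain ⟨A, k, hA⟩ := GAM.All.CM_ (Ix α β Unit) δ L χ θ s hP hT hz hs
  obtain ⟨e1, e2⟩ := h3 α β d r q δ L χ θ A k hR hP hL hT hz hA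
  refine ⟨A (s₀, ()), k, ?_, e2 _⟩
  have hA2 : HasExp δ L θ (fun _ : Ix α β Unit => A (s₀, ())) k := by
    have e3 : A = fun _ => A (s₀, ()) := funext fun p => e1 p _
    rw [← e3]
    exact hA
  refine h4 K c (Unit ⊕ Empty) (Ix α β Unit) φ δ L χ θ (fun _ => A (s₀, ())) k
    (fun _ => Sum.inl ()) (fun p => (N : ℂ) * (r p.1 : ℂ)) D hcm hct hP hT hz hA2 ?_ ?_ hD ?_
  · intro p
    exact (isAlgebraic_natCast (R := ℚ) N).mul (ExpUn_alg hR.pos (hR.rq p.1))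
  · rintro (u | u)
    · refine ⟨(s₀, ()), rfl, ?_⟩
      exact mul_ne_zero (Nat.cast_ne_zero.2 hN) (Complex.ofReal_ne_zero.2 (hR.rpos _).ne')
    · exact u.elim
  · intro x
    obtain ⟨a, b, hab⟩ := hDx (Sum.inl ()) x
    refine (hL _).2 ⟨fun _ => (N : ℤ) * a, fun t => Sum.elim (fun i => m (Sum.inl i) * b)
      (fun j => -(m (Sum.inr j) * b)) t, ?_⟩
    have hm' : ∀ t, ((N : ℂ) * (q t : ℂ)) = (m t : ℂ) := by
      intro t
      have := hm t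
      exact_mod_cast this
    funext p
    obtain ⟨t, u⟩ := p
    rcases t with i | j
    · simp only [sw, Sum.elim_inl]
      rw [hab]
      push_cast
      rw [← hm' (Sum.inl i)]
      field_simp [hq0 (Sum.inl i)]
    · simp only [sw, Sum.elim_inr]
      rw [hab]
      simp only [map_mul, map_add, map_div₀, map_neg, ExpUn_conj_zd, Complex.conj_ofReal,
        Int.cast_neg, Int.cast_mul, Int.cast_natCast, map_natCast, map_intCast, map_ratCast]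
      rw [← hm' (Sum.inr j)]
      field_simp [hq0 (Sum.inr j)]

theorem thm_ExpUn (h0 : St_LatK) (h1 : St_CMK) (h2 : St_FldK) (h3 : St_EqK) (h4 : St_ExpS)
    (h5 : St_FinQ) : St_ExpUn := by
  intro d hd
  obtain ⟨K, i1, i2, c, φ, J₀, hcm, hct, hJ, D, hD, hDx⟩ := h2 d hd
  have hd' : (0 : ℝ) < (d : ℝ) := by exact_mod_cast hd
  have hs : 0 < Real.sqrt (d : ℝ) := Real.sqrt_pos.2 hd'
  have hR : IsR (α := Unit) (β := Empty) d (fun _ => (Real.sqrt (Real.sqrt (d : ℝ)))⁻¹)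
      (fun _ => 1) := by
    refine ⟨hd, fun _ => inv_pos.2 (Real.sqrt_pos.2 hs), fun _ => ?_⟩
    rw [inv_pow, Real.sq_sqrt hs.le, inv_mul_cancel₀ hs.ne']
    norm_num
  obtain ⟨L₁, χ₁, N, hP₁, hL₁, -, -⟩ := h0 Unit Empty d _ _ hR
  obtain ⟨θ₁, hT₁, hz₁⟩ := GAM.thm_ThEx (Ix Unit Empty Unit) L₁ χ₁ hP₁
  have hδ := ExpUn_core h1 h3 h4 d K c φ hcm hct D hD hDx Unit Empty _ _ L₁ χ₁ θ₁ hR
    ⟨Sum.inl ()⟩ hP₁ hL₁ hT₁ hz₁
  choose A k hE hH using hδ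
  refine ⟨A, ?_, ?_⟩
  · have e1 := h5 K c Unit Empty φ J₀ d (fun δ _ => A δ) hcm hct hd hJ (fun i => i.elim)
      (by simp) hE
    by_contra hcon
    apply e1
    intro δ
    have h6 : A δ - δ Real.pi / (2 * Real.pi) = 0 := by
      by_contra h7
      exact hcon ⟨δ, h7⟩
    simp [h6]
  · intro α β _ _ _ _ r q L χ θ hR' hne hP hL hT hz δ
    obtain ⟨a, k', hE', hH'⟩ := ExpUn_core h1 h3 h4 d K c φ hcm hct D hD hDx α β r q L χ θ hR'
      hne hP hL hT hz δ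
    have e2 := GAM.All.ExpU_ K c (Unit ⊕ Empty) φ δ _ _ hcm hct (hE δ) hE'
    have e3 : A δ = a := congrFun e2 (Sum.inl ())
    rw [e3]
    exact ⟨k', hH'⟩

end DWC
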