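import Pool.Agent.DWC.StK

/-!
# DWC: [LatK] the lattice of the CM point (helper21)
-/

set_option autoImplicit false

namespace DWC

open scoped ComplexConjugate
open GAM (H E F pd pdl PLat IsTh OddTor IsDel Gro IsLat Pre QD qd jac HasExp CMF CMT IsExp IsCM)
open PST

section aux

variable {α β : Type} [Fintype α] [Fintype β] [DecidableEq α] [DecidableEq β]

private theorem LatK_int {ι : Type} [Fintype ι] (f : ι → ℚ) :
    ∃ N : ℕ, N ≠ 0 ∧ ∀ i, ∃ m : ℤ, (N : ℚ) * f i = m := by
  refine ⟨∏ i, (f i).den, Finset.prod_ne_zero_iff.2 fun i _ => (f i).den_ne_zero, fun i => ?_⟩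
  obtain ⟨k, hk⟩ := Finset.dvd_prod_of_mem (fun i => (f i).den) (Finset.mem_univ i)
  refine ⟨k * (f i).num, ?_⟩
  rw [hk]
  push_cast
  have := Rat.mul_den_eq_num (f i)
  linear_combination (k : ℚ) * this

private theorem LatK_sq {d : ℚ} (hd : 0 < d) : zd d * zd d = -(d : ℂ) := by
  have h0 : (0 : ℝ) ≤ (d : ℝ) := by exact_mod_cast hd.le
  have h1 : (Real.sqrt (d : ℝ) : ℂ) * (Real.sqrt (d : ℝ) : ℂ) = (d : ℂ) := by
    rw [← Complex.ofReal_mul, Real.mul_self_sqrt h0]
    push_cast
    rfl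
  unfold zd
  linear_combination (Complex.I * Complex.I) * h1 + (d : ℂ) * Complex.I_mul_I

private theorem LatK_re (d : ℚ) : (zd d).re = 0 := by
  unfold zd
  simp

private theorem LatK_im (d : ℚ) : (zd d).im = Real.sqrt (d : ℝ) := by
  unfold zd
  simp

/-- The sign. -/
private def LatK_e (s : α ⊕ β) : ℤ := Sum.elim (fun _ => 1) (fun _ => -1) s

omit [Fintype α] [Fintype β] [DecidableEq α] [DecidableEq β] in
private theorem LatK_ee (s : α ⊕ β) : LatK_e s * LatK_e s = 1 := by
  rcases s with i | j <;> simp [LatK_e]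

omit [Fintype α] [Fintype β] [DecidableEq α] [DecidableEq β] in
private theorem LatK_eer (s : α ⊕ β) : (LatK_e s : ℝ) * (LatK_e s : ℝ) = 1 := by
  exact_mod_cast LatK_ee s

/-- The coordinates. -/
private noncomputable def LatK_q (d : ℚ) (r : α ⊕ β → ℝ) (q : α ⊕ β → ℚ)
    (h1 : ∀ s, r s ≠ 0) (h2 : ∀ s, (q s : ℝ) ≠ 0) (h3 : Real.sqrt (d : ℝ) ≠ 0) :
    (Ix α β Unit → ℂ) ≃ₗ[ℝ] (Ix α β Unit ⊕ Ix α β Unit → ℝ) where
  toFun x := Sum.elim (fun p => (x p).re / r p.1)
    (fun p => LatK_e p.1 * (x p).im * q p.1 / (r p.1 * Real.sqrt (d : ℝ)))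
  invFun f p := ⟨r p.1 * f (Sum.inl p),
    LatK_e p.1 * (r p.1 * Real.sqrt (d : ℝ) / q p.1) * f (Sum.inr p)⟩
  map_add' x y := by
    funext i
    rcases i with p | p
    · simp only [Sum.elim_inl, Pi.add_apply, Complex.add_re, add_div]
    · simp only [Sum.elim_inr, Pi.add_apply, Complex.add_im]
      ring
  map_smul' c x := by
    funext i
    rcases i with p | p
    · simp only [Sum.elim_inl, Pi.smul_apply, Complex.smul_re, smul_eq_mul, RingHom.id_apply]
      ring
    · simp only [Sum.elim_inr, Pi.smul_apply, Complex.smul_im, smul_eq_mul, RingHom.id_apply]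
      ring
  left_inv x := by
    funext p
    have a1 := h1 p.1
    have a2 := h2 p.1
    have a4 := LatK_eer p.1
    apply Complex.ext
    · simp only [Sum.elim_inl]
      field_simp
    · simp only [Sum.elim_inr]
      field_simp
      linear_combination (x p).im * a4
  right_inv f := by
    funext i
    rcases i with p | p
    · have a1 := h1 p.1
      simp only [Sum.elim_inl]
      field_simp
    · have a1 := h1 p.1
      have a2 := h2 p.1
      have a4 := LatK_eer p.1
      simp only [Sum.elim_inr]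
      field_simp
      linear_combination f (Sum.inr p) * a4

omit [DecidableEq α] [DecidableEq β] in
private theorem LatK_E (d : ℚ) (r : α ⊕ β → ℝ) (q : α ⊕ β → ℚ)
    (h1 : ∀ s, r s ≠ 0) (h2 : ∀ s, (q s : ℝ) ≠ 0) (h3 : Real.sqrt (d : ℝ) ≠ 0)
    (h4 : ∀ s, (q s : ℝ) = r s ^ 2 * Real.sqrt (d : ℝ)) (x y : Ix α β Unit → ℂ) :
    E x y = ∑ p : Ix α β Unit, (LatK_e p.1 : ℝ) *
      (LatK_q d r q h1 h2 h3 x (Sum.inr p) * LatK_q d r q h1 h2 h3 y (Sum.inl p) -
        LatK_q d r q h1 h2 h3 x (Sum.inl p) * LatK_q d r q h1 h2 h3 y (Sum.inr p)) := by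
  unfold E H
  rw [Complex.im_sum]
  refine Finset.sum_congr rfl fun p _ => ?_
  have a1 := h1 p.1
  have a2 := h2 p.1
  have a3 := h4 p.1
  have a4 := LatK_eer p.1
  show _ = (LatK_e p.1 : ℝ) *
    ((LatK_e p.1 * (x p).im * q p.1 / (r p.1 * Real.sqrt (d : ℝ))) * ((y p).re / r p.1) -
      ((x p).re / r p.1) * (LatK_e p.1 * (y p).im * q p.1 / (r p.1 * Real.sqrt (d : ℝ))))
  rw [Complex.mul_im, Complex.conj_re, Complex.conj_im, a3]
  field_simp
  linear_combination -((x p).im * (y p).re - (x p).re * (y p).im) * a4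

end aux

theorem thm_LatK : St_LatK := by
  intro α β _ _ _ _ d r q hR
  have hd := hR.pos
  have hdR : (0 : ℝ) < (d : ℝ) := by exact_mod_cast hd
  have h3 : Real.sqrt (d : ℝ) ≠ 0 := (Real.sqrt_pos.2 hdR).ne'
  have h1 : ∀ s, r s ≠ 0 := fun s => (hR.rpos s).ne'
  have h2 : ∀ s, (q s : ℝ) ≠ 0 := by
    intro s
    rw [hR.rq s]
    exact mul_ne_zero (pow_ne_zero 2 (h1 s)) h3
  have h2q : ∀ s, q s ≠ 0 := fun s hs => h2 s (by rw [hs]; simp)
  set Q := LatK_q d r q h1 h2 h3 with hQ
  set b : Module.Basis (Ix α β Unit ⊕ Ix α β Unit) ℝ (Ix α β Unit → ℂ) :=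
    Module.Basis.ofEquivFun Q with hb
  have hmem : ∀ x, x ∈ Submodule.span ℤ (Set.range b) ↔ ∀ i, ∃ n : ℤ, (n : ℝ) = Q x i := by
    intro x
    rw [b.mem_span_iff_repr_mem ℤ x]
    constructor
    · intro h i
      obtain ⟨n, hn⟩ := h i
      refine ⟨n, ?_⟩
      have : b.repr x i = Q x i := by
        rw [hb, Module.Basis.ofEquivFun_repr_apply]
      rw [← this, ← hn]
      simp
    · intro h i
      obtain ⟨n, hn⟩ := h i
      refine ⟨n, ?_⟩
      have : b.repr x i = Q x i := by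
        rw [hb, Module.Basis.ofEquivFun_repr_apply]
      rw [this, ← hn]
      simp
  have hE : ∀ x y : Ix α β Unit → ℂ, E x y = ∑ p : Ix α β Unit, (LatK_e p.1 : ℝ) *
      (Q x (Sum.inr p) * Q y (Sum.inl p) - Q x (Sum.inl p) * Q y (Sum.inr p)) :=
    fun x y => LatK_E d r q h1 h2 h3 hR.rq x y
  have hLK : IsLK d r q (Submodule.span ℤ (Set.range b)) := by
    intro x
    rw [hmem x]
    have key : ∀ a c : α ⊕ β → ℤ, (x = sw fun p : Ix α β Unit =>
        (r p.1 : ℂ) * ((a p.1 : ℂ) + (c p.1 : ℂ) / (q p.1 : ℂ) * zd d)) ↔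
        x = Q.symm (Sum.elim (fun p => (a p.1 : ℝ)) (fun p => (c p.1 : ℝ))) := by
      intro a c
      have : (sw fun p : Ix α β Unit =>
        (r p.1 : ℂ) * ((a p.1 : ℂ) + (c p.1 : ℂ) / (q p.1 : ℂ) * zd d)) =
        Q.symm (Sum.elim (fun p => (a p.1 : ℝ)) (fun p => (c p.1 : ℝ))) := by
        funext p
        have hre : ((r p.1 : ℂ) * ((a p.1 : ℂ) + (c p.1 : ℂ) / (q p.1 : ℂ) * zd d)).re =
            r p.1 * a p.1 := by
          have e1 : (r p.1 : ℂ) * ((a p.1 : ℂ) + (c p.1 : ℂ) / (q p.1 : ℂ) * zd d) =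
            ((r p.1 * a p.1 : ℝ) : ℂ) + ((r p.1 * (c p.1 / q p.1) : ℝ) : ℂ) * zd d := by
            push_cast
            ring
          rw [e1, Complex.add_re, Complex.re_ofReal_mul, LatK_re, Complex.ofReal_re]
          ring
        have him : ((r p.1 : ℂ) * ((a p.1 : ℂ) + (c p.1 : ℂ) / (q p.1 : ℂ) * zd d)).im =
            r p.1 * Real.sqrt (d : ℝ) / q p.1 * c p.1 := by
          have e1 : (r p.1 : ℂ) * ((a p.1 : ℂ) + (c p.1 : ℂ) / (q p.1 : ℂ) * zd d) =
            ((r p.1 * a p.1 : ℝ) : ℂ) + ((r p.1 * (c p.1 / q p.1) : ℝ) : ℂ) * zd d := by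
            push_cast
            ring
          rw [e1, Complex.add_im, Complex.im_ofReal_mul, LatK_im, Complex.ofReal_im]
          ring
        obtain ⟨s, u⟩ := p
        show _ = (⟨r s * a s, LatK_e s * (r s * Real.sqrt (d : ℝ) / q s) * c s⟩ : ℂ)
        rcases s with i | j
        · apply Complex.ext
          · exact hre
          · refine him.trans ?_
            show _ = ((LatK_e (Sum.inl i : α ⊕ β) : ℤ) : ℝ) * _ * _
            simp [LatK_e]
        · apply Complex.ext
          · show (conj _ : ℂ).re = _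
            rw [Complex.conj_re]
            exact hre
          · show (conj _ : ℂ).im = _
            rw [Complex.conj_im]
            refine (congrArg Neg.neg him).trans ?_
            show _ = ((LatK_e (Sum.inr j : α ⊕ β) : ℤ) : ℝ) * _ * _
            simp [LatK_e]
      rw [this]
    simp only [key]
    constructor
    · intro h
      choose n hn using h
      refine ⟨fun s => n (Sum.inl (s, ())), fun s => n (Sum.inr (s, ())), ?_⟩
      rw [LinearEquiv.eq_symm_apply]
      funext i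
      rcases i with ⟨s, u⟩ | ⟨s, u⟩
      · exact (hn _).symm
      · exact (hn _).symm
    · rintro ⟨a, c, h⟩
      rw [LinearEquiv.eq_symm_apply] at h
      intro i
      rcases i with p | p
      · exact ⟨a p.1, (congrFun h (Sum.inl p)).symm⟩
      · exact ⟨c p.1, (congrFun h (Sum.inr p)).symm⟩
  obtain ⟨N1, hN1, k1⟩ := LatK_int q
  obtain ⟨N2, hN2, k2⟩ := LatK_int fun s => d / q s
  choose m1 hm1 using k1
  choose m2 hm2 using k2
  refine ⟨Submodule.span ℤ (Set.range b), fun x => Complex.exp (Real.pi * Complex.I *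
    ((∑ p : Ix α β Unit, Q x (Sum.inl p) * Q x (Sum.inr p) : ℝ) : ℂ)), N1 * N2,
    ⟨⟨b, rfl⟩, ?_, ?_, ?_, ?_⟩, hLK, Nat.mul_ne_zero hN1 hN2, ?_⟩
  · intro l hl m hm
    choose n hn using (hmem l).1 hl
    choose n' hn' using (hmem m).1 hm
    refine ⟨∑ p : Ix α β Unit, LatK_e p.1 *
      (n (Sum.inr p) * n' (Sum.inl p) - n (Sum.inl p) * n' (Sum.inr p)), ?_⟩
    rw [hE]
    push_cast
    exact Finset.sum_congr rfl fun p _ => by rw [hn, hn, hn', hn']
  · intro v hv
    rw [hmem]
    have hbas : ∀ i, b i ∈ Submodule.span ℤ (Set.range b) := fun i =>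
      Submodule.subset_span ⟨i, rfl⟩
    have hQb : ∀ i, Q (b i) = Pi.single i 1 := by
      intro i
      rw [hb, Module.Basis.coe_ofEquivFun]
      exact Q.apply_symm_apply _
    intro i
    rcases i with p | p
    · obtain ⟨n, hn⟩ := hv _ (hbas (Sum.inr p))
      rw [hE, hQb] at hn
      refine ⟨-(LatK_e p.1 * n), ?_⟩
      have e1 : ∑ p' : Ix α β Unit, (LatK_e p'.1 : ℝ) * (Q v (Sum.inr p') *
          (Pi.single (Sum.inr p) (1 : ℝ) : Ix α β Unit ⊕ Ix α β Unit → ℝ) (Sum.inl p') -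
          Q v (Sum.inl p') *
          (Pi.single (Sum.inr p) (1 : ℝ) : Ix α β Unit ⊕ Ix α β Unit → ℝ) (Sum.inr p')) =
          (LatK_e p.1 : ℝ) * (- Q v (Sum.inl p)) := by
        rw [Finset.sum_eq_single p]
        · simp
        · intro p' _ hp
          have : (Sum.inr p' : Ix α β Unit ⊕ Ix α β Unit) ≠ Sum.inr p :=
            fun h => hp (Sum.inr.inj h)
          simp [hp]
        · intro h
          exact absurd (Finset.mem_univ p) h
      rw [e1] at hn
      push_cast
      rw [← hn]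
      linear_combination Q v (Sum.inl p) * LatK_eer p.1
    · obtain ⟨n, hn⟩ := hv _ (hbas (Sum.inl p))
      rw [hE, hQb] at hn
      refine ⟨LatK_e p.1 * n, ?_⟩
      have e1 : ∑ p' : Ix α β Unit, (LatK_e p'.1 : ℝ) * (Q v (Sum.inr p') *
          (Pi.single (Sum.inl p) (1 : ℝ) : Ix α β Unit ⊕ Ix α β Unit → ℝ) (Sum.inl p') -
          Q v (Sum.inl p') *
          (Pi.single (Sum.inl p) (1 : ℝ) : Ix α β Unit ⊕ Ix α β Unit → ℝ) (Sum.inr p')) =
          (LatK_e p.1 : ℝ) * (Q v (Sum.inr p)) := by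
        rw [Finset.sum_eq_single p]
        · simp
        · intro p' _ hp
          simp [hp]
        · intro h
          exact absurd (Finset.mem_univ p) h
      rw [e1] at hn
      push_cast
      rw [← hn]
      linear_combination Q v (Sum.inr p) * LatK_eer p.1
  · intro l hl
    choose n hn using (hmem l).1 hl
    have e1 : (∑ p : Ix α β Unit, Q l (Sum.inl p) * Q l (Sum.inr p) : ℝ) =
        ((∑ p : Ix α β Unit, n (Sum.inl p) * n (Sum.inr p) : ℤ) : ℝ) := by
      push_cast
      exact Finset.sum_congr rfl fun p _ => by rw [hn, hn]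
    show Complex.exp (Real.pi * Complex.I * ((_ : ℝ) : ℂ)) = 1 ∨
      Complex.exp (Real.pi * Complex.I * ((_ : ℝ) : ℂ)) = -1
    rw [e1]
    generalize (∑ p : Ix α β Unit, n (Sum.inl p) * n (Sum.inr p) : ℤ) = k
    have e2 : Complex.exp (Real.pi * Complex.I * (((k : ℤ) : ℝ) : ℂ)) = (-1 : ℂ) ^ k := by
      rw [← Complex.exp_pi_mul_I, ← Complex.exp_int_mul]
      congr 1
      push_cast
      ring
    rw [e2]
    rcases Int.even_or_odd k with hk | hk
    · exact Or.inl hk.neg_one_zpow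
    · exact Or.inr hk.neg_one_zpow
  · intro l hl m hm
    choose n hn using (hmem l).1 hl
    choose n' hn' using (hmem m).1 hm
    show Complex.exp _ = Complex.exp _ * Complex.exp _ * Complex.exp _
    rw [← Complex.exp_add, ← Complex.exp_add]
    -- the difference of the exponents is `2 π i` times an integer
    rw [Complex.exp_eq_exp_iff_exists_int]
    refine ⟨∑ p : Ix α β Unit, if LatK_e p.1 = 1 then n (Sum.inl p) * n' (Sum.inr p)
      else n (Sum.inr p) * n' (Sum.inl p), ?_⟩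
    have e0 : (∑ p : Ix α β Unit, Q (l + m) (Sum.inl p) * Q (l + m) (Sum.inr p) : ℝ) =
        (∑ p : Ix α β Unit, Q l (Sum.inl p) * Q l (Sum.inr p) : ℝ) +
        (∑ p : Ix α β Unit, Q m (Sum.inl p) * Q m (Sum.inr p) : ℝ) + E l m +
        2 * ((∑ p : Ix α β Unit, if LatK_e p.1 = 1 then n (Sum.inl p) * n' (Sum.inr p)
          else n (Sum.inr p) * n' (Sum.inl p) : ℤ) : ℝ) := by
      rw [hE]
      push_cast
      rw [Finset.mul_sum, ← Finset.sum_add_distrib, ← Finset.sum_add_distrib,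
        ← Finset.sum_add_distrib]
      refine Finset.sum_congr rfl fun p _ => ?_
      rw [map_add]
      simp only [Pi.add_apply]
      rw [← hn, ← hn, ← hn', ← hn']
      obtain ⟨s, u⟩ := p
      rcases s with i | j
      · simp only [LatK_e, Sum.elim_inl]
        push_cast
        simp
        ring
      · simp only [LatK_e, Sum.elim_inr]
        norm_num
        ring
    rw [e0]
    generalize (∑ p : Ix α β Unit, if LatK_e p.1 = 1 then n (Sum.inl p) * n' (Sum.inr p)
          else n (Sum.inr p) * n' (Sum.inl p) : ℤ) = k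
    push_cast
    ring
  · intro l hl
    obtain ⟨a, c, rfl⟩ := (hLK l).1 hl
    refine (hLK _).2 ⟨fun s => -(N1 * m2 s * c s), fun s => N2 * m1 s * a s, ?_⟩
    have hz := LatK_sq hd
    have hsw : ∀ x : Ix α β Unit → ℂ, sw (sw x) = x := by
      intro x
      funext p
      obtain ⟨s, u⟩ := p
      rcases s with i | j
      · rfl
      · show conj (conj (x (Sum.inr j, u))) = _
        simp
    unfold act
    rw [hsw]
    congr 1
    funext p
    have g1 : (m1 p.1 : ℂ) = (N1 : ℂ) * (q p.1 : ℂ) := by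
      have := hm1 p.1
      exact_mod_cast this.symm
    have g2 : (m2 p.1 : ℂ) * (q p.1 : ℂ) = (N2 : ℂ) * (d : ℂ) := by
      have h := hm2 p.1
      have h3 : (m2 p.1 : ℚ) * q p.1 = N2 * d := by
        rw [← h]
        field_simp [h2q p.1]
      exact_mod_cast h3
    have g3 : (q p.1 : ℂ) ≠ 0 := by exact_mod_cast h2q p.1
    have e1 : mu (kap α β d (N1 * N2)) (fun p : Ix α β Unit =>
        (r p.1 : ℂ) * ((a p.1 : ℂ) + (c p.1 : ℂ) / (q p.1 : ℂ) * zd d)) p =
        ((N1 * N2 : ℕ) : ℂ) * zd d *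
        ((r p.1 : ℂ) * ((a p.1 : ℂ) + (c p.1 : ℂ) / (q p.1 : ℂ) * zd d)) := by
      unfold mu kap
      simp only [Matrix.smul_apply, Matrix.one_apply, smul_eq_mul, mul_ite, mul_one, mul_zero,
        ite_mul, zero_mul]
      rw [Finset.sum_ite_eq]
      simp
    rw [e1]
    push_cast
    field_simp
    linear_combination (r p.1 : ℂ) * (N1 * N2 * c p.1) * hz + (r p.1 : ℂ) * N1 * c p.1 * g2 -
      (r p.1 : ℂ) * N2 * a p.1 * zd d * g1

end DWC
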