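import Pool.Agent.DWC.StG
import Pool.Agent.GAM.GroU

/-!
# DWC [GrF]: uniform bounds for the functions `F_x` and their partial derivatives
-/

set_option autoImplicit false

namespace DWC

open scoped ComplexConjugate
open GAM (H E F pd pdl PLat IsTh OddTor IsDel Gro IsLat)
open PST

private theorem GrF_H {ι : Type} [Fintype ι] (v : ι → ℂ) : (H v v).re = nq v := by
  unfold H nq
  rw [Complex.re_sum]
  refine Finset.sum_congr rfl fun p _ => ?_
  rw [Complex.mul_conj, Complex.ofReal_re, Complex.normSq_eq_norm_sq]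

private theorem GrF_nq {ι : Type} [Fintype ι] [DecidableEq ι] (v : ι → ℂ) (p : ι) (s : ℂ) :
    nq (v + s • Pi.single p 1) ≤ nq v + 2 * Real.sqrt (nq v) * ‖s‖ + ‖s‖ ^ 2 := by
  have h0 : ∀ q ∈ (Finset.univ : Finset ι), 0 ≤ ‖v q‖ ^ 2 := fun q _ => sq_nonneg _
  have h1 : ‖v p‖ ^ 2 ≤ nq v := Finset.single_le_sum h0 (Finset.mem_univ p)
  have h2 : ‖v p‖ ≤ Real.sqrt (nq v) := Real.le_sqrt_of_sq_le h1
  have h3 : nq (v + s • Pi.single p 1) = nq v + (‖v p + s‖ ^ 2 - ‖v p‖ ^ 2) := by
    unfold nq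
    rw [← Finset.add_sum_erase _ _ (Finset.mem_univ p),
      ← Finset.add_sum_erase Finset.univ (fun q => ‖v q‖ ^ 2) (Finset.mem_univ p)]
    have h4 : ∑ q ∈ Finset.univ.erase p, ‖(v + s • (Pi.single p 1 : ι → ℂ)) q‖ ^ 2 =
        ∑ q ∈ Finset.univ.erase p, ‖v q‖ ^ 2 := by
      refine Finset.sum_congr rfl fun q hq => ?_
      have : q ≠ p := Finset.ne_of_mem_erase hq
      simp [this]
    rw [h4]
    have h5 : (v + s • (Pi.single p 1 : ι → ℂ)) p = v p + s := by simp
    rw [h5]
    ring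
  have h6 : ‖v p + s‖ ≤ ‖v p‖ + ‖s‖ := norm_add_le _ _
  have h7 : ‖v p + s‖ ^ 2 ≤ (‖v p‖ + ‖s‖) ^ 2 := pow_le_pow_left₀ (norm_nonneg _) h6 2
  have h8 : ‖v p‖ * ‖s‖ ≤ Real.sqrt (nq v) * ‖s‖ := mul_le_mul_of_nonneg_right h2 (norm_nonneg _)
  rw [h3]
  nlinarith

theorem thm_GrF : St_GrF := by
  intro ι _ _ L χ θ hL hθ
  obtain ⟨C, hC, hb⟩ := GAM.thm_GroU ι L χ θ hL hθ
  have hb' : ∀ x v : ι → ℂ, ‖F θ x v‖ ≤ C * Real.exp (Real.pi / 2 * nq v) := by
    intro x v
    rw [← GrF_H v]
    exact hb x v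
  have hE : 1 ≤ Real.exp (3 * Real.pi / 2) := Real.one_le_exp (by positivity)
  refine ⟨C * Real.exp (3 * Real.pi / 2), by positivity, fun x v => ⟨?_, fun p => ?_⟩⟩
  · refine (hb' x v).trans ?_
    refine mul_le_mul_of_nonneg_right ?_ (Real.exp_pos _).le
    nlinarith
  · set t := Real.sqrt (nq v) with ht
    have ht0 : 0 ≤ t := Real.sqrt_nonneg _
    set R : ℝ := 1 / (1 + t) with hR
    have hR0 : 0 < R := by positivity
    have hRt : R * (1 + t) = 1 := by
      rw [hR]
      field_simp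
    have hR1 : R ≤ 1 := by
      nlinarith
    have hd : Differentiable ℂ (F θ x) := GAM.F_differentiable hθ x
    have hl : Differentiable ℂ (fun s : ℂ => v + s • (Pi.single p 1 : ι → ℂ)) := by
      fun_prop
    have hG : Differentiable ℂ (fun s : ℂ => F θ x (v + s • (Pi.single p 1 : ι → ℂ))) :=
      hd.comp hl
    have hder : deriv (fun s : ℂ => F θ x (v + s • (Pi.single p 1 : ι → ℂ))) 0 =
        pd p (F θ x) v := by
      have h1 : HasFDerivAt (F θ x) (fderiv ℂ (F θ x) v)
          (v + (0 : ℂ) • (Pi.single p 1 : ι → ℂ)) := by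
        have := (hd v).hasFDerivAt
        simpa using this
      have h2 : HasDerivAt (fun s : ℂ => v + s • (Pi.single p 1 : ι → ℂ))
          (Pi.single p 1 : ι → ℂ) 0 := by
        have h3 : HasDerivAt (fun s : ℂ => s • (Pi.single p 1 : ι → ℂ))
            ((1 : ℂ) • (Pi.single p 1 : ι → ℂ)) 0 :=
          (hasDerivAt_id (0 : ℂ)).smul_const _
        rw [one_smul] at h3
        exact h3.const_add v
      exact (h1.comp_hasDerivAt (0 : ℂ) h2).deriv
    rw [← hder]
    have key := Complex.norm_deriv_le_of_forall_mem_sphere_norm_le (c := 0) (R := R)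
      (C := C * Real.exp (Real.pi / 2 * (nq v + 3))) hR0 hG.diffContOnCl (by
        intro s hs
        have hs' : ‖s‖ = R := by simpa using hs
        refine (hb' x _).trans ?_
        refine mul_le_mul_of_nonneg_left ?_ hC.le
        apply Real.exp_le_exp.mpr
        refine mul_le_mul_of_nonneg_left ?_ (by positivity)
        have h1 := GrF_nq v p s
        rw [hs', ← ht] at h1
        have h2 : 2 * t * R ≤ 2 := by nlinarith
        have h3 : R ^ 2 ≤ 1 := by nlinarith
        linarith)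
    refine key.trans (le_of_eq ?_)
    have h1 : Real.exp (Real.pi / 2 * (nq v + 3)) =
        Real.exp (3 * Real.pi / 2) * Real.exp (Real.pi / 2 * nq v) := by
      rw [← Real.exp_add]
      congr 1
      ring
    rw [h1, hR]
    field_simp

end DWC
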