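import Pool.Agent.DWC.StG
import Pool.Agent.PST.StF

/-!
# DWC [Grw]: growth of the Fock vectors near the boundary of the domain
-/

set_option autoImplicit false

namespace DWC

open scoped ComplexConjugate
open GAM (H E F pd pdl PLat IsTh OddTor IsDel Gro IsLat)
open PST

section

variable {α β μ : Type} [Fintype α] [Fintype β] [Fintype μ]
  [DecidableEq α] [DecidableEq β] [DecidableEq μ]

private lemma nq_nonneg {ι : Type} [Fintype ι] (x : ι → ℂ) : 0 ≤ nq x :=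
  Finset.sum_nonneg fun _ _ => sq_nonneg _

omit [DecidableEq α] [DecidableEq β] [DecidableEq μ] in
private lemma nq_emb {ρ : ℝ} {w : α × β → ℂ} (hw : w ∈ OmC α β ρ) (ξ : β × μ → ℂ) :
    nq (emb w ξ) ≤ (1 + ρ ^ 2) * nq ξ := by
  unfold nq
  rw [Fintype.sum_prod_type (f := fun p : Ix α β μ => ‖emb w ξ p‖ ^ 2), Fintype.sum_sum_type,
    Fintype.sum_prod_type (f := fun p : β × μ => ‖ξ p‖ ^ 2)]
  have h1 : ∀ k : μ, ∑ i, ‖∑ j, w (i, j) * conj (ξ (j, k))‖ ^ 2 ≤
      ρ ^ 2 * ∑ j, ‖ξ (j, k)‖ ^ 2 := by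
    intro k
    have h2 := hw fun j => conj (ξ (j, k))
    simp only [Complex.norm_conj] at h2
    exact h2
  have h3 : ∑ i, ∑ k, ‖emb w ξ (Sum.inl i, k)‖ ^ 2 ≤ ρ ^ 2 * ∑ j, ∑ k, ‖ξ (j, k)‖ ^ 2 := by
    rw [Finset.sum_comm, Finset.sum_comm (f := fun j k => ‖ξ (j, k)‖ ^ 2), Finset.mul_sum]
    refine Finset.sum_le_sum fun k _ => ?_
    exact h1 k
  have h4 : ∑ j, ∑ k, ‖emb w ξ (Sum.inr j, k)‖ ^ 2 = ∑ j, ∑ k, ‖ξ (j, k)‖ ^ 2 := rfl
  rw [h4]
  linarith

private lemma scal (c : ℝ) (hc : 0 < c) (a : ℝ) (κ : Type) [Fintype κ] :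
    ∫ ξ : κ → ℂ, Real.exp (-(a * c * ∑ p, ‖ξ p‖ ^ 2)) =
      (Real.sqrt c ^ Module.finrank ℝ (κ → ℂ))⁻¹ * ∫ ξ : κ → ℂ, Real.exp (-(a * ∑ p, ‖ξ p‖ ^ 2)) := by
  have h := MeasureTheory.Measure.integral_comp_smul (MeasureTheory.volume : MeasureTheory.Measure (κ → ℂ))
    (fun ξ : κ → ℂ => Real.exp (-(a * ∑ p, ‖ξ p‖ ^ 2))) (Real.sqrt c)
  rw [abs_of_nonneg (inv_nonneg.2 (pow_nonneg (Real.sqrt_nonneg _) _)), smul_eq_mul] at h
  rw [← h]
  refine MeasureTheory.integral_congr_ae (Filter.Eventually.of_forall fun ξ => ?_)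
  simp only [Pi.smul_apply]
  congr 2
  rw [mul_assoc]
  congr 1
  rw [Finset.mul_sum]
  refine Finset.sum_congr rfl fun p _ => ?_
  rw [norm_smul, mul_pow, Real.norm_of_nonneg (Real.sqrt_nonneg _), Real.sq_sqrt hc.le]

theorem thm_Grw (h1 : St_GrF) (h2 : St_Gau) : St_Grw := by
  intro α β μ _ _ _ _ _ _ L χ θ hL hθ
  obtain ⟨C₀, hC₀, hF⟩ := h1 (Ix α β μ) L χ θ hL hθ
  obtain ⟨g1, -, g3, -⟩ := h2 (β × μ)
  set D := Module.finrank ℝ (β × μ → ℂ) with hD
  set I : ℝ := ∫ ξ : β × μ → ℂ, Real.exp (-(Real.pi / 4 * ∑ p, ‖ξ p‖ ^ 2)) with hI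
  have hI0 : 0 ≤ I := MeasureTheory.integral_nonneg fun _ => (Real.exp_pos _).le
  refine ⟨4 * C₀ * I + 1, D + 1, by positivity, fun ρ hρ0 hρ1 w hw x => ?_⟩
  have hc : 0 < 1 - ρ := by linarith
  have hc1 : 1 - ρ ≤ 1 := by linarith
  -- the key estimate
  have key : ∀ G : (Ix α β μ → ℂ) → ℂ,
      (∀ v, ‖G v‖ ≤ C₀ * (1 + Real.sqrt (nq v)) * Real.exp (Real.pi / 2 * nq v)) →
      ‖ell w G‖ * (1 - ρ) ^ (D + 1) ≤ 4 * C₀ * I + 1 := by
    intro G hG
    have hb : ∀ ξ : β × μ → ℂ, ‖G (emb w ξ) * gw ξ‖ ≤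
        4 * C₀ / (1 - ρ) * Real.exp (-(Real.pi / 4 * (1 - ρ) * ∑ p, ‖ξ p‖ ^ 2)) := by
      intro ξ
      set q := ∑ p, ‖ξ p‖ ^ 2 with hq
      have hq0 : 0 ≤ q := nq_nonneg ξ
      have hne : nq (emb w ξ) ≤ (1 + ρ ^ 2) * q := nq_emb hw ξ
      have hρ2 : ρ ^ 2 ≤ ρ := by nlinarith
      have hne2 : nq (emb w ξ) ≤ 2 * q := hne.trans (by nlinarith)
      have hs : Real.sqrt (nq (emb w ξ)) ≤ 1 + q := by
        rw [Real.sqrt_le_left (by linarith)]
        nlinarith [sq_nonneg q]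
      rw [norm_mul, g3]
      have e1 : ‖G (emb w ξ)‖ ≤ C₀ * (2 + q) * Real.exp (Real.pi / 2 * ((1 + ρ ^ 2) * q)) := by
        refine (hG _).trans ?_
        have e2 : 1 + Real.sqrt (nq (emb w ξ)) ≤ 2 + q := by linarith
        have hpi := Real.pi_pos
        gcongr
      have e3 : Real.pi / 2 * ((1 + ρ ^ 2) * q) + -(Real.pi * q) ≤
          -(Real.pi / 4 * (1 - ρ) * q) + -(Real.pi / 4 * (1 - ρ) * q) := by
        have hpi := Real.pi_pos
        have : 0 ≤ Real.pi / 2 * q * (ρ - ρ ^ 2) := by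
          have : 0 ≤ ρ - ρ ^ 2 := by linarith
          positivity
        nlinarith
      have e4 : (2 + q) * Real.exp (-(Real.pi / 4 * (1 - ρ) * q)) ≤ 4 / (1 - ρ) := by
        have hpi := Real.pi_gt_three
        set u := Real.pi / 4 * (1 - ρ) * q with hu
        have hu0 : 0 ≤ u := by positivity
        have e5 : u * Real.exp (-u) ≤ 1 := by
          have h6 := Real.add_one_le_exp u
          have h7 : u * Real.exp (-u) ≤ Real.exp u * Real.exp (-u) := by
            have := Real.exp_pos (-u)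
            gcongr
            linarith
          rw [← Real.exp_add, add_neg_cancel, Real.exp_zero] at h7
          exact h7
        have e6 : Real.exp (-u) ≤ 1 := Real.exp_le_one_iff.2 (by linarith)
        rw [le_div_iff₀ hc]
        have e7 : q * (1 - ρ) * Real.exp (-u) ≤ 2 := by
          have e8 : q * (1 - ρ) ≤ 2 * u := by
            rw [hu]
            have : 0 ≤ q * (1 - ρ) := by positivity
            nlinarith
          calc q * (1 - ρ) * Real.exp (-u) ≤ 2 * u * Real.exp (-u) := by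
                have := Real.exp_pos (-u)
                gcongr
            _ = 2 * (u * Real.exp (-u)) := by ring
            _ ≤ 2 := by linarith
        have e9 : 2 * Real.exp (-u) * (1 - ρ) ≤ 2 := by
          have := Real.exp_pos (-u)
          nlinarith
        calc (2 + q) * Real.exp (-u) * (1 - ρ) = 2 * Real.exp (-u) * (1 - ρ) +
              q * (1 - ρ) * Real.exp (-u) := by ring
          _ ≤ 4 := by linarith
      calc ‖G (emb w ξ)‖ * Real.exp (-(Real.pi * q))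
          ≤ C₀ * (2 + q) * Real.exp (Real.pi / 2 * ((1 + ρ ^ 2) * q)) *
              Real.exp (-(Real.pi * q)) := by
            have := Real.exp_pos (-(Real.pi * q))
            gcongr
        _ = C₀ * (2 + q) * Real.exp (Real.pi / 2 * ((1 + ρ ^ 2) * q) + -(Real.pi * q)) := by
            rw [Real.exp_add]
            ring
        _ ≤ C₀ * (2 + q) * Real.exp (-(Real.pi / 4 * (1 - ρ) * q) +
              -(Real.pi / 4 * (1 - ρ) * q)) := by
            have := Real.exp_le_exp.2 e3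
            gcongr
        _ = C₀ * ((2 + q) * Real.exp (-(Real.pi / 4 * (1 - ρ) * q))) *
              Real.exp (-(Real.pi / 4 * (1 - ρ) * q)) := by
            rw [Real.exp_add]
            ring
        _ ≤ C₀ * (4 / (1 - ρ)) * Real.exp (-(Real.pi / 4 * (1 - ρ) * q)) := by
            gcongr
        _ = _ := by ring
    have hint : MeasureTheory.Integrable fun ξ : β × μ → ℂ =>
        4 * C₀ / (1 - ρ) * Real.exp (-(Real.pi / 4 * (1 - ρ) * ∑ p, ‖ξ p‖ ^ 2)) :=
      (g1 (Real.pi / 4 * (1 - ρ)) (by have := Real.pi_pos; positivity)).const_mul _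
    have h5 : ‖ell w G‖ ≤ 4 * C₀ / (1 - ρ) * ((Real.sqrt (1 - ρ) ^ D)⁻¹ * I) := by
      have h6 := MeasureTheory.norm_integral_le_of_norm_le hint (Filter.Eventually.of_forall hb)
      rw [MeasureTheory.integral_const_mul, scal (1 - ρ) hc] at h6
      exact h6
    have h7 : (1 - ρ) ^ D ≤ Real.sqrt (1 - ρ) ^ D := by
      refine pow_le_pow_left₀ hc.le ?_ _
      exact Real.le_sqrt_of_sq_le (by nlinarith)
    have h8 : 0 < Real.sqrt (1 - ρ) ^ D := pow_pos (Real.sqrt_pos.2 hc) _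
    calc ‖ell w G‖ * (1 - ρ) ^ (D + 1)
        ≤ 4 * C₀ / (1 - ρ) * ((Real.sqrt (1 - ρ) ^ D)⁻¹ * I) * (1 - ρ) ^ (D + 1) := by
          gcongr
      _ = 4 * C₀ * I * ((1 - ρ) ^ D * (Real.sqrt (1 - ρ) ^ D)⁻¹) := by
          rw [pow_succ]
          field_simp
      _ ≤ 4 * C₀ * I * 1 := by
          gcongr
          rw [← div_eq_mul_inv, div_le_one h8]
          exact h7
      _ ≤ 4 * C₀ * I + 1 := by linarith
  refine ⟨key _ fun v => ?_, fun p => key _ fun v => (hF x v).2 p⟩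
  refine ((hF x v).1).trans ?_
  have h9 := Real.sqrt_nonneg (nq v)
  have h10 := Real.exp_pos (Real.pi / 2 * nq v)
  have h11 : C₀ ≤ C₀ * (1 + Real.sqrt (nq v)) := by nlinarith
  gcongr

end

end DWC
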