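import Pool.Agent.DWC.StG
import Mathlib.Analysis.Complex.PhragmenLindelof

set_option autoImplicit false

/-!
# DWC [PLh]
-/

namespace DWC

open Complex Set Filter Asymptotics

theorem thm_PLh : St_PLh := by
  intro h A hd hc hB hA t ht
  obtain ⟨B, hB⟩ := hB
  -- f z = h (I * z) on the right half plane: im (I z) = re z
  set f : ℂ → ℂ := fun z => h (I * z) with hf
  have him : ∀ z : ℂ, (I * z).im = z.re := fun z => by simp
  have hdf : DiffContOnCl ℂ f {z | 0 < z.re} := by
    refine ⟨?_, ?_⟩
    · refine hd.comp (by fun_prop) ?_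
      intro z hz
      show 0 < (I * z).im
      rw [him]
      exact hz
    · rw [closure_setOfPred_lt_re]
      refine hc.comp (by fun_prop) ?_
      intro z hz
      show 0 ≤ (I * z).im
      rw [him]
      exact hz
  have hbd : ∀ z : ℂ, 0 ≤ z.re → ‖f z‖ ≤ B := fun z hz => hB _ (by rw [him]; exact hz)
  have key := PhragmenLindelof.right_half_plane_of_bounded_on_real (f := f) (C := A) hdf
    ⟨1, by norm_num, 0, ?_⟩ ?_ ?_ (z := -I * t) ?_
  · have h1 : I * (-I * t) = t := by
      rw [← mul_assoc, mul_neg, I_mul_I, neg_neg, one_mul]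
    simp only [hf] at key
    rw [h1] at key
    exact key
  · refine IsBigO.of_bound B ?_
    refine eventually_inf_principal.mpr (Eventually.of_forall fun z hz => ?_)
    simp only [Set.mem_ofPred_eq] at hz
    simpa using hbd z hz.le
  · refine ⟨B, ?_⟩
    simp only [eventually_map]
    filter_upwards [eventually_ge_atTop 0] with x hx
    exact hbd x (by simpa using hx)
  · intro x
    have h1 : I * (x * I) = ((-x : ℝ) : ℂ) := by
      push_cast
      rw [mul_comm (x : ℂ) I, ← mul_assoc, I_mul_I]
      ring
    simp only [hf, h1]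
    exact hA _
  · simpa using ht

end DWC
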