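import Pool.Agent.DWC.StG
import Pool.Agent.GAM.Sieg

/-!
# DWC: the principle of Siegel, from an estimate near a compact set
-/

set_option autoImplicit false

open Metric Filter Topology

namespace DWC

open GAM
open PST
open Pool.Agent.Helper8 (dds dds_sum dds_const_mul)

/-- Vanishing principle. -/
private theorem SieA_van {ι : Type} [Fintype ι] [DecidableEq ι] (Ω K : Set (ι → ℂ)) (C : ℝ)
    (U : (ι → ℂ) → Set (ι → ℂ)) (hΩ : IsOpen Ω) (hconv : Convex ℝ Ω) (hK : IsCompact K)
    (hKne : K.Nonempty) (hKΩ : K ⊆ Ω) (hU : ∀ p ∈ K, U p ∈ 𝓝 p) :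
    ∃ (t : Finset (ι → ℂ)) (c : ℕ), (t : Set (ι → ℂ)) ⊆ K ∧
      ∀ (m k : ℕ) (G : (ι → ℂ) → ℂ), DifferentiableOn ℂ G Ω →
        (∀ p ∈ K, ∀ B : ℝ, (∀ z ∈ K, ‖G z‖ ≤ B) → ∀ w ∈ U p, ‖G w‖ ≤ C ^ m * B) → c * m < k →
        (∀ p ∈ t, ∀ μ : ι → Fin k, dds ((word μ).map ev) G p = 0) → ∀ z ∈ Ω, G z = 0 := by
  classical
  have hex : ∀ p ∈ K, ∃ R : ℝ, 0 < R ∧ closedBall p (Real.exp 1 * R) ⊆ Ω ∩ U p := by
    intro p hp
    obtain ⟨R, hR, hR2⟩ := nhds_basis_closedBall.mem_iff.1
      (Filter.inter_mem (hΩ.mem_nhds (hKΩ hp)) (hU p hp))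
    refine ⟨R / Real.exp 1, by positivity, ?_⟩
    rwa [mul_div_cancel₀ _ (Real.exp_pos 1).ne']
  choose! R hR0 hR using hex
  obtain ⟨t, htK, htc⟩ := hK.elim_nhds_subcover' (fun p _ => ball p (R p))
    (fun p hp => ball_mem_nhds p (hR0 p hp)) |> fun ⟨t, ht⟩ =>
      (⟨t.image (fun p : K => (p : ι → ℂ)), by
        intro p hp
        rw [Finset.coe_image] at hp
        obtain ⟨q, _, rfl⟩ := hp
        exact q.2, by
        intro z hz
        obtain ⟨p, hp, hzp⟩ := Set.mem_iUnion₂.1 (ht hz)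
        exact Set.mem_iUnion₂.2 ⟨p, Finset.mem_image_of_mem _ hp, hzp⟩⟩ :
        ∃ t : Finset (ι → ℂ), (t : Set (ι → ℂ)) ⊆ K ∧ K ⊆ ⋃ p ∈ t, ball p (R p))
  set C' : ℝ := max |C| 1 with hC'
  have hC'1 : 1 ≤ C' := le_max_right _ _
  refine ⟨t, ⌈Real.log C'⌉₊, htK, fun m k G hG hGN hk hvan => ?_⟩
  obtain ⟨zs, hzs, hmax⟩ := hK.exists_isMaxOn hKne (hG.continuousOn.mono hKΩ).norm
  set M : ℝ := ‖G zs‖ with hM
  have hM0 : 0 ≤ M := norm_nonneg _
  have hall : ∀ p ∈ K, ∀ w ∈ U p, ‖G w‖ ≤ C ^ m * M := fun p hp =>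
    hGN p hp M fun z hz => hmax hz
  obtain ⟨p, hp, hzp⟩ := Set.mem_iUnion₂.1 (htc hzs)
  have hpΩ : p ∈ Ω := hKΩ (htK hp)
  have hdist : ‖zs - p‖ < R p := by
    rw [mem_ball, dist_eq_norm] at hzp
    exact hzp
  have hin : ∀ s : ℂ, ‖s‖ ≤ Real.exp 1 →
      p + s • (zs - p) ∈ closedBall p (Real.exp 1 * R p) := by
    intro s hs
    rw [mem_closedBall, dist_eq_norm, add_sub_cancel_left, norm_smul]
    have := hdist.le
    gcongr
  have hsch := schwarz_line hΩ hG (p := p) (h := zs - p) (ρ := Real.exp 1)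
    (B := C ^ m * M) (Real.one_le_exp zero_le_one)
    (fun s hs => (hR p (htK hp) (hin s hs)).1) (fun s hs =>
      hall p (htK hp) _ (hR p (htK hp) (hin s hs)).2)
    (fun i hi => line_zero hΩ hG hpΩ (hvan p hp) (zs - p) i hi)
  rw [add_sub_cancel, ← Real.exp_nat_mul, mul_one] at hsch
  have hCm : C ^ m ≤ Real.exp ((⌈Real.log C'⌉₊ * m : ℕ) : ℝ) := by
    calc C ^ m ≤ |C ^ m| := le_abs_self _
      _ = |C| ^ m := abs_pow _ _
      _ ≤ C' ^ m := by gcongr; exact le_max_left _ _
      _ ≤ (Real.exp (⌈Real.log C'⌉₊ : ℝ)) ^ m := by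
        gcongr
        rw [← Real.log_le_iff_le_exp (by linarith)]
        exact Nat.le_ceil _
      _ = Real.exp ((⌈Real.log C'⌉₊ * m : ℕ) : ℝ) := by
        rw [← Real.exp_nat_mul]
        push_cast
        ring_nf
  have hlt : Real.exp ((⌈Real.log C'⌉₊ * m : ℕ) : ℝ) < Real.exp (k : ℝ) := by
    apply Real.exp_lt_exp.2
    exact_mod_cast hk
  have hMz : M = 0 := by
    by_contra hne
    have hpos : 0 < M := lt_of_le_of_ne hM0 (Ne.symm hne)
    have h1 : C ^ m * M < M * Real.exp (k : ℝ) := by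
      rw [mul_comm]
      exact mul_lt_mul_of_pos_left (lt_of_le_of_lt hCm hlt) hpos
    rw [← hM] at hsch
    linarith
  have hzero : ∀ w ∈ U p, G w = 0 := by
    intro w hw
    have h1 := hall p (htK hp) w hw
    rw [hMz, mul_zero] at h1
    exact norm_le_zero_iff.1 h1
  have hGa := analyticOnNhd_of_differentiableOn hΩ hG
  intro z hz
  have hev : G =ᶠ[𝓝 p] 0 := by
    filter_upwards [hU p (htK hp)] with w hw
    exact hzero w hw
  exact hGa.eqOn_zero_of_preconnected_of_eventuallyEq_zero hconv.isPreconnected hpΩ hev hz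

theorem thm_SieA : St_SieA := by
  classical
  intro ι κ _ _ hcard Ω K C f hΩ hconv hK hKne hKΩ hf htr
  choose! U hU hUb using htr
  obtain ⟨t, c, htK, hvp⟩ := SieA_van Ω K C U hΩ hconv hK hKne hKΩ hU
  set n := Fintype.card ι with hn
  have hκ : 0 < Fintype.card κ := by omega
  obtain ⟨k0⟩ : Nonempty κ := Fintype.card_pos_iff.1 hκ
  have hκ' : Fintype.card {k // k ≠ k0} = n + 1 := by
    have h1 : Fintype.card {k // k ≠ k0} = Fintype.card κ - 1 := by
      rw [Fintype.card_subtype_compl, Fintype.card_subtype_eq]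
    omega
  set A : ℕ := (c + 1) * (n + 1) with hA
  set s : ℕ := t.card * A ^ n + 1 with hs
  set m : ℕ := (n + 1) * s with hm
  set k : ℕ := c * m + 1 with hk
  have hs1 : 1 ≤ s := by omega
  have hm1 : 1 ≤ m := by
    rw [hm]
    exact Nat.mul_pos (Nat.succ_pos n) hs1
  have hkA : k ≤ A * s := by
    have : A * s = c * m + m := by
      rw [hA, hm]
      ring
    omega
  have hcount : t.card * k ^ n < (s + 1) ^ (n + 1) := by
    calc t.card * k ^ n ≤ t.card * (A * s) ^ n := by gcongr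
      _ = (t.card * A ^ n) * s ^ n := by rw [mul_pow]; ring
      _ ≤ s * s ^ n := by
        apply Nat.mul_le_mul_right
        omega
      _ = s ^ (n + 1) := by ring
      _ < (s + 1) ^ (n + 1) := Nat.pow_lt_pow_left (Nat.lt_succ_self s) (Nat.succ_ne_zero n)
  -- monomials
  set G : ({k // k ≠ k0} → Fin (s + 1)) → (ι → ℂ) → ℂ :=
    fun β z => ∏ k, f k z ^ (expo k0 m s β k) with hG
  have hGd : ∀ β, DifferentiableOn ℂ (G β) Ω := by
    intro β
    have h1 : ∀ S : Finset κ,
        DifferentiableOn ℂ (fun z : ι → ℂ => ∏ k ∈ S, f k z ^ (expo k0 m s β k)) Ω := by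
      intro S
      induction S using Finset.induction_on with
      | empty => simp
      | insert a S ha ih =>
        simp only [Finset.prod_insert ha]
        exact ((hf a).fun_pow _).fun_mul ih
    exact h1 Finset.univ
  have hGa : ∀ β, ∀ p ∈ Ω, AnalyticAt ℂ (G β) p := fun β p hp =>
    analyticOnNhd_of_differentiableOn hΩ (hGd β) p hp
  let T : (({k // k ≠ k0} → Fin (s + 1)) → ℂ) →ₗ[ℂ] ((t × (ι → Fin k)) → ℂ) :=
    { toFun := fun x q => ∑ β, x β * dds ((word q.2).map ev) (G β) q.1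
      map_add' := by
        intro x y
        funext q
        simp only [Pi.add_apply, add_mul, Finset.sum_add_distrib]
      map_smul' := by
        intro a x
        funext q
        simp only [Pi.smul_apply, smul_eq_mul, RingHom.id_apply, Finset.mul_sum, mul_assoc] }
  have hker : LinearMap.ker T ≠ ⊥ := by
    apply LinearMap.ker_ne_bot_of_finrank_lt
    rw [Module.finrank_fintype_fun_eq_card, Module.finrank_fintype_fun_eq_card]
    simp only [Fintype.card_prod, Fintype.card_coe, Fintype.card_fun, Fintype.card_fin]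
    rw [hκ']
    exact hcount
  obtain ⟨x, hx, hx0⟩ := (Submodule.ne_bot_iff _).1 hker
  set P : MvPolynomial κ ℂ := ∑ β, MvPolynomial.monomial (expo k0 m s β) (x β) with hP
  have hPe : ∀ z, MvPolynomial.eval (fun i => f i z) P = ∑ β, x β * G β z := by
    intro z
    rw [hP, map_sum]
    refine Finset.sum_congr rfl fun β _ => ?_
    rw [MvPolynomial.eval_monomial]
    congr 1
    rw [Finsupp.prod_fintype]
    intro i
    exact pow_zero _
  refine ⟨m, P, ?_, ?_, ?_⟩
  · intro h0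
    apply hx0
    funext β
    have h1 : P.coeff (expo k0 m s β) = x β := by
      rw [hP, MvPolynomial.coeff_sum, Finset.sum_eq_single β]
      · rw [MvPolynomial.coeff_monomial, if_pos rfl]
      · intro β' _ hne
        rw [MvPolynomial.coeff_monomial, if_neg]
        exact fun h => hne (expo_inj k0 m s h)
      · intro h
        exact absurd (Finset.mem_univ _) h
    rw [← h1, h0]
    simp
  · rw [hP]
    apply MvPolynomial.IsHomogeneous.sum
    intro β _
    apply MvPolynomial.isHomogeneous_monomial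
    rw [Finsupp.degree_eq_sum]
    exact expo_sum k0 β (by rw [hκ'])
  · set F : (ι → ℂ) → ℂ := ∑ β, fun z => x β * G β z with hF
    have hFe : ∀ z, F z = MvPolynomial.eval (fun i => f i z) P := by
      intro z
      rw [hPe, hF, Finset.sum_apply]
    have hFd : DifferentiableOn ℂ F Ω := by
      have h1 : DifferentiableOn ℂ (fun z => ∑ β, x β * G β z) Ω :=
        DifferentiableOn.fun_sum fun β _ => (hGd β).const_mul _
      refine h1.congr fun z _ => ?_
      rw [hF, Finset.sum_apply]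
    have hPh : P.IsHomogeneous m := by
      rw [hP]
      apply MvPolynomial.IsHomogeneous.sum
      intro β _
      apply MvPolynomial.isHomogeneous_monomial
      rw [Finsupp.degree_eq_sum]
      exact expo_sum k0 β (by rw [hκ'])
    have hFt : ∀ p ∈ K, ∀ B : ℝ, (∀ z ∈ K, ‖F z‖ ≤ B) → ∀ w ∈ U p, ‖F w‖ ≤ C ^ m * B := by
      intro p hp B hB w hw
      rw [hFe]
      exact hUb p hp m P hPh B (fun z hz => by rw [← hFe]; exact hB z hz) w hw
    have hzero := hvp m k F hFd hFt (Nat.lt_succ_self _) (by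
      intro p hp μ
      have hpΩ : p ∈ Ω := hKΩ (htK hp)
      rw [hF, dds_sum Finset.univ (fun β z => x β * G β z) _ fun β _ =>
        analyticAt_const.mul (hGa β p hpΩ)]
      have h1 := congrFun (LinearMap.mem_ker.1 hx) (⟨p, hp⟩, μ)
      have h2 : ∑ β, x β * dds ((word μ).map ev) (G β) p = 0 := h1
      rw [← h2]
      refine Finset.sum_congr rfl fun β _ => ?_
      exact dds_const_mul _ _ (hGa β p hpΩ))
    intro z hz
    rw [← hFe]
    exact hzero z hz

end DWC
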