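import Pool.Agent.DWC.StK
import Pool.Agent.PST.AnR

/-!
# DWC: the analytic representation of `J`
-/

set_option autoImplicit false

namespace DWC

open scoped ComplexConjugate
open Pool.Agent.GPC (AbVar hermForm bilForm)
open Module
open PST
open Pool.Agent.Helper7 (pData isEnd_of_isDRB isDRB_of_isEnd polForm_period polForm_rat)
open Pool.Agent.Helper71.AF (DD)

theorem thm_AnK : St_AnK := by
  intro X d J hJ
  obtain ⟨Jz, hJz⟩ := AnR_ex J hJ.endo
  refine ⟨AnR_W X, Jz, ?_, AnR_W_iff X, hJz⟩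
  refine ⟨hJ.pos, X.appellHumbert.herm, X.appellHumbert.pos, AnR_alg hJ.endo hJz, ?_, ?_, ?_,
    AnR_basis X, ?_⟩
  · -- J2
    have h1 : AnR_Rep X (J * J) (Jz * Jz) := by
      intro v
      rw [Module.End.mul_apply, hJz, hJz, Matrix.mulVec_mulVec]
    have h2 : AnR_Rep X (J * J) (-((d : ℂ) • (1 : Matrix (Fin X.g) (Fin X.g) ℂ))) := by
      intro v
      rw [Module.End.mul_apply, hJ.sq, map_smul, Matrix.neg_mulVec, Matrix.smul_mulVec,
        Matrix.one_mulVec, neg_smul]
    exact AnR_uniq h1 h2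
  · -- Jadj
    have hneg : X.IsEnd ((-J : Module.End ℂ X.H1)) := by
      apply isEnd_of_isDRB
      exact (DD (pData X)).neg_mem (isDRB_of_isEnd X J hJ.endo)
    have h1 : AnR_Rep X (-J) (-Jz) := by
      intro v
      rw [LinearMap.neg_apply, map_neg, hJz, Matrix.neg_mulVec]
    have h2 := (AnR_adj hJ.endo hneg hJz h1).1 (fun u v => by
      rw [hJ.adj, LinearMap.neg_apply]
      show - X.polForm u (J v) = X.polForm u (-(J v))
      rw [map_neg])
    intro z w
    rw [h2, Matrix.neg_mulVec]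
    have h3 : -(Jz.mulVec w) = (-1 : ℂ) • Jz.mulVec w := by rw [neg_smul, one_smul]
    rw [h3, Pool.Agent.Helper7.hermForm_smul_right]
    simp
  · -- stab
    intro w hw
    rw [AnR_memW] at hw ⊢
    rw [← AnR_per hJ.endo hJz]
    exact hJ.endo.betti _ hw
  · -- rat
    intro w hw w' hw'
    obtain ⟨q, hq⟩ := polForm_rat X (X.period w) (X.period w') hw hw'
    rw [polForm_period] at hq
    refine ⟨q, ?_⟩
    have h1 := mul_left_cancel₀ Complex.two_pi_I_ne_zero hq
    exact_mod_cast h1

end DWC
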