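import Pool.Agent.DWC.StK
import Pool.Agent.Helper7.AFT.Bal

/-!
# DWC: [BalK] the signature of an imaginary quadratic multiplication
-/

set_option autoImplicit false

namespace DWC

open scoped ComplexConjugate
open Module PST Matrix
open Pool.Agent.GPC (AbVar hermForm bilForm)

private lemma BalK_zd_sq (d : ℚ) (hd : 0 < d) : zd d ^ 2 = -(d : ℂ) := by
  unfold zd
  rw [mul_pow, Complex.I_sq, ← Complex.ofReal_pow, Real.sq_sqrt (by exact_mod_cast hd.le)]
  push_cast
  ring

private lemma BalK_conj_zd (d : ℚ) : conj (zd d) = -zd d := by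
  unfold zd
  rw [map_mul, Complex.conj_ofReal, Complex.conj_I]
  ring

section aux

variable {α β : Type} [Fintype α] [Fintype β] [DecidableEq α] [DecidableEq β]

/-- the eigenvalues -/
private noncomputable def BalK_c (d : ℚ) (p : Ix α β Unit) : ℂ :=
  Sum.elim (fun _ => zd d) (fun _ => -zd d) p.1

private lemma BalK_rgt (d : ℚ) (x : Ix α β Unit → ℂ) (p : Ix α β Unit) :
    (x ᵥ* rgt α β (zd d • (1 : Matrix Unit Unit ℂ))) p = BalK_c d p * x p := by
  unfold Matrix.vecMul dotProduct
  rw [Finset.sum_eq_single p]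
  · obtain ⟨s, u⟩ := p
    rcases s with i | j
    · simp [rgt, BalK_c, mul_comm]
    · simp [rgt, BalK_c, mul_comm, BalK_conj_zd]
  · intro q _ hq
    have h1 : q.1 ≠ p.1 := fun h => hq (Prod.ext h (Subsingleton.elim _ _))
    simp [rgt, h1]
  · intro h
    exact absurd (Finset.mem_univ _) h

/-- extension by zero -/
private def BalK_ext (x : β → ℂ) : Ix α β Unit → ℂ := fun p => Sum.elim (fun _ => 0) x p.1

/-- the map from the coordinates of the second kind to `F^0` -/
private noncomputable def BalK_F {g : ℕ} (T : Matrix (Ix α β Unit) (Fin g) ℂ) :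
    (β → ℂ) →ₗ[ℂ] (Fin g ⊕ Fin g → ℂ) where
  toFun x := Sum.elim (fun _ => 0) ((BalK_ext x : Ix α β Unit → ℂ) ᵥ* T)
  map_add' x y := by
    have h1 : (BalK_ext (x + y) : Ix α β Unit → ℂ) = BalK_ext x + BalK_ext y := by
      funext p
      obtain ⟨s, u⟩ := p
      rcases s with i | j <;> simp [BalK_ext]
    funext s
    rcases s with a | a
    · simp
    · simp only [Sum.elim_inr, Pi.add_apply]
      rw [h1, Matrix.add_vecMul, Pi.add_apply]
  map_smul' c x := by
    have h1 : (BalK_ext (c • x) : Ix α β Unit → ℂ) = c • BalK_ext x := by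
      funext p
      obtain ⟨s, u⟩ := p
      rcases s with i | j <;> simp [BalK_ext]
    funext s
    rcases s with a | a
    · simp
    · simp only [Sum.elim_inr, Pi.smul_apply, RingHom.id_apply]
      rw [h1, Matrix.smul_vecMul, Pi.smul_apply]

private lemma BalK_F_inj {g : ℕ} (T : Matrix (Ix α β Unit) (Fin g) ℂ)
    (S : Matrix (Fin g) (Ix α β Unit) ℂ) (ts : T * S = 1) : Function.Injective (BalK_F T) := by
  rw [← LinearMap.ker_eq_bot, LinearMap.ker_eq_bot']
  intro x hx
  have h1 : (BalK_ext x : Ix α β Unit → ℂ) ᵥ* T = 0 := by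
    funext a
    exact congrFun hx (.inr a)
  have h2 : (BalK_ext x : Ix α β Unit → ℂ) = 0 := by
    rw [← Matrix.vecMul_one (BalK_ext x : Ix α β Unit → ℂ), ← ts, ← Matrix.vecMul_vecMul, h1,
      Matrix.zero_vecMul]
  funext j
  exact congrFun h2 (.inr j, ())

end aux

private lemma BalK_pol_fil (X : AbVar) (u v : X.H1) (hu : X.IsFil u) :
    X.pol u v = -((fun a => u (.inr a)) ⬝ᵥ X.zz v) := by
  unfold AbVar.pol dotProduct
  rw [← Finset.sum_neg_distrib]
  refine Finset.sum_congr rfl fun a _ => ?_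
  rw [hu a]
  simp only [AbVar.zz_apply]
  ring

private lemma BalK_finrank (X : AbVar) (d : ℚ) (J : Module.End ℂ X.H1)
    (α β : Type) [Fintype α] [Fintype β] [DecidableEq α] [DecidableEq β]
    (T : Matrix (Ix α β Unit) (Fin X.g) ℂ) (S : Matrix (Fin X.g) (Ix α β Unit) ℂ)
    (hd : 0 < d) (hE : X.IsEnd J) (adj : ∀ u v, X.pol (J u) v = - X.pol u (J v))
    (ts : T * S = 1) (st : S * T = 1)
    (jj : ∀ v, T.mulVec (X.zz (J v)) =
      (rgt α β (zd d • (1 : Matrix Unit Unit ℂ))).mulVec (T.mulVec (X.zz v))) :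
    finrank ℂ (X.filEigen J (zd d)) = Fintype.card β := by
  have hl := hE.linear
  have hz0 : zd d ≠ 0 := Pool.Agent.Helper7.AFT.z_ne hd (BalK_zd_sq d hd)
  have hR : LinearMap.range (BalK_F T : (β → ℂ) →ₗ[ℂ] X.H1) = X.filEigen J (zd d) := by
    apply le_antisymm
    · rintro _ ⟨x, rfl⟩
      have hf : X.IsFil (BalK_F T x) := fun a => rfl
      rw [Pool.Agent.Helper7.AFT.mem_filEigen hl]
      refine ⟨?_, hf⟩
      rw [← sub_eq_zero]
      apply Pool.Agent.Helper7.polForm_nondeg X
      intro v
      rw [map_sub, LinearMap.sub_apply, map_smul, LinearMap.smul_apply, smul_eq_mul,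
        ← Pool.Agent.Helper7.pol_eq, ← Pool.Agent.Helper7.pol_eq, adj,
        BalK_pol_fil X _ _ hf, BalK_pol_fil X _ _ hf]
      have h1 : (fun a => BalK_F T x (.inr a)) = (BalK_ext x : Ix α β Unit → ℂ) ᵥ* T := rfl
      rw [h1, ← Matrix.dotProduct_mulVec, ← Matrix.dotProduct_mulVec, jj,
        Matrix.dotProduct_mulVec]
      have h2 : (BalK_ext x : Ix α β Unit → ℂ) ᵥ* rgt α β (zd d • (1 : Matrix Unit Unit ℂ)) =
          (-zd d) • BalK_ext x := by
        funext p
        rw [BalK_rgt]
        obtain ⟨s, u⟩ := p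
        rcases s with i | j <;> simp [BalK_ext, BalK_c]
      rw [h2, smul_dotProduct, smul_eq_mul]
      ring
    · intro v hv
      obtain ⟨hv1, hv2⟩ := (Pool.Agent.Helper7.AFT.mem_filEigen hl _ v).mp hv
      set y : Ix α β Unit → ℂ := (fun a => v (.inr a)) ᵥ* S with hy
      have hyT : y ᵥ* T = fun a => v (.inr a) := by
        rw [hy, Matrix.vecMul_vecMul, st, Matrix.vecMul_one]
      have hy0 : ∀ i, y (.inl i, ()) = 0 := by
        intro i
        set p : Ix α β Unit := (.inl i, ()) with hp
        set w : X.H1 := Sum.elim (S.mulVec (Pi.single p 1)) (fun _ => 0) with hw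
        have hzw : X.zz w = S.mulVec (Pi.single p 1) := rfl
        have hTw : T.mulVec (X.zz w) = Pi.single p 1 := by
          rw [hzw, Matrix.mulVec_mulVec, ts, Matrix.one_mulVec]
        have h1 := adj v w
        rw [BalK_pol_fil X _ _ hv2, hv1, BalK_pol_fil X (zd d • v) w (fun a => by
          rw [Pi.smul_apply, hv2 a, smul_zero])] at h1
        have h2 : (fun a => (zd d • v) (.inr a)) = zd d • (y ᵥ* T) := by
          rw [hyT]
          rfl
        rw [h2, ← hyT, smul_dotProduct, ← Matrix.dotProduct_mulVec y T (X.zz w),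
          ← Matrix.dotProduct_mulVec y T (X.zz (J w)), jj, hTw, Matrix.dotProduct_mulVec,
          dotProduct_single, dotProduct_single, BalK_rgt, hp, smul_eq_mul, mul_one,
          mul_one] at h1
        have h3 : BalK_c d ((.inl i, ()) : Ix α β Unit) = zd d := rfl
        rw [h3] at h1
        have h4 : (2 * zd d) * y (.inl i, ()) = 0 := by linear_combination -h1
        exact (mul_eq_zero.mp h4).resolve_left (mul_ne_zero two_ne_zero hz0)
      refine ⟨fun j => y (.inr j, ()), ?_⟩
      have h1 : (BalK_ext (fun j => y (.inr j, ())) : Ix α β Unit → ℂ) = y := by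
        funext p
        obtain ⟨s, u⟩ := p
        rcases s with i | j
        · exact (hy0 i).symm
        · rfl
      funext s
      rcases s with a | a
      · exact (hv2 a).symm
      · show ((BalK_ext (fun j => y (.inr j, ())) : Ix α β Unit → ℂ) ᵥ* T) a = v (.inr a)
        rw [h1, hyT]
  rw [← hR, LinearMap.finrank_range_of_inj (BalK_F_inj T S ts), finrank_fintype_fun_eq_card]

/-- [BalK] the signature -/
theorem thm_BalK : St_BalK := by
  intro X d J α β _ _ _ _ T S Tp Tm Ta g r q hg hJ hN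
  have hz := BalK_zd_sq d hJ.pos
  have hz0 : zd d ≠ 0 := Pool.Agent.Helper7.AFT.z_ne hJ.pos hz
  have h1 := BalK_finrank X d J α β T S hJ.pos hJ.endo hJ.adj hN.ts hN.st hN.jj
  have h2 := Pool.Agent.Helper7.AFT.finrank_add hJ.endo hJ.sq hz0 hz
  have h3 : Fintype.card α + Fintype.card β = 4 := by
    have h4 := (Matrix.toLin'OfInv hN.ts hN.st).finrank_eq
    rw [finrank_fintype_fun_eq_card, finrank_fintype_fun_eq_card, Fintype.card_fin, hg,
      Fintype.card_prod, Fintype.card_sum, Fintype.card_unit, mul_one] at h4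
    omega
  rw [h1] at h2
  have h2' := h2.trans hg
  constructor
  · intro hb
    have h5 := hb (zd d) hz
    rw [h1] at h5
    omega
  · intro hab z hzz
    have h6 : z = zd d ∨ z = -zd d := by
      rw [← hz] at hzz
      exact sq_eq_sq_iff_eq_or_eq_neg.mp hzz
    rcases h6 with rfl | rfl
    · rw [h1]
      omega
    · omega

end DWC
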