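import Pool.Agent.DWC.StK
import Pool.Agent.PST.NF4
import Pool.Agent.PST.UTr

/-!
# DWC: coordinates adapted to the eigenspaces of `J` [BasK]
-/

set_option autoImplicit false

namespace DWC

open scoped ComplexConjugate ComplexOrder MatrixOrder
open GAM (H)
open Pool.Agent.GPC (hermForm)
open Module
open PST
open Matrix

/-- independent rows of a square matrix -/
private theorem BasK_rows {g : ℕ} (e : Matrix (Fin g) (Fin g) ℂ) :
    ∃ (κ : Type) (_ : Fintype κ) (_ : DecidableEq κ) (a : κ → Fin g),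
      LinearIndependent ℂ (fun i => e (a i)) ∧
      ∀ z : Fin g → ℂ, (∀ i, (e *ᵥ z) (a i) = 0) → e *ᵥ z = 0 := by
  classical
  obtain ⟨κ, a, hinj, hspan, hli⟩ := exists_linearIndependent' ℂ (fun k : Fin g => e k)
  have hfin : Finite κ := Finite.of_injective a hinj
  refine ⟨κ, Fintype.ofFinite κ, Classical.decEq κ, a, hli, fun z hz => ?_⟩
  have h1 : ∀ v ∈ Submodule.span ℂ (Set.range fun k : Fin g => e k), v ⬝ᵥ z = 0 := by
    intro v hv
    rw [← hspan] at hv
    induction hv using Submodule.span_induction with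
    | mem x hx =>
      obtain ⟨i, rfl⟩ := hx
      exact hz i
    | zero => exact zero_dotProduct _
    | add x y _ _ hx hy => rw [add_dotProduct, hx, hy, add_zero]
    | smul c x _ hx => rw [smul_dotProduct, hx, smul_zero]
  ext k
  exact h1 (e k) (Submodule.subset_span ⟨k, rfl⟩)

/-- a square root -/
private theorem BasK_root {n : Type} [Fintype n] [DecidableEq n] (M : Matrix n n ℂ)
    (hM : M.PosDef) : ∃ B : Matrix n n ℂ, M = Bᴴ * B ∧ B.det ≠ 0 := by
  obtain ⟨B, hB⟩ := CStarAlgebra.nonneg_iff_eq_star_mul_self.mp hM.posSemidef.nonneg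
  rw [Matrix.star_eq_conjTranspose] at hB
  refine ⟨B, hB, fun h0 => ?_⟩
  have h1 : IsUnit M.det := (Matrix.isUnit_iff_isUnit_det M).1 hM.isUnit
  rw [hB, Matrix.det_mul, h0, mul_zero] at h1
  exact not_isUnit_zero h1

/-- the inverse of a matrix with independent rows and trivial kernel -/
private theorem BasK_inv {g : ℕ} {ι : Type} [Fintype ι] [DecidableEq ι]
    (A : Matrix ι (Fin g) ℂ) (h1 : LinearIndependent ℂ fun p => A p)
    (h2 : ∀ z, A *ᵥ z = 0 → z = 0) : ∃ S : Matrix (Fin g) ι ℂ, A * S = 1 ∧ S * A = 1 := by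
  have hinj : Function.Injective (Matrix.toLin' A) := by
    rw [injective_iff_map_eq_zero]
    intro z hz
    exact h2 z (by simpa using hz)
  have hd : finrank ℂ (Fin g → ℂ) = finrank ℂ (ι → ℂ) := by
    apply le_antisymm
    · exact LinearMap.finrank_le_finrank_of_injective hinj
    · rw [Module.finrank_fintype_fun_eq_card]
      exact h1.fintype_card_le_finrank
  obtain ⟨e, he⟩ : ∃ e : (Fin g → ℂ) ≃ₗ[ℂ] (ι → ℂ), ∀ x, e x = A *ᵥ x :=
    ⟨(Matrix.toLin' A).linearEquivOfInjective hinj hd, fun x => by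
      rw [LinearMap.linearEquivOfInjective_apply, Matrix.toLin'_apply]⟩
  have hA : A = LinearMap.toMatrix' e.toLinearMap := by
    apply (Matrix.toLin').injective
    rw [Matrix.toLin'_toMatrix']
    ext1 x
    ext1
    simp [he]
  refine ⟨LinearMap.toMatrix' e.symm.toLinearMap, ?_, ?_⟩
  · conv_lhs => rw [hA]
    rw [← LinearMap.toMatrix'_comp]
    have : e.toLinearMap ∘ₗ e.symm.toLinearMap = LinearMap.id := by
      ext1 x
      simp
    rw [this, LinearMap.toMatrix'_id]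
  · conv_lhs => rw [hA]
    rw [← LinearMap.toMatrix'_comp]
    have : e.symm.toLinearMap ∘ₗ e.toLinearMap = LinearMap.id := by
      ext1 x
      simp
    rw [this, LinearMap.toMatrix'_id]

/-- the form as a matrix -/
private theorem BasK_form {g : ℕ} (Hm : Matrix (Fin g) (Fin g) ℂ) (z w : Fin g → ℂ) :
    hermForm Hm z w = star w ⬝ᵥ (Hmᵀ *ᵥ z) := by
  unfold hermForm
  simp only [dotProduct, Matrix.mulVec, Matrix.transpose_apply, Finset.mul_sum, Pi.star_apply]
  rw [Finset.sum_comm]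
  refine Finset.sum_congr rfl fun a _ => Finset.sum_congr rfl fun b _ => ?_
  rw [← starRingEnd_apply]
  ring

private theorem BasK_H {ι : Type} [Fintype ι] (x y : ι → ℂ) : H x y = star y ⬝ᵥ x := by
  unfold H
  simp only [dotProduct, Pi.star_apply]
  refine Finset.sum_congr rfl fun a _ => ?_
  rw [← starRingEnd_apply]
  ring

/-- the right multiplication is diagonal -/
private noncomputable def BasK_dg (d : ℚ) {α β : Type} (p : Ix α β Unit) : ℂ :=
  Sum.elim (fun _ => zd d) (fun _ => conj (zd d)) p.1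

private theorem BasK_rgt {α β : Type} [Fintype α] [Fintype β] [DecidableEq α] [DecidableEq β]
    (d : ℚ) : rgt α β (zd d • (1 : Matrix Unit Unit ℂ)) = diagonal (BasK_dg d) := by
  ext p q
  obtain ⟨s, u⟩ := p
  obtain ⟨s', u'⟩ := q
  unfold rgt BasK_dg
  rw [Matrix.of_apply, diagonal_apply]
  by_cases h : s = s'
  · subst h
    cases s <;> simp
  · rw [if_neg h, if_neg (fun h' => h (by simpa using congrArg Prod.fst h'))]

private theorem BasK_mat {m n : Type} [Fintype n] [Fintype m] [DecidableEq n] [DecidableEq m]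
    (A B : Matrix m n ℂ) (h : ∀ (z : n → ℂ) (w : m → ℂ), star w ⬝ᵥ (A *ᵥ z) = star w ⬝ᵥ (B *ᵥ z)) :
    A = B := by
  ext i j
  have h1 := h (Pi.single j 1) (Pi.single i 1)
  have e : ∀ C : Matrix m n ℂ, star (Pi.single i (1 : ℂ) : m → ℂ) ⬝ᵥ (C *ᵥ Pi.single j 1) = C i j := by
    intro C
    simp
  rwa [e, e] at h1

theorem thm_BasK : St_BasK := by
  intro g d Hm W J hLJ
  obtain ⟨hz1, hz2, hz3, hz4⟩ := NF4_zd hLJ.pos
  have h2z : (2 : ℂ) * zd d ≠ 0 := mul_ne_zero two_ne_zero hz2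
  have halg2 : IsAlgebraic ℚ (1 / (2 * zd d)) := by
    rw [one_div]
    refine IsAlgebraic.inv (IsAlgebraic.mul ?_ hz4)
    exact isAlgebraic_algebraMap (R := ℚ) (A := ℂ) 2
  -- the idempotents
  obtain ⟨ep, hep⟩ : ∃ ep : Matrix (Fin g) (Fin g) ℂ,
      ep = (1 / (2 * zd d)) • (zd d • (1 : Matrix (Fin g) (Fin g) ℂ) + J) := ⟨_, rfl⟩
  obtain ⟨em, hem⟩ : ∃ em : Matrix (Fin g) (Fin g) ℂ,
      em = (1 / (2 * zd d)) • (zd d • (1 : Matrix (Fin g) (Fin g) ℂ) - J) := ⟨_, rfl⟩
  have hJ2 : J * J = (zd d * zd d) • (1 : Matrix (Fin g) (Fin g) ℂ) := by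
    rw [hLJ.J2, hz1, neg_smul]
  have hepJ : ep * J = zd d • ep := by
    rw [hep, Matrix.smul_mul, Matrix.add_mul, hJ2, Matrix.smul_mul, Matrix.one_mul, smul_comm]
    congr 1
    rw [smul_add, smul_smul]
    abel
  have hemJ : em * J = -(zd d • em) := by
    rw [hem, Matrix.smul_mul, Matrix.sub_mul, hJ2, Matrix.smul_mul, Matrix.one_mul, smul_comm,
      ← smul_neg]
    congr 1
    rw [smul_sub, smul_smul]
    abel
  have hsum : ep + em = 1 := by
    rw [hep, hem, ← smul_add]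
    have e : zd d • (1 : Matrix (Fin g) (Fin g) ℂ) + J + (zd d • 1 - J) = (2 * zd d) • 1 := by
      rw [two_mul, add_smul]
      abel
    rw [e, smul_smul, one_div, inv_mul_cancel₀ h2z, one_smul]
  have hpp : ep * ep = ep := by
    conv_lhs => rw [hep, Matrix.mul_smul, Matrix.mul_add, Matrix.mul_smul, Matrix.mul_one]
    rw [← hep, hepJ, ← add_smul, smul_smul]
    have e : 1 / (2 * zd d) * (zd d + zd d) = 1 := by
      field_simp
      ring
    rw [e, one_smul]
  have hmp : em * ep = 0 := by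
    have h1 : (ep + em) * ep = ep := by rw [hsum, Matrix.one_mul]
    rw [Matrix.add_mul, hpp] at h1
    simpa using h1
  have hpalg : ∀ i j, IsAlgebraic ℚ (ep i j) := by
    intro i j
    rw [hep]
    simp only [Matrix.smul_apply, Matrix.add_apply, smul_eq_mul]
    refine IsAlgebraic.mul halg2 (IsAlgebraic.add ?_ (hLJ.alg i j))
    refine IsAlgebraic.mul hz4 ?_
    rw [Matrix.one_apply]
    split_ifs
    · exact isAlgebraic_one
    · exact isAlgebraic_zero
  have hmalg : ∀ i j, IsAlgebraic ℚ (em i j) := by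
    intro i j
    have h1 : em i j = (1 : Matrix (Fin g) (Fin g) ℂ) i j - ep i j := by
      rw [← hsum]
      simp
    rw [h1]
    refine IsAlgebraic.sub ?_ (hpalg i j)
    rw [Matrix.one_apply]
    split_ifs
    · exact isAlgebraic_one
    · exact isAlgebraic_zero
  obtain ⟨α, iα, dα, a, ha1, ha2⟩ := BasK_rows ep
  obtain ⟨β, iβ, dβ, b, hb1, hb2⟩ := BasK_rows em
  obtain ⟨Ta, hTa⟩ : ∃ Ta : Matrix (Ix α β Unit) (Fin g) ℂ,
      Ta = Matrix.of fun p => Sum.elim (fun i => ep (a i)) (fun j => em (b j)) p.1 := ⟨_, rfl⟩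
  have hTl : ∀ i u, Ta (Sum.inl i, u) = ep (a i) := fun i u => by rw [hTa]; rfl
  have hTr : ∀ j u, Ta (Sum.inr j, u) = em (b j) := fun j u => by rw [hTa]; rfl
  -- independence of the rows
  have hli : LinearIndependent ℂ fun p => Ta p := by
    rw [Fintype.linearIndependent_iff]
    intro c hc
    have h0 : ∑ i, c (Sum.inl i, ()) • ep (a i) + ∑ j, c (Sum.inr j, ()) • em (b j) = 0 := by
      rw [← hc, Fintype.sum_prod_type, Fintype.sum_sum_type]
      simp only [Finset.univ_unique, Finset.sum_singleton, PUnit.default_eq_unit, hTl, hTr]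
    have hrow : ∀ (M : Matrix (Fin g) (Fin g) ℂ) (k : Fin g), M k ᵥ* ep = (M * ep) k := by
      intro M k
      ext x
      rfl
    have h1 : ∑ i, c (Sum.inl i, ()) • ep (a i) = 0 := by
      have h2 := congrArg (fun v => v ᵥ* ep) h0
      simp only [Matrix.add_vecMul, Matrix.zero_vecMul, Matrix.sum_vecMul, Matrix.smul_vecMul, hrow, hpp, hmp] at h2
      have h3 : ∑ j, c (Sum.inr j, ()) • (0 : Matrix (Fin g) (Fin g) ℂ) (b j) = 0 := by
        refine Finset.sum_eq_zero fun j _ => ?_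
        ext x
        simp
      rw [h3, add_zero] at h2
      exact h2
    rw [h1, zero_add] at h0
    have h4 := Fintype.linearIndependent_iff.1 ha1 _ h1
    have h5 := Fintype.linearIndependent_iff.1 hb1 _ h0
    rintro ⟨s | s, u⟩
    · exact h4 s
    · exact h5 s
  have hker : ∀ z, Ta *ᵥ z = 0 → z = 0 := by
    intro z hz
    have h1 : ep *ᵥ z = 0 := ha2 z fun i => by
      have := congrFun hz (Sum.inl i, ())
      simpa only [Matrix.mulVec, hTl, Pi.zero_apply] using this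
    have h2 : em *ᵥ z = 0 := hb2 z fun j => by
      have := congrFun hz (Sum.inr j, ())
      simpa only [Matrix.mulVec, hTr, Pi.zero_apply] using this
    have h3 : (ep + em) *ᵥ z = z := by rw [hsum, Matrix.one_mulVec]
    rw [← h3, Matrix.add_mulVec, h1, h2, add_zero]
  obtain ⟨S₀, hTS, hST⟩ := BasK_inv Ta hli hker
  -- the action of `J`
  obtain ⟨D, hD⟩ : ∃ D : Matrix (Ix α β Unit) (Ix α β Unit) ℂ, D = diagonal (BasK_dg d) :=
    ⟨_, rfl⟩
  have hTJ : Ta * J = D * Ta := by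
    ext p x
    rw [hD, Matrix.diagonal_mul]
    obtain ⟨s | s, u⟩ := p
    · have h1 : (Ta * J) (Sum.inl s, u) x = (ep * J) (a s) x := by
        rw [Matrix.mul_apply, Matrix.mul_apply, hTl]
      rw [h1, hepJ, hTl]
      rfl
    · have h1 : (Ta * J) (Sum.inr s, u) x = (em * J) (b s) x := by
        rw [Matrix.mul_apply, Matrix.mul_apply, hTr]
      rw [h1, hemJ, hTr]
      simp [BasK_dg, hz3]
  have hJS : J * S₀ = S₀ * D := by
    calc J * S₀ = (S₀ * Ta) * J * S₀ := by rw [hST, Matrix.one_mul]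
      _ = S₀ * (Ta * J) * S₀ := by simp only [Matrix.mul_assoc]
      _ = S₀ * (D * Ta) * S₀ := by rw [hTJ]
      _ = S₀ * D * (Ta * S₀) := by simp only [Matrix.mul_assoc]
      _ = S₀ * D := by rw [hTS, Matrix.mul_one]
  -- the form
  have hpos := NF4_pos hLJ.herm hLJ.pd
  have hskew : Hmᵀ * J = -(Jᴴ * Hmᵀ) := by
    apply BasK_mat
    intro z w
    have h1 := hLJ.Jadj z w
    rw [BasK_form, BasK_form, Matrix.mulVec_mulVec, Matrix.star_mulVec,
      ← Matrix.dotProduct_mulVec, Matrix.mulVec_mulVec] at h1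
    rw [h1, Matrix.neg_mulVec, dotProduct_neg]
  obtain ⟨M, hM⟩ : ∃ M : Matrix (Ix α β Unit) (Ix α β Unit) ℂ, M = S₀ᴴ * Hmᵀ * S₀ := ⟨_, rfl⟩
  have hMpos : M.PosDef := by
    rw [hM]
    refine hpos.conjTranspose_mul_mul_same ?_
    intro x y hxy
    have h1 := congrArg (fun v => Ta *ᵥ v) hxy
    simpa only [Matrix.mulVec_mulVec, hTS, Matrix.one_mulVec] using h1
  have hMD : M * D = -(Dᴴ * M) := by
    calc M * D = S₀ᴴ * Hmᵀ * (S₀ * D) := by rw [hM]; simp only [Matrix.mul_assoc]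
      _ = S₀ᴴ * (Hmᵀ * J) * S₀ := by rw [← hJS]; simp only [Matrix.mul_assoc]
      _ = -((S₀ᴴ * Jᴴ) * Hmᵀ * S₀) := by
          rw [hskew, Matrix.mul_neg, Matrix.neg_mul]
          simp only [Matrix.mul_assoc]
      _ = -(((S₀ * D)ᴴ) * Hmᵀ * S₀) := by
          rw [← Matrix.conjTranspose_mul, hJS]
      _ = -(Dᴴ * M) := by
          rw [Matrix.conjTranspose_mul, hM]
          simp only [Matrix.mul_assoc]
  have hMD' : ∀ p q, M p q * BasK_dg d q = -(conj (BasK_dg d p) * M p q) := by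
    intro p q
    have h1 := congrFun (congrFun hMD p) q
    rw [hD, Matrix.mul_diagonal, Matrix.diagonal_conjTranspose, Matrix.neg_apply,
      Matrix.diagonal_mul] at h1
    exact h1
  have hoff1 : ∀ i j u v, M (Sum.inl i, u) (Sum.inr j, v) = 0 := by
    intro i j u v
    have h1 := hMD' (Sum.inl i, u) (Sum.inr j, v)
    simp only [BasK_dg, Sum.elim_inl, Sum.elim_inr, hz3] at h1
    have h2 : (2 * zd d) * M (Sum.inl i, u) (Sum.inr j, v) = 0 := by linear_combination -h1
    exact (mul_eq_zero.1 h2).resolve_left h2z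
  have hoff2 : ∀ i j u v, M (Sum.inr j, v) (Sum.inl i, u) = 0 := by
    intro i j u v
    have h1 := hMD' (Sum.inr j, v) (Sum.inl i, u)
    simp only [BasK_dg, Sum.elim_inl, Sum.elim_inr, hz3, map_neg] at h1
    have h2 : (2 * zd d) * M (Sum.inr j, v) (Sum.inl i, u) = 0 := by linear_combination h1
    exact (mul_eq_zero.1 h2).resolve_left h2z
  obtain ⟨Tp, hTp, hTpd⟩ := BasK_root (M.submatrix (fun i : α => (Sum.inl i, ()))
    (fun i : α => (Sum.inl i, ()))) (hMpos.submatrix (fun x y h => by simpa using h))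
  obtain ⟨Tm, hTm, hTmd⟩ := BasK_root (M.submatrix (fun j : β => (Sum.inr j, ()))
    (fun j : β => (Sum.inr j, ()))) (hMpos.submatrix (fun x y h => by simpa using h))
  have hstar : (blk Unit Tp Tm)ᴴ = blk Unit Tpᴴ Tmᴴ := by
    ext p q
    obtain ⟨s | s, u⟩ := p <;> obtain ⟨s' | s', u'⟩ := q <;> simp [blk]
  have hMb : M = (blk Unit Tp Tm)ᴴ * blk Unit Tp Tm := by
    rw [hstar, NF4_blk_mul, ← hTp, ← hTm]
    ext p q
    obtain ⟨s | s, u⟩ := p <;> obtain ⟨s' | s', u'⟩ := q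
    · simp [blk]
    · simp [blk, hoff1]
    · simp [blk, hoff2]
    · simp [blk]
  have hbi : blk Unit Tp Tm * blk Unit Tp⁻¹ Tm⁻¹ = 1 := by
    rw [NF4_blk_mul, Matrix.mul_nonsing_inv Tp (Ne.isUnit hTpd),
      Matrix.mul_nonsing_inv Tm (Ne.isUnit hTmd), NF4_blk_one]
  have hib : blk Unit Tp⁻¹ Tm⁻¹ * blk Unit Tp Tm = 1 := by
    rw [NF4_blk_mul, Matrix.nonsing_inv_mul Tp (Ne.isUnit hTpd),
      Matrix.nonsing_inv_mul Tm (Ne.isUnit hTmd), NF4_blk_one]
  refine ⟨α, β, iα, iβ, dα, dβ, blk Unit Tp Tm * Ta, S₀ * blk Unit Tp⁻¹ Tm⁻¹, Tp, Tm, Ta,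
    ?_, ?_, ?_, hTpd, hTmd, rfl, ?_, ?_⟩
  · calc blk Unit Tp Tm * Ta * (S₀ * blk Unit Tp⁻¹ Tm⁻¹)
        = blk Unit Tp Tm * (Ta * S₀) * blk Unit Tp⁻¹ Tm⁻¹ := by simp only [Matrix.mul_assoc]
      _ = 1 := by rw [hTS, Matrix.mul_one, hbi]
  · calc S₀ * blk Unit Tp⁻¹ Tm⁻¹ * (blk Unit Tp Tm * Ta)
        = S₀ * (blk Unit Tp⁻¹ Tm⁻¹ * blk Unit Tp Tm) * Ta := by simp only [Matrix.mul_assoc]
      _ = 1 := by rw [hib, Matrix.mul_one, hST]
  · intro z w
    rw [BasK_form, BasK_H, Matrix.star_mulVec, ← Matrix.dotProduct_mulVec, Matrix.mulVec_mulVec]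
    congr 2
    calc Hmᵀ = (S₀ * Ta)ᴴ * Hmᵀ * (S₀ * Ta) := by
          rw [hST, Matrix.conjTranspose_one, Matrix.one_mul, Matrix.mul_one]
      _ = Taᴴ * M * Ta := by
          rw [Matrix.conjTranspose_mul, hM]
          simp only [Matrix.mul_assoc]
      _ = _ := by
          rw [hMb, Matrix.conjTranspose_mul]
          simp only [Matrix.mul_assoc]
  · rintro ⟨s | s, u⟩ x
    · rw [hTl]
      exact hpalg _ _
    · rw [hTr]
      exact hmalg _ _
  · intro z
    rw [Matrix.mulVec_mulVec, Matrix.mulVec_mulVec, BasK_rgt, ← hD]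
    congr 1
    have h1 : blk Unit Tp Tm * D = D * blk Unit Tp Tm := by
      rw [hD, ← BasK_rgt]
      exact NF4_blk_rgt _ _ _
    rw [Matrix.mul_assoc, hTJ, ← Matrix.mul_assoc, h1, Matrix.mul_assoc]

end DWC
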