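import Pool.Agent.DWC.StG
import Pool.Agent.PST.UGr

/-!
# DWC: a matrix of the group is bounded by its values on generators of the dual lattice
-/

set_option autoImplicit false

namespace DWC

open scoped ComplexConjugate
open GAM (H E F pd pdl PLat IsTh OddTor IsDel Gro IsLat)
open PST

section form

variable {ι : Type} [Fintype ι]

private theorem Bdf_E_add_left (x y z : ι → ℂ) : E (x + y) z = E x z + E y z := by
  simp only [E, H, Pi.add_apply, add_mul, Finset.sum_add_distrib, Complex.add_im]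

private theorem Bdf_E_add_right (x y z : ι → ℂ) : E x (y + z) = E x y + E x z := by
  simp only [E, H, Pi.add_apply, map_add, mul_add, Finset.sum_add_distrib, Complex.add_im]

private theorem Bdf_E_smul_left (r : ℝ) (x y : ι → ℂ) : E (r • x) y = r * E x y := by
  simp only [E, H, Pi.smul_apply, Complex.real_smul, mul_assoc]
  rw [← Finset.mul_sum, Complex.im_ofReal_mul]

private theorem Bdf_E_smul_right (r : ℝ) (x y : ι → ℂ) : E x (r • y) = r * E x y := by
  simp only [E, H, Pi.smul_apply, Complex.real_smul, map_mul, Complex.conj_ofReal]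
  rw [← Complex.im_ofReal_mul, Finset.mul_sum]
  congr 1
  refine Finset.sum_congr rfl fun a _ => ?_
  ring

private theorem Bdf_E_I (x : ι → ℂ) : E x (Complex.I • x) = - nq x := by
  simp only [E, H, Pi.smul_apply, smul_eq_mul, map_mul, Complex.conj_I, nq, Complex.im_sum]
  rw [← Finset.sum_neg_distrib]
  refine Finset.sum_congr rfl fun a _ => ?_
  have h : x a * (-Complex.I * conj (x a)) = -(Complex.I * (x a * conj (x a))) := by ring
  rw [h, Complex.mul_conj, Complex.neg_im, Complex.I_mul_im, Complex.ofReal_re,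
    Complex.normSq_eq_norm_sq]

private theorem Bdf_nq_nonneg (x : ι → ℂ) : 0 ≤ nq x :=
  Finset.sum_nonneg fun _ _ => sq_nonneg _

private theorem Bdf_nq_zero (x : ι → ℂ) (h : nq x = 0) : x = 0 := by
  funext a
  have h1 := (Finset.sum_eq_zero_iff_of_nonneg (fun _ _ => sq_nonneg _)).1 h a (Finset.mem_univ a)
  have h2 : ‖x a‖ = 0 := by
    rcases pow_eq_zero_iff (two_ne_zero) |>.1 h1 with h3
    exact h3
  simpa using h2

/-- Cauchy-Schwarz -/
private theorem Bdf_cs (x y : ι → ℂ) : E x y ^ 2 ≤ nq x * nq y := by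
  have h1 : |E x y| ≤ ∑ a, ‖x a‖ * ‖y a‖ := by
    calc |E x y| ≤ ‖H x y‖ := Complex.abs_im_le_norm _
      _ ≤ ∑ a, ‖x a * conj (y a)‖ := norm_sum_le _ _
      _ = ∑ a, ‖x a‖ * ‖y a‖ := by
        refine Finset.sum_congr rfl fun a _ => ?_
        rw [norm_mul, RCLike.norm_conj]
  calc E x y ^ 2 = |E x y| ^ 2 := (sq_abs _).symm
    _ ≤ (∑ a, ‖x a‖ * ‖y a‖) ^ 2 := pow_le_pow_left₀ (abs_nonneg _) h1 2
    _ ≤ nq x * nq y := Finset.sum_mul_sq_le_sq_mul_sq _ _ _

/-- The linear map `v ↦ E(v, f_i)`. -/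
private noncomputable def Bdf_T {M : ℕ} (f : Fin M → ι → ℂ) : (ι → ℂ) →ₗ[ℝ] (Fin M → ℝ) where
  toFun v := fun i => E v (f i)
  map_add' x y := by
    funext i
    exact Bdf_E_add_left x y (f i)
  map_smul' r x := by
    funext i
    exact Bdf_E_smul_left r x (f i)

/-- The linear form `y ↦ E(v, y)`. -/
private noncomputable def Bdf_S (v : ι → ℂ) : (ι → ℂ) →ₗ[ℝ] ℝ where
  toFun y := E v y
  map_add' x y := Bdf_E_add_right v x y
  map_smul' r x := Bdf_E_smul_right r v x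

private theorem Bdf_T_ker {M : ℕ} (f : Fin M → ι → ℂ) (b : Module.Basis (ι ⊕ ι) ℝ (ι → ℂ))
    (hb : ∀ k, b k ∈ Submodule.span ℤ (Set.range f)) : LinearMap.ker (Bdf_T f) = ⊥ := by
  rw [LinearMap.ker_eq_bot']
  intro v hv
  have h1 : ∀ l ∈ Submodule.span ℤ (Set.range f), E v l = 0 := by
    intro l hl
    induction hl using Submodule.span_induction with
    | mem x hx =>
      obtain ⟨i, rfl⟩ := hx
      exact congrFun hv i
    | zero => exact (Bdf_S v).map_zero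
    | add x y _ _ hx hy => rw [Bdf_E_add_right, hx, hy, add_zero]
    | smul a x _ hx =>
      have h2 : (a • x : ι → ℂ) = (a : ℝ) • x := by
        funext p
        simp
      rw [h2, Bdf_E_smul_right, hx, mul_zero]
  have h2 : Bdf_S v = 0 := b.ext fun k => h1 _ (hb k)
  have h3 : E v (Complex.I • v) = 0 := LinearMap.congr_fun h2 (Complex.I • v)
  rw [Bdf_E_I, neg_eq_zero] at h3
  exact Bdf_nq_zero v h3

private theorem Bdf_low {M : ℕ} (f : Fin M → ι → ℂ) (b : Module.Basis (ι ⊕ ι) ℝ (ι → ℂ))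
    (hb : ∀ k, b k ∈ Submodule.span ℤ (Set.range f)) :
    ∃ C : ℝ, 0 ≤ C ∧ ∀ v : ι → ℂ, nq v ≤ C * ∑ i, E v (f i) ^ 2 := by
  obtain ⟨K, _, hK⟩ := LinearMap.exists_antilipschitzWith (Bdf_T f) (Bdf_T_ker f b hb)
  refine ⟨Fintype.card ι * (K : ℝ) ^ 2, by positivity, ?_⟩
  intro v
  have h1 : ‖v‖ ≤ K * ‖Bdf_T f v‖ := by
    have := hK.le_mul_dist v 0
    simpa using this
  have h2 : ‖Bdf_T f v‖ ^ 2 ≤ ∑ i, E v (f i) ^ 2 := by
    have h3 : ‖Bdf_T f v‖ ≤ Real.sqrt (∑ i, E v (f i) ^ 2) := by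
      rw [pi_norm_le_iff_of_nonneg (Real.sqrt_nonneg _)]
      intro i
      apply Real.le_sqrt_of_sq_le
      rw [Real.norm_eq_abs, sq_abs]
      exact Finset.single_le_sum (f := fun i => E v (f i) ^ 2) (fun _ _ => sq_nonneg _)
        (Finset.mem_univ i)
    calc ‖Bdf_T f v‖ ^ 2 ≤ Real.sqrt (∑ i, E v (f i) ^ 2) ^ 2 :=
          pow_le_pow_left₀ (norm_nonneg _) h3 2
      _ = ∑ i, E v (f i) ^ 2 := Real.sq_sqrt (Finset.sum_nonneg fun _ _ => sq_nonneg _)
  have h4 : ‖v‖ ^ 2 ≤ (K : ℝ) ^ 2 * ∑ i, E v (f i) ^ 2 := by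
    calc ‖v‖ ^ 2 ≤ (K * ‖Bdf_T f v‖) ^ 2 := pow_le_pow_left₀ (norm_nonneg _) h1 2
      _ = (K : ℝ) ^ 2 * ‖Bdf_T f v‖ ^ 2 := mul_pow _ _ _
      _ ≤ _ := mul_le_mul_of_nonneg_left h2 (sq_nonneg _)
  calc nq v ≤ ∑ _a : ι, ‖v‖ ^ 2 :=
        Finset.sum_le_sum fun a _ => pow_le_pow_left₀ (norm_nonneg _) (norm_le_pi_norm v a) 2
    _ = Fintype.card ι * ‖v‖ ^ 2 := by
      rw [Finset.sum_const, nsmul_eq_mul, Finset.card_univ]
    _ ≤ Fintype.card ι * ((K : ℝ) ^ 2 * ∑ i, E v (f i) ^ 2) :=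
      mul_le_mul_of_nonneg_left h4 (Nat.cast_nonneg _)
    _ = _ := by ring

end form

section

variable {α β : Type} [Fintype α] [Fintype β] [DecidableEq α] [DecidableEq β]

private theorem Bdf_nq_sw (x : Ix α β Unit → ℂ) : nq (sw x) = nq x := by
  unfold nq
  refine Finset.sum_congr rfl fun p _ => ?_
  obtain ⟨q, k⟩ := p
  rcases q with i | j
  · rfl
  · simp [sw]

private theorem Bdf_sw_single (j : α ⊕ β) :
    sw (Pi.single (j, ()) 1 : Ix α β Unit → ℂ) = Pi.single (j, ()) 1 := by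
  funext p
  obtain ⟨q, k⟩ := p
  rcases q with i | j'
  · rfl
  · by_cases h : (Sum.inr j' : α ⊕ β) = j
    · subst h
      simp [sw]
    · have h1 : ((Sum.inr j', k) : Ix α β Unit) ≠ (j, ()) := by
        intro h2
        exact h (Prod.mk.inj h2).1
      simp only [sw, Sum.elim_inr]
      rw [Pi.single_eq_of_ne h1, map_zero]

private theorem Bdf_col (g : Matrix (α ⊕ β) (α ⊕ β) ℂ) (j : α ⊕ β) :
    nq (act g (Pi.single (j, ()) 1 : Ix α β Unit → ℂ)) = ∑ i, ‖g i j‖ ^ 2 := by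
  unfold act
  rw [Bdf_nq_sw, Bdf_sw_single]
  unfold nq mu
  rw [Fintype.sum_prod_type]
  refine Finset.sum_congr rfl fun i _ => ?_
  rw [Fintype.sum_unique]
  congr 2
  rw [Finset.sum_eq_single j]
  · simp
  · intro q _ hq
    rw [Pi.single_eq_of_ne, mul_zero]
    intro h
    exact hq (Prod.mk.inj h).1
  · intro h
    exact absurd (Finset.mem_univ _) h

private theorem Bdf_nq_single (j : α ⊕ β) :
    nq (Pi.single (j, ()) 1 : Ix α β Unit → ℂ) = 1 := by
  unfold nq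
  rw [Finset.sum_eq_single (j, ())]
  · simp
  · intro q _ hq
    rw [Pi.single_eq_of_ne hq]
    simp
  · intro h
    exact absurd (Finset.mem_univ _) h

end

/-- The module Bdf. -/
theorem thm_Bdf : St_Bdf := by
  intro α β _ _ _ _ M L χ f hL hf
  obtain ⟨b₀, hb₀⟩ := hL.basis
  have hb₁ : ∀ k, b₀ k ∈ Submodule.span ℤ (Set.range f) := by
    intro k
    rw [hf, hb₀]
    exact Submodule.subset_span ⟨k, rfl⟩
  obtain ⟨C, hC, hC'⟩ := Bdf_low f b₀ hb₁
  refine ⟨C * M, by positivity, ?_⟩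
  intro g b R hg hb hgb i j
  have hE := (thm_UGr α β Unit).2.2.2.2.2.2 g hg
  set x : Ix α β Unit → ℂ := Pi.single (j, ()) 1 with hx
  calc ‖g i j‖ ^ 2 ≤ ∑ i, ‖g i j‖ ^ 2 :=
        Finset.single_le_sum (f := fun i => ‖g i j‖ ^ 2) (fun _ _ => sq_nonneg _)
          (Finset.mem_univ i)
    _ = nq (act g x) := (Bdf_col g j).symm
    _ ≤ C * ∑ m, E (act g x) (f m) ^ 2 := hC' _
    _ ≤ C * ∑ _m : Fin M, R := by
      refine mul_le_mul_of_nonneg_left (Finset.sum_le_sum fun m _ => ?_) hC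
      rw [← hgb m, hE]
      calc E x (b m) ^ 2 ≤ nq x * nq (b m) := Bdf_cs _ _
        _ = nq (b m) := by rw [hx, Bdf_nq_single, one_mul]
        _ ≤ R := hb m
    _ = C * M * R := by
      rw [Finset.sum_const, nsmul_eq_mul, Finset.card_univ, Fintype.card_fin]
      ring

end DWC
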