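import Pool.Agent.DWC.StK
import Pool.Agent.Helper39.AF.Proj

/-!
# DWC [Brg]: the torus part for Weil structures
-/

set_option autoImplicit false

namespace DWC

open Pool.Agent.GPC (AbVar)
open Pool.Agent.Helper7 (pData)

theorem isKs_of_weil {X : AbVar} {d : ℚ} (Jl : Module.End ℂ X.H1)
    (hJ : X.IsWeilStructure d Jl) : IsKs X d Jl := by
  refine ⟨hJ.1, hJ.2.1, hJ.2.2.1, fun u v => ?_⟩
  rw [Pool.Agent.Helper39.AF.weil_skew hJ]
  unfold AbVar.pol
  rw [← Finset.sum_neg_distrib]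
  refine Finset.sum_congr rfl fun a _ => ?_
  rw [Pi.neg_apply, Pi.neg_apply]
  ring

/-- balanced Weil structures -/
theorem bal_of (h : St_TorK) (X : AbVar) (d : ℚ) (Jl : Module.End ℂ X.H1) (hX : X.g = 4)
    (hJ : X.IsWeilStructure d Jl) (hb : X.IsBalanced d Jl) (D : Derivation ℚ ℂ ℂ) :
    LinearMap.trace ℂ X.H1 ((pData X).N D * Jl) = 0 :=
  (h X d Jl hX (isKs_of_weil Jl hJ)).1 hb D

/-- Weil structures which are not balanced -/
theorem unb_of (h : St_TorK) (X : AbVar) (d : ℚ) (Jl : Module.End ℂ X.H1) (hX : X.g = 4)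
    (hJ : X.IsWeilStructure d Jl) (hb : ¬ X.IsBalanced d Jl) :
    ∃ D : Derivation ℚ ℂ ℂ, LinearMap.trace ℂ X.H1 ((pData X).N D * Jl) ≠ 0 :=
  (h X d Jl hX (isKs_of_weil Jl hJ)).2 hb

end DWC
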