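import Pool.Agent.DWC.StK

/-!
# DWC: [CMK] complex multiplication at the CM point (helper99)
-/

set_option autoImplicit false

namespace DWC

open scoped ComplexConjugate
open GAM (H E F pd pdl PLat IsTh OddTor IsDel Gro IsLat Pre QD qd jac HasExp CMF CMT IsExp IsCM)
open PST

private theorem CMK_int {ι : Type} [Fintype ι] (f : ι → ℚ) :
    ∃ N : ℕ, N ≠ 0 ∧ ∀ i, ∃ m : ℤ, (N : ℚ) * f i = m := by
  refine ⟨∏ i, (f i).den, Finset.prod_ne_zero_iff.2 fun i _ => (f i).den_ne_zero, fun i => ?_⟩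
  obtain ⟨k, hk⟩ := Finset.dvd_prod_of_mem (fun i => (f i).den) (Finset.mem_univ i)
  refine ⟨k * (f i).num, ?_⟩
  rw [hk]
  push_cast
  have := Rat.mul_den_eq_num (f i)
  linear_combination (k : ℚ) * this

private theorem CMK_sq {d : ℚ} (hd : 0 < d) : zd d ^ 2 = -(d : ℂ) := by
  have h0 : (0 : ℝ) ≤ (d : ℝ) := by exact_mod_cast hd.le
  unfold zd
  rw [mul_pow, Complex.I_sq, ← Complex.ofReal_pow, Real.sq_sqrt h0]
  push_cast
  ring

private theorem CMK_conj (d : ℚ) : conj (zd d) = -zd d := by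
  unfold zd
  rw [map_mul, Complex.conj_ofReal, Complex.conj_I]
  ring

theorem thm_CMK : St_CMK := by
  intro α β _ _ _ _ d r q L hR hL
  have hd := hR.pos
  have hdR : (0 : ℝ) < (d : ℝ) := by exact_mod_cast hd
  have hq : ∀ s, q s ≠ 0 := by
    intro s hs
    have h1 := hR.rq s
    rw [hs] at h1
    have h2 := hR.rpos s
    have h3 := Real.sqrt_pos.2 hdR
    have : (0 : ℝ) < r s ^ 2 * Real.sqrt (d : ℝ) := by positivity
    rw [← h1] at this
    simp at this
  obtain ⟨N1, hN1, h1⟩ := CMK_int q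
  obtain ⟨N2, hN2, h2⟩ := CMK_int fun s => d / q s
  choose m1 hm1 using h1
  choose m2 hm2 using h2
  set e := Fintype.equivFin (Ix α β Unit) with he
  refine ⟨fun p => (((e p).val : ℕ) : ℂ) + ((N1 * N2 : ℕ) : ℂ) * zd d, ?_, ?_, ?_, ?_⟩
  · intro p
    have hz : IsAlgebraic ℚ (zd d) := by
      apply IsAlgebraic.of_pow (n := 2) (by norm_num)
      rw [CMK_sq hd]
      exact (isAlgebraic_algebraMap (A := ℂ) (d : ℚ)).neg
    exact (isAlgebraic_natCast _).add ((isAlgebraic_natCast _).mul hz)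
  · intro l hl
    obtain ⟨a, b, rfl⟩ := (hL l).1 hl
    refine (hL _).2 ⟨
      fun s => (e (s, ())).val * a s -
        Sum.elim (fun _ => (1 : ℤ)) (fun _ => -1) s * (N1 * m2 s) * b s,
      fun s => (e (s, ())).val * b s +
        Sum.elim (fun _ => (1 : ℤ)) (fun _ => -1) s * (N2 * m1 s) * a s, ?_⟩
    have hz := CMK_sq hd
    funext p
    obtain ⟨s, u⟩ := p
    have k1 : (m1 s : ℂ) = (N1 : ℂ) * (q s : ℂ) := by
      have := hm1 s
      exact_mod_cast this.symm
    have k2 : (m2 s : ℂ) * (q s : ℂ) = (N2 : ℂ) * (d : ℂ) := by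
      have h := hm2 s
      have h3 : (m2 s : ℚ) * q s = N2 * d := by
        rw [← h]
        field_simp [hq s]
      exact_mod_cast h3
    have k3 : (q s : ℂ) ≠ 0 := by exact_mod_cast hq s
    rcases s with i | j
    · show ((((e (Sum.inl i, ())).val : ℕ) : ℂ) + ((N1 * N2 : ℕ) : ℂ) * zd d) *
        ((r (Sum.inl i) : ℂ) * ((a (Sum.inl i) : ℂ) + (b (Sum.inl i) : ℂ) /
        (q (Sum.inl i) : ℂ) * zd d)) = (r (Sum.inl i) : ℂ) *
        ((((e (Sum.inl i, ())).val * a (Sum.inl i) - 1 * (N1 * m2 (Sum.inl i)) *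
          b (Sum.inl i) : ℤ) : ℂ) + (((e (Sum.inl i, ())).val * b (Sum.inl i) +
          1 * (N2 * m1 (Sum.inl i)) * a (Sum.inl i) : ℤ) : ℂ) / (q (Sum.inl i) : ℂ) * zd d)
      generalize (e (Sum.inl i, ())).val = t
      push_cast
      field_simp
      linear_combination (r (Sum.inl i) : ℂ) * (N1 * N2 * b (Sum.inl i)) * hz +
        (r (Sum.inl i) : ℂ) * N1 * b (Sum.inl i) * k2 -
        (r (Sum.inl i) : ℂ) * N2 * a (Sum.inl i) * zd d * k1
    · show ((((e (Sum.inr j, ())).val : ℕ) : ℂ) + ((N1 * N2 : ℕ) : ℂ) * zd d) *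
        conj ((r (Sum.inr j) : ℂ) * ((a (Sum.inr j) : ℂ) + (b (Sum.inr j) : ℂ) /
        (q (Sum.inr j) : ℂ) * zd d)) = conj ((r (Sum.inr j) : ℂ) *
        ((((e (Sum.inr j, ())).val * a (Sum.inr j) - (-1) * (N1 * m2 (Sum.inr j)) *
          b (Sum.inr j) : ℤ) : ℂ) + (((e (Sum.inr j, ())).val * b (Sum.inr j) +
          (-1) * (N2 * m1 (Sum.inr j)) * a (Sum.inr j) : ℤ) : ℂ) /
          (q (Sum.inr j) : ℂ) * zd d))
      generalize (e (Sum.inr j, ())).val = t
      simp only [map_mul, map_add, map_div₀, Complex.conj_ofReal, map_intCast, map_ratCast,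
        CMK_conj]
      push_cast
      field_simp
      linear_combination -(r (Sum.inr j) : ℂ) * (N1 * N2 * b (Sum.inr j)) * hz -
        (r (Sum.inr j) : ℂ) * N1 * b (Sum.inr j) * k2 -
        (r (Sum.inr j) : ℂ) * N2 * a (Sum.inr j) * zd d * k1
  · intro p p' hpp h
    apply hpp
    have h3 : (((e p).val : ℕ) : ℂ) = (((e p').val : ℕ) : ℂ) := by
      exact add_right_cancel h
    have h4 : (e p).val = (e p').val := by exact_mod_cast h3
    exact e.injective (Fin.ext h4)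
  · intro p p' h
    have h3 := congrArg Complex.im h
    have h4 : (zd d).im = Real.sqrt (d : ℝ) := by
      unfold zd
      simp
    have h5 : ∀ t : ℕ, ((t : ℂ) + ((N1 * N2 : ℕ) : ℂ) * zd d).im =
        ((N1 * N2 : ℕ) : ℝ) * Real.sqrt (d : ℝ) := by
      intro t
      rw [Complex.add_im, Complex.natCast_im, zero_add, ← Complex.ofReal_natCast (N1 * N2),
        Complex.im_ofReal_mul, h4]
    rw [Complex.conj_im, h5, h5] at h3
    have h6 : (0 : ℝ) < ((N1 * N2 : ℕ) : ℝ) * Real.sqrt (d : ℝ) := by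
      have := Real.sqrt_pos.2 hdR
      have h7 : (0 : ℝ) < ((N1 * N2 : ℕ) : ℝ) := by
        exact_mod_cast Nat.pos_of_ne_zero (Nat.mul_ne_zero hN1 hN2)
      positivity
    linarith

end DWC
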