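import Pool.Agent.DWC.StG

/-!
# DWC: cocompactness up to half planes, assembly of the geometry
-/

set_option autoImplicit false

namespace DWC

open scoped ComplexConjugate
open GAM (H E F pd pdl PLat IsTh OddTor IsDel Gro IsLat)
open PST

/-- A lattice has a shortest vector. -/
private theorem CocK_short {ι : Type} [Fintype ι] [DecidableEq ι] (L : Submodule ℤ (ι → ℂ))
    (χ : (ι → ℂ) → ℂ) (hL : PLat L χ) : ∃ ε : ℝ, 0 < ε ∧ ∀ x ∈ L, x ≠ 0 → ε ^ 2 ≤ nq x := by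
  obtain ⟨b, hb⟩ := hL.basis
  have hcont : ∀ i, ∃ C : ℝ, 0 < C ∧ ∀ x : ι → ℂ, |b.repr x i| ≤ C * ‖x‖ := by
    intro i
    let f : (ι → ℂ) →ₗ[ℝ] ℝ := b.coord i
    obtain ⟨C, hC, h⟩ := (LinearMap.toContinuousLinearMap f).bound
    exact ⟨C, hC, fun x => h x⟩
  choose C hC0 hC using hcont
  obtain ⟨D, hD0, hD⟩ : ∃ D : ℝ, 0 < D ∧ ∀ i, C i ≤ D := by
    refine ⟨1 + ∑ i, C i, ?_, fun i => ?_⟩
    · have : 0 ≤ ∑ i, C i := Finset.sum_nonneg fun i _ => (hC0 i).le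
      linarith
    · have := Finset.single_le_sum (f := C) (fun i _ => (hC0 i).le) (Finset.mem_univ i)
      linarith
  refine ⟨1 / D, by positivity, fun x hx hx0 => ?_⟩
  have hint : ∀ i, ∃ k : ℤ, b.repr x i = k := by
    intro i
    rw [hb] at hx
    exact (b.mem_span_iff_repr_mem ℤ x).1 hx i |>.imp fun k hk => by simpa using hk.symm
  have hne : ∃ i, b.repr x i ≠ 0 := by
    by_contra hcon
    push Not at hcon
    apply hx0
    have : b.repr x = 0 := by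
      ext i
      simpa using hcon i
    simpa using this
  obtain ⟨i, hi⟩ := hne
  obtain ⟨k, hk⟩ := hint i
  have h1 : (1 : ℝ) ≤ |b.repr x i| := by
    rw [hk] at hi ⊢
    have hk0 : k ≠ 0 := by
      rintro rfl
      simp at hi
    have := Int.one_le_abs hk0
    exact_mod_cast this
  have h2 : 1 ≤ D * ‖x‖ := h1.trans ((hC i x).trans
    (mul_le_mul_of_nonneg_right (hD i) (norm_nonneg x)))
  have h3 : 1 / D ≤ ‖x‖ := by
    rw [div_le_iff₀ hD0]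
    linarith
  have h4 : ‖x‖ ^ 2 ≤ nq x := by
    have hn : 0 ≤ nq x := Finset.sum_nonneg fun i _ => by positivity
    have : ‖x‖ ≤ Real.sqrt (nq x) := by
      refine (pi_norm_le_iff_of_nonneg (Real.sqrt_nonneg _)).2 fun j => ?_
      refine Real.le_sqrt_of_sq_le ?_
      exact Finset.single_le_sum (f := fun j => ‖x j‖ ^ 2) (fun i _ => by positivity)
        (Finset.mem_univ j)
    calc ‖x‖ ^ 2 ≤ (Real.sqrt (nq x)) ^ 2 := by
          exact pow_le_pow_left₀ (norm_nonneg _) this 2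
      _ = nq x := Real.sq_sqrt hn
  calc (1 / D) ^ 2 ≤ ‖x‖ ^ 2 := pow_le_pow_left₀ (by positivity) h3 2
    _ ≤ nq x := h4

private theorem CocK_one {α β : Type} [Fintype α] [Fintype β] [DecidableEq α]
    [DecidableEq β] : IsU (1 : Matrix (α ⊕ β) (α ⊕ β) ℂ) := by
  unfold IsU
  simp

private theorem CocK_zero {α β : Type} [Fintype α] [Fintype β] : (0 : α × β → ℂ) ∈ Om α β :=
  ⟨0, le_refl _, by norm_num, fun y => by simp⟩

/-- [CocK] cocompactness up to half planes -/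
theorem thm_CocK (h1 : St_Mah) (h2 : St_Gap) (h3 : St_Trv) (h4 : St_Zt) (h5 : St_Cpt)
    (h6 : St_UGr) (h7 : St_UAl) (h8 : St_MapE) : St_CocK := by
  intro α β _ _ _ _ d N L χ hd hN hL hK n hn
  obtain ⟨-, hmul, hone, hlin, hUmul, hUinv, -⟩ := h6 α β Unit
  have hact0 : ∀ g : Matrix (α ⊕ β) (α ⊕ β) ℂ, act g (0 : Ix α β Unit → ℂ) = 0 := by
    intro g
    have := (hlin g 0 0 0).2
    simpa using this
  obtain ⟨ε₀, hε₀, hgap⟩ := h2 α β d N hd hN
  obtain ⟨ε₁, hε₁, hshort⟩ := CocK_short L χ hL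
  obtain ⟨ε, hε, hεε₀, hεε₁⟩ : ∃ ε : ℝ, 0 < ε ∧ ε ≤ ε₀ ∧ ε ≤ ε₁ :=
    ⟨min ε₀ ε₁, lt_min hε₀ hε₁, min_le_left _ _, min_le_right _ _⟩
  have hSh1 : Sh L (1 : Matrix (α ⊕ β) (α ⊕ β) ℂ) ε := by
    intro x hx0 hx
    rw [hone] at hx
    exact (pow_le_pow_left₀ hε.le hεε₁ 2).trans (hshort x hx hx0)
  obtain ⟨R, hR⟩ := h1 α β d N n L χ ε hd hN hn hL hK hε
  obtain ⟨hKc, hKO, R', hR'⟩ := h5 α β L χ ε R hL hε
  obtain ⟨C, hC⟩ := h4 α β R'
  have hShm : ∀ γ g : Matrix (α ⊕ β) (α ⊕ β) ℂ, Gam 12 n L γ → Sh L g ε → Sh L (γ * g) ε := by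
    intro γ g hγ hg x hx0 hx
    rw [hmul] at hx
    exact hg x hx0 ((hγ.lat _).2 hx)
  refine ⟨Kc L ε R, C, hKc, ?_, hKO, fun p hp => ?_⟩
  · obtain ⟨γ, hγ, hγR⟩ := hR 1 CocK_one hSh1
    exact ⟨mob (γ * 1) 0, γ * 1, hUmul _ _ hγ.uni CocK_one, hγR, hShm _ _ hγ hSh1, rfl⟩
  · obtain ⟨U, hU, hUK⟩ := hR' p hp
    refine ⟨U, hU, fun w hw => ?_⟩
    obtain ⟨g, hg, hgR, hgS, hgw⟩ := hUK hw
    obtain ⟨L', χ', hL', hM⟩ := h8 α β Unit g L χ hg hL
    have hKL' : KL d N L' := by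
      intro l hl
      rw [hM.lat] at hl ⊢
      have hcomm : g * kap α β d N = kap α β d N * g := by
        unfold kap
        rw [Matrix.mul_smul, Matrix.smul_mul, mul_one, one_mul]
      rw [← hmul, hcomm, hmul]
      exact hK _ hl
    obtain ⟨P, hP, hPL⟩ := hgap ε hε hεε₀ L' (fun x hx y hy => hL'.int x hx y hy) hKL'
    obtain ⟨-, -, hBU, hBS⟩ := h3 α β P hP
    obtain ⟨hzI, hzD, hzC, hzG⟩ := hC g P hg hgR hP
    refine ⟨fun t => mob (g * Bt P t) 0, hzI.trans hgw, hzD, hzC, hzG, fun t => ?_⟩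
    have hA : IsU (g * Bt P t) := hUmul _ _ hg (hBU t)
    have hAS : Sh L (g * Bt P t) ε := by
      intro x hx0 hx
      rw [hmul] at hx
      have hy : act (Bt P t) x ∈ L' := (hM.lat _).2 hx
      have hy0 : act (Bt P t) x ≠ 0 := by
        intro h0
        apply hx0
        have hinv := (hUinv _ (hBU t)).2.1
        have := congrArg (act (Jm α β * (Bt P t).conjTranspose * Jm α β)) h0
        rw [← hmul, hinv, hone, hact0] at this
        exact this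
      exact hBS t ε x hε (hgS _ hy0 hx) (hPL _ hy)
    obtain ⟨γ, hγ, hγR⟩ := hR _ hA hAS
    refine ⟨γ, hγ.uni, hγ.det, hγ.lat, hγ.cong, ?_⟩
    refine ⟨γ * (g * Bt P t), hUmul _ _ hγ.uni hA, hγR, hShm _ _ hγ hAS, ?_⟩
    exact (h7 α β Unit _ hA 0 CocK_zero).2.2.2.2.2.2.2 γ hγ.uni

end DWC
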