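import Pool.Agent.DWC.StG
import Pool.Agent.PST.Core

/-!
# DWC [CoreH]: the core theorem
-/

set_option autoImplicit false

namespace DWC

open scoped ComplexConjugate
open GAM (H E F pd pdl PLat IsTh OddTor IsDel Gro IsLat)
open PST

theorem thm_CoreH (h1 : St_RelH) (h2 : St_Pts) (h3 : St_DelX) (h4 : St_DelPG) (h5 : St_DelGR)
    (h6 : St_Equi) (h7 : St_UGr) (h8 : St_UAl) (_h9 : St_UTr) (h10 : St_Ell) (h11 : St_OmT)
    (_h12 : St_EllZ) : St_CoreH := by
  intro α β μ _ _ _ _ _ _ δ g L₀ L₁ χ₀ θ₀ χ₁ θ₁ e k₀ k₁ Bp₀ Bp₁ Bm₀ Bm₁ c₀ c₁ hμ he hL₀ hL₁ hθ₀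
    hθ₁ hn₀ hn₁ hM hdg hC hE₀ hE₁
  obtain ⟨k⟩ := hμ
  have hU := hM.uni
  obtain ⟨hiU, hig, hgi, hdet1, -⟩ := (h7 α β μ).2.2.2.2.2.1 g hU
  set gi : Matrix (α ⊕ β) (α ⊕ β) ℂ := Jm α β * g.conjTranspose * Jm α β with hgi'
  have hdg0 : g.det ≠ 0 := by
    intro h
    rw [h, norm_zero] at hdet1
    exact zero_ne_one hdet1
  obtain ⟨y, x, x', hy, hx, hx', hpsi, hfp, hfm, hdet⟩ := h2 α β μ L₀ χ₀ θ₀ k hL₀ hθ₀ hn₀
  obtain ⟨m, P, hPm, hP, z₁, hz₁, hPz₁⟩ := h1 α β μ L₀ χ₀ θ₀ e k y x x' hL₀ hθ₀ hn₀ hC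
    hy hx hx' hpsi hfp hfm hdet
  obtain ⟨K₀, Ξ₀, hB₀⟩ := h3 α β μ δ L₀ χ₀ θ₀ k₀ Bp₀ Bm₀ c₀ e k hL₀ hθ₀ hE₀
  obtain ⟨K₁, Ξ₁, hB₁⟩ := h3 α β μ δ L₁ χ₁ θ₁ k₁ Bp₁ Bm₁ c₁ e k hL₁ hθ₁ hE₁
  obtain ⟨hO, hCv, h0, -⟩ := h11 α β
  -- the two systems of functions
  set f₀ : Option (Option (α × β)) → (α × β → ℂ) → ℂ := fun o w => XF e k θ₀ y x x' w o with hf₀
  set X₁ : Option (Option (α × β)) → (α × β → ℂ) → ℂ := fun o w =>
    XF e k θ₁ (fun i => act gi (y i)) (fun i => act gi (x i)) (fun i => act gi (x' i)) w o with hX₁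
  set ce : Option (Option (α × β)) → ℂ := fun o => if o = none then (g.det ^ e)⁻¹ else 1 with hce
  set f₁ : Option (Option (α × β)) → (α × β → ℂ) → ℂ := fun o w => ce o * X₁ o w with hf₁
  have hdce : ∀ o, δ (ce o) = 0 := by
    intro o
    simp only [hce]
    split_ifs
    · exact Core_delc δ hdg e
    · exact Derivation.map_one_eq_zero δ
  have hf₀D : ∀ o, DifferentiableOn ℂ (f₀ o) (Om α β) := fun o =>
    Core_XFD h10 hL₀ hθ₀ e k y x x' o
  have hf₁D : ∀ o, DifferentiableOn ℂ (f₁ o) (Om α β) := fun o =>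
    (differentiableOn_const _).fun_mul (Core_XFD h10 hL₁ hθ₁ e k _ _ _ o)
  -- comparison
  have hj : ∀ w ∈ Om α β, ∃ j : ℂ, j ≠ 0 ∧ ∀ o, f₀ o (mob g w) = j * f₁ o w := by
    intro w hw
    obtain ⟨j, mp, mm, hj0, hmp, hmm, hpm, hjp, hjf, hjm⟩ := h6 α β μ g L₀ L₁ χ₀ θ₀ χ₁ θ₁ hL₀ hL₁
      hθ₀ hθ₁ hn₀ hn₁ hM w hw
    have hq : ∀ t, psi θ₀ (mob g w) t = j * psi θ₁ w (act gi t) := by
      intro t
      rw [← hjp, Core_act h7 hU]
    have hqp : mp * fp k θ₀ (mob g w) x = j ^ Fintype.card α * fp k θ₁ w fun i => act gi (x i) := by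
      rw [← hjf]
      simp only [hgi', Core_act h7 hU]
    have hqm : mm * fm k θ₀ (mob g w) x' =
        j ^ Fintype.card β * fm k θ₁ w fun i => act gi (x' i) := by
      rw [← hjm]
      simp only [hgi', Core_act h7 hU]
    refine ⟨j ^ (1 + e * (Fintype.card α + Fintype.card β)) / mm ^ e,
      div_ne_zero (pow_ne_zero _ hj0) (pow_ne_zero _ hmm), fun o => ?_⟩
    have hqp' : fp k θ₀ (mob g w) x =
        j ^ Fintype.card α * (fp k θ₁ w fun i => act gi (x i)) / mp := by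
      rw [← hqp]; field_simp
    have hqm' : fm k θ₀ (mob g w) x' =
        j ^ Fintype.card β * (fm k θ₁ w fun i => act gi (x' i)) / mm := by
      rw [← hqm]; field_simp
    rcases o with _ | i
    · simp only [hf₀, hf₁, hX₁, hce, XF, if_true, hq]
      rw [hqp', hpm]
      exact Core_alg j _ _ _ mm g.det e _ _ hmm hdg0
    · simp only [hf₀, hf₁, hX₁, hce, XF, hq]
      rw [hqm']
      simp only [reduceCtorEq, if_false]
      exact Core_alg2 j _ _ _ mm e _ _ hmm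
  have hP1 : ∀ w ∈ Om α β, MvPolynomial.eval (fun i => f₁ i w) P = 0 := by
    intro w hw
    obtain ⟨j, hj0, hj1⟩ := hj w hw
    have h13 := hP (mob g w) (h8 α β μ g hU w hw).1
    have h14 := GAM.Core_hom hPm j (fun i => f₀ i (mob g w)) (fun i => f₁ i w) hj1
    have h15 : MvPolynomial.eval (fun i => f₀ i (mob g w)) P = 0 := h13
    rw [h14] at h15
    exact (mul_eq_zero.1 h15).resolve_left (pow_ne_zero m hj0)
  have hIO : Om α β ∈ nhds (0 : α × β → ℂ) := hO.mem_nhds h0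
  have hd₀ := h4 (α × β) (Option (α × β)) δ f₀ K₀ Ξ₀ (e * Bp₀.trace) (e * Bm₀.trace) m P hPm
    (fun o => hB₀ y x x' hy hx hx' o) (by
      filter_upwards [hIO] with w hw using hP w hw)
  have hd₁ := h4 (α × β) (Option (α × β)) δ f₁ K₁ Ξ₁ (e * Bp₁.trace) (e * Bm₁.trace) m P hPm
    (fun o => Core_cm h5 (hdce o) (hB₁ (fun i => act gi (y i)) (fun i => act gi (x i))
      (fun i => act gi (x' i)) (fun i => Core_odd h7 hM (hy i)) (fun i => Core_odd h7 hM (hx i))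
      (fun i => Core_odd h7 hM (hx' i)) o)) (by
      filter_upwards [hIO] with w hw using hP1 w hw)
  have hext : ∀ (f : Option (Option (α × β)) → (α × β → ℂ) → ℂ) (a : ℂ),
      (∀ o, DifferentiableOn ℂ (f o) (Om α β)) →
      (∀ᶠ z in nhds 0, (∑ m ∈ P.support, δ (P.coeff m) * MvPolynomial.eval (fun i => f i z)
        (MvPolynomial.monomial m 1)) +
        a * (f none z * MvPolynomial.eval (fun i => f i z) (MvPolynomial.pderiv none P)) = 0) →
      ∀ z ∈ Om α β, (∑ m ∈ P.support, δ (P.coeff m) * MvPolynomial.eval (fun i => f i z)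
        (MvPolynomial.monomial m 1)) +
        a * (f none z * MvPolynomial.eval (fun i => f i z) (MvPolynomial.pderiv none P)) = 0 := by
    intro f a hf hz z hzO
    refine Core_id h11 ?_ hz hzO
    refine DifferentiableOn.fun_add (DifferentiableOn.fun_sum fun d _ =>
      (differentiableOn_const _).fun_mul (Core_evD _ f hf)) ?_
    exact (differentiableOn_const _).fun_mul ((hf none).fun_mul (Core_evD _ f hf))
  have hA := hext f₀ _ hf₀D hd₀
  have hB := hext f₁ _ hf₁D hd₁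
  by_contra hne
  have he0 : (e : ℂ) ≠ 0 := by exact_mod_cast he
  have hne' : (e * Bp₀.trace - e * Bm₀.trace - (e * Bp₁.trace - e * Bm₁.trace) : ℂ) ≠ 0 := by
    intro h
    apply hne
    have : (e : ℂ) * ((Bp₀.trace - Bm₀.trace) - (Bp₁.trace - Bm₁.trace)) = 0 := by
      linear_combination h
    exact sub_eq_zero.1 ((mul_eq_zero.1 this).resolve_left he0)
  have hR1 : ∀ w ∈ Om α β, f₁ none w *
      MvPolynomial.eval (fun i => f₁ i w) (MvPolynomial.pderiv none P) = 0 := by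
    intro w hw
    obtain ⟨j, hj0, hj1⟩ := hj w hw
    have h13 := hA (mob g w) (h8 α β μ g hU w hw).1
    have h14 := GAM.Core_mon hPm δ j (fun i => f₀ i (mob g w)) (fun i => f₁ i w) hj1
    have h15 := Core_homN hPm j (fun i => f₀ i (mob g w)) (fun i => f₁ i w) hj1
    rw [h14, h15] at h13
    have h16 := hB w hw
    have h17 : j ^ m * ((e * Bp₀.trace - e * Bm₀.trace - (e * Bp₁.trace - e * Bm₁.trace) : ℂ) *
        (f₁ none w * MvPolynomial.eval (fun i => f₁ i w) (MvPolynomial.pderiv none P))) = 0 := by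
      linear_combination h13 - j ^ m * h16
    rcases mul_eq_zero.1 h17 with h18 | h18
    · exact absurd h18 (pow_ne_zero m hj0)
    · exact (mul_eq_zero.1 h18).resolve_left hne'
  have hR0 : ∀ w ∈ Om α β, f₀ none w *
      MvPolynomial.eval (fun i => f₀ i w) (MvPolynomial.pderiv none P) = 0 := by
    intro w hw
    have h13 := h8 α β μ gi hiU w hw
    have hw' := h13.1
    have h14 : mob g (mob gi w) = w := by
      rw [← h13.2.2.2.2.2.2.2 g hU, hgi, Core_mob1]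
    obtain ⟨j, hj0, hj1⟩ := hj _ hw'
    rw [h14] at hj1
    have h15 := Core_homN hPm j (fun i => f₀ i w) (fun i => f₁ i (mob gi w)) hj1
    rw [h15, hR1 _ hw', mul_zero]
  have h30 : f₀ none 0 ≠ 0 := by
    have h31 : f₀ none 0 = psi θ₀ 0 (y none) * psi θ₀ 0 (y none) ^ (e * Fintype.card β) *
      fp k θ₀ 0 x ^ e := rfl
    rw [h31]
    exact mul_ne_zero (mul_ne_zero hpsi (pow_ne_zero _ hpsi)) (pow_ne_zero _ hfp)
  have hc3 : ContinuousAt (f₀ none) 0 := ((hf₀D none).continuousOn).continuousAt hIO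
  have hev : ∀ᶠ z in nhds (0 : α × β → ℂ),
      MvPolynomial.eval (fun i => f₀ i z) (MvPolynomial.pderiv none P) = 0 := by
    filter_upwards [hc3.eventually_ne h30, hIO] with z hz1 hz2
    exact (mul_eq_zero.1 (hR0 z hz2)).resolve_left hz1
  exact hPz₁ (Core_id h11 (Core_evD _ f₀ hf₀D) hev hz₁)

end DWC
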