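import Pool.Agent.DWC.Defs

/-!
# DWC: frozen statements, analysis and geometry of numbers
-/

set_option autoImplicit false

namespace DWC

open scoped ComplexConjugate
open GAM (H E F pd pdl PLat IsTh OddTor IsDel Gro IsLat)
open PST

/-! ## Analysis -/

/-- [PLh] Phragmen-Lindeloef for bounded functions on the half plane -/
def St_PLh : Prop := ∀ (h : ℂ → ℂ) (A : ℝ), DifferentiableOn ℂ h {t | 0 < t.im} →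
  ContinuousOn h {t | 0 ≤ t.im} → (∃ B : ℝ, ∀ t : ℂ, 0 ≤ t.im → ‖h t‖ ≤ B) →
  (∀ t : ℝ, ‖h t‖ ≤ A) → ∀ t : ℂ, 0 ≤ t.im → ‖h t‖ ≤ A

/-- [SieA] the principle of Siegel, from an estimate near a compact set -/
def St_SieA : Prop := ∀ (ι κ : Type) [Fintype ι] [Fintype κ],
  Fintype.card κ = Fintype.card ι + 2 → ∀ (Ω K : Set (ι → ℂ)) (C : ℝ)
    (f : κ → (ι → ℂ) → ℂ), IsOpen Ω → Convex ℝ Ω → IsCompact K → K.Nonempty → K ⊆ Ω →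
    (∀ i, DifferentiableOn ℂ (f i) Ω) →
    (∀ p ∈ K, ∃ U ∈ nhds p, ∀ (m : ℕ) (P : MvPolynomial κ ℂ), P.IsHomogeneous m →
      ∀ B : ℝ, (∀ z ∈ K, ‖MvPolynomial.eval (fun i => f i z) P‖ ≤ B) →
        ∀ w ∈ U, ‖MvPolynomial.eval (fun i => f i w) P‖ ≤ C ^ m * B) →
    ∃ (m : ℕ) (P : MvPolynomial κ ℂ), P ≠ 0 ∧ P.IsHomogeneous m ∧
      ∀ z ∈ Ω, MvPolynomial.eval (fun i => f i z) P = 0

/-- [Bnd] the estimate from the half planes -/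
def St_Bnd : Prop := ∀ (α β κ : Type) [Fintype α] [Fintype β] [Fintype κ] [DecidableEq α]
  [DecidableEq β] (K : Set (α × β → ℂ)) (C C' : ℝ) (k : ℕ) (N : (α × β → ℂ) → ℝ)
  (f : κ → (α × β → ℂ) → ℂ), IsCompact K → K ⊆ Om α β → ContinuousOn N (Om α β) →
  (∀ i, DifferentiableOn ℂ (f i) (Om α β)) →
  (∀ ρ : ℝ, 0 ≤ ρ → ρ < 1 → ∀ w ∈ OmC α β ρ, Real.exp (N w) * (1 - ρ) ^ k ≤ C' ∧
    ∀ i, ‖f i w‖ * (1 - ρ) ^ k ≤ C') →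
  (∀ p ∈ K, ∃ U ∈ nhds p, ∀ w ∈ U, ∃ z : ℂ → α × β → ℂ, z Complex.I = w ∧
    DifferentiableOn ℂ z {t | 0 < t.im} ∧ ContinuousOn z {t | 0 ≤ t.im} ∧
    (∀ t : ℂ, 0 ≤ t.im → ∃ ρ : ℝ, 0 ≤ ρ ∧ ρ < 1 ∧ z t ∈ OmC α β ρ ∧
      1 ≤ C * (1 - ρ) * (1 + ‖t‖) ^ 2) ∧
    ∀ t : ℝ, ∃ z' ∈ K, ∃ c : ℂ, ‖c‖ * Real.exp (N z') = Real.exp (N (z t)) ∧
      ∀ i, f i (z t) = c * f i z') →
  ∃ C₁ : ℝ, ∀ p ∈ K, ∃ U ∈ nhds p, ∀ (m : ℕ) (P : MvPolynomial κ ℂ), P.IsHomogeneous m →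
    ∀ B : ℝ, (∀ z ∈ K, ‖MvPolynomial.eval (fun i => f i z) P‖ ≤ B) →
      ∀ w ∈ U, ‖MvPolynomial.eval (fun i => f i w) P‖ ≤ C₁ ^ m * B

/-- [GrF] uniform bounds for the functions `F_x` and their derivatives -/
def St_GrF : Prop := ∀ (ι : Type) [Fintype ι] [DecidableEq ι] (L : Submodule ℤ (ι → ℂ))
  (χ θ : (ι → ℂ) → ℂ), PLat L χ → IsTh L χ θ → ∃ C : ℝ, 0 < C ∧ ∀ x v : ι → ℂ,
  ‖F θ x v‖ ≤ C * Real.exp (Real.pi / 2 * nq v) ∧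
  ∀ p, ‖pd p (F θ x) v‖ ≤ C * (1 + Real.sqrt (nq v)) * Real.exp (Real.pi / 2 * nq v)

/-- [Grw] growth of the Fock vectors -/
def St_Grw : Prop := ∀ (α β μ : Type) [Fintype α] [Fintype β] [Fintype μ] [DecidableEq α]
  [DecidableEq β] [DecidableEq μ] (L : Submodule ℤ (Ix α β μ → ℂ))
  (χ θ : (Ix α β μ → ℂ) → ℂ), PLat L χ → IsTh L χ θ → ∃ (C : ℝ) (k : ℕ), 0 < C ∧
  ∀ ρ : ℝ, 0 ≤ ρ → ρ < 1 → ∀ w ∈ OmC α β ρ, ∀ x, ‖psi θ w x‖ * (1 - ρ) ^ k ≤ C ∧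
    ∀ p, ‖dpsi p θ w x‖ * (1 - ρ) ^ k ≤ C

/-- [SieH] existence of an algebraic relation -/
def St_SieH : Prop := ∀ (α β μ : Type) [Fintype α] [Fintype β] [Fintype μ] [DecidableEq α]
  [DecidableEq β] [DecidableEq μ] (L : Submodule ℤ (Ix α β μ → ℂ))
  (χ θ : (Ix α β μ → ℂ) → ℂ) (e : ℕ) (k : μ)
  (y : Option (α × β) → Ix α β μ → ℂ) (x : α → Ix α β μ → ℂ) (x' : β → Ix α β μ → ℂ),
  PLat L χ → IsTh L χ θ → (∃ v, θ v ≠ 0) → CocH e L → (∀ i, OddTor L (y i)) →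
  (∀ i, OddTor L (x i)) → (∀ i, OddTor L (x' i)) →
  ∃ (m : ℕ) (P : MvPolynomial (Option (Option (α × β))) ℂ), P ≠ 0 ∧ P.IsHomogeneous m ∧
    ∀ w ∈ Om α β, MvPolynomial.eval (fun i => XF e k θ y x x' w i) P = 0

/-- [RelH] the algebraic relation -/
def St_RelH : Prop := ∀ (α β μ : Type) [Fintype α] [Fintype β] [Fintype μ] [DecidableEq α]
  [DecidableEq β] [DecidableEq μ] (L : Submodule ℤ (Ix α β μ → ℂ))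
  (χ θ : (Ix α β μ → ℂ) → ℂ) (e : ℕ) (k : μ)
  (y : Option (α × β) → Ix α β μ → ℂ) (x : α → Ix α β μ → ℂ) (x' : β → Ix α β μ → ℂ),
  PLat L χ → IsTh L χ θ → (∃ v, θ v ≠ 0) → CocH e L → (∀ i, OddTor L (y i)) →
  (∀ i, OddTor L (x i)) → (∀ i, OddTor L (x' i)) → psi θ 0 (y none) ≠ 0 →
  fp k θ 0 x ≠ 0 → fm k θ 0 x' ≠ 0 →
  (Matrix.of fun i j : Option (α × β) =>
    Option.elim j (F θ (y i) 0) fun p => Dij p (F θ (y i)) 0).det ≠ 0 →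
  ∃ (m : ℕ) (P : MvPolynomial (Option (Option (α × β))) ℂ), P.IsHomogeneous m ∧
    (∀ w ∈ Om α β, MvPolynomial.eval (fun i => XF e k θ y x x' w i) P = 0) ∧
    ∃ w ∈ Om α β, MvPolynomial.eval (fun i => XF e k θ y x x' w i)
      (MvPolynomial.pderiv none P) ≠ 0

/-- [CoreH] the core theorem -/
def St_CoreH : Prop := ∀ (α β μ : Type) [Fintype α] [Fintype β] [Fintype μ] [DecidableEq α]
  [DecidableEq β] [DecidableEq μ] (δ : Derivation ℚ ℂ ℂ) (g : Matrix (α ⊕ β) (α ⊕ β) ℂ)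
  (L₀ L₁ : Submodule ℤ (Ix α β μ → ℂ)) (χ₀ θ₀ χ₁ θ₁ : (Ix α β μ → ℂ) → ℂ)
  (e : ℕ) (k₀ k₁ : ℂ) (Bp₀ Bp₁ : Matrix α α ℂ) (Bm₀ Bm₁ : Matrix β β ℂ)
  (c₀ c₁ : Matrix α β ℂ), Nonempty μ → e ≠ 0 → PLat L₀ χ₀ → PLat L₁ χ₁ → IsTh L₀ χ₀ θ₀ →
  IsTh L₁ χ₁ θ₁ → (∃ v, θ₀ v ≠ 0) → (∃ v, θ₁ v ≠ 0) → Maps g L₁ L₀ χ₁ χ₀ → δ g.det = 0 →
  CocH e L₀ → HasHat δ L₀ θ₀ k₀ Bp₀ Bm₀ c₀ → HasHat δ L₁ θ₁ k₁ Bp₁ Bm₁ c₁ →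
  Bp₀.trace - Bm₀.trace = Bp₁.trace - Bm₁.trace

/-! ## Geometry of numbers -/

/-- [Rk] short vectors in all directions -/
def St_Rk : Prop := ∀ (α β : Type) [Fintype α] [Fintype β] [DecidableEq α] [DecidableEq β]
  (L : Submodule ℤ (Ix α β Unit → ℂ)) (χ : (Ix α β Unit → ℂ) → ℂ) (ε : ℝ), PLat L χ → 0 < ε →
  ∃ R : ℝ, ∀ g : Matrix (α ⊕ β) (α ⊕ β) ℂ, IsU g → Sh L g ε → ∀ u : Ix α β Unit → ℂ, u ≠ 0 →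
    ∃ x, act g x ∈ L ∧ nq x ≤ R ∧ (H x u).re ≠ 0

/-- [Gn] short generators -/
def St_Gn : Prop := ∀ (α β : Type) [Fintype α] [Fintype β] [DecidableEq α] [DecidableEq β]
  (L : Submodule ℤ (Ix α β Unit → ℂ)) (χ : (Ix α β Unit → ℂ) → ℂ) (ε : ℝ), PLat L χ → 0 < ε →
  ∃ (R : ℝ) (M : ℕ), ∀ g : Matrix (α ⊕ β) (α ⊕ β) ℂ, IsU g → Sh L g ε →
    ∃ b : Fin M → Ix α β Unit → ℂ, (∀ i, act g (b i) ∈ L ∧ nq (b i) ≤ R) ∧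
      ∀ x, act g x ∈ L → x ∈ Submodule.span ℤ (Set.range b)

/-- [DetK] determinants of automorphisms -/
def St_DetK : Prop := ∀ (α β : Type) [Fintype α] [Fintype β] [DecidableEq α] [DecidableEq β]
  (d : ℚ) (N : ℕ) (L : Submodule ℤ (Ix α β Unit → ℂ)) (χ : (Ix α β Unit → ℂ) → ℂ)
  (γ : Matrix (α ⊕ β) (α ⊕ β) ℂ), 0 < d → N ≠ 0 → PLat L χ → KL d N L → IsU γ →
  (∀ x : Ix α β Unit → ℂ, x ∈ L ↔ act γ x ∈ L) → γ.det ^ 12 = 1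

/-- [Ext] an isometry from Gram matrices -/
def St_Ext : Prop := ∀ (α β : Type) [Fintype α] [Fintype β] [DecidableEq α] [DecidableEq β]
  (d : ℚ) (N n M : ℕ) (L : Submodule ℤ (Ix α β Unit → ℂ)) (χ : (Ix α β Unit → ℂ) → ℂ)
  (b c : Fin M → Ix α β Unit → ℂ), 0 < d → N ≠ 0 → PLat L χ → KL d N L →
  Submodule.span ℤ (Set.range b) = L → Submodule.span ℤ (Set.range c) = L →
  (∀ i j, E (b i) (b j) = E (c i) (c j)) →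
  (∀ i j, E (act (kap α β d N) (b i)) (b j) = E (act (kap α β d N) (c i)) (c j)) →
  (∀ i, ∃ m ∈ L, c i = b i + (n : ℤ) • m) →
  ∃ γ : Matrix (α ⊕ β) (α ⊕ β) ℂ, IsU γ ∧ (∀ x : Ix α β Unit → ℂ, x ∈ L ↔ act γ x ∈ L) ∧
    (∀ l ∈ L, ∃ m ∈ L, act γ l = l + (n : ℤ) • m) ∧ ∀ i, act γ (b i) = c i

/-- [Bdf] a matrix of the group is bounded by its values on generators of the dual lattice -/
def St_Bdf : Prop := ∀ (α β : Type) [Fintype α] [Fintype β] [DecidableEq α] [DecidableEq β]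
  (M : ℕ) (L : Submodule ℤ (Ix α β Unit → ℂ)) (χ : (Ix α β Unit → ℂ) → ℂ)
  (f : Fin M → Ix α β Unit → ℂ), PLat L χ → Submodule.span ℤ (Set.range f) = L →
  ∃ C : ℝ, 0 ≤ C ∧ ∀ (g : Matrix (α ⊕ β) (α ⊕ β) ℂ) (b : Fin M → Ix α β Unit → ℂ) (R : ℝ),
    IsU g → (∀ i, nq (b i) ≤ R) → (∀ i, act g (b i) = f i) → ∀ i j, ‖g i j‖ ^ 2 ≤ C * R

/-- [Mah] reduction theory: Mahler's criterion, with congruence subgroups -/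
def St_Mah : Prop := ∀ (α β : Type) [Fintype α] [Fintype β] [DecidableEq α] [DecidableEq β]
  (d : ℚ) (N n : ℕ) (L : Submodule ℤ (Ix α β Unit → ℂ)) (χ : (Ix α β Unit → ℂ) → ℂ) (ε : ℝ),
  0 < d → N ≠ 0 → n ≠ 0 → PLat L χ → KL d N L → 0 < ε → ∃ R : ℝ,
  ∀ g : Matrix (α ⊕ β) (α ⊕ β) ℂ, IsU g → Sh L g ε → ∃ γ : Matrix (α ⊕ β) (α ⊕ β) ℂ,
    Gam 12 n L γ ∧ ∀ i j, ‖(γ * g) i j‖ ≤ R

/-- [Gap] the gap in the sequence of the minima -/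
def St_Gap : Prop := ∀ (α β : Type) [Fintype α] [Fintype β] [DecidableEq α] [DecidableEq β]
  (d : ℚ) (N : ℕ), 0 < d → N ≠ 0 → ∃ ε₀ : ℝ, 0 < ε₀ ∧ ∀ ε : ℝ, 0 < ε → ε ≤ ε₀ →
  ∀ L : Submodule ℤ (Ix α β Unit → ℂ), (∀ x ∈ L, ∀ y ∈ L, ∃ k : ℤ, E x y = k) → KL d N L →
  ∃ P : Matrix (α ⊕ β) (α ⊕ β) ℂ, IsoP P ∧
    ∀ x ∈ L, act P x = x ∨ (2 * ε) ^ 2 ≤ nq (act (1 - P) x)

/-- [Trv] algebra of the half plane attached to a cusp -/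
def St_Trv : Prop := ∀ (α β : Type) [Fintype α] [Fintype β] [DecidableEq α] [DecidableEq β]
  (P : Matrix (α ⊕ β) (α ⊕ β) ℂ), IsoP P →
  (∀ t : ℂ, (Bt P t).conjTranspose * Jm α β * Bt P t =
    Jm α β - ((6 * t.im : ℝ) : ℂ) • (Jm α β * P * Jm α β)) ∧
  ((Bt P Complex.I).toBlocks₁₂ = 0 ∧ IsUnit (Bt P Complex.I).toBlocks₂₂.det) ∧
  (∀ t : ℝ, IsU (Bt P t)) ∧
  ∀ (t ε : ℝ) (x : Ix α β Unit → ℂ), 0 < ε → (ε / 2) ^ 2 ≤ nq (act (Bt P t) x) →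
    (act P (act (Bt P t) x) = act (Bt P t) x ∨
      (2 * ε) ^ 2 ≤ nq (act (1 - P) (act (Bt P t) x))) → ε ^ 2 ≤ nq x

/-- [Zt] the half plane in the domain -/
def St_Zt : Prop := ∀ (α β : Type) [Fintype α] [Fintype β] [DecidableEq α] [DecidableEq β]
  (R : ℝ), ∃ C : ℝ, ∀ g P : Matrix (α ⊕ β) (α ⊕ β) ℂ, IsU g → (∀ i j, ‖g i j‖ ≤ R) →
  IsoP P → mob (g * Bt P Complex.I) 0 = mob g 0 ∧
    DifferentiableOn ℂ (fun t => mob (g * Bt P t) 0) {t | 0 < t.im} ∧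
    ContinuousOn (fun t => mob (g * Bt P t) 0) {t | 0 ≤ t.im} ∧
    ∀ t : ℂ, 0 ≤ t.im → ∃ ρ : ℝ, 0 ≤ ρ ∧ ρ < 1 ∧ mob (g * Bt P t) 0 ∈ OmC α β ρ ∧
      1 ≤ C * (1 - ρ) * (1 + ‖t‖) ^ 2

/-- [Op2] elements of the group near the maximal compact subgroup -/
def St_Op2 : Prop := ∀ (α β : Type) [Fintype α] [Fintype β] [DecidableEq α] [DecidableEq β]
  (h : Matrix (α ⊕ β) (α ⊕ β) ℂ), IsU h → mob h 0 ∈ OmC α β (1 / 4) →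
  (∀ x : Ix α β Unit → ℂ, nq (act h x) ≤ 4 * nq x) ∧ ∀ i j, ‖h i j‖ ≤ 2

/-- [Cpt] the compact set and its neighbourhoods -/
def St_Cpt : Prop := ∀ (α β : Type) [Fintype α] [Fintype β] [DecidableEq α] [DecidableEq β]
  (L : Submodule ℤ (Ix α β Unit → ℂ)) (χ : (Ix α β Unit → ℂ) → ℂ) (ε R : ℝ), PLat L χ →
  0 < ε → IsCompact (Kc L ε R) ∧ Kc L ε R ⊆ Om α β ∧ ∃ R' : ℝ, ∀ p ∈ Kc L ε R,
    ∃ U ∈ nhds p, U ⊆ Kc L (ε / 2) R'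

/-- [CocK] cocompactness up to half planes -/
def St_CocK : Prop := ∀ (α β : Type) [Fintype α] [Fintype β] [DecidableEq α] [DecidableEq β]
  (d : ℚ) (N : ℕ) (L : Submodule ℤ (Ix α β Unit → ℂ)) (χ : (Ix α β Unit → ℂ) → ℂ), 0 < d →
  N ≠ 0 → PLat L χ → KL d N L → CocH 12 L

end DWC
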