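import Mathlib
import Pool.Agent.DWC.StG

/-!
# DWC / Cpt: the compact set and its neighbourhoods

Module of helper26, written by helper8.
-/

set_option autoImplicit false

namespace DWC

open scoped ComplexConjugate
open GAM (H E F pd pdl PLat IsTh OddTor IsDel Gro IsLat)
open PST

section

variable {α β : Type} [Fintype α] [Fintype β] [DecidableEq α] [DecidableEq β]

omit [DecidableEq α] [DecidableEq β] in
private theorem Cpt_nq (A : Matrix (α ⊕ β) (α ⊕ β) ℂ) (x : Ix α β Unit → ℂ) :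
    nq (act A x) = ∑ p : Ix α β Unit, ‖∑ q, A p.1 q * sw x (q, p.2)‖ ^ 2 := by
  unfold nq act
  refine Finset.sum_congr rfl fun p _ => ?_
  obtain ⟨i | j, u⟩ := p
  · rfl
  · show ‖conj (mu A (sw x) (Sum.inr j, u))‖ ^ 2 = _
    rw [RCLike.norm_conj]
    rfl

private theorem Cpt_cont (x : Ix α β Unit → ℂ) :
    Continuous fun g : Matrix (α ⊕ β) (α ⊕ β) ℂ =>
      nq (act (Jm α β * g.conjTranspose * Jm α β) x) := by
  simp_rw [Cpt_nq]
  refine continuous_finsetSum _ fun p _ => ?_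
  refine Continuous.pow (Continuous.norm (continuous_finsetSum _ fun q _ => ?_)) 2
  refine Continuous.mul ?_ continuous_const
  exact Continuous.matrix_elem (Continuous.matrix_mul (Continuous.matrix_mul continuous_const
    (Continuous.matrix_conjTranspose continuous_id)) continuous_const) _ _

omit [Fintype α] [Fintype β] [DecidableEq α] [DecidableEq β] in
private theorem Cpt_bdd (R : ℝ) : IsCompact {g : Matrix (α ⊕ β) (α ⊕ β) ℂ |
    ∀ i j, ‖g i j‖ ≤ R} := by
  have h := isCompact_univ_pi (X := fun _ : α ⊕ β => α ⊕ β → ℂ)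
    (s := fun _ => Set.pi Set.univ fun _ => Metric.closedBall (0 : ℂ) R)
    (fun _ => isCompact_univ_pi fun _ => isCompact_closedBall (0 : ℂ) R)
  have e : {g : Matrix (α ⊕ β) (α ⊕ β) ℂ | ∀ i j, ‖g i j‖ ≤ R} =
      Set.pi Set.univ fun _ : α ⊕ β => Set.pi Set.univ fun _ : α ⊕ β =>
        Metric.closedBall (0 : ℂ) R := by
    ext g
    constructor
    · intro hg i _ j _
      rw [mem_closedBall_zero_iff]
      exact hg i j
    · intro hg i j
      have := hg i trivial j trivial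
      rwa [mem_closedBall_zero_iff] at this
  rw [e]
  exact h

/-- `act g x = l` means `x = act g⁻¹ l` -/
private theorem Cpt_inv (h2 : St_UGr) {g : Matrix (α ⊕ β) (α ⊕ β) ℂ} (hg : IsU g)
    (x : Ix α β Unit → ℂ) : act (Jm α β * g.conjTranspose * Jm α β) (act g x) = x ∧
      act g (act (Jm α β * g.conjTranspose * Jm α β) x) = x := by
  obtain ⟨-, hmul, hone, -, -, hi, -⟩ := h2 α β Unit
  obtain ⟨-, e1, e2, -, -⟩ := hi g hg
  constructor
  · rw [← hmul, e1, hone]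
  · rw [← hmul, e2, hone]

private theorem Cpt_zero (h2 : St_UGr) (g : Matrix (α ⊕ β) (α ⊕ β) ℂ) :
    act g (0 : Ix α β Unit → ℂ) = 0 := by
  have h := ((h2 α β Unit).2.2.2.1 g 0 0 0).2
  simpa using h

private theorem Cpt_Sh (h2 : St_UGr) (L : Submodule ℤ (Ix α β Unit → ℂ)) (ε : ℝ)
    {g : Matrix (α ⊕ β) (α ⊕ β) ℂ} (hg : IsU g) :
    Sh L g ε ↔ ∀ l ∈ L, l ≠ 0 → ε ^ 2 ≤ nq (act (Jm α β * g.conjTranspose * Jm α β) l) := by
  constructor
  · intro h l hl hl0
    refine h _ ?_ ?_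
    · intro h0
      apply hl0
      rw [← (Cpt_inv h2 hg l).2, h0, Cpt_zero h2]
    · rw [(Cpt_inv h2 hg l).2]
      exact hl
  · intro h x hx hxL
    have := h _ hxL ?_
    · rwa [(Cpt_inv h2 hg x).1] at this
    · intro h0
      apply hx
      rw [← (Cpt_inv h2 hg x).1, h0, Cpt_zero h2]

/-- the compact set of matrices -/
private theorem Cpt_set (h2 : St_UGr) (L : Submodule ℤ (Ix α β Unit → ℂ)) (ε R : ℝ) :
    IsCompact {g : Matrix (α ⊕ β) (α ⊕ β) ℂ | IsU g ∧ (∀ i j, ‖g i j‖ ≤ R) ∧ Sh L g ε} := by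
  have e : {g : Matrix (α ⊕ β) (α ⊕ β) ℂ | IsU g ∧ (∀ i j, ‖g i j‖ ≤ R) ∧ Sh L g ε} =
      {g : Matrix (α ⊕ β) (α ⊕ β) ℂ | ∀ i j, ‖g i j‖ ≤ R} ∩
        ({g | g.conjTranspose * Jm α β * g = Jm α β} ∩
          ⋂ l : {l : Ix α β Unit → ℂ // l ∈ L ∧ l ≠ 0},
            {g | ε ^ 2 ≤ nq (act (Jm α β * g.conjTranspose * Jm α β) l.1)}) := by
    ext g
    constructor
    · rintro ⟨hU, hR, hS⟩
      refine ⟨hR, hU, ?_⟩
      rw [Set.mem_iInter]
      intro l
      exact (Cpt_Sh h2 L ε hU).1 hS l.1 l.2.1 l.2.2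
    · rintro ⟨hR, hU, hS⟩
      refine ⟨hU, hR, (Cpt_Sh h2 L ε hU).2 ?_⟩
      rw [Set.mem_iInter] at hS
      intro l hl hl0
      exact hS ⟨l, hl, hl0⟩
  rw [e]
  refine (Cpt_bdd R).inter_right (IsClosed.inter ?_ ?_)
  · exact isClosed_eq (Continuous.matrix_mul (Continuous.matrix_mul
      (Continuous.matrix_conjTranspose continuous_id) continuous_const) continuous_id)
      continuous_const
  · exact isClosed_iInter fun l => isClosed_le continuous_const (Cpt_cont l.1)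

omit [DecidableEq α] in
/-- continuity of the action in both variables, as a function of the matrix and the point -/
private theorem Cpt_mob (s : Set ((Matrix (α ⊕ β) (α ⊕ β) ℂ) × (α × β → ℂ)))
    (hs : ∀ x ∈ s, IsUnit (cd x.1 x.2).det) : ContinuousOn (fun x => mob x.1 x.2) s := by
  have hm : Continuous fun x : (Matrix (α ⊕ β) (α ⊕ β) ℂ) × (α × β → ℂ) => PST.mt x.2 := by
    refine continuous_matrix fun i j => ?_
    exact (continuous_apply (i, j)).comp continuous_snd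
  have b11 : Continuous fun x : (Matrix (α ⊕ β) (α ⊕ β) ℂ) × (α × β → ℂ) => x.1.toBlocks₁₁ :=
    continuous_matrix fun i j => Continuous.matrix_elem continuous_fst _ _
  have b12 : Continuous fun x : (Matrix (α ⊕ β) (α ⊕ β) ℂ) × (α × β → ℂ) => x.1.toBlocks₁₂ :=
    continuous_matrix fun i j => Continuous.matrix_elem continuous_fst _ _
  have b21 : Continuous fun x : (Matrix (α ⊕ β) (α ⊕ β) ℂ) × (α × β → ℂ) => x.1.toBlocks₂₁ :=
    continuous_matrix fun i j => Continuous.matrix_elem continuous_fst _ _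
  have b22 : Continuous fun x : (Matrix (α ⊕ β) (α ⊕ β) ℂ) × (α × β → ℂ) => x.1.toBlocks₂₂ :=
    continuous_matrix fun i j => Continuous.matrix_elem continuous_fst _ _
  have hcd : Continuous fun x : (Matrix (α ⊕ β) (α ⊕ β) ℂ) × (α × β → ℂ) => cd x.1 x.2 :=
    (b21.matrix_mul hm).add b22
  have hN : Continuous fun x : (Matrix (α ⊕ β) (α ⊕ β) ℂ) × (α × β → ℂ) =>
      x.1.toBlocks₁₁ * PST.mt x.2 + x.1.toBlocks₁₂ := (b11.matrix_mul hm).add b12
  have key : ContinuousOn (fun x : (Matrix (α ⊕ β) (α ⊕ β) ℂ) × (α × β → ℂ) =>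
      fun p : α × β => ((cd x.1 x.2).det)⁻¹ *
        ((x.1.toBlocks₁₁ * PST.mt x.2 + x.1.toBlocks₁₂) * (cd x.1 x.2).adjugate) p.1 p.2) s := by
    rw [continuousOn_pi]
    intro p
    refine ContinuousOn.mul ?_ ?_
    · refine ContinuousOn.inv₀ (Continuous.matrix_det hcd).continuousOn fun x hx => ?_
      exact (hs x hx).ne_zero
    · exact (Continuous.matrix_elem (hN.matrix_mul (Continuous.matrix_adjugate hcd)) _ _
        ).continuousOn
  refine key.congr fun x hx => ?_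
  funext p
  show ((x.1.toBlocks₁₁ * PST.mt x.2 + x.1.toBlocks₁₂) * (cd x.1 x.2)⁻¹) p.1 p.2 = _
  rw [Matrix.inv_def, Matrix.mul_smul, Matrix.smul_apply, Ring.inverse_eq_inv', smul_eq_mul]

omit [DecidableEq α] [DecidableEq β] in
/-- small matrices -/
private theorem Cpt_small {ρ : ℝ} (hρ : 0 < ρ) : OmC α β ρ ∈ nhds (0 : α × β → ℂ) := by
  set n : ℝ := (Fintype.card α : ℝ) * (Fintype.card β : ℝ) + 1 with hn
  have hn0 : 0 < n := by positivity
  have hδ : 0 < ρ / n := by positivity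
  refine Filter.mem_of_superset (Metric.ball_mem_nhds (0 : α × β → ℂ) hδ) ?_
  intro w hw y
  have hw' : ∀ p, ‖w p‖ ≤ ρ / n := by
    intro p
    have h1 := norm_le_pi_norm w p
    have h2 : ‖w‖ < ρ / n := by simpa using hw
    linarith
  have hy : ∀ i, ‖∑ j, w (i, j) * y j‖ ^ 2 ≤
      (ρ / n) ^ 2 * (Fintype.card β * ∑ j, ‖y j‖ ^ 2) := by
    intro i
    have h1 : ‖∑ j, w (i, j) * y j‖ ≤ (ρ / n) * ∑ j, ‖y j‖ := by
      refine (norm_sum_le _ _).trans ?_
      rw [Finset.mul_sum]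
      refine Finset.sum_le_sum fun j _ => ?_
      rw [norm_mul]
      exact mul_le_mul_of_nonneg_right (hw' _) (norm_nonneg _)
    have h2 : (∑ j, ‖y j‖) ^ 2 ≤ (Fintype.card β : ℝ) * ∑ j, ‖y j‖ ^ 2 := by
      have := sq_sum_le_card_mul_sum_sq (s := (Finset.univ : Finset β)) (f := fun j => ‖y j‖)
      simpa using this
    calc ‖∑ j, w (i, j) * y j‖ ^ 2 ≤ ((ρ / n) * ∑ j, ‖y j‖) ^ 2 :=
          pow_le_pow_left₀ (norm_nonneg _) h1 2
      _ = (ρ / n) ^ 2 * (∑ j, ‖y j‖) ^ 2 := by ring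
      _ ≤ _ := mul_le_mul_of_nonneg_left h2 (by positivity)
  have hS : 0 ≤ ∑ j, ‖y j‖ ^ 2 := by positivity
  calc ∑ i, ‖∑ j, w (i, j) * y j‖ ^ 2
      ≤ ∑ _i : α, (ρ / n) ^ 2 * (Fintype.card β * ∑ j, ‖y j‖ ^ 2) :=
        Finset.sum_le_sum fun i _ => hy i
    _ = (Fintype.card α : ℝ) * Fintype.card β * (ρ / n) ^ 2 * ∑ j, ‖y j‖ ^ 2 := by
        rw [Finset.sum_const, Finset.card_univ, nsmul_eq_mul]
        ring
    _ ≤ ρ ^ 2 * ∑ j, ‖y j‖ ^ 2 := by
        refine mul_le_mul_of_nonneg_right ?_ hS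
        have e : (Fintype.card α : ℝ) * Fintype.card β * (ρ / n) ^ 2 =
            ρ ^ 2 * ((n - 1) / n ^ 2) := by
          rw [hn]
          field_simp
          ring
        rw [e]
        have h3 : (n - 1) / n ^ 2 ≤ 1 := by
          rw [div_le_one (by positivity)]
          nlinarith
        nlinarith [sq_nonneg ρ]

end

theorem thm_Cpt (h1 : St_Op2) (h2 : St_UGr) (h3 : St_UAl) (h4 : St_UTr) (h5 : St_OmT) :
    St_Cpt := by
  intro α β _ _ _ _ L χ ε R _ hε
  obtain ⟨hopen, -, h0, -, -, -⟩ := h5 α β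
  have hsub : Kc L ε R ⊆ Om α β := by
    rintro w ⟨g, hg, -, -, rfl⟩
    exact (h3 α β Unit g hg 0 h0).1
  have himg : Kc L ε R = (fun g : Matrix (α ⊕ β) (α ⊕ β) ℂ => mob g 0) ''
      {g | IsU g ∧ (∀ i j, ‖g i j‖ ≤ R) ∧ Sh L g ε} := by
    ext w
    constructor
    · rintro ⟨g, a, b, c, d⟩
      exact ⟨g, ⟨a, b, c⟩, d⟩
    · rintro ⟨g, ⟨a, b, c⟩, d⟩
      exact ⟨g, a, b, c, d⟩
  refine ⟨?_, hsub, ?_⟩
  · rw [himg]
    refine (Cpt_set h2 L ε R).image_of_continuousOn ?_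
    have hc := Cpt_mob (α := α) (β := β) {x | IsU x.1 ∧ x.2 = 0} (by
      rintro ⟨g, w⟩ ⟨hg, hw⟩
      simp only at hg hw
      subst hw
      exact (h3 α β Unit g hg 0 h0).2.1)
    refine hc.comp (f := fun g : Matrix (α ⊕ β) (α ⊕ β) ℂ => (g, (0 : α × β → ℂ))) ?_ ?_
    · exact (Continuous.prodMk continuous_id continuous_const).continuousOn
    · intro g hg
      exact ⟨hg.1, rfl⟩
  · set n : ℝ := (Fintype.card (α ⊕ β) : ℝ) with hn
    refine ⟨n * (|R| * 2), ?_⟩
    rintro p ⟨g, hg, hgR, hgS, hgp⟩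
    obtain ⟨-, hmul, hone, -, hUmul, hinv, -⟩ := h2 α β Unit
    obtain ⟨hg', e1, e2, -, -⟩ := hinv g hg
    set g' := Jm α β * g.conjTranspose * Jm α β with hg'def
    have hp : p ∈ Om α β := by rw [← hgp]; exact (h3 α β Unit g hg 0 h0).1
    have hmobone : ∀ w : α × β → ℂ, mob (1 : Matrix (α ⊕ β) (α ⊕ β) ℂ) w = w := by
      intro w
      funext q
      have a1 : (1 : Matrix (α ⊕ β) (α ⊕ β) ℂ).toBlocks₁₁ = 1 := by
        ext i j; simp [Matrix.toBlocks₁₁, Matrix.one_apply]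
      have a2 : (1 : Matrix (α ⊕ β) (α ⊕ β) ℂ).toBlocks₁₂ = 0 := by
        ext i j; simp [Matrix.toBlocks₁₂]
      have a3 : (1 : Matrix (α ⊕ β) (α ⊕ β) ℂ).toBlocks₂₁ = 0 := by
        ext i j; simp [Matrix.toBlocks₂₁]
      have a4 : (1 : Matrix (α ⊕ β) (α ⊕ β) ℂ).toBlocks₂₂ = 1 := by
        ext i j; simp [Matrix.toBlocks₂₂, Matrix.one_apply]
      simp [mob, a1, a2, a3, a4, PST.mt]
    -- `mob g' p = 0`
    have hgp0 : mob g' p = 0 := by
      rw [← hgp, ← (h3 α β Unit g hg 0 h0).2.2.2.2.2.2.2 g' hg', e1, hmobone]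
    have hcont : ContinuousAt (fun w => mob g' w) p := by
      have hc := Cpt_mob (α := α) (β := β) {x | x.1 = g' ∧ x.2 ∈ Om α β} (by
        rintro ⟨a, w⟩ ⟨ha, hw⟩
        simp only at ha hw
        subst ha
        exact (h3 α β Unit _ hg' w hw).2.1)
      have hc2 : ContinuousOn (fun w => mob g' w) (Om α β) := by
        refine hc.comp (f := fun w : α × β → ℂ => (g', w)) ?_ ?_
        · exact (Continuous.prodMk continuous_const continuous_id).continuousOn
        · intro w hw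
          exact ⟨rfl, hw⟩
      exact hc2.continuousAt (hopen.mem_nhds hp)
    have hU1 : {w | mob g' w ∈ OmC α β (1 / 4)} ∈ nhds p := by
      apply hcont
      show OmC α β (1 / 4) ∈ nhds (mob g' p)
      rw [hgp0]
      exact Cpt_small (by norm_num)
    refine ⟨{w | mob g' w ∈ OmC α β (1 / 4)} ∩ Om α β,
      Filter.inter_mem hU1 (hopen.mem_nhds hp), ?_⟩
    rintro w ⟨hw1, hw2⟩
    have hw3 : mob g' w ∈ Om α β := (h3 α β Unit g' hg' w hw2).1
    obtain ⟨h, hh, hhw⟩ := h4 α β (mob g' w) hw3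
    have hh4 : mob h 0 ∈ OmC α β (1 / 4) := by rw [hhw]; exact hw1
    obtain ⟨b1, b2⟩ := h1 α β h hh hh4
    refine ⟨g * h, hUmul g h hg hh, ?_, ?_, ?_⟩
    · intro i j
      rw [Matrix.mul_apply]
      refine (norm_sum_le _ _).trans ?_
      have : ∀ k ∈ (Finset.univ : Finset (α ⊕ β)), ‖g i k * h k j‖ ≤ |R| * 2 := by
        intro k _
        rw [norm_mul]
        exact mul_le_mul ((hgR i k).trans (le_abs_self R)) (b2 k j) (norm_nonneg _)
          (abs_nonneg R)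
      refine (Finset.sum_le_sum this).trans ?_
      rw [Finset.sum_const, Finset.card_univ, nsmul_eq_mul]
    · intro x hx hxL
      have hx1 : act h x ≠ 0 := by
        intro hx0
        apply hx
        rw [← (Cpt_inv h2 hh x).1, hx0, Cpt_zero h2]
      rw [hmul] at hxL
      have h5 := hgS _ hx1 hxL
      have h6 := b1 x
      nlinarith
    · rw [(h3 α β Unit h hh 0 h0).2.2.2.2.2.2.2 g hg, hhw,
        ← (h3 α β Unit g' hg' w hw2).2.2.2.2.2.2.2 g hg, e2, hmobone]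

end DWC
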