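import Pool.Agent.DWC.StG
import Pool.Agent.PST.UGr

/-!
# DWC: determinants of automorphisms of lattices over an imaginary quadratic order
-/

set_option autoImplicit false

namespace DWC

open scoped ComplexConjugate
open GAM (H E F pd pdl PLat IsTh OddTor IsDel Gro IsLat)
open PST
open Module

section DetK

variable {ι : Type} [Fintype ι] [DecidableEq ι]

/-- the determinant of a matrix preserving a lattice is integral -/
private theorem DetK_int (g : Matrix ι ι ℂ) (Λ : Submodule ℤ (ι → ℂ)) [Module.Finite ℤ Λ]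
    (hsp : Submodule.span ℂ (Λ : Set (ι → ℂ)) = ⊤)
    (hg : ∀ x ∈ Λ, g.mulVec x ∈ Λ) : IsIntegral ℤ g.det := by
  classical
  let T : Module.End ℤ Λ :=
    { toFun := fun x => ⟨g.mulVec x, hg x x.2⟩
      map_add' := fun x y => Subtype.ext (by
        show g.mulVec ((x : ι → ℂ) + y) = g.mulVec x + g.mulVec y
        rw [Matrix.mulVec_add])
      map_smul' := fun m x => Subtype.ext (by
        show g.mulVec (m • (x : ι → ℂ)) = m • g.mulVec x
        exact Matrix.mulVec_smul g m (x : ι → ℂ)) }
  obtain ⟨p, hp, hp0⟩ := (Module.End.isIntegral (R := ℤ) (M := Λ)).isIntegral T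
  have hpow : ∀ (k : ℕ) (x : Λ), (((T ^ k) x : Λ) : ι → ℂ) = (g ^ k).mulVec x := by
    intro k
    induction k with
    | zero => intro x; simp
    | succ k ih =>
      intro x
      rw [pow_succ', Module.End.mul_apply]
      show g.mulVec (((T ^ k) x : Λ) : ι → ℂ) = _
      rw [ih, pow_succ', Matrix.mulVec_mulVec]
  have hae : ∀ (q : Polynomial ℤ) (x : Λ),
      (((Polynomial.aeval T q) x : Λ) : ι → ℂ) = (Polynomial.aeval g q).mulVec x := by
    intro q
    induction q using Polynomial.induction_on' with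
    | add p q hp hq =>
      intro x
      rw [map_add, map_add, LinearMap.add_apply, Submodule.coe_add, hp, hq, Matrix.add_mulVec]
    | monomial n a =>
      intro x
      rw [Polynomial.aeval_monomial, Polynomial.aeval_monomial, Module.End.mul_apply,
        Module.algebraMap_end_apply, Submodule.coe_smul, hpow, ← Algebra.smul_def,
        Matrix.smul_mulVec]
  have h1 : Polynomial.aeval g p = 0 := by
    have h2 : ∀ x : ι → ℂ, (Polynomial.aeval g p).mulVec x = 0 := by
      intro x
      have hx : x ∈ Submodule.span ℂ (Λ : Set (ι → ℂ)) := by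
        rw [hsp]
        exact Submodule.mem_top
      induction hx using Submodule.span_induction with
      | mem y hy =>
        rw [← hae p ⟨y, hy⟩]
        have h3 : Polynomial.aeval T p = 0 := hp0
        rw [h3]
        rfl
      | zero => rw [Matrix.mulVec_zero]
      | add y z _ _ hy hz => rw [Matrix.mulVec_add, hy, hz, add_zero]
      | smul a y _ hy => rw [Matrix.mulVec_smul, hy, smul_zero]
    ext i j
    have h3 := congrFun (h2 (Pi.single j 1)) i
    rw [Matrix.mulVec_single_one] at h3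
    exact h3
  rw [Matrix.det_eq_prod_roots_charpoly]
  refine IsIntegral.multiset_prod fun μ hμ => ?_
  have hroot : g.charpoly.IsRoot μ := (Polynomial.mem_roots'.1 hμ).2
  have hs := Matrix.mem_spectrum_of_isRoot_charpoly hroot
  have h2 := spectrum.subset_polynomial_aeval g (p.map (Int.castRingHom ℂ)) ⟨μ, hs, rfl⟩
  have h3 : Polynomial.aeval g (p.map (Int.castRingHom ℂ)) = 0 := by
    rw [← h1]
    exact Polynomial.aeval_map_algebraMap ℂ g p
  have hne : Nontrivial (Matrix ι ι ℂ) := by
    by_contra hn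
    rw [not_nontrivial_iff_subsingleton] at hn
    have h5 : IsEmpty ι := by
      by_contra hne
      rw [not_isEmpty_iff] at hne
      obtain ⟨i⟩ := hne
      have h6 := congrFun (congrFun (Subsingleton.elim (1 : Matrix ι ι ℂ) 0) i) i
      rw [Matrix.one_apply_eq, Matrix.zero_apply] at h6
      exact one_ne_zero h6
    rw [Matrix.charpoly_isEmpty] at hroot
    simp at hroot
  rw [h3, spectrum.zero_eq] at h2
  refine ⟨p, hp, ?_⟩
  have h4 : Polynomial.eval μ (p.map (Int.castRingHom ℂ)) = 0 := h2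
  rw [Polynomial.eval_map] at h4
  exact h4

private theorem DetK_conj_zd (d : ℚ) : conj (zd d) = -zd d := by
  unfold zd
  rw [map_mul, Complex.conj_ofReal, Complex.conj_I, mul_neg]

private theorem DetK_sq {d : ℚ} (hd : 0 < d) : zd d * zd d = -(d : ℂ) := by
  unfold zd
  have h1 : (0 : ℝ) ≤ (d : ℝ) := by exact_mod_cast hd.le
  have h2 : ((Real.sqrt (d : ℝ) : ℝ) : ℂ) * ((Real.sqrt (d : ℝ) : ℝ) : ℂ) = ((d : ℝ) : ℂ) := by
    rw [← Complex.ofReal_mul, Real.mul_self_sqrt h1]
  have h3 : ((d : ℝ) : ℂ) = (d : ℂ) := by norm_cast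
  calc ((Real.sqrt (d : ℝ) : ℂ) * Complex.I) * ((Real.sqrt (d : ℝ) : ℂ) * Complex.I)
      = ((Real.sqrt (d : ℝ) : ℂ) * (Real.sqrt (d : ℝ) : ℂ)) * (Complex.I * Complex.I) := by ring
    _ = -(d : ℂ) := by rw [h2, Complex.I_mul_I, h3]; ring

private theorem DetK_re (d : ℚ) : (zd d).re = 0 := by
  unfold zd
  simp

private theorem DetK_im {d : ℚ} (hd : 0 < d) : (zd d).im ≠ 0 := by
  unfold zd
  have h1 : (0 : ℝ) < (d : ℝ) := by exact_mod_cast hd
  simpa using (Real.sqrt_pos.2 h1).ne'

/-- `ℚ + ℚ i √d` -/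
private noncomputable def DetK_S (d : ℚ) (hd : 0 < d) : Subring ℂ where
  carrier := {z | ∃ a b : ℚ, z = a + b * zd d}
  mul_mem' := by
    rintro _ _ ⟨a, b, rfl⟩ ⟨a', b', rfl⟩
    refine ⟨a * a' - b * b' * d, a * b' + b * a', ?_⟩
    push_cast
    linear_combination (b * b' : ℂ) * DetK_sq hd
  one_mem' := ⟨1, 0, by push_cast; ring⟩
  add_mem' := by
    rintro _ _ ⟨a, b, rfl⟩ ⟨a', b', rfl⟩
    exact ⟨a + a', b + b', by push_cast; ring⟩
  zero_mem' := ⟨0, 0, by push_cast; ring⟩
  neg_mem' := by
    rintro _ ⟨a, b, rfl⟩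
    exact ⟨-a, -b, by push_cast; ring⟩

private theorem DetK_zero {d : ℚ} (hd : 0 < d) {a b : ℚ} (h : (a : ℂ) + b * zd d = 0) :
    a = 0 ∧ b = 0 := by
  have h1 := congrArg Complex.im h
  have h2 := congrArg Complex.re h
  have h3 : ((b : ℂ) * zd d).im = (b : ℝ) * (zd d).im := by
    have : (b : ℂ) = ((b : ℝ) : ℂ) := by norm_cast
    rw [this, Complex.im_ofReal_mul]
  have h4 : ((b : ℂ) * zd d).re = (b : ℝ) * (zd d).re := by
    have : (b : ℂ) = ((b : ℝ) : ℂ) := by norm_cast
    rw [this, Complex.re_ofReal_mul]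
  have h5 : ((a : ℂ)).im = 0 := by
    have : (a : ℂ) = ((a : ℝ) : ℂ) := by norm_cast
    rw [this, Complex.ofReal_im]
  have h6 : ((a : ℂ)).re = a := by
    have : (a : ℂ) = ((a : ℝ) : ℂ) := by norm_cast
    rw [this, Complex.ofReal_re]
  rw [Complex.add_im, h3, h5, Complex.zero_im, zero_add] at h1
  rw [Complex.add_re, h4, h6, Complex.zero_re, DetK_re, mul_zero, add_zero] at h2
  refine ⟨by exact_mod_cast h2, ?_⟩
  rcases mul_eq_zero.1 h1 with h | h
  · exact_mod_cast h
  · exact absurd h (DetK_im hd)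

/-- the determinant of a matrix preserving a vector space over `ℚ (i √d)` -/
private theorem DetK_fld {κ : Type} [Fintype κ] (d : ℚ) (hd : 0 < d) (g : Matrix ι ι ℂ)
    (u : κ → ι → ℂ) (hcard : Fintype.card κ = 2 * Fintype.card ι)
    (hsp : Submodule.span ℂ (Set.range u) = ⊤)
    (hz : ∀ x ∈ Submodule.span ℚ (Set.range u), zd d • x ∈ Submodule.span ℚ (Set.range u))
    (hg : ∀ x ∈ Submodule.span ℚ (Set.range u), g.mulVec x ∈ Submodule.span ℚ (Set.range u)) :
    ∃ a b : ℚ, g.det = a + b * zd d := by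
  classical
  obtain ⟨s, hs1, hs2, hs3⟩ := exists_linearIndependent ℂ (Set.range u)
  have hfin : Finite s := (Set.finite_range u).subset hs1
  have : Fintype s := Fintype.ofFinite s
  let B : Basis s ℂ (ι → ℂ) := Basis.mk hs3 (by
    rw [Subtype.range_coe_subtype, Set.ofPred_mem_eq, hs2, hsp])
  have hB : ∀ i, B i = (i : ι → ℂ) := fun i => by
    simp only [B, Basis.mk_apply]
  have hcs : Fintype.card s = Fintype.card ι := by
    have h1 := Module.finrank_eq_card_basis B
    rw [Module.finrank_fintype_fun_eq_card] at h1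
    exact h1.symm
  let w : s ⊕ s → ι → ℂ := Sum.elim (fun i => B i) (fun i => zd d • B i)
  have hwl : LinearIndependent ℚ w := by
    rw [Fintype.linearIndependent_iff]
    intro c hc
    have h1 : ∑ i, ((c (.inl i) : ℂ) + c (.inr i) * zd d) • B i = 0 := by
      rw [← hc, Fintype.sum_sum_type, ← Finset.sum_add_distrib]
      refine Finset.sum_congr rfl fun i _ => ?_
      funext q
      simp only [w, Sum.elim_inl, Sum.elim_inr, Pi.smul_apply, Pi.add_apply, smul_eq_mul,
        Rat.smul_def]
      ring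
    have h2 := Fintype.linearIndependent_iff.1 B.linearIndependent _ h1
    rintro (i | i)
    · exact (DetK_zero hd (h2 i)).1
    · exact (DetK_zero hd (h2 i)).2
  have hwmem : ∀ k, w k ∈ Submodule.span ℚ (Set.range u) := by
    have h0 : ∀ i : s, B i ∈ Submodule.span ℚ (Set.range u) := fun i => by
      rw [hB]
      exact Submodule.subset_span (hs1 i.2)
    rintro (i | i)
    · exact h0 i
    · exact hz _ (h0 i)
  have hfd : FiniteDimensional ℚ (Submodule.span ℚ (Set.range u)) :=
    FiniteDimensional.span_of_finite ℚ (Set.finite_range u)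
  have hspan : Submodule.span ℚ (Set.range w) = Submodule.span ℚ (Set.range u) := by
    refine Submodule.eq_of_le_of_finrank_le ?_ ?_
    · rw [Submodule.span_le]
      rintro _ ⟨k, rfl⟩
      exact hwmem k
    · have h1 : finrank ℚ (Submodule.span ℚ (Set.range u)) ≤ Fintype.card κ :=
        finrank_range_le_card u
      rw [finrank_span_eq_card hwl, Fintype.card_sum, hcs]
      omega
  have hrep : ∀ x ∈ Submodule.span ℚ (Set.range u), ∀ i, B.repr x i ∈ DetK_S d hd := by
    intro x hx i
    rw [← hspan, Submodule.mem_span_range_iff_exists_fun] at hx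
    obtain ⟨c, hc⟩ := hx
    have h1 : x = ∑ i, ((c (.inl i) : ℂ) + c (.inr i) * zd d) • B i := by
      rw [← hc, Fintype.sum_sum_type, ← Finset.sum_add_distrib]
      refine Finset.sum_congr rfl fun i _ => ?_
      funext q
      simp only [w, Sum.elim_inl, Sum.elim_inr, Pi.smul_apply, Pi.add_apply, smul_eq_mul,
        Rat.smul_def]
      ring
    rw [h1, B.repr_sum_self]
    exact ⟨_, _, rfl⟩
  have hdet : g.det = (LinearMap.toMatrix B B (Matrix.toLin' g)).det := by
    rw [LinearMap.det_toMatrix, LinearMap.det_toLin']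
  have hmem : (LinearMap.toMatrix B B (Matrix.toLin' g)).det ∈ DetK_S d hd := by
    rw [Matrix.det_apply']
    refine sum_mem fun σ _ => mul_mem (intCast_mem _ _) (prod_mem fun i _ => ?_)
    rw [LinearMap.toMatrix_apply, Matrix.toLin'_apply]
    refine hrep _ (hg _ ?_) _
    rw [hB]
    exact Submodule.subset_span (hs1 i.2)
  rw [hdet]
  exact hmem

/-- units of imaginary quadratic orders -/
private theorem DetK_root (d : ℚ) (z : ℂ) (hi : IsIntegral ℤ z) (hn : ‖z‖ = 1)
    (hz : ∃ a b : ℚ, z = a + b * zd d) : z ^ 12 = 1 := by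
  obtain ⟨a, b, hab⟩ := hz
  have hc : conj z = a - b * zd d := by
    rw [hab, map_add, map_mul, DetK_conj_zd]
    have h1 : conj (a : ℂ) = a := by
      have : (a : ℂ) = ((a : ℝ) : ℂ) := by norm_cast
      rw [this, Complex.conj_ofReal]
    have h2 : conj (b : ℂ) = b := by
      have : (b : ℂ) = ((b : ℝ) : ℂ) := by norm_cast
      rw [this, Complex.conj_ofReal]
    rw [h1, h2]
    ring
  have hs : z + conj z = ((2 * a : ℚ) : ℂ) := by
    rw [hc]
    nth_rewrite 1 [hab]
    push_cast
    ring
  have hi' : IsIntegral ℤ (conj z) := hi.map (Complex.conjAe.restrictScalars ℤ)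
  have hi2 : IsIntegral ℤ ((2 * a : ℚ) : ℂ) := by
    rw [← hs]
    exact hi.add hi'
  have hi3 : IsIntegral ℤ (2 * a : ℚ) := by
    have h1 : IsIntegral ℤ (algebraMap ℚ ℂ (2 * a)) := hi2
    exact (isIntegral_algebraMap_iff (algebraMap ℚ ℂ).injective).1 h1
  obtain ⟨k, hk⟩ := IsIntegrallyClosed.isIntegral_iff.1 hi3
  have hk' : (k : ℚ) = 2 * a := hk
  have hzc : z * conj z = 1 := by
    rw [Complex.mul_conj, Complex.normSq_eq_norm_sq, hn]
    norm_num
  have hsk : z + conj z = (k : ℂ) := by
    rw [hs, ← hk']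
    norm_cast
  have hq : z ^ 2 - k * z + 1 = 0 := by
    rw [← hsk]
    linear_combination (-1 : ℂ) * hzc
  have hkb : |(k : ℝ)| ≤ 2 := by
    have h1 : ‖(k : ℂ)‖ ≤ 2 := by
      rw [← hsk]
      calc ‖z + conj z‖ ≤ ‖z‖ + ‖conj z‖ := norm_add_le _ _
        _ = 2 := by rw [Complex.norm_conj, hn]; norm_num
    have h2 : ‖(k : ℂ)‖ = |(k : ℝ)| := by
      rw [Complex.norm_intCast]
    rwa [h2] at h1
  have hkb' : |k| ≤ 2 := by exact_mod_cast hkb
  obtain ⟨hk1, hk2⟩ := abs_le.1 hkb'
  have hcase : k = -2 ∨ k = -1 ∨ k = 0 ∨ k = 1 ∨ k = 2 := by omega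
  rcases hcase with rfl | rfl | rfl | rfl | rfl
  · have h1 : (z + 1) ^ 2 = 0 := by
      push_cast at hq
      linear_combination hq
    have h2 : z = -1 := by
      have := pow_eq_zero_iff (two_ne_zero) |>.1 h1
      linear_combination this
    rw [h2]
    norm_num
  · have h1 : z ^ 3 = 1 := by
      push_cast at hq
      linear_combination (z - 1) * hq
    calc z ^ 12 = (z ^ 3) ^ 4 := by ring
      _ = 1 := by rw [h1]; norm_num
  · have h1 : z ^ 2 = -1 := by
      push_cast at hq
      linear_combination hq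
    calc z ^ 12 = (z ^ 2) ^ 6 := by ring
      _ = 1 := by rw [h1]; norm_num
  · have h1 : z ^ 3 = -1 := by
      push_cast at hq
      linear_combination (z + 1) * hq
    calc z ^ 12 = (z ^ 3) ^ 4 := by ring
      _ = 1 := by rw [h1]; norm_num
  · have h1 : (z - 1) ^ 2 = 0 := by
      push_cast at hq
      linear_combination hq
    have h2 : z = 1 := by
      have := pow_eq_zero_iff (two_ne_zero) |>.1 h1
      linear_combination this
    rw [h2]
    norm_num

end DetK

section main

variable {α β : Type} [Fintype α] [Fintype β] [DecidableEq α] [DecidableEq β]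

/-- the coordinates `X` -/
private noncomputable def DetK_phi (α β : Type) [Fintype α] [Fintype β] [DecidableEq α]
    [DecidableEq β] : (Ix α β Unit → ℂ) →ₗ[ℝ] (α ⊕ β → ℂ) where
  toFun x := fun p => sw x (p, ())
  map_add' x y := by
    funext p
    rw [UGr_sw_add]
    rfl
  map_smul' r x := by
    funext p
    have h1 : (r • x : Ix α β Unit → ℂ) = (r : ℂ) • x := by
      funext q
      simp
    rw [h1, UGr_sw_smul]
    simp

private theorem DetK_phi_act (g : Matrix (α ⊕ β) (α ⊕ β) ℂ) (x : Ix α β Unit → ℂ) :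
    DetK_phi α β (act g x) = g.mulVec (DetK_phi α β x) := by
  funext p
  show sw (act g x) (p, ()) = _
  unfold act
  rw [UGr_sw_sw]
  rfl

private theorem DetK_phi_surj : Function.Surjective (DetK_phi α β) := by
  intro X
  refine ⟨sw fun p => X p.1, ?_⟩
  funext p
  show sw (sw fun p : Ix α β Unit => X p.1) (p, ()) = _
  rw [UGr_sw_sw]

/-- **[DetK]** -/
theorem thm_DetK : St_DetK := by
  intro α β _ _ _ _ d N L χ γ hd hN hL hK hU hγ
  obtain ⟨b, hb⟩ := hL.basis
  set u : Ix α β Unit ⊕ Ix α β Unit → (α ⊕ β → ℂ) := fun k => DetK_phi α β (b k) with hu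
  set Λ : Submodule ℤ (α ⊕ β → ℂ) := Submodule.span ℤ (Set.range u) with hΛ
  have hfin : Module.Finite ℤ Λ := Module.Finite.span_of_finite ℤ (Set.finite_range u)
  have hmem : ∀ x ∈ L, DetK_phi α β x ∈ Λ := by
    intro x hx
    rw [hb] at hx
    induction hx using Submodule.span_induction with
    | mem y hy =>
      obtain ⟨k, rfl⟩ := hy
      exact Submodule.subset_span ⟨k, rfl⟩
    | zero => rw [map_zero]; exact zero_mem _
    | add y z _ _ hy hz => rw [map_add]; exact add_mem hy hz
    | smul a y _ hy => rw [map_zsmul]; exact Submodule.smul_mem _ _ hy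
  have hbL : ∀ k, b k ∈ L := fun k => by
    rw [hb]
    exact Submodule.subset_span ⟨k, rfl⟩
  have hstab : ∀ g : Matrix (α ⊕ β) (α ⊕ β) ℂ, (∀ x ∈ L, act g x ∈ L) → ∀ x ∈ Λ,
      g.mulVec x ∈ Λ := by
    intro g hg x hx
    induction hx using Submodule.span_induction with
    | mem y hy =>
      obtain ⟨k, rfl⟩ := hy
      rw [hu]
      show g.mulVec (DetK_phi α β (b k)) ∈ Λ
      rw [← DetK_phi_act]
      exact hmem _ (hg _ (hbL k))
    | zero => rw [Matrix.mulVec_zero]; exact zero_mem _
    | add y z _ _ hy hz => rw [Matrix.mulVec_add]; exact add_mem hy hz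
    | smul a y _ hy => rw [Matrix.mulVec_smul]; exact Submodule.smul_mem _ _ hy
  have hspR : Submodule.span ℝ (Set.range u) = ⊤ := by
    have h1 : Set.range u = DetK_phi α β '' Set.range b := by
      rw [← Set.range_comp]
      rfl
    rw [h1, ← Submodule.map_span, b.span_eq, Submodule.map_top, LinearMap.range_eq_top]
    exact DetK_phi_surj
  have hspC : Submodule.span ℂ (Set.range u) = ⊤ := by
    rw [eq_top_iff]
    intro x _
    have h1 : x ∈ Submodule.span ℝ (Set.range u) := by
      rw [hspR]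
      exact Submodule.mem_top
    exact Submodule.span_subset_span ℝ ℂ _ h1
  have hspL : Submodule.span ℂ (Λ : Set (α ⊕ β → ℂ)) = ⊤ := by
    rw [eq_top_iff, ← hspC]
    exact Submodule.span_mono Submodule.subset_span
  have hint : IsIntegral ℤ γ.det := DetK_int γ Λ hspL (hstab γ fun x hx => (hγ x).1 hx)
  have hΛQ : ∀ x ∈ Λ, x ∈ Submodule.span ℚ (Set.range u) := fun x hx =>
    Submodule.span_subset_span ℤ ℚ _ hx
  have hstabQ : ∀ g : Matrix (α ⊕ β) (α ⊕ β) ℂ, (∀ x ∈ L, act g x ∈ L) →
      ∀ x ∈ Submodule.span ℚ (Set.range u), g.mulVec x ∈ Submodule.span ℚ (Set.range u) := by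
    intro g hg x hx
    induction hx using Submodule.span_induction with
    | mem y hy =>
      exact hΛQ _ (hstab g hg y (Submodule.subset_span hy))
    | zero => rw [Matrix.mulVec_zero]; exact zero_mem _
    | add y z _ _ hy hz => rw [Matrix.mulVec_add]; exact add_mem hy hz
    | smul a y _ hy => rw [Matrix.mulVec_smul]; exact Submodule.smul_mem _ _ hy
  have hz : ∀ x ∈ Submodule.span ℚ (Set.range u), zd d • x ∈ Submodule.span ℚ (Set.range u) := by
    intro x hx
    have h1 := hstabQ (kap α β d N) hK x hx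
    have h2 : (kap α β d N).mulVec x = ((N : ℚ)) • (zd d • x) := by
      unfold kap
      rw [Matrix.smul_mulVec, Matrix.one_mulVec]
      funext p
      simp only [Pi.smul_apply, smul_eq_mul, Rat.smul_def, Rat.cast_natCast]
      ring
    rw [h2] at h1
    have h3 := Submodule.smul_mem _ ((N : ℚ)⁻¹) h1
    rwa [smul_smul, inv_mul_cancel₀ (by exact_mod_cast hN), one_smul] at h3
  have hfld := DetK_fld d hd γ u (by
    rw [Fintype.card_sum, Fintype.card_prod, Fintype.card_unit, mul_one, two_mul]) hspC hz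
    (hstabQ γ fun x hx => (hγ x).1 hx)
  have hnorm : ‖γ.det‖ = 1 := ((thm_UGr α β Unit).2.2.2.2.2.1 γ hU).2.2.2.1
  exact DetK_root d _ hint hnorm hfld

end main

end DWC
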