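import Pool.Agent.DWC.StK
import Pool.Agent.PST.StH

/-!
# DWC: [EqK] the exponents of the CM point are equal
-/

set_option autoImplicit false
set_option linter.unusedSectionVars false

namespace DWC

open scoped ComplexConjugate
open GAM (H E F pd pdl PLat IsTh OddTor IsDel eul HasExp)
open PST

private theorem EqK_conj_zd (d : ℚ) : conj (zd d) = -zd d := by
  unfold zd
  rw [map_mul, Complex.conj_ofReal, Complex.conj_I, mul_neg]

private theorem EqK_conj_rat (q : ℚ) : conj (q : ℂ) = (q : ℂ) := by
  rw [map_ratCast]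

private theorem EqK_conj_int (a : ℤ) : conj (a : ℂ) = (a : ℂ) := by
  rw [map_intCast]

section

variable {α β : Type} [Fintype α] [Fintype β] [DecidableEq α] [DecidableEq β]

private theorem EqK_alg (d : ℚ) (r : α ⊕ β → ℝ) (q : α ⊕ β → ℚ) (hR : IsR d r q) (s : α ⊕ β) :
    IsAlgebraic ℚ ((r s : ℝ) : ℂ) := by
  have hd : (0 : ℝ) < (d : ℝ) := by exact_mod_cast hR.pos
  have h1 : r s ^ 4 = ((q s ^ 2 / d : ℚ) : ℝ) := by
    have h2 := hR.rq s
    have h3 : Real.sqrt (d : ℝ) ^ 2 = (d : ℝ) := Real.sq_sqrt hd.le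
    push_cast
    rw [eq_div_iff hd.ne', h2, ← h3]
    have h4 : Real.sqrt (Real.sqrt (d : ℝ) ^ 2) = Real.sqrt (d : ℝ) := by rw [h3]
    rw [h4]
    ring
  have h2 : IsAlgebraic ℚ (((r s : ℝ) : ℂ) ^ 4) := by
    have h3 : ((r s : ℝ) : ℂ) ^ 4 = algebraMap ℚ ℂ (q s ^ 2 / d) := by
      rw [← Complex.ofReal_pow, h1]
      simp
    rw [h3]
    exact isAlgebraic_algebraMap _
  exact h2.of_pow (by norm_num)

/-- the sign -/
private def EqK_sg (s s' : α ⊕ β) : ℤ :=
  Sum.elim (fun _ => Sum.elim (fun _ => 1) (fun _ => -1) s')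
    (fun _ => Sum.elim (fun _ => -1) (fun _ => 1) s') s

private theorem EqK_mul (d : ℚ) (r : α ⊕ β → ℝ) (q : α ⊕ β → ℚ) (hR : IsR d r q)
    (L : Submodule ℤ (Ix α β Unit → ℂ)) (hL : IsLK d r q L) (s s' : α ⊕ β) (hs : s ≠ s')
    (l : Ix α β Unit → ℂ) (hl : l ∈ L) :
    (Matrix.transvection ((s, ()) : Ix α β Unit) (s', ())
      (((q s / q s').den : ℂ) * (r s : ℂ) / (r s' : ℂ))).mulVec l ∈ L := by
  obtain ⟨a, b, rfl⟩ := (hL l).1 hl
  have hd : (0 : ℝ) < (d : ℝ) := by exact_mod_cast hR.pos
  have hq : ∀ s, (q s : ℂ) ≠ 0 := by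
    intro s
    have h1 : (0 : ℝ) < (q s : ℝ) := by
      rw [hR.rq s]
      have := hR.rpos s
      have := Real.sqrt_pos.2 hd
      positivity
    have h2 : (q s : ℝ) ≠ 0 := h1.ne'
    exact_mod_cast h2
  have hr : ∀ s, (r s : ℂ) ≠ 0 := fun s => Complex.ofReal_ne_zero.2 (hR.rpos s).ne'
  set M : ℕ := (q s / q s').den with hM
  have hnum : (M : ℂ) * (q s : ℂ) / (q s' : ℂ) = ((q s / q s').num : ℂ) := by
    have h1 : ((q s / q s' : ℚ)) * (M : ℚ) = ((q s / q s').num : ℚ) := Rat.mul_den_eq_num _
    have h2 : (((q s / q s' : ℚ) * (M : ℚ) : ℚ) : ℂ) = (((q s / q s').num : ℚ) : ℂ) := by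
      rw [h1]
    push_cast at h2
    rw [← h2]
    ring
  refine (hL _).2 ⟨Function.update a s (a s + M * a s'),
    Function.update b s (b s + EqK_sg s s' * (q s / q s').num * b s'), ?_⟩
  funext p
  obtain ⟨t, ⟨⟩⟩ := p
  have e1 : (Matrix.transvection ((s, ()) : Ix α β Unit) (s', ())
      ((M : ℂ) * (r s : ℂ) / (r s' : ℂ))).mulVec
      (sw fun p => (r p.1 : ℂ) * ((a p.1 : ℂ) + (b p.1 : ℂ) / (q p.1 : ℂ) * zd d)) (t, ()) =
      (sw fun p : Ix α β Unit => (r p.1 : ℂ) *
        ((a p.1 : ℂ) + (b p.1 : ℂ) / (q p.1 : ℂ) * zd d)) (t, ()) +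
      if s = t then ((M : ℂ) * (r s : ℂ) / (r s' : ℂ)) *
        (sw fun p : Ix α β Unit => (r p.1 : ℂ) *
          ((a p.1 : ℂ) + (b p.1 : ℂ) / (q p.1 : ℂ) * zd d)) (s', ()) else 0 := by
    unfold Matrix.transvection
    rw [Matrix.add_mulVec, Matrix.one_mulVec, Pi.add_apply]
    congr 1
    by_cases hst : s = t
    · subst hst
      rw [if_pos rfl, Matrix.mulVec, dotProduct, Finset.sum_eq_single (s', ())]
      · rw [Matrix.single_apply_same]
      · intro x _ hx
        rw [Matrix.single_apply_of_col_ne _ _ (Ne.symm hx), zero_mul]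
      · intro h
        exact absurd (Finset.mem_univ _) h
    · rw [if_neg hst, Matrix.mulVec, dotProduct]
      refine Finset.sum_eq_zero fun x _ => ?_
      rw [Matrix.single_apply_of_row_ne, zero_mul]
      intro h
      exact hst (congrArg Prod.fst h)
  rw [e1]
  by_cases hst : s = t
  · subst hst
    rw [if_pos rfl]
    have hrs := hr s
    have hrs' := hr s'
    have hqs := hq s
    have hqs' := hq s'
    rcases s with i | j <;> rcases s' with i' | j'
    · simp only [sw, Sum.elim_inl, Function.update_self, EqK_sg]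
      push_cast
      rw [← hnum]
      field_simp
      try ring
    · simp only [sw, Sum.elim_inl, Sum.elim_inr, Function.update_self, EqK_sg, map_mul, map_add,
        map_div₀, EqK_conj_zd, EqK_conj_rat, EqK_conj_int, Complex.conj_ofReal]
      push_cast
      rw [← hnum]
      field_simp
      try ring
    · simp only [sw, Sum.elim_inl, Sum.elim_inr, Function.update_self, EqK_sg, map_mul, map_add,
        map_div₀, EqK_conj_zd, EqK_conj_rat, EqK_conj_int, Complex.conj_ofReal]
      push_cast
      rw [← hnum]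
      field_simp
      try ring
    · simp only [sw, Sum.elim_inr, Function.update_self, EqK_sg, map_mul, map_add,
        map_div₀, EqK_conj_zd, EqK_conj_rat, EqK_conj_int, Complex.conj_ofReal]
      push_cast
      rw [← hnum]
      field_simp
      try ring
  · rw [if_neg hst, add_zero]
    have e2 : ∀ f g : Ix α β Unit → ℂ, f (t, ()) = g (t, ()) → sw f (t, ()) = sw g (t, ()) := by
      intro f g hfg
      rcases t with i | j
      · exact hfg
      · exact congrArg (starRingEnd ℂ) hfg
    refine e2 _ _ ?_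
    simp only [Function.update_of_ne (Ne.symm hst)]

end

theorem thm_EqK (h1 : St_GopR) : St_EqK := by
  intro α β _ _ _ _ d r q δ L χ θ A k hR hP hL hT h0 hA
  -- the operator
  have hG : HasGop δ L θ k (Matrix.diagonal A) 0 := by
    refine ⟨Matrix.transpose_zero, fun x hx => ?_⟩
    have h2 := hA x hx
    have e : gop k (Matrix.diagonal A) 0 (F θ x) = fun v => k * F θ x v + eul A (F θ x) v := by
      funext v
      unfold gop eul
      simp only [Matrix.zero_apply, zero_mul, Finset.sum_const_zero, mul_zero, add_zero]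
      congr 1
      refine Finset.sum_congr rfl fun a _ => ?_
      rw [Finset.sum_eq_single a]
      · rw [Matrix.diagonal_apply_eq, mul_assoc]
      · intro b _ hb
        rw [Matrix.diagonal_apply_ne' _ hb, zero_mul]
      · intro h
        exact absurd (Finset.mem_univ _) h
    rw [e]
    exact h2
  have key : ∀ s s' : α ⊕ β, s ≠ s' → A (s, ()) = A (s', ()) := by
    intro s s' hs
    have hne : ((s, ()) : Ix α β Unit) ≠ (s', ()) := fun h => hs (congrArg Prod.fst h)
    have hr : ∀ s, (r s : ℂ) ≠ 0 := fun s => Complex.ofReal_ne_zero.2 (hR.rpos s).ne'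
    have hc : ((((q s / q s').den : ℕ) : ℂ) * (r s : ℂ) / (r s' : ℂ)) ≠ 0 :=
      div_ne_zero (mul_ne_zero (Nat.cast_ne_zero.2 (Rat.den_nz _)) (hr s)) (hr s')
    have hca : IsAlgebraic ℚ ((((q s / q s').den : ℕ) : ℂ) * (r s : ℂ) / (r s' : ℂ)) := by
      rw [div_eq_mul_inv]
      exact ((isAlgebraic_natCast _).mul (EqK_alg d r q hR s)).mul (EqK_alg d r q hR s').inv
    have h2 := h1 (Ix α β Unit) δ L χ θ k (Matrix.diagonal A) 0
      (Matrix.transvection ((s, ()) : Ix α β Unit) (s', ())
        ((((q s / q s').den : ℕ) : ℂ) * (r s : ℂ) / (r s' : ℂ))) hP hT h0 hG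
      (by rw [Matrix.det_transvection_of_ne _ _ hne]; exact one_ne_zero)
      (by
        intro a b
        unfold Matrix.transvection
        rw [Matrix.add_apply]
        refine IsAlgebraic.add ?_ ?_
        · rw [Matrix.one_apply]
          split_ifs
          · exact isAlgebraic_one
          · exact isAlgebraic_zero
        · rw [Matrix.single_apply]
          split_ifs
          · exact hca
          · exact isAlgebraic_zero)
      (fun l hl => EqK_mul d r q hR L hL s s' hs l hl)
    have h3 := congrFun (congrFun h2 (s, ())) (s', ())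
    rw [Matrix.mul_diagonal, Matrix.diagonal_mul] at h3
    unfold Matrix.transvection at h3
    rw [Matrix.add_apply, Matrix.one_apply_ne hne, Matrix.single_apply_same, zero_add] at h3
    have h4 : ((((q s / q s').den : ℕ) : ℂ) * (r s : ℂ) / (r s' : ℂ)) *
        (A (s, ()) - A (s', ())) = 0 := by
      rw [mul_sub, h3]
      ring
    exact sub_eq_zero.1 ((mul_eq_zero.1 h4).resolve_left hc)
  have all : ∀ p p', A p = A p' := by
    rintro ⟨s, ⟨⟩⟩ ⟨s', ⟨⟩⟩
    by_cases h : s = s'
    · rw [h]
    · exact key s s' h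
  refine ⟨all, fun p x hx => ?_⟩
  have h2 := hA x hx
  have e : hop k (A p • (1 : Matrix α α ℂ)) (A p • (1 : Matrix β β ℂ)) 0 (F θ x) =
      fun v => k * F θ x v + eul A (F θ x) v := by
    funext v
    unfold hop eul
    simp only [Matrix.zero_apply, zero_mul, Finset.sum_const_zero, add_zero]
    rw [Fintype.sum_prod_type, Fintype.sum_sum_type, add_assoc]
    congr 2
    · rw [Finset.sum_comm]
      refine Finset.sum_congr rfl fun i _ => Finset.sum_congr rfl fun m _ => ?_
      rw [Finset.sum_eq_single i]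
      · rw [Matrix.smul_apply, Matrix.one_apply_eq, all p (Sum.inl i, m), smul_eq_mul, mul_one,
          mul_assoc]
      · intro b _ hb
        rw [Matrix.smul_apply, Matrix.one_apply_ne' hb, smul_zero, zero_mul]
      · intro h
        exact absurd (Finset.mem_univ _) h
    · rw [Finset.sum_comm]
      refine Finset.sum_congr rfl fun i _ => Finset.sum_congr rfl fun m _ => ?_
      rw [Finset.sum_eq_single i]
      · rw [Matrix.smul_apply, Matrix.one_apply_eq, all p (Sum.inr i, m), smul_eq_mul, mul_one,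
          mul_assoc]
      · intro b _ hb
        rw [Matrix.smul_apply, Matrix.one_apply_ne' hb, smul_zero, zero_mul]
      · intro h
        exact absurd (Finset.mem_univ _) h
  rw [e]
  exact h2

end DWC
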