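import Pool.Agent.DWC.StK
import Pool.Agent.GAM.Asm

/-!
# DWC, module ExpK: the exponents of the CM point
-/

set_option autoImplicit false

namespace DWC

open scoped ComplexConjugate
open GAM (PLat IsTh HasExp)
open PST

private theorem ExpK_conj_zd (d : ℚ) : conj (zd d) = -zd d := by
  rw [zd, map_mul, Complex.conj_ofReal, Complex.conj_I]
  ring

private theorem ExpK_den {ι : Type} [Fintype ι] (q : ι → ℚ) :
    ∃ N : ℕ, N ≠ 0 ∧ ∃ m : ι → ℤ, ∀ s, (N : ℚ) * q s = m s := by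
  classical
  refine ⟨∏ s, (q s).den, Finset.prod_ne_zero_iff.2 fun s _ => (q s).den_nz, ?_⟩
  have h : ∀ s, ∃ m : ℤ, ((∏ s, (q s).den : ℕ) : ℚ) * q s = m := by
    intro s
    refine ⟨(∏ t ∈ Finset.univ.erase s, ((q t).den : ℤ)) * (q s).num, ?_⟩
    rw [← Finset.mul_prod_erase Finset.univ (fun s => (q s).den) (Finset.mem_univ s)]
    push_cast
    have h1 : ((q s).den : ℚ) * q s = (q s).num := Rat.den_mul_eq_num (q s)
    calc ((q s).den : ℚ) * (∏ t ∈ Finset.univ.erase s, ((q t).den : ℚ)) * q s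
        = (∏ t ∈ Finset.univ.erase s, ((q t).den : ℚ)) * (((q s).den : ℚ) * q s) := by ring
      _ = _ := by rw [h1]
  choose m hm using h
  exact ⟨m, hm⟩

private theorem ExpK_alg {d q : ℚ} {r : ℝ} (hd : 0 < d) (h : (q : ℝ) = r ^ 2 * Real.sqrt (d : ℝ)) :
    IsAlgebraic ℚ (r : ℂ) := by
  have h1 : (r : ℂ) ^ 4 = ((q ^ 2 / d : ℚ) : ℂ) := by
    have hd' : (0 : ℝ) < (d : ℝ) := by exact_mod_cast hd
    have h2 : Real.sqrt (d : ℝ) ^ 2 = d := Real.sq_sqrt hd'.le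
    have h3 : r ^ 4 * (d : ℝ) = (q : ℝ) ^ 2 := by
      rw [h, mul_pow, h2]
      ring
    have h4 : r ^ 4 = (q : ℝ) ^ 2 / (d : ℝ) := by
      rw [eq_div_iff hd'.ne', h3]
    have h5 : ((r ^ 4 : ℝ) : ℂ) = (((q : ℝ) ^ 2 / (d : ℝ) : ℝ) : ℂ) := by rw [h4]
    push_cast at h5 ⊢
    exact h5
  have h2 : IsAlgebraic ℚ ((r : ℂ) ^ 4) := by
    rw [h1]
    exact isAlgebraic_algebraMap (A := ℂ) (q ^ 2 / d)
  exact IsAlgebraic.of_pow (by norm_num : 0 < 4) h2

theorem thm_ExpK (h1 : St_CMK) (h2 : St_FldK) (h3 : St_EqK) (h4 : St_ExpS) (h5 : St_FinQ) :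
    St_ExpK := by
  intro α β _ _ _ _ d r q L χ θ hR hne hP hL hT hz
  obtain ⟨s, hs⟩ := h1 α β d r q L hR hL
  obtain ⟨K, i1, i2, c, φ, J₀, hcm, hct, hJ, D, hD, hDx⟩ := h2 d hR.pos
  obtain ⟨s₀⟩ := hne
  obtain ⟨N, hN, m, hm⟩ := ExpK_den q
  have hq0 : ∀ s, (q s : ℂ) ≠ 0 := by
    intro s hs
    have e1 : (q s : ℝ) = 0 := by exact_mod_cast hs
    rw [hR.rq s] at e1
    have e2 : (0 : ℝ) < (d : ℝ) := by exact_mod_cast hR.pos
    exact (mul_pos (pow_pos (hR.rpos s) 2) (Real.sqrt_pos.2 e2)).ne' e1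
  have hδ : ∀ δ : Derivation ℚ ℂ ℂ, ∃ (a k : ℂ), GAM.IsExp δ K φ (fun _ => a) ∧
      HasHat δ L θ k (a • (1 : Matrix α α ℂ)) (a • (1 : Matrix β β ℂ)) 0 := by
    intro δ
    obtain ⟨A, k, hA⟩ := GAM.All.CM_ (Ix α β Unit) δ L χ θ s hP hT hz hs
    obtain ⟨e1, e2⟩ := h3 α β d r q δ L χ θ A k hR hP hL hT hz hA
    refine ⟨A (s₀, ()), k, ?_, e2 _⟩
    have hA2 : HasExp δ L θ (fun _ : Ix α β Unit => A (s₀, ())) k := by
      have e3 : A = fun _ => A (s₀, ()) := funext fun p => e1 p _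
      rw [← e3]
      exact hA
    refine h4 K c (Unit ⊕ Empty) (Ix α β Unit) φ δ L χ θ (fun _ => A (s₀, ())) k
      (fun _ => Sum.inl ()) (fun p => (N : ℂ) * (r p.1 : ℂ)) D hcm hct hP hT hz hA2 ?_ ?_ hD ?_
    · intro p
      exact (isAlgebraic_natCast (R := ℚ) N).mul (ExpK_alg hR.pos (hR.rq p.1))
    · rintro (u | u)
      · refine ⟨(s₀, ()), rfl, ?_⟩
        exact mul_ne_zero (Nat.cast_ne_zero.2 hN) (Complex.ofReal_ne_zero.2 (hR.rpos _).ne')
      · exact u.elim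
    · intro x
      obtain ⟨a, b, hab⟩ := hDx (Sum.inl ()) x
      refine (hL _).2 ⟨fun _ => (N : ℤ) * a, fun t => Sum.elim (fun i => m (Sum.inl i) * b)
        (fun j => -(m (Sum.inr j) * b)) t, ?_⟩
      have hm' : ∀ t, ((N : ℂ) * (q t : ℂ)) = (m t : ℂ) := by
        intro t
        have := hm t
        exact_mod_cast this
      funext p
      obtain ⟨t, u⟩ := p
      rcases t with i | j
      · simp only [sw, Sum.elim_inl]
        rw [hab]
        push_cast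
        rw [← hm' (Sum.inl i)]
        field_simp [hq0 (Sum.inl i)]
      · simp only [sw, Sum.elim_inr]
        rw [hab]
        simp only [map_mul, map_add, map_div₀, map_neg, ExpK_conj_zd, Complex.conj_ofReal,
          Int.cast_neg, Int.cast_mul, Int.cast_natCast, map_natCast, map_intCast, map_ratCast]
        rw [← hm' (Sum.inr j)]
        field_simp [hq0 (Sum.inr j)]
  choose A k hE hH using hδ
  refine ⟨A, ?_, fun δ => ⟨k δ, hH δ⟩⟩
  have e1 := h5 K c Unit Empty φ J₀ d (fun δ _ => A δ) hcm hct hR.pos hJ (fun i => i.elim)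
    (by simp) hE
  by_contra hcon
  apply e1
  intro δ
  have h6 : A δ - δ Real.pi / (2 * Real.pi) = 0 := by
    by_contra h7
    exact hcon ⟨δ, h7⟩
  simp [h6]

end DWC
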