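import Pool.Agent.DWC.StG
import Pool.Agent.GAM.Bas
import Pool.Agent.PST.UGr

/-!
# DWC [Ext]: an isometry from Gram matrices
-/

set_option autoImplicit false
set_option linter.unusedSectionVars false

namespace DWC

open scoped ComplexConjugate
open GAM (H E F pd pdl PLat IsTh OddTor IsDel Gro IsLat)
open PST

section

variable {α β : Type} [Fintype α] [Fintype β] [DecidableEq α] [DecidableEq β]

private theorem Ext_E_sum_left {ι κ : Type} [Fintype ι] (s : Finset κ) (a : κ → ℝ)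
    (x : κ → ι → ℂ) (y : ι → ℂ) : E (∑ i ∈ s, a i • x i) y = ∑ i ∈ s, a i * E (x i) y := by
  classical
  induction s using Finset.induction_on with
  | empty => rw [Finset.sum_empty, Finset.sum_empty, GAM.E_zero_left]
  | insert i s hi ih =>
    rw [Finset.sum_insert hi, Finset.sum_insert hi, GAM.E_add_left, GAM.E_rsmul_left, ih]

private theorem Ext_E_sum_right {ι κ : Type} [Fintype ι] (s : Finset κ) (a : κ → ℝ)
    (x : κ → ι → ℂ) (y : ι → ℂ) : E y (∑ i ∈ s, a i • x i) = ∑ i ∈ s, a i * E y (x i) := by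
  classical
  induction s using Finset.induction_on with
  | empty => rw [Finset.sum_empty, Finset.sum_empty, GAM.E_zero_right]
  | insert i s hi ih =>
    rw [Finset.sum_insert hi, Finset.sum_insert hi, GAM.E_add_right, GAM.E_rsmul_right, ih]

private theorem Ext_nondeg {ι : Type} [Fintype ι] (x : ι → ℂ) (h : ∀ y, E x y = 0) : x = 0 := by
  have h1 := h (Complex.I • x)
  unfold E at h1
  rw [GAM.H_smul_right, Complex.conj_I] at h1
  have h2 : (-Complex.I * H x x).im = -(H x x).re := by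
    rw [Complex.mul_im]
    simp
  rw [h2] at h1
  exact GAM.H_self_eq_zero (by linarith)

/-- the linear map attached to a family -/
private noncomputable def Ext_B {M : ℕ} (b : Fin M → Ix α β Unit → ℂ) :
    (Fin M → ℝ) →ₗ[ℝ] (Ix α β Unit → ℂ) where
  toFun a := ∑ i, a i • b i
  map_add' a a' := by
    simp only [Pi.add_apply, add_smul, Finset.sum_add_distrib]
  map_smul' r a := by
    simp only [Pi.smul_apply, smul_eq_mul, mul_smul, Finset.smul_sum, RingHom.id_apply]

private theorem Ext_B_apply {M : ℕ} (b : Fin M → Ix α β Unit → ℂ) (a : Fin M → ℝ) :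
    Ext_B b a = ∑ i, a i • b i := rfl

private theorem Ext_int {M : ℕ} (b : Fin M → Ix α β Unit → ℂ) (a : Fin M → ℤ) :
    ∑ i, a i • b i = Ext_B b (fun i => (a i : ℝ)) := by
  rw [Ext_B_apply]
  refine Finset.sum_congr rfl fun i _ => ?_
  rw [Int.cast_smul_eq_zsmul]

private theorem Ext_surj {M : ℕ} (L : Submodule ℤ (Ix α β Unit → ℂ))
    (χ : (Ix α β Unit → ℂ) → ℂ) (b : Fin M → Ix α β Unit → ℂ) (hL : PLat L χ)
    (hb : Submodule.span ℤ (Set.range b) = L) : Function.Surjective (Ext_B b) := by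
  rw [← LinearMap.range_eq_top]
  obtain ⟨e, he⟩ := hL.basis
  rw [eq_top_iff, ← e.span_eq, Submodule.span_le]
  rintro _ ⟨k, rfl⟩
  have h1 : e k ∈ L := by
    rw [he]
    exact Submodule.subset_span ⟨k, rfl⟩
  rw [← hb, Submodule.mem_span_range_iff_exists_fun] at h1
  obtain ⟨a, ha⟩ := h1
  exact ⟨fun i => (a i : ℝ), by rw [← Ext_int, ha]⟩

private theorem Ext_ker {M : ℕ} (b c : Fin M → Ix α β Unit → ℂ)
    (hc : Function.Surjective (Ext_B c))
    (hE : ∀ i j, E (b i) (b j) = E (c i) (c j)) (a : Fin M → ℝ) (ha : Ext_B b a = 0) :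
    Ext_B c a = 0 := by
  apply Ext_nondeg
  intro y
  obtain ⟨a', rfl⟩ := hc y
  rw [Ext_B_apply, Ext_B_apply, Ext_E_sum_right]
  apply Finset.sum_eq_zero
  intro j _
  have h1 : E (∑ i, a i • c i) (c j) = E (∑ i, a i • b i) (b j) := by
    rw [Ext_E_sum_left, Ext_E_sum_left]
    exact Finset.sum_congr rfl fun i _ => by rw [hE i j]
  rw [h1, ← Ext_B_apply, ha, GAM.E_zero_left, mul_zero]

/-- multiplication by `i` in the coordinates `X` -/
private noncomputable def Ext_J (x : Ix α β Unit → ℂ) : Ix α β Unit → ℂ :=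
  sw (Complex.I • sw x)

private theorem Ext_mu_scalar (c : ℂ) (X : Ix α β Unit → ℂ) :
    mu (c • (1 : Matrix (α ⊕ β) (α ⊕ β) ℂ)) X = c • X := by
  funext p
  obtain ⟨q, k⟩ := p
  simp only [mu]
  rw [Finset.sum_eq_single q]
  · rw [Matrix.smul_apply, Matrix.one_apply_eq, smul_eq_mul, mul_one, Pi.smul_apply, smul_eq_mul]
  · intro b _ hb
    rw [Matrix.smul_apply, Matrix.one_apply_ne hb.symm, smul_zero, zero_mul]
  · intro h
    exact absurd (Finset.mem_univ _) h

private theorem Ext_kap (d : ℚ) (N : ℕ) (x : Ix α β Unit → ℂ) :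
    act (kap α β d N) x = ((N : ℝ) * Real.sqrt (d : ℝ)) • Ext_J x := by
  have h1 : ((N : ℂ) * zd d) • (1 : Matrix (α ⊕ β) (α ⊕ β) ℂ) = kap α β d N := rfl
  unfold act Ext_J
  rw [← h1, Ext_mu_scalar]
  have h2 : ((N : ℂ) * zd d) • sw x = (((N : ℝ) * Real.sqrt (d : ℝ) : ℝ) : ℂ) •
      (Complex.I • sw x) := by
    rw [smul_smul]
    congr 1
    unfold zd
    push_cast
    ring
  rw [h2, UGr_sw_smul]
  funext p
  simp

end

theorem thm_Ext : St_Ext := by
  intro α β _ _ _ _ d N n M L χ b c hd hN hL hK hb hc hE hEK hcong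
  have hsb := Ext_surj L χ b hL hb
  have hsc := Ext_surj L χ c hL hc
  obtain ⟨s, hs⟩ := (Ext_B b).exists_rightInverse_of_surjective (LinearMap.range_eq_top.mpr hsb)
  obtain ⟨T, hT⟩ : ∃ T : (Ix α β Unit → ℂ) →ₗ[ℝ] (Ix α β Unit → ℂ), T = (Ext_B c).comp s :=
    ⟨_, rfl⟩
  have hTB : ∀ a, T (Ext_B b a) = Ext_B c a := by
    intro a
    have h1 : Ext_B b (s (Ext_B b a)) = Ext_B b a := LinearMap.congr_fun hs (Ext_B b a)
    have h2 : Ext_B b (s (Ext_B b a) - a) = 0 := by rw [map_sub, h1, sub_self]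
    have h3 := Ext_ker b c hsc hE _ h2
    rw [map_sub, sub_eq_zero] at h3
    rw [hT]
    exact h3
  have hTb : ∀ i, T (b i) = c i := by
    intro i
    have h1 : ∀ e : Fin M → Ix α β Unit → ℂ, Ext_B e (Pi.single i 1) = e i := by
      intro e
      rw [Ext_B_apply, Finset.sum_eq_single i]
      · rw [Pi.single_eq_same, one_smul]
      · intro j _ hj
        rw [Pi.single_eq_of_ne hj, zero_smul]
      · intro h
        exact absurd (Finset.mem_univ _) h
    rw [← h1 b, hTB, h1 c]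
  have hTE : ∀ x y, E (T x) (T y) = E x y := by
    intro x y
    obtain ⟨a, rfl⟩ := hsb x
    obtain ⟨a', rfl⟩ := hsb y
    rw [hTB, hTB, Ext_B_apply, Ext_B_apply, Ext_B_apply, Ext_B_apply, Ext_E_sum_left,
      Ext_E_sum_left]
    refine Finset.sum_congr rfl fun i _ => ?_
    rw [Ext_E_sum_right, Ext_E_sum_right]
    congr 1
    exact Finset.sum_congr rfl fun j _ => by rw [hE i j]
  have hTinj : ∀ x, T x = 0 → x = 0 := by
    intro x hx
    apply Ext_nondeg
    intro y
    rw [← hTE, hx, GAM.E_zero_left]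
  -- `T` commutes with `J`
  obtain ⟨ρ, hρ⟩ : ∃ ρ : ℝ, ρ = (N : ℝ) * Real.sqrt (d : ℝ) := ⟨_, rfl⟩
  have hρ0 : ρ ≠ 0 := by
    rw [hρ]
    have h1 : (0 : ℝ) < (d : ℝ) := by exact_mod_cast hd
    have h2 : 0 < Real.sqrt (d : ℝ) := Real.sqrt_pos.mpr h1
    have h3 : (N : ℝ) ≠ 0 := by exact_mod_cast hN
    exact mul_ne_zero h3 h2.ne'
  have hkap : ∀ x : Ix α β Unit → ℂ, act (kap α β d N) x = ρ • Ext_J x := by
    intro x
    rw [hρ]
    exact Ext_kap d N x
  have hJb : ∀ i, T (Ext_J (b i)) = Ext_J (c i) := by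
    intro i
    have h1 : T (act (kap α β d N) (b i)) = act (kap α β d N) (c i) := by
      rw [← sub_eq_zero]
      apply Ext_nondeg
      intro y
      obtain ⟨a, rfl⟩ := hsc y
      rw [Ext_B_apply, Ext_E_sum_right]
      apply Finset.sum_eq_zero
      intro j _
      have h2 : E (T (act (kap α β d N) (b i))) (c j) = E (act (kap α β d N) (b i)) (b j) := by
        rw [← hTb j, hTE]
      rw [GAM.E_sub_left, h2, hEK i j, sub_self, mul_zero]
    rw [hkap, hkap, map_smul] at h1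
    exact smul_right_injective _ hρ0 h1
  have hJadd : ∀ x y : Ix α β Unit → ℂ, Ext_J (x + y) = Ext_J x + Ext_J y := by
    intro x y
    unfold Ext_J
    rw [UGr_sw_add, smul_add, UGr_sw_add]
  have hJsmul : ∀ (r : ℝ) (x : Ix α β Unit → ℂ), Ext_J (r • x) = r • Ext_J x := by
    intro r x
    have h4 : ∀ y : Ix α β Unit → ℂ, r • y = (r : ℂ) • y := fun y => by
      funext p
      simp
    unfold Ext_J
    rw [h4, h4, UGr_sw_smul, smul_comm, UGr_sw_smul]
  obtain ⟨Jl, hJl⟩ : ∃ Jl : (Ix α β Unit → ℂ) →ₗ[ℝ] (Ix α β Unit → ℂ), ∀ x, Jl x = Ext_J x :=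
    ⟨{ toFun := Ext_J, map_add' := hJadd, map_smul' := hJsmul }, fun _ => rfl⟩
  have hJT : ∀ x, T (Ext_J x) = Ext_J (T x) := by
    intro x
    obtain ⟨a, rfl⟩ := hsb x
    rw [hTB, ← hJl, ← hJl, Ext_B_apply, Ext_B_apply, map_sum, map_sum, map_sum]
    refine Finset.sum_congr rfl fun i _ => ?_
    rw [map_smul, map_smul, map_smul, hJl, hJl, hJb]
  -- the matrix
  obtain ⟨T', hT'⟩ : ∃ T' : (Ix α β Unit → ℂ) → (Ix α β Unit → ℂ), T' = fun X => sw (T (sw X)) :=
    ⟨_, rfl⟩
  have hT'add : ∀ X Y, T' (X + Y) = T' X + T' Y := by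
    intro X Y
    simp only [hT']
    rw [UGr_sw_add, map_add, UGr_sw_add]
  have hT'r : ∀ (r : ℝ) (X : Ix α β Unit → ℂ), T' ((r : ℂ) • X) = (r : ℂ) • T' X := by
    intro r X
    have h4 : ∀ y : Ix α β Unit → ℂ, (r : ℂ) • y = r • y := fun y => by
      funext p
      simp
    simp only [hT']
    rw [UGr_sw_smul, h4, map_smul, ← h4, UGr_sw_smul]
  have hT'I : ∀ X : Ix α β Unit → ℂ, T' (Complex.I • X) = Complex.I • T' X := by
    intro X
    simp only [hT']
    have h1 : sw (Complex.I • X) = Ext_J (sw X) := by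
      unfold Ext_J
      rw [UGr_sw_sw]
    rw [h1, hJT]
    unfold Ext_J
    rw [UGr_sw_sw]
  have hT'c : ∀ (z : ℂ) (X : Ix α β Unit → ℂ), T' (z • X) = z • T' X := by
    intro z X
    have h1 : z • X = (z.re : ℂ) • X + (z.im : ℂ) • (Complex.I • X) := by
      rw [smul_smul, ← add_smul, Complex.re_add_im]
    have h2 : z • T' X = (z.re : ℂ) • T' X + (z.im : ℂ) • (Complex.I • T' X) := by
      rw [smul_smul, ← add_smul, Complex.re_add_im]
    rw [h1, hT'add, hT'r, hT'r, hT'I, h2]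
  obtain ⟨Tl, hTl⟩ : ∃ Tl : (Ix α β Unit → ℂ) →ₗ[ℂ] (Ix α β Unit → ℂ), ∀ X, Tl X = T' X :=
    ⟨{ toFun := T', map_add' := hT'add, map_smul' := hT'c }, fun _ => rfl⟩
  obtain ⟨γ, hγ⟩ : ∃ γ : Matrix (α ⊕ β) (α ⊕ β) ℂ,
      γ = Matrix.of fun q r => T' (Pi.single (r, ()) 1) (q, ()) := ⟨_, rfl⟩
  have hmu : ∀ X : Ix α β Unit → ℂ, mu γ X = T' X := by
    intro X
    funext p
    obtain ⟨q, k⟩ := p
    have h1 : X = ∑ r : α ⊕ β, X (r, ()) • (Pi.single (r, ()) 1 : Ix α β Unit → ℂ) := by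
      funext p'
      obtain ⟨q', k'⟩ := p'
      rw [Finset.sum_apply, Finset.sum_eq_single q']
      · simp
      · intro r _ hr
        rw [Pi.smul_apply, Pi.single_eq_of_ne, smul_zero]
        intro h
        exact hr (congrArg Prod.fst h).symm
      · intro h
        exact absurd (Finset.mem_univ _) h
    conv_rhs => rw [h1]
    rw [← hTl, map_sum, Finset.sum_apply]
    simp only [mu]
    refine Finset.sum_congr rfl fun r _ => ?_
    rw [map_smul, hTl, Pi.smul_apply, smul_eq_mul, hγ, Matrix.of_apply]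
    exact mul_comm _ _
  have hact : ∀ x : Ix α β Unit → ℂ, act γ x = T x := by
    intro x
    unfold act
    rw [hmu]
    simp only [hT']
    rw [UGr_sw_sw, UGr_sw_sw]
  have hlat : ∀ x : Ix α β Unit → ℂ, x ∈ L ↔ act γ x ∈ L := by
    intro x
    rw [hact]
    constructor
    · intro hx
      rw [← hb, Submodule.mem_span_range_iff_exists_fun] at hx
      obtain ⟨a, ha⟩ := hx
      rw [← ha, Ext_int, hTB, ← Ext_int, ← hc]
      exact Submodule.mem_span_range_iff_exists_fun ℤ |>.mpr ⟨a, rfl⟩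
    · intro hx
      rw [← hc, Submodule.mem_span_range_iff_exists_fun] at hx
      obtain ⟨a, ha⟩ := hx
      rw [Ext_int, ← hTB, ← sub_eq_zero, ← map_sub] at ha
      have h1 := hTinj _ ha
      rw [sub_eq_zero] at h1
      rw [← h1, ← Ext_int, ← hb]
      exact Submodule.mem_span_range_iff_exists_fun ℤ |>.mpr ⟨a, rfl⟩
  refine ⟨γ, ?_, hlat, ?_, fun i => by rw [hact, hTb]⟩
  · -- unitarity
    have hform : ∀ X Y : α ⊕ β → ℂ,
        (star Y ⬝ᵥ (γ.conjTranspose * Jm α β * γ).mulVec X).im =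
          (star Y ⬝ᵥ (Jm α β).mulVec X).im := by
      intro X Y
      have h1 := hTE (sw (fun p : Ix α β Unit => X p.1)) (sw (fun p : Ix α β Unit => Y p.1))
      rw [← hact, ← hact, UGr_E, UGr_E] at h1
      have h2 : ∀ Z : α ⊕ β → ℂ, (fun q => sw (act γ (sw fun p : Ix α β Unit => Z p.1)) (q, ())) =
          γ.mulVec Z := by
        intro Z
        funext q
        unfold act
        rw [UGr_sw_sw, UGr_sw_sw]
        rfl
      have h3 : ∀ Z : α ⊕ β → ℂ, (fun q => sw (sw fun p : Ix α β Unit => Z p.1) (q, ())) = Z := by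
        intro Z
        funext q
        rw [UGr_sw_sw]
      rw [Fintype.sum_unique, Fintype.sum_unique] at h1
      have hdef : (default : Unit) = () := rfl
      rw [hdef, h2, h2, h3, h3] at h1
      rw [← h1, Matrix.star_mulVec, ← Matrix.dotProduct_mulVec, Matrix.mulVec_mulVec,
        Matrix.mulVec_mulVec]
    have hform2 : ∀ X Y : α ⊕ β → ℂ,
        star Y ⬝ᵥ (γ.conjTranspose * Jm α β * γ).mulVec X = star Y ⬝ᵥ (Jm α β).mulVec X := by
      intro X Y
      apply Complex.ext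
      · have h1 := hform (Complex.I • X) Y
        rw [Matrix.mulVec_smul, Matrix.mulVec_smul, dotProduct_smul, dotProduct_smul,
          smul_eq_mul, smul_eq_mul, Complex.mul_im, Complex.mul_im] at h1
        simpa using h1
      · exact hform X Y
    show γ.conjTranspose * Jm α β * γ = Jm α β
    ext i j
    have h1 := hform2 (Pi.single j 1) (Pi.single i 1)
    have h2 : ∀ A : Matrix (α ⊕ β) (α ⊕ β) ℂ,
        star (Pi.single i (1 : ℂ) : α ⊕ β → ℂ) ⬝ᵥ A.mulVec (Pi.single j 1) = A i j := by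
      intro A
      rw [Matrix.mulVec_single_one]
      unfold dotProduct
      rw [Finset.sum_eq_single i]
      · simp
      · intro k _ hk
        rw [Pi.star_apply, Pi.single_eq_of_ne hk, star_zero, zero_mul]
      · intro h
        exact absurd (Finset.mem_univ _) h
    rw [h2, h2] at h1
    exact h1
  · -- congruence
    intro l hl
    rw [← hb, Submodule.mem_span_range_iff_exists_fun] at hl
    obtain ⟨a, ha⟩ := hl
    choose m hmL hm using hcong
    refine ⟨∑ i, a i • m i, Submodule.sum_mem _ fun i _ => Submodule.smul_mem _ _ (hmL i), ?_⟩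
    rw [hact, ← ha, Ext_int, hTB, ← Ext_int, ← Ext_int, Finset.smul_sum,
      ← Finset.sum_add_distrib]
    refine Finset.sum_congr rfl fun i _ => ?_
    rw [hm i, smul_add, smul_comm]

end DWC
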