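import Pool.Agent.DWC.StK
import Mathlib.Algebra.QuadraticAlgebra.NormDeterminant

/-!
# DWC [FldK]: the imaginary quadratic field
-/

set_option autoImplicit false

namespace DWC

open scoped ComplexConjugate
open GAM (CMF CMT)
open PST

private theorem FldK_fact (d : ℚ) (hd : 0 < d) :
    Fact (∀ r : ℚ, r ^ 2 ≠ (-d) + 0 * r) := by
  refine ⟨fun r h => ?_⟩
  have h1 : 0 ≤ r ^ 2 := sq_nonneg r
  rw [h] at h1
  simp at h1
  linarith

private theorem FldK_zd (d : ℚ) (hd : 0 < d) : zd d * zd d = -(d : ℂ) := by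
  have h1 : (0 : ℝ) ≤ (d : ℝ) := by exact_mod_cast hd.le
  have h2 : ((Real.sqrt (d : ℝ) : ℝ) : ℂ) * ((Real.sqrt (d : ℝ) : ℝ) : ℂ) = (d : ℂ) := by
    rw [← Complex.ofReal_mul, Real.mul_self_sqrt h1]
    simp
  unfold zd
  calc (Real.sqrt (d : ℝ) : ℂ) * Complex.I * ((Real.sqrt (d : ℝ) : ℂ) * Complex.I)
      = ((Real.sqrt (d : ℝ) : ℂ) * (Real.sqrt (d : ℝ) : ℂ)) * (Complex.I * Complex.I) := by ring
    _ = -(d : ℂ) := by rw [h2, Complex.I_mul_I]; ring

private theorem FldK_zd_ne (d : ℚ) (hd : 0 < d) : zd d ≠ 0 := by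
  intro h
  have h1 := FldK_zd d hd
  rw [h, mul_zero] at h1
  have h2 : (d : ℂ) = 0 := by
    rw [← neg_eq_zero]
    exact h1.symm
  have h3 : d = 0 := by exact_mod_cast h2
  exact hd.ne' h3

private theorem FldK_conj (d : ℚ) : conj (zd d) = -zd d := by
  unfold zd
  rw [map_mul, Complex.conj_ofReal, Complex.conj_I, mul_neg]

private abbrev FldK_K (d : ℚ) : Type := QuadraticAlgebra ℚ (-d) 0

section

variable (d : ℚ) [hF : Fact (∀ r : ℚ, r ^ 2 ≠ (-d) + 0 * r)]

private theorem FldK_char : CharZero (FldK_K d) := by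
  infer_instance

omit hF in
private theorem FldK_fin : FiniteDimensional ℚ (FldK_K d) :=
  inferInstanceAs (Module.Finite ℚ (QuadraticAlgebra ℚ (-d) 0))

private theorem FldK_nf : NumberField (FldK_K d) where
  to_charZero := FldK_char d
  to_finiteDimensional := FldK_fin d

/-- the homomorphism to a ring sending `ω` to `u` -/
private noncomputable def FldK_hom {A : Type} [Ring A] [Algebra ℚ A] (u : A)
    (h : u * u = (-d) • 1) : FldK_K d →+* A :=
  ((QuadraticAlgebra.lift (R := ℚ) (a := -d) (b := 0)) ⟨u, by rw [h]; simp⟩ : FldK_K d →ₐ[ℚ] A)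

private theorem FldK_hom_ap {A : Type} [Ring A] [Algebra ℚ A] (u : A)
    (h : u * u = (-d) • 1) (z : FldK_K d) :
    FldK_hom d u h z = z.re • 1 + z.im • u := rfl

private theorem FldK_om : (QuadraticAlgebra.omega : FldK_K d) * QuadraticAlgebra.omega =
    (-d) • 1 := by
  rw [QuadraticAlgebra.omega_mul_omega_eq_add]
  simp

omit hF in
/-- every element -/
private theorem FldK_eq (z : FldK_K d) :
    z = ((z.re : ℚ) : FldK_K d) + ((z.im : ℚ) : FldK_K d) * QuadraticAlgebra.omega := by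
  ext <;> simp

private theorem FldK_val (σ : FldK_K d →+* ℂ) (z : FldK_K d) :
    σ z = (z.re : ℂ) + (z.im : ℂ) * σ QuadraticAlgebra.omega := by
  conv_lhs => rw [FldK_eq d z]
  rw [map_add, map_mul, map_ratCast, map_ratCast]

private theorem FldK_sq (σ : FldK_K d →+* ℂ) :
    σ QuadraticAlgebra.omega * σ QuadraticAlgebra.omega = -(d : ℂ) := by
  rw [← map_mul, FldK_om, FldK_val]
  simp

private theorem FldK_ext {σ τ : FldK_K d →+* ℂ}
    (h : σ QuadraticAlgebra.omega = τ QuadraticAlgebra.omega) : σ = τ := by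
  ext z
  rw [FldK_val d σ, FldK_val d τ, h]

private theorem FldK_two (hd : 0 < d) (σ : FldK_K d →+* ℂ) :
    σ QuadraticAlgebra.omega = zd d ∨ σ QuadraticAlgebra.omega = -zd d := by
  have h1 := FldK_sq d σ
  rw [← FldK_zd d hd] at h1
  exact mul_self_eq_mul_self_iff.mp h1

end

private theorem FldK_un (s : Unit ⊕ Empty) : s = Sum.inl () := by
  rcases s with s | s
  · rfl
  · exact s.elim

private theorem FldK_rat (q : ℚ) (n : ℕ) (h : q.den ∣ n) : ∃ a : ℤ, (n : ℚ) * q = a := by
  obtain ⟨m, rfl⟩ := h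
  refine ⟨m * q.num, ?_⟩
  have h1 : (q.den : ℚ) * q = q.num := Rat.den_mul_eq_num q
  push_cast
  rw [← h1]
  ring

private theorem FldK_den (d : ℚ) [hF : Fact (∀ r : ℚ, r ^ 2 ≠ (-d) + 0 * r)]
    [hN : NumberField (FldK_K d)] : ∃ D : ℕ, D ≠ 0 ∧
    ∀ x : NumberField.RingOfIntegers (FldK_K d), ∃ a b : ℤ,
      (D : FldK_K d) * (x : FldK_K d) = (a : FldK_K d) + (b : FldK_K d) *
        QuadraticAlgebra.omega := by
  classical
  obtain ⟨T, hT⟩ := (Module.Finite.fg_top :
    (⊤ : Submodule ℤ (NumberField.RingOfIntegers (FldK_K d))).FG)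
  let D : ℕ := ∏ t ∈ T, ((t : FldK_K d).re.den * (t : FldK_K d).im.den)
  refine ⟨D, Finset.prod_ne_zero_iff.mpr fun t _ => mul_ne_zero (Rat.den_nz _) (Rat.den_nz _),
    fun x => ?_⟩
  have hx : x ∈ Submodule.span ℤ (T : Set (NumberField.RingOfIntegers (FldK_K d))) := by
    rw [hT]
    trivial
  induction hx using Submodule.span_induction with
  | mem t ht =>
    have h1 : (t : FldK_K d).re.den * (t : FldK_K d).im.den ∣ D :=
      Finset.dvd_prod_of_mem (fun t : NumberField.RingOfIntegers (FldK_K d) =>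
        (t : FldK_K d).re.den * (t : FldK_K d).im.den) ht
    obtain ⟨a, ha⟩ := FldK_rat (t : FldK_K d).re D ((dvd_mul_right _ _).trans h1)
    obtain ⟨b, hb⟩ := FldK_rat (t : FldK_K d).im D ((dvd_mul_left _ _).trans h1)
    refine ⟨a, b, ?_⟩
    have h2 : ((t : FldK_K d)) = _ := FldK_eq d (t : FldK_K d)
    rw [h2, mul_add, ← mul_assoc]
    have h3 : (D : FldK_K d) * (((t : FldK_K d).re : ℚ) : FldK_K d) = (a : FldK_K d) := by
      have h4 := congrArg (fun q : ℚ => (q : FldK_K d)) ha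
      simpa using h4
    have h5 : (D : FldK_K d) * (((t : FldK_K d).im : ℚ) : FldK_K d) = (b : FldK_K d) := by
      have h4 := congrArg (fun q : ℚ => (q : FldK_K d)) hb
      simpa using h4
    rw [h3, h5]
  | zero => exact ⟨0, 0, by simp⟩
  | add u v _ _ hu hv =>
    obtain ⟨a, b, h1⟩ := hu
    obtain ⟨a', b', h2⟩ := hv
    refine ⟨a + a', b + b', ?_⟩
    have h3 : ((u + v : NumberField.RingOfIntegers (FldK_K d)) : FldK_K d) =
        (u : FldK_K d) + (v : FldK_K d) := rfl
    rw [h3, mul_add, h1, h2]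
    push_cast
    ring
  | smul n u _ hu =>
    obtain ⟨a, b, h1⟩ := hu
    refine ⟨n * a, n * b, ?_⟩
    have h3 : ((n • u : NumberField.RingOfIntegers (FldK_K d)) : FldK_K d) =
        (n : FldK_K d) * (u : FldK_K d) := by
      rw [zsmul_eq_mul]
      have h4 : (((n : NumberField.RingOfIntegers (FldK_K d)) * u :
          NumberField.RingOfIntegers (FldK_K d)) : FldK_K d) =
          ((n : NumberField.RingOfIntegers (FldK_K d)) : FldK_K d) * (u : FldK_K d) := rfl
      rw [h4]
      congr 1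
    rw [h3, mul_left_comm, h1]
    push_cast
    ring

theorem thm_FldK : St_FldK := by
  intro d hd
  have hF : Fact (∀ r : ℚ, r ^ 2 ≠ (-d) + 0 * r) := FldK_fact d hd
  have hN : NumberField (FldK_K d) := FldK_nf d
  have hu : zd d * zd d = (-d) • (1 : ℂ) := by
    rw [FldK_zd d hd, Algebra.smul_def]
    simp
  have hc : (-(QuadraticAlgebra.omega : FldK_K d)) * (-QuadraticAlgebra.omega) = (-d) • 1 := by
    rw [neg_mul_neg]
    exact FldK_om d
  let c : FldK_K d →+* FldK_K d := FldK_hom d (-QuadraticAlgebra.omega) hc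
  let φ₀ : FldK_K d →+* ℂ := FldK_hom d (zd d) hu
  have hcω : c QuadraticAlgebra.omega = -QuadraticAlgebra.omega := by
    rw [FldK_hom_ap]
    simp
  have hφω : φ₀ QuadraticAlgebra.omega = zd d := by
    rw [FldK_hom_ap]
    simp
  have hne : zd d ≠ -zd d := by
    intro h
    have h1 : zd d + zd d = 0 := by
      nth_rw 1 [h]
      ring
    have h2 : zd d = 0 := by
      rw [← two_mul] at h1
      rcases mul_eq_zero.mp h1 with h3 | h3
      · exact absurd h3 two_ne_zero
      · exact h3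
    exact FldK_zd_ne d hd h2
  have hcz : ∀ z : FldK_K d, c z = (z.re : FldK_K d) + (z.im : FldK_K d) *
      (-QuadraticAlgebra.omega) := by
    intro z
    conv_lhs => rw [FldK_eq d z]
    rw [map_add, map_mul, map_ratCast, map_ratCast, hcω]
  refine ⟨FldK_K d, inferInstance, hN, c, fun _ => φ₀, QuadraticAlgebra.omega, ⟨?_, ?_⟩,
    ⟨?_, ?_⟩, fun i => hφω, ?_⟩
  · intro σ x
    have h1 : conj (σ QuadraticAlgebra.omega) = -σ QuadraticAlgebra.omega := by
      rcases FldK_two d hd σ with h | h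
      · rw [h, FldK_conj]
      · rw [h, map_neg, FldK_conj]
    rw [hcz, FldK_val d σ x]
    simp only [map_add, map_mul, map_ratCast, map_neg, h1]
  · intro h
    have h1 := congrArg (fun f : FldK_K d →+* FldK_K d => φ₀ (f QuadraticAlgebra.omega)) h
    simp only [hcω, map_neg, hφω, RingHom.id_apply] at h1
    exact hne h1.symm
  · rintro (s | s) (t | t) h
    · rw [FldK_un s, FldK_un t]
    · exfalso
      have h1 := congrArg (fun f : FldK_K d →+* ℂ => f QuadraticAlgebra.omega) h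
      simp only [Sum.elim_inl, Sum.elim_inr, RingHom.comp_apply, hcω, map_neg, hφω] at h1
      exact hne h1
    · exfalso
      have h1 := congrArg (fun f : FldK_K d →+* ℂ => f QuadraticAlgebra.omega) h
      simp only [Sum.elim_inl, Sum.elim_inr, RingHom.comp_apply, hcω, map_neg, hφω] at h1
      exact hne h1.symm
    · rw [FldK_un s, FldK_un t]
  · intro σ
    rcases FldK_two d hd σ with h | h
    · exact ⟨Sum.inl (Sum.inl ()), FldK_ext d (by simp only [Sum.elim_inl]; rw [hφω, h])⟩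
    · refine ⟨Sum.inr (Sum.inl ()), FldK_ext d ?_⟩
      simp only [Sum.elim_inr, RingHom.comp_apply]
      rw [hcω, map_neg, hφω, h]
  · obtain ⟨D, hD, h⟩ := FldK_den d
    refine ⟨D, hD, fun _ x => ?_⟩
    obtain ⟨a, b, hab⟩ := h x
    refine ⟨a, b, ?_⟩
    change φ₀ ((D : FldK_K d) * (x : FldK_K d)) = _
    rw [hab, map_add, map_mul, map_intCast, map_intCast, hφω]

end DWC
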