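import Pool.Agent.DWC.StG

/-!
# DWC [Gn]: short generators of lattices without very short vectors
-/

set_option autoImplicit false

namespace DWC

open scoped ComplexConjugate
open GAM (H E F pd pdl PLat IsTh OddTor IsDel Gro IsLat)
open PST

section gen

variable {ι : Type} [Fintype ι]

private theorem Gn_nq_nonneg (x : ι → ℂ) : 0 ≤ nq x := by
  unfold nq
  positivity

private theorem Gn_coord {x : ι → ℂ} {R : ℝ} (h : nq x ≤ R) (p : ι) :
    ‖x p‖ ≤ Real.sqrt R := by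
  have h1 : ‖x p‖ ^ 2 ≤ R := by
    refine le_trans ?_ h
    unfold nq
    exact Finset.single_le_sum (f := fun p => ‖x p‖ ^ 2) (fun q _ => by positivity)
      (Finset.mem_univ p)
  exact Real.le_sqrt_of_sq_le h1

private theorem Gn_le_nq {x : ι → ℂ} {B : ℝ} (h : ∀ p, ‖x p‖ ≤ B) :
    nq x ≤ Fintype.card ι * B ^ 2 := by
  unfold nq
  calc ∑ p, ‖x p‖ ^ 2 ≤ ∑ _p : ι, B ^ 2 := by
        refine Finset.sum_le_sum fun p _ => ?_
        have h0 : 0 ≤ ‖x p‖ := norm_nonneg _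
        exact pow_le_pow_left₀ h0 (h p) 2
    _ = Fintype.card ι * B ^ 2 := by
        rw [Finset.sum_const, Finset.card_univ, nsmul_eq_mul]

/-- the real span of a set meeting every half space is everything -/
private theorem Gn_span [DecidableEq ι] (S : Set (ι → ℂ))
    (h : ∀ u : ι → ℂ, u ≠ 0 → ∃ x ∈ S, (H x u).re ≠ 0) : Submodule.span ℝ S = ⊤ := by
  by_contra hne
  obtain ⟨f, hf, hle⟩ := Submodule.exists_le_ker_of_lt_top (Submodule.span ℝ S)
    (lt_top_iff_ne_top.2 hne)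
  have hrep : ∀ x : ι → ℂ, f x = ∑ p, ((x p).re * f (Pi.single p 1) +
      (x p).im * f (Pi.single p Complex.I)) := by
    intro x
    have hx : x = ∑ p, ((x p).re • (Pi.single p 1 : ι → ℂ) +
        (x p).im • (Pi.single p Complex.I : ι → ℂ)) := by
      funext q
      rw [Finset.sum_apply, Finset.sum_eq_single q]
      · simp [Complex.re_add_im]
      · intro b _ hb
        simp [Ne.symm hb]
      · intro hq
        exact absurd (Finset.mem_univ q) hq
    have h1 := congrArg f hx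
    rw [h1, map_sum]
    refine Finset.sum_congr rfl fun p _ => ?_
    rw [map_add, map_smul, map_smul, smul_eq_mul, smul_eq_mul]
  let u : ι → ℂ := fun p => ⟨f (Pi.single p 1), f (Pi.single p Complex.I)⟩
  have hu : ∀ x : ι → ℂ, (H x u).re = f x := by
    intro x
    rw [hrep x]
    unfold H
    rw [Complex.re_sum]
    refine Finset.sum_congr rfl fun p _ => ?_
    simp [u]
  have hu0 : u ≠ 0 := by
    intro h0
    apply hf
    refine LinearMap.ext fun x => ?_
    rw [← hu x, h0]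
    unfold H
    simp
  obtain ⟨x, hxS, hx⟩ := h u hu0
  apply hx
  rw [hu x]
  exact LinearMap.mem_ker.1 (hle (Submodule.subset_span hxS))

/-- the short vectors of the lattice generate it -/
private theorem Gn_gen [DecidableEq ι] (R₁ : ℝ) (hR₁ : 0 ≤ R₁) (L : Submodule ℤ (ι → ℂ))
    (h : ∀ u : ι → ℂ, u ≠ 0 → ∃ x ∈ L, nq x ≤ R₁ ∧ (H x u).re ≠ 0) :
    ∀ x ∈ L, x ∈ Submodule.span ℤ {y : ι → ℂ | y ∈ L ∧ nq y ≤
      Fintype.card ι * (Module.finrank ℝ (ι → ℂ) * Real.sqrt R₁) ^ 2 + R₁} := by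
  let S : Set (ι → ℂ) := {x | x ∈ L ∧ nq x ≤ R₁}
  have hS : Submodule.span ℝ S = ⊤ := by
    refine Gn_span S fun u hu => ?_
    obtain ⟨x, h1, h2, h3⟩ := h u hu
    exact ⟨x, ⟨h1, h2⟩, h3⟩
  obtain ⟨b, hbS, hbspan, hbli⟩ := exists_linearIndependent ℝ S
  have hbtop : ⊤ ≤ Submodule.span ℝ (Set.range ((↑) : b → ι → ℂ)) := by
    rw [Subtype.range_coe, hbspan, hS]
  let B : Module.Basis b ℝ (ι → ℂ) := Module.Basis.mk hbli hbtop
  have hfin : Finite b := Module.Finite.finite_basis B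
  have hft : Fintype b := Fintype.ofFinite b
  have hcard : Module.finrank ℝ (ι → ℂ) = Fintype.card b := Module.finrank_eq_card_basis B
  have hBv : ∀ i : b, B i = (i : ι → ℂ) := fun i => by
    simp only [B, Module.Basis.mk_apply]
  have hbL : ∀ i : b, (i : ι → ℂ) ∈ L ∧ nq (i : ι → ℂ) ≤ R₁ := fun i => hbS i.2
  intro x hx
  let y : ι → ℂ := ∑ i : b, Int.fract (B.repr x i) • (i : ι → ℂ)
  have hxy : x = y + ∑ i : b, (⌊B.repr x i⌋ : ℤ) • (i : ι → ℂ) := by
    have h1 : x = ∑ i : b, B.repr x i • (i : ι → ℂ) := by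
      have h2 := B.sum_repr x
      rw [← h2]
      refine Finset.sum_congr rfl fun i _ => ?_
      rw [h2, hBv i]
    have h3 : ∀ i : b, B.repr x i • (i : ι → ℂ) = Int.fract (B.repr x i) • (i : ι → ℂ) +
        (⌊B.repr x i⌋ : ℤ) • (i : ι → ℂ) := by
      intro i
      rw [← Int.cast_smul_eq_zsmul ℝ, ← add_smul, Int.fract_add_floor]
    calc x = ∑ i : b, B.repr x i • (i : ι → ℂ) := h1
      _ = ∑ i : b, (Int.fract (B.repr x i) • (i : ι → ℂ) +
          (⌊B.repr x i⌋ : ℤ) • (i : ι → ℂ)) := Finset.sum_congr rfl fun i _ => h3 i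
      _ = y + ∑ i : b, (⌊B.repr x i⌋ : ℤ) • (i : ι → ℂ) := Finset.sum_add_distrib
  have hzL : ∑ i : b, (⌊B.repr x i⌋ : ℤ) • (i : ι → ℂ) ∈ L :=
    Submodule.sum_mem _ fun i _ => Submodule.smul_mem _ _ (hbL i).1
  have hyL : y ∈ L := by
    have h1 : y = x - ∑ i : b, (⌊B.repr x i⌋ : ℤ) • (i : ι → ℂ) := by
      rw [eq_sub_iff_add_eq]
      exact hxy.symm
    rw [h1]
    exact Submodule.sub_mem _ hx hzL
  have hyn : nq y ≤ Fintype.card ι * (Module.finrank ℝ (ι → ℂ) * Real.sqrt R₁) ^ 2 := by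
    refine Gn_le_nq fun p => ?_
    have h1 : y p = ∑ i : b, Int.fract (B.repr x i) • ((i : ι → ℂ) p) := by
      simp only [y, Finset.sum_apply, Pi.smul_apply]
    rw [h1]
    calc ‖∑ i : b, Int.fract (B.repr x i) • ((i : ι → ℂ) p)‖
        ≤ ∑ i : b, ‖Int.fract (B.repr x i) • ((i : ι → ℂ) p)‖ := norm_sum_le _ _
      _ ≤ ∑ _i : b, Real.sqrt R₁ := by
          refine Finset.sum_le_sum fun i _ => ?_
          rw [norm_smul]
          have h2 : ‖Int.fract (B.repr x i)‖ ≤ 1 := by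
            rw [Real.norm_eq_abs, abs_of_nonneg (Int.fract_nonneg _)]
            exact (Int.fract_lt_one _).le
          calc ‖Int.fract (B.repr x i)‖ * ‖(i : ι → ℂ) p‖ ≤ 1 * Real.sqrt R₁ :=
                mul_le_mul h2 (Gn_coord (hbL i).2 p) (norm_nonneg _) zero_le_one
            _ = Real.sqrt R₁ := one_mul _
      _ = Module.finrank ℝ (ι → ℂ) * Real.sqrt R₁ := by
          rw [Finset.sum_const, Finset.card_univ, nsmul_eq_mul, hcard]
  rw [hxy]
  refine Submodule.add_mem _ (Submodule.subset_span ⟨hyL, by linarith⟩)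
    (Submodule.sum_mem _ fun i _ => Submodule.smul_mem _ _ (Submodule.subset_span
      ⟨(hbL i).1, ?_⟩))
  have h1 : (0 : ℝ) ≤ Fintype.card ι * (Module.finrank ℝ (ι → ℂ) * Real.sqrt R₁) ^ 2 := by
    positivity
  linarith [(hbL i).2]

/-- the cell of a vector -/
private noncomputable def Gn_cell (η : ℝ) (x : ι → ℂ) (p : ι) : ℤ × ℤ :=
  (⌊(x p).re / η⌋, ⌊(x p).im / η⌋)

private theorem Gn_floor {η a b : ℝ} (hη : 0 < η) (h : ⌊a / η⌋ = ⌊b / η⌋) :
    (a - b) ^ 2 ≤ η ^ 2 := by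
  have h1 : |a / η - b / η| < 1 := Int.abs_sub_lt_one_of_floor_eq_floor h
  have h2 : a / η - b / η = (a - b) / η := by ring
  rw [h2, abs_div, abs_of_pos hη, div_lt_one hη] at h1
  rw [← sq_abs (a - b)]
  exact pow_le_pow_left₀ (abs_nonneg _) h1.le 2

private theorem Gn_cell_inj {η : ℝ} (hη : 0 < η) {x y : ι → ℂ}
    (h : Gn_cell η x = Gn_cell η y) : nq (x - y) ≤ 2 * Fintype.card ι * η ^ 2 := by
  have h1 : ∀ p, ‖(x - y) p‖ ^ 2 ≤ 2 * η ^ 2 := by
    intro p
    have h2 := congrFun h p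
    simp only [Gn_cell, Prod.mk.injEq] at h2
    have h3 := Gn_floor hη h2.1
    have h4 := Gn_floor hη h2.2
    rw [← Complex.normSq_eq_norm_sq, Complex.normSq_apply, Pi.sub_apply, Complex.sub_re,
      Complex.sub_im]
    nlinarith
  unfold nq
  calc ∑ p, ‖(x - y) p‖ ^ 2 ≤ ∑ _p : ι, 2 * η ^ 2 := Finset.sum_le_sum fun p _ => h1 p
    _ = 2 * Fintype.card ι * η ^ 2 := by
        rw [Finset.sum_const, Finset.card_univ, nsmul_eq_mul]
        ring

private theorem Gn_floor_box {η a s : ℝ} (hη : 0 < η) (ha : |a| ≤ s) :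
    ⌊a / η⌋ ∈ Finset.Icc (-(⌈s / η⌉ + 1)) (⌈s / η⌉ + 1) := by
  have h1 : a / η ≤ s / η := by
    have h2 := (abs_le.1 ha).2
    exact div_le_div_of_nonneg_right h2 hη.le
  have h3 : -(s / η) ≤ a / η := by
    have h2 := (abs_le.1 ha).1
    rw [← neg_div]
    exact div_le_div_of_nonneg_right h2 hη.le
  have h4 := Int.le_ceil (s / η)
  rw [Finset.mem_Icc]
  constructor
  · rw [Int.le_floor]
    push_cast
    linarith
  · have h5 : (⌊a / η⌋ : ℝ) ≤ a / η := Int.floor_le _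
    have h6 : (⌊a / η⌋ : ℝ) ≤ ((⌈s / η⌉ + 1 : ℤ) : ℝ) := by
      push_cast
      linarith
    exact_mod_cast h6

/-- enumeration of the short vectors of a lattice without very short vectors -/
private theorem Gn_enum [DecidableEq ι] (ε R : ℝ) (hε : 0 < ε) (hR : 0 ≤ R) :
    ∃ M : ℕ, ∀ L : Submodule ℤ (ι → ℂ), (∀ x ∈ L, x ≠ 0 → ε ^ 2 ≤ nq x) →
      ∃ b : Fin M → ι → ℂ, (∀ i, b i ∈ L ∧ nq (b i) ≤ R) ∧
        ∀ x ∈ L, nq x ≤ R → x ∈ Set.range b := by
  classical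
  let η : ℝ := ε / (2 * (Fintype.card ι + 1))
  have hη : 0 < η := by
    have h1 : (0 : ℝ) < 2 * (Fintype.card ι + 1) := by positivity
    exact div_pos hε h1
  have hη2 : 2 * (Fintype.card ι : ℝ) * η ^ 2 < ε ^ 2 := by
    have h1 : (0 : ℝ) < 2 * (Fintype.card ι + 1) := by positivity
    have h2 : ε = η * (2 * (Fintype.card ι + 1)) := by
      simp only [η]
      field_simp
    have h3 : (0 : ℝ) ≤ Fintype.card ι := Nat.cast_nonneg _
    rw [h2, mul_pow]
    have h4 : 0 < η ^ 2 := by positivity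
    nlinarith [mul_nonneg h3 h4.le, mul_nonneg (mul_nonneg h3 h3) h4.le]
  let N : ℤ := ⌈Real.sqrt R / η⌉ + 1
  let C : Finset (ι → ℤ × ℤ) := Fintype.piFinset fun _ => Finset.Icc (-N) N ×ˢ Finset.Icc (-N) N
  refine ⟨Fintype.card C, fun L hL => ?_⟩
  let T : Set (ι → ℂ) := {x | x ∈ L ∧ nq x ≤ R}
  let b' : C → ι → ℂ := fun c =>
    if h : ∃ x ∈ T, Gn_cell η x = (c : ι → ℤ × ℤ) then h.choose else 0
  have hb'T : ∀ c, b' c ∈ T := by
    intro c
    by_cases h : ∃ x ∈ T, Gn_cell η x = (c : ι → ℤ × ℤ)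
    · simp only [b', dif_pos h]
      exact h.choose_spec.1
    · simp only [b', dif_neg h]
      refine ⟨L.zero_mem, ?_⟩
      simp only [nq, Pi.zero_apply, norm_zero]
      simpa using hR
  have hmem : ∀ x ∈ T, ∃ c, b' c = x := by
    intro x hx
    have hc : Gn_cell η x ∈ C := by
      simp only [C, Fintype.mem_piFinset]
      intro p
      have h1 := Gn_coord hx.2 p
      rw [Finset.mem_product]
      exact ⟨Gn_floor_box hη (le_trans (Complex.abs_re_le_norm _) h1),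
        Gn_floor_box hη (le_trans (Complex.abs_im_le_norm _) h1)⟩
    refine ⟨⟨Gn_cell η x, hc⟩, ?_⟩
    have h : ∃ y ∈ T, Gn_cell η y = Gn_cell η x := ⟨x, hx, rfl⟩
    have h1 : b' ⟨Gn_cell η x, hc⟩ = h.choose := by
      simp only [b', dif_pos h]
    rw [h1]
    have h2 := h.choose_spec
    by_contra hne
    have h3 : h.choose - x ∈ L := L.sub_mem h2.1.1 hx.1
    have h4 := hL _ h3 (sub_ne_zero.2 hne)
    have h5 := Gn_cell_inj hη h2.2
    linarith
  let e : Fin (Fintype.card C) ≃ C := (Fintype.equivFin C).symm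
  refine ⟨fun i => b' (e i), fun i => hb'T (e i), fun x hx hn => ?_⟩
  obtain ⟨c, hc⟩ := hmem x ⟨hx, hn⟩
  exact ⟨e.symm c, by simp [hc]⟩

end gen

section action

variable {α β μ : Type} [Fintype α] [Fintype β]

private theorem Gn_act_add (g : Matrix (α ⊕ β) (α ⊕ β) ℂ) (x y : Ix α β μ → ℂ) :
    act g (x + y) = act g x + act g y := by
  have hsw : ∀ u v : Ix α β μ → ℂ, sw (u + v) = sw u + sw v := by
    intro u v
    funext p
    rcases p with ⟨i | j, k⟩ <;> simp [sw]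
  have hmu : ∀ u v : Ix α β μ → ℂ, mu g (u + v) = mu g u + mu g v := by
    intro u v
    funext p
    simp only [mu, Pi.add_apply, mul_add, Finset.sum_add_distrib]
  unfold act
  rw [hsw, hmu, hsw]

end action

/-- [Gn] short generators -/
theorem thm_Gn (h1 : St_Rk) : St_Gn := by
  intro α β _ _ _ _ L χ ε hL hε
  obtain ⟨R₀, hR₀⟩ := h1 α β L χ ε hL hε
  let R₁ : ℝ := max R₀ 0
  let R : ℝ := Fintype.card (Ix α β Unit) *
    (Module.finrank ℝ (Ix α β Unit → ℂ) * Real.sqrt R₁) ^ 2 + R₁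
  have hR₁ : 0 ≤ R₁ := le_max_right _ _
  have hR : 0 ≤ R := by positivity
  obtain ⟨M, hM⟩ := Gn_enum (ι := Ix α β Unit) ε R hε hR
  refine ⟨R, M, fun g hg hsh => ?_⟩
  let f : (Ix α β Unit → ℂ) →+ (Ix α β Unit → ℂ) := AddMonoidHom.mk' (act g) (Gn_act_add g)
  let L' : Submodule ℤ (Ix α β Unit → ℂ) := L.comap f.toIntLinearMap
  have hL' : ∀ x, x ∈ L' ↔ act g x ∈ L := fun x => Iff.rfl
  obtain ⟨b, hb, hb2⟩ := hM L' fun x hx hx0 => hsh x hx0 ((hL' x).1 hx)
  refine ⟨b, hb, fun x hx => ?_⟩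
  have hgen := Gn_gen R₁ hR₁ L' (fun u hu => by
    obtain ⟨x, hx1, hx2, hx3⟩ := hR₀ g hg hsh u hu
    exact ⟨x, hx1, le_trans hx2 (le_max_left _ _), hx3⟩) x hx
  refine Submodule.span_mono ?_ hgen
  rintro y ⟨hy1, hy2⟩
  exact hb2 y hy1 hy2

end DWC
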