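import Pool.Agent.DWC.StK
import Pool.Agent.Helper71.AF.Alg

/-!
# DWC: the operator in the normal form
-/

set_option autoImplicit false
set_option linter.unusedSectionVars false

namespace DWC

open scoped ComplexConjugate
open GAM (H E F pd pdl PLat IsTh OddTor IsDel Gro IsLat Pre QD qd jac HasExp CMF CMT IsExp IsCM)
open Pool.Agent.GPC (AbVar hermForm bilForm)
open Module Matrix
open PST

section mat

variable {l m n : Type} [Fintype m]

/-- product rule for matrices -/
private theorem HatK_mul (δ : Derivation ℚ ℂ ℂ) (A : Matrix l m ℂ) (B : Matrix m n ℂ) :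
    (A * B).map δ = A * B.map δ + A.map δ * B := by
  ext i j
  simp only [Matrix.map_apply, Matrix.add_apply, Matrix.mul_apply, map_sum]
  rw [← Finset.sum_add_distrib]
  refine Finset.sum_congr rfl fun k _ => ?_
  rw [Derivation.leibniz, smul_eq_mul, smul_eq_mul]
  ring

private theorem HatK_alg (δ : Derivation ℚ ℂ ℂ) (A : Matrix l n ℂ)
    (h : ∀ i j, IsAlgebraic ℚ (A i j)) : A.map δ = 0 := by
  ext i j
  exact Pool.Agent.Helper7.derivation_eq_zero δ _ (h i j)

private theorem HatK_one [DecidableEq n] (δ : Derivation ℚ ℂ ℂ) :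
    (1 : Matrix n n ℂ).map δ = 0 := by
  refine HatK_alg δ _ fun i j => ?_
  by_cases h : i = j
  · subst h
    rw [Matrix.one_apply_eq]
    exact isAlgebraic_one
  · rw [Matrix.one_apply_ne h]
    exact isAlgebraic_zero

end mat

section blk

variable {α β μ : Type} [Fintype α] [Fintype β] [Fintype μ] [DecidableEq α] [DecidableEq β]
  [DecidableEq μ]

private theorem HatK_blk_mul (P P' : Matrix α α ℂ) (Q Q' : Matrix β β ℂ) :
    blk μ P Q * blk μ P' Q' = blk μ (P * P') (Q * Q') := by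
  ext ⟨p, k⟩ ⟨q, l⟩
  rw [Matrix.mul_apply]
  simp only [blk, Matrix.of_apply, Fintype.sum_prod_type, ite_mul, zero_mul, mul_ite, mul_zero]
  simp only [Finset.sum_ite_eq', Finset.mem_univ, if_true]
  by_cases h : k = l
  · subst h
    simp only [if_true]
    rw [← Matrix.mul_apply, Matrix.fromBlocks_multiply]
    simp
  · simp [h]

private theorem HatK_blk_one : blk μ (1 : Matrix α α ℂ) (1 : Matrix β β ℂ) = 1 := by
  ext ⟨p, k⟩ ⟨q, l⟩
  rw [blk, Matrix.of_apply, Matrix.fromBlocks_one]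
  simp only [Matrix.one_apply, Prod.mk.injEq]
  by_cases h : k = l <;> by_cases h' : p = q <;> simp [h, h']

private theorem HatK_blk_map (δ : Derivation ℚ ℂ ℂ) (P : Matrix α α ℂ) (Q : Matrix β β ℂ) :
    (blk μ P Q).map δ = blk μ (P.map δ) (Q.map δ) := by
  ext ⟨p, k⟩ ⟨q, l⟩
  simp only [blk, Matrix.map_apply, Matrix.of_apply]
  by_cases h : k = l
  · rw [if_pos h, if_pos h]
    rcases p with p | p <;> rcases q with q | q <;> simp
  · rw [if_neg h, if_neg h, map_zero]

private theorem HatK_rgt_one : rgt α β (1 : Matrix μ μ ℂ) = 1 := by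
  ext ⟨p, k⟩ ⟨q, l⟩
  simp only [rgt, Matrix.of_apply, Matrix.one_apply, Prod.mk.injEq]
  by_cases h : p = q
  · subst h
    by_cases h' : k = l
    · subst h'
      rcases p with p | p <;> simp
    · have h'' : ¬ l = k := fun e => h' e.symm
      rcases p with p | p <;> simp [h', h'']
  · simp [h]

private theorem HatK_rgt_neg (r : Matrix μ μ ℂ) : rgt α β (-r) = -rgt α β r := by
  ext ⟨p, k⟩ ⟨q, l⟩
  simp only [rgt, Matrix.of_apply, Matrix.neg_apply]
  by_cases h : p = q
  · subst h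
    rcases p with p | p <;> simp
  · simp [h]

end blk

private theorem HatK_conj (d : ℚ) : (zd d • (1 : Matrix Unit Unit ℂ)).conjTranspose =
    -(zd d • (1 : Matrix Unit Unit ℂ)) := by
  rw [Matrix.conjTranspose_smul, Matrix.conjTranspose_one, ← neg_smul]
  congr 1
  show conj ((Real.sqrt (d : ℝ) : ℂ) * Complex.I) = -((Real.sqrt (d : ℝ) : ℂ) * Complex.I)
  rw [map_mul, Complex.conj_ofReal, Complex.conj_I, mul_neg]

theorem thm_HatK (h1 : St_HatA) (h2 : St_QRel) (h3 : St_HatC) : St_HatK := by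
  intro X d J α β _ _ _ _ T S Tp Tm Ta g r q L χ θ δ hK hN hL hθ hne hLe
  -- the blocks
  have b1 : blk Unit Tp Tm * blk Unit Tp⁻¹ Tm⁻¹ = 1 := by
    rw [HatK_blk_mul, Matrix.mul_nonsing_inv _ (isUnit_iff_ne_zero.mpr hN.dp),
      Matrix.mul_nonsing_inv _ (isUnit_iff_ne_zero.mpr hN.dm), HatK_blk_one]
  obtain ⟨Bl, hBl⟩ : ∃ Bl, Bl = blk Unit Tp Tm := ⟨_, rfl⟩
  obtain ⟨Bi, hBi⟩ : ∃ Bi, Bi = blk Unit Tp⁻¹ Tm⁻¹ := ⟨_, rfl⟩
  have hfac := hN.fac
  rw [← hBl] at hfac
  rw [← hBl, ← hBi] at b1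
  have b2 : Bi * Bl = 1 := mul_eq_one_comm.mp b1
  have ts := hN.ts
  have st := hN.st
  -- the algebraic inverse
  have a1 : Ta * S = Bi := by
    have e1 : Bl * (Ta * S) = 1 := by
      rw [← Matrix.mul_assoc, ← hfac, ts]
    calc Ta * S = Bi * Bl * (Ta * S) := by rw [b2, Matrix.one_mul]
      _ = Bi * (Bl * (Ta * S)) := Matrix.mul_assoc _ _ _
      _ = Bi := by rw [e1, Matrix.mul_one]
  have a2 : (S * Bl) * Ta = 1 := by
    rw [Matrix.mul_assoc, ← hfac, st]
  have a3 : Ta * (S * Bl) = 1 := by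
    rw [← Matrix.mul_assoc, a1, b2]
  have a4 : (S * Bl).map δ = 0 := by
    have e1 := HatK_mul δ (S * Bl) Ta
    rw [a2, HatK_one, HatK_alg δ Ta hN.alg, Matrix.mul_zero, zero_add] at e1
    calc (S * Bl).map δ = (S * Bl).map δ * (Ta * (S * Bl)) := by rw [a3, Matrix.mul_one]
      _ = ((S * Bl).map δ * Ta) * (S * Bl) := (Matrix.mul_assoc _ _ _).symm
      _ = 0 := by rw [← e1, Matrix.zero_mul]
  have a5 : S = (S * Bl) * Bi := by rw [Matrix.mul_assoc, b1, Matrix.mul_one]
  have hB : T * S.map δ = blk Unit (Tp * Tp⁻¹.map δ) (Tm * Tm⁻¹.map δ) := by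
    have e1 : S.map δ = (S * Bl) * Bi.map δ := by
      have e2 := HatK_mul δ (S * Bl) Bi
      rw [← a5, a4, Matrix.zero_mul, add_zero] at e2
      exact e2
    rw [e1, ← Matrix.mul_assoc, ← Matrix.mul_assoc, ts, Matrix.one_mul, hBi, HatK_blk_map, hBl,
      HatK_blk_mul]
  -- the operator
  have hlat : ∀ l ∈ L, ∃ n : ℕ, n ≠ 0 ∧ S.mulVec ((n : ℤ) • l) ∈ X.Λ := by
    intro l hl
    obtain ⟨a, b, hab⟩ := hLe l hl
    obtain ⟨n, hn, hn'⟩ := (hN.lat (S.mulVec l)).mpr ⟨a, b, by
      rw [Matrix.mulVec_mulVec, ts, Matrix.one_mulVec, hab]⟩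
    refine ⟨n, hn, ?_⟩
    have e2 : S.mulVec ((n : ℤ) • l) = (n : ℤ) • S.mulVec l := by
      rw [Matrix.mulVec_smul]
    rw [e2]
    exact hn'
  obtain ⟨k, hk⟩ := h1 X (Ix α β Unit) δ S T L χ θ st ts hL hθ hne hN.herm hlat
  rw [hB] at hk
  -- the endomorphism
  obtain ⟨G, hG⟩ : ∃ G, G = rgt α β (zd d • (1 : Matrix Unit Unit ℂ)) := ⟨_, rfl⟩
  have hneg : X.IsEnd ((-J : Module.End ℂ X.H1)) := by
    apply Pool.Agent.Helper7.isEnd_of_isDRB
    exact (Pool.Agent.Helper71.AF.DD (Pool.Agent.Helper7.pData X)).neg_mem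
      (Pool.Agent.Helper7.isDRB_of_isEnd X J hK.endo)
  have hM : ∀ v, X.zz (J v) = (S * G * T).mulVec (X.zz v) := by
    intro v
    have e1 := hN.jj v
    rw [← hG] at e1
    rw [← Matrix.mulVec_mulVec, ← Matrix.mulVec_mulVec, ← e1, Matrix.mulVec_mulVec, st,
      Matrix.one_mulVec]
  have hM' : ∀ v, X.zz ((-J : Module.End ℂ X.H1) v) = (-(S * G * T)).mulVec (X.zz v) := by
    intro v
    rw [LinearMap.neg_apply, map_neg, hM, Matrix.neg_mulVec]
  have hadj : X.IsAdjoint J (-J : Module.End ℂ X.H1) := by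
    intro u v
    rw [hK.adj, LinearMap.neg_apply]
    show - X.polForm u (J v) = X.polForm u (-(J v))
    rw [map_neg]
  obtain ⟨q1, q2⟩ := h2 X J (-J : Module.End ℂ X.H1) _ _ hK.endo hneg hadj hM hM'
  have hMa : (S * G * T).map δ = 0 := HatK_alg δ _ q1
  have hq : X.q.map δ * (S * G * T) = -((S * G * T).transpose * X.q.map δ) := by
    have e1 := HatK_alg δ _ q2
    rw [Matrix.transpose_neg, Matrix.neg_mul, sub_neg_eq_add] at e1
    have e2 : (S * G * T).transpose.map δ = 0 := by
      rw [Matrix.transpose_map, hMa, Matrix.transpose_zero]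
    have e3 := HatK_mul δ X.q (S * G * T)
    have e4 := HatK_mul δ (S * G * T).transpose X.q
    rw [hMa, Matrix.mul_zero, zero_add] at e3
    rw [e2, Matrix.zero_mul, add_zero] at e4
    rw [← e3, ← e4, ← add_eq_zero_iff_eq_neg, ← Matrix.map_add _ (fun a b => map_add δ a b)]
    exact e1
  obtain ⟨c, hc⟩ := h3 α β Unit (-(S.transpose * X.q.map δ * S))
    {(1 : Matrix Unit Unit ℂ), zd d • (1 : Matrix Unit Unit ℂ)}
    (Real.sqrt (d : ℝ)) hk.symm (Real.sqrt_ne_zero'.mpr (by exact_mod_cast hK.pos))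
    (by
      rw [eq_top_iff]
      intro A _
      have e1 : A = A () () • (1 : Matrix Unit Unit ℂ) := by
        ext i j
        simp
      rw [e1]
      exact Submodule.smul_mem _ _ (Submodule.subset_span (Set.mem_insert _ _)))
    (Set.mem_insert_of_mem _ rfl) fun r hr => by
      rcases hr with hr | hr
      · rw [hr, Matrix.conjTranspose_one, HatK_rgt_one, Matrix.transpose_one, Matrix.mul_one,
          Matrix.one_mul]
      · rw [Set.mem_singleton_iff.mp hr, HatK_conj, HatK_rgt_neg, ← hG, Matrix.neg_mul,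
          Matrix.transpose_neg, Matrix.neg_mul, Matrix.mul_neg, neg_inj]
        have e1 : S * G * T * S = S * G := by rw [Matrix.mul_assoc, ts, Matrix.mul_one]
        have e2 : (S * G * T).transpose = T.transpose * (G.transpose * S.transpose) := by
          rw [Matrix.transpose_mul, Matrix.transpose_mul]
        have e3 : S.transpose * T.transpose = 1 := by
          rw [← Matrix.transpose_mul, ts, Matrix.transpose_one]
        calc S.transpose * X.q.map δ * S * G
            = S.transpose * (X.q.map δ * (S * G)) := by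
              simp only [Matrix.mul_assoc]
          _ = S.transpose * (X.q.map δ * (S * G * T * S)) := by rw [e1]
          _ = S.transpose * (X.q.map δ * (S * G * T)) * S := by
              simp only [Matrix.mul_assoc]
          _ = -(S.transpose * T.transpose * (G.transpose * (S.transpose * X.q.map δ * S))) := by
              rw [hq, e2]
              simp only [Matrix.mul_assoc, Matrix.mul_neg, Matrix.neg_mul]
          _ = -(G.transpose * (S.transpose * X.q.map δ * S)) := by
              rw [e3, Matrix.one_mul]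
  refine ⟨k, c, fun x hx => ?_⟩
  rw [← hc]
  exact hk.del x hx

end DWC
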