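import Pool.Agent.DWC.StK

/-!
# DWC, module NFK: the normal form exists
-/

set_option autoImplicit false
set_option linter.unusedSectionVars false

namespace DWC

open scoped ComplexConjugate
open GAM (H E F pd pdl PLat IsTh OddTor IsDel Gro IsLat Pre QD qd jac HasExp CMF CMT IsExp IsCM)
open Pool.Agent.GPC (AbVar hermForm bilForm)
open Module
open PST

section

variable {α β : Type} [Fintype α] [Fintype β] [DecidableEq α] [DecidableEq β]

private theorem NFK_sw_sw {μ : Type} (x : Ix α β μ → ℂ) : sw (sw x) = x := by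
  funext p
  obtain ⟨i | j, k⟩ := p
  · rfl
  · exact Complex.conj_conj _

private theorem NFK_sw_inj {μ : Type} {x y : Ix α β μ → ℂ} (h : sw x = sw y) : x = y := by
  rw [← NFK_sw_sw x, h, NFK_sw_sw]

/-- the coefficients of a diagonal matrix acting on the `X` coordinates -/
private noncomputable def NFK_c (dv : α ⊕ β → ℂ) : Ix α β Unit → ℂ := fun p =>
  Sum.elim (fun i => dv (Sum.inl i)) (fun j => conj (dv (Sum.inr j))) p.1

private theorem NFK_blk_diag (a : α → ℂ) (b : β → ℂ) :
    blk Unit (Matrix.diagonal a) (Matrix.diagonal b) =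
      Matrix.diagonal (fun p : Ix α β Unit => Sum.elim a b p.1) := by
  ext ⟨p1, p2⟩ ⟨q1, q2⟩
  simp only [blk, Matrix.of_apply, Matrix.diagonal_apply, Prod.mk.injEq]
  rcases p1 with i | j <;> rcases q1 with i' | j'
  · by_cases h : i = i'
    · subst h; simp
    · simp [h]
  · simp
  · simp
  · by_cases h : j = j'
    · subst h; simp
    · simp [h]

private theorem NFK_rgt (c : ℂ) : rgt α β (c • (1 : Matrix Unit Unit ℂ)) =
    Matrix.diagonal (fun p : Ix α β Unit =>
      Sum.elim (fun _ : α => c) (fun _ : β => conj c) p.1) := by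
  ext ⟨p1, p2⟩ ⟨q1, q2⟩
  simp only [rgt, Matrix.of_apply, Matrix.diagonal_apply, Prod.mk.injEq]
  rcases p1 with i | j <;> rcases q1 with i' | j'
  · by_cases h : i = i'
    · subst h; simp
    · simp [h]
  · simp
  · simp
  · by_cases h : j = j'
    · subst h; simp
    · simp [h]

private theorem NFK_blk_mul (P P' : Matrix α α ℂ) (Q Q' : Matrix β β ℂ) :
    blk Unit P Q * blk Unit P' Q' = blk Unit (P * P') (Q * Q') := by
  ext ⟨p1, p2⟩ ⟨q1, q2⟩
  rw [Matrix.mul_apply, Fintype.sum_prod_type]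
  simp only [blk, Matrix.of_apply, Finset.univ_unique, Finset.sum_singleton]
  rw [Fintype.sum_sum_type]
  rcases p1 with i | j <;> rcases q1 with i' | j'
  · simp [Matrix.mul_apply]
  · simp
  · simp
  · simp [Matrix.mul_apply]

private theorem NFK_Jm : Jm α β =
    Matrix.diagonal (Sum.elim (fun _ : α => (1 : ℂ)) (fun _ : β => (-1 : ℂ))) := by
  unfold Jm
  rw [← Matrix.fromBlocks_diagonal]
  congr 1
  ext i j
  by_cases h : i = j
  · subst h; simp
  · simp [h]

private theorem NFK_detJ : (Jm α β).det ≠ 0 := by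
  rw [NFK_Jm, Matrix.det_diagonal, Finset.prod_ne_zero_iff]
  intro s _
  rcases s with i | j
  · simp
  · simp

private theorem NFK_det (g : Matrix (α ⊕ β) (α ⊕ β) ℂ) (hg : IsU g) :
    conj g.det * g.det = 1 := by
  have h1 := congrArg Matrix.det hg
  rw [Matrix.det_mul, Matrix.det_mul, Matrix.det_conjTranspose] at h1
  have h2 : (Jm α β).det * (conj g.det * g.det) = (Jm α β).det * 1 := by
    rw [mul_one]
    calc (Jm α β).det * (conj g.det * g.det) = star g.det * (Jm α β).det * g.det := by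
          rw [← starRingEnd_apply]; ring
      _ = (Jm α β).det := h1
  exact mul_left_cancel₀ NFK_detJ h2

/-- the map to the `X` coordinates -/
private noncomputable def NFK_phi {g : ℕ} (T : Matrix (Ix α β Unit) (Fin g) ℂ) :
    (Fin g → ℂ) →ₗ[ℝ] (α ⊕ β → ℂ) where
  toFun z := fun s => sw (T.mulVec z) (s, ())
  map_add' z w := by
    funext s
    rcases s with i | j
    · simp [sw, Matrix.mulVec_add]
    · simp [sw, Matrix.mulVec_add]
  map_smul' c z := by
    have h : T.mulVec (c • z) = (c : ℂ) • T.mulVec z := by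
      rw [← Matrix.mulVec_smul]
      congr 1
    funext s
    rcases s with i | j
    · simp [sw, h]
    · simp [sw, h]

private theorem NFK_phi_apply {g : ℕ} (T : Matrix (Ix α β Unit) (Fin g) ℂ) (z : Fin g → ℂ)
    (s : α ⊕ β) : NFK_phi T z s = sw (T.mulVec z) (s, ()) := rfl

private theorem NFK_phi_inj {g : ℕ} (T : Matrix (Ix α β Unit) (Fin g) ℂ)
    (S : Matrix (Fin g) (Ix α β Unit) ℂ) (h : S * T = 1) :
    Function.Injective (NFK_phi T) := by
  intro z w hzw
  have h1 : T.mulVec z = T.mulVec w := by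
    apply NFK_sw_inj
    funext p
    obtain ⟨s, k⟩ := p
    exact congrFun hzw s
  have h2 := congrArg S.mulVec h1
  rwa [Matrix.mulVec_mulVec, Matrix.mulVec_mulVec, h, Matrix.one_mulVec,
    Matrix.one_mulVec] at h2

private theorem NFK_E {g : ℕ} (T : Matrix (Ix α β Unit) (Fin g) ℂ) (z z' : Fin g → ℂ) :
    (star (NFK_phi T z') ⬝ᵥ (Jm α β).mulVec (NFK_phi T z)).im =
      (H (T.mulVec z) (T.mulVec z')).im := by
  rw [NFK_Jm]
  unfold H dotProduct
  rw [Fintype.sum_prod_type]
  simp only [Finset.univ_unique, Finset.sum_singleton]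
  rw [Fintype.sum_sum_type, Fintype.sum_sum_type, Complex.add_im, Complex.add_im]
  congr 1
  · congr 1
    apply Finset.sum_congr rfl
    intro i _
    rw [Matrix.mulVec_diagonal, Pi.star_apply, NFK_phi_apply, NFK_phi_apply]
    simp only [sw, Sum.elim_inl]
    change conj (T.mulVec z' (Sum.inl i, ())) * (1 * T.mulVec z (Sum.inl i, ())) =
      T.mulVec z (Sum.inl i, ()) * conj (T.mulVec z' (Sum.inl i, ()))
    ring
  · rw [Complex.im_sum, Complex.im_sum]
    apply Finset.sum_congr rfl
    intro j _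
    rw [Matrix.mulVec_diagonal, Pi.star_apply, NFK_phi_apply, NFK_phi_apply]
    simp only [sw, Sum.elim_inr]
    change (conj (conj (T.mulVec z' (Sum.inr j, ()))) *
      (-1 * conj (T.mulVec z (Sum.inr j, ())))).im =
      (T.mulVec z (Sum.inr j, ()) * conj (T.mulVec z' (Sum.inr j, ()))).im
    rw [Complex.conj_conj]
    simp only [Complex.mul_im, Complex.mul_re, Complex.neg_re, Complex.neg_im, Complex.one_re,
      Complex.one_im, Complex.conj_re, Complex.conj_im]
    ring

private theorem NFK_mu (g : Matrix (α ⊕ β) (α ⊕ β) ℂ) (y : Ix α β Unit → ℂ) (s : α ⊕ β) :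
    mu g y (s, ()) = g.mulVec (fun s' => y (s', ())) s := rfl

/-- multiplication of the normal form by a diagonal unitary matrix -/
private theorem NFK_twist (X : AbVar) (d : ℚ) (J : Module.End ℂ X.H1)
    (T : Matrix (Ix α β Unit) (Fin X.g) ℂ) (S : Matrix (Fin X.g) (Ix α β Unit) ℂ)
    (Tp : Matrix α α ℂ) (Tm : Matrix β β ℂ) (Ta : Matrix (Ix α β Unit) (Fin X.g) ℂ)
    (g : Matrix (α ⊕ β) (α ⊕ β) ℂ) (r : α ⊕ β → ℝ) (q : α ⊕ β → ℚ)
    (W : Submodule ℚ (Fin X.g → ℂ)) (Jz : Matrix (Fin X.g) (Fin X.g) ℂ)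
    (hC : Crd d X.H Jz α β T S Tp Tm Ta)
    (hW : ∀ z, z ∈ W ↔ ∃ n : ℕ, n ≠ 0 ∧ (n : ℤ) • z ∈ X.Λ)
    (hJ : ∀ v, X.zz (J v) = Jz.mulVec (X.zz v))
    (hg : IsU g) (hR : IsR d r q)
    (hlat : ∀ z, z ∈ W ↔ ∃ a b : α ⊕ β → ℚ,
      NFK_phi T z = g.mulVec fun s => (r s : ℂ) * ((a s : ℂ) + (b s : ℂ) * zd d))
    (dv : α ⊕ β → ℂ) (hdv : ∀ s, conj (dv s) * dv s = 1)
    (hdet : (∏ s, dv s) * g.det = 1) :
    NFK X d J α β (blk Unit (Matrix.diagonal fun i => dv (Sum.inl i))
        (Matrix.diagonal fun j => conj (dv (Sum.inr j))) * T)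
      (S * blk Unit (Matrix.diagonal fun i => conj (dv (Sum.inl i)))
        (Matrix.diagonal fun j => dv (Sum.inr j)))
      ((Matrix.diagonal fun i => dv (Sum.inl i)) * Tp)
      ((Matrix.diagonal fun j => conj (dv (Sum.inr j))) * Tm) Ta
      (Matrix.diagonal dv * g) r q := by
  have hdv' : ∀ s, dv s * conj (dv s) = 1 := fun s => by rw [mul_comm]; exact hdv s
  have hne : ∀ s, dv s ≠ 0 := by
    intro s h0
    have h1 := hdv s
    rw [h0, mul_zero] at h1
    exact zero_ne_one h1
  have hBB' : blk Unit (Matrix.diagonal fun i : α => dv (Sum.inl i))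
        (Matrix.diagonal fun j : β => conj (dv (Sum.inr j))) *
      blk Unit (Matrix.diagonal fun i : α => conj (dv (Sum.inl i)))
        (Matrix.diagonal fun j : β => dv (Sum.inr j)) = 1 := by
    rw [NFK_blk_diag, NFK_blk_diag, Matrix.diagonal_mul_diagonal, ← Matrix.diagonal_one]
    congr 1
    funext p
    obtain ⟨i | j, k⟩ := p
    · exact hdv' _
    · exact hdv _
  have hB'B : blk Unit (Matrix.diagonal fun i : α => conj (dv (Sum.inl i)))
        (Matrix.diagonal fun j : β => dv (Sum.inr j)) *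
      blk Unit (Matrix.diagonal fun i : α => dv (Sum.inl i))
        (Matrix.diagonal fun j : β => conj (dv (Sum.inr j))) = 1 := by
    rw [NFK_blk_diag, NFK_blk_diag, Matrix.diagonal_mul_diagonal, ← Matrix.diagonal_one]
    congr 1
    funext p
    obtain ⟨i | j, k⟩ := p
    · exact hdv _
    · exact hdv' _
  set B := blk Unit (Matrix.diagonal fun i : α => dv (Sum.inl i))
    (Matrix.diagonal fun j : β => conj (dv (Sum.inr j))) with hB
  set B' := blk Unit (Matrix.diagonal fun i : α => conj (dv (Sum.inl i)))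
    (Matrix.diagonal fun j : β => dv (Sum.inr j)) with hB'
  have hBmul : ∀ (x : Ix α β Unit → ℂ) (p : Ix α β Unit), B.mulVec x p =
      Sum.elim (fun i : α => dv (Sum.inl i)) (fun j : β => conj (dv (Sum.inr j))) p.1 * x p := by
    intro x p
    rw [hB, NFK_blk_diag, Matrix.mulVec_diagonal]
  have hBsw : ∀ (x : Ix α β Unit → ℂ) (s : α ⊕ β),
      sw (B.mulVec x) (s, ()) = dv s * sw x (s, ()) := by
    intro x s
    rcases s with i | j
    · change B.mulVec x (Sum.inl i, ()) = dv (Sum.inl i) * x (Sum.inl i, ())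
      rw [hBmul]
      rfl
    · change conj (B.mulVec x (Sum.inr j, ())) = dv (Sum.inr j) * conj (x (Sum.inr j, ()))
      rw [hBmul, map_mul]
      change conj (conj (dv (Sum.inr j))) * conj (x (Sum.inr j, ())) = _
      rw [Complex.conj_conj]
  refine ⟨?_, ?_, ?_, ?_, ?_, ?_, hC.alg, ?_, ?_, hR, ?_, ?_⟩
  · -- ts
    calc B * T * (S * B') = B * (T * S) * B' := by simp only [Matrix.mul_assoc]
      _ = 1 := by rw [hC.ts, Matrix.mul_one, hBB']
  · -- st
    calc S * B' * (B * T) = S * (B' * B) * T := by simp only [Matrix.mul_assoc]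
      _ = 1 := by rw [hB'B, Matrix.mul_one, hC.st]
  · -- herm
    intro z w
    rw [hC.herm, ← Matrix.mulVec_mulVec, ← Matrix.mulVec_mulVec]
    unfold H
    apply Finset.sum_congr rfl
    intro p _
    rw [hBmul, hBmul, map_mul]
    obtain ⟨i | j, k⟩ := p
    · change T.mulVec z (Sum.inl i, k) * conj (T.mulVec w (Sum.inl i, k)) =
        dv (Sum.inl i) * T.mulVec z (Sum.inl i, k) *
          (conj (dv (Sum.inl i)) * conj (T.mulVec w (Sum.inl i, k)))
      linear_combination (-(T.mulVec z (Sum.inl i, k) * conj (T.mulVec w (Sum.inl i, k)))) *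
        hdv (Sum.inl i)
    · change T.mulVec z (Sum.inr j, k) * conj (T.mulVec w (Sum.inr j, k)) =
        conj (dv (Sum.inr j)) * T.mulVec z (Sum.inr j, k) *
          (conj (conj (dv (Sum.inr j))) * conj (T.mulVec w (Sum.inr j, k)))
      rw [Complex.conj_conj]
      linear_combination (-(T.mulVec z (Sum.inr j, k) * conj (T.mulVec w (Sum.inr j, k)))) *
        hdv (Sum.inr j)
  · -- dp
    rw [Matrix.det_mul, Matrix.det_diagonal]
    exact mul_ne_zero (Finset.prod_ne_zero_iff.2 fun i _ => hne _) hC.dp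
  · -- dm
    rw [Matrix.det_mul, Matrix.det_diagonal]
    exact mul_ne_zero (Finset.prod_ne_zero_iff.2 fun j _ => by
      rw [Ne, map_eq_zero]; exact hne _) hC.dm
  · -- fac
    calc B * T = B * (blk Unit Tp Tm * Ta) := by rw [← hC.fac]
      _ = _ := by rw [← Matrix.mul_assoc, hB, NFK_blk_mul]
  · -- uni
    unfold IsU
    have h1 : (Matrix.diagonal dv).conjTranspose * Jm α β * Matrix.diagonal dv = Jm α β := by
      rw [Matrix.diagonal_conjTranspose, NFK_Jm, Matrix.diagonal_mul_diagonal,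
        Matrix.diagonal_mul_diagonal]
      congr 1
      funext s
      change conj (dv s) * _ * dv s = _
      linear_combination (Sum.elim (fun _ : α => (1 : ℂ)) (fun _ : β => (-1 : ℂ)) s) * hdv s
    calc (Matrix.diagonal dv * g).conjTranspose * Jm α β * (Matrix.diagonal dv * g)
        = g.conjTranspose * ((Matrix.diagonal dv).conjTranspose * Jm α β * Matrix.diagonal dv) *
          g := by rw [Matrix.conjTranspose_mul]; simp only [Matrix.mul_assoc]
      _ = Jm α β := by rw [h1]; exact hg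
  · -- det
    rw [Matrix.det_mul, Matrix.det_diagonal]
    exact hdet
  · -- lat
    intro z
    rw [← hW, hlat]
    apply exists_congr
    intro a
    apply exists_congr
    intro b
    set v : α ⊕ β → ℂ := fun s => (r s : ℂ) * ((a s : ℂ) + (b s : ℂ) * zd d) with hv
    have h2 : ∀ s, sw (act (Matrix.diagonal dv * g) (sw fun p : Ix α β Unit => v p.1)) (s, ()) =
        dv s * g.mulVec v s := by
      intro s
      unfold act
      rw [NFK_sw_sw, NFK_sw_sw, NFK_mu, ← Matrix.mulVec_mulVec, Matrix.mulVec_diagonal]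
    constructor
    · intro h
      apply NFK_sw_inj
      funext p
      obtain ⟨s, k⟩ := p
      cases k
      rw [h2, ← Matrix.mulVec_mulVec, hBsw, ← NFK_phi_apply, h]
    · intro h
      funext s
      have h3 : sw ((B * T).mulVec z) (s, ()) = dv s * g.mulVec v s := by rw [h]; exact h2 s
      rw [← Matrix.mulVec_mulVec, hBsw] at h3
      rw [NFK_phi_apply]
      exact mul_left_cancel₀ (hne s) h3
  · -- jj
    intro v
    rw [← Matrix.mulVec_mulVec, ← Matrix.mulVec_mulVec, hJ, hC.jj, Matrix.mulVec_mulVec,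
      Matrix.mulVec_mulVec _ _ B]
    congr 1
    rw [hB, NFK_blk_diag, NFK_rgt, Matrix.diagonal_mul_diagonal, Matrix.diagonal_mul_diagonal]
    congr 1
    funext p
    ring

end

theorem thm_NFK (h1 : St_AnK) (h2 : St_BasK) (h3 : St_OrtK) : St_NFK := by
  intro X d J hX
  obtain ⟨W, Jz, hL, hW, hJ⟩ := h1 X d J hX
  obtain ⟨α, β, i1, i2, i3, i4, T, S, Tp, Tm, Ta, hC⟩ := h2 X.g d X.H W Jz hL
  have hinj := NFK_phi_inj T S hC.st
  -- the image of the lattice
  set φ : (Fin X.g → ℂ) →ₗ[ℚ] (α ⊕ β → ℂ) := (NFK_phi T).restrictScalars ℚ with hφ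
  have hφa : ∀ z, φ z = NFK_phi T z := fun z => rfl
  have hφi : Function.Injective φ := hinj
  have hmem : ∀ z, φ z ∈ W.map φ ↔ z ∈ W := by
    intro z
    constructor
    · intro h
      obtain ⟨w, hw, he⟩ := Submodule.mem_map.1 h
      rw [← hφi he]
      exact hw
    · intro h
      exact Submodule.mem_map_of_mem h
  have hstab : ∀ w ∈ W.map φ, zd d • w ∈ W.map φ := by
    intro w hw
    obtain ⟨z, hz, rfl⟩ := Submodule.mem_map.1 hw
    have h4 : zd d • φ z = φ (Jz.mulVec z) := by
      funext s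
      rw [Pi.smul_apply, hφa, hφa, NFK_phi_apply, NFK_phi_apply, hC.jj, NFK_rgt]
      rcases s with i | j
      · change zd d • T.mulVec z (Sum.inl i, ()) =
          (Matrix.diagonal _).mulVec (T.mulVec z) (Sum.inl i, ())
        rw [Matrix.mulVec_diagonal]
        rfl
      · change zd d • conj (T.mulVec z (Sum.inr j, ())) =
          conj ((Matrix.diagonal _).mulVec (T.mulVec z) (Sum.inr j, ()))
        rw [Matrix.mulVec_diagonal, map_mul]
        change zd d * conj (T.mulVec z (Sum.inr j, ())) =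
          conj (conj (zd d)) * conj (T.mulVec z (Sum.inr j, ()))
        rw [Complex.conj_conj]
    rw [h4]
    exact Submodule.mem_map_of_mem (hL.stab z hz)
  have hcard : Fintype.card (Ix α β Unit) = Fintype.card (Fin X.g) :=
    Matrix.square_of_invertible T S hC.ts hC.st
  have hcard' : Fintype.card (Fin X.g) = Fintype.card (α ⊕ β) := by
    rw [← hcard, Fintype.card_prod, Fintype.card_unit, mul_one]
  set eqv : Fin X.g ≃ α ⊕ β := Fintype.equivOfCardEq hcard' with heqv
  obtain ⟨b, hb⟩ := hL.basis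
  set e : W ≃ₗ[ℚ] W.map φ := Submodule.equivMapOfInjective φ hφi W with he
  have hb' : LinearIndependent ℝ fun i =>
      ((((b.map e).reindex (Equiv.sumCongr eqv eqv)) i : W.map φ) : α ⊕ β → ℂ) := by
    have h4 : LinearIndependent ℝ (fun i => NFK_phi T (b i : Fin X.g → ℂ)) :=
      hb.map' (NFK_phi T) (LinearMap.ker_eq_bot.2 hinj)
    have h5 := h4.comp (Equiv.sumCongr eqv eqv).symm (Equiv.sumCongr eqv eqv).symm.injective
    have h6 : (fun i => ((((b.map e).reindex (Equiv.sumCongr eqv eqv)) i : W.map φ) :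
        α ⊕ β → ℂ)) = (fun i => NFK_phi T (b i : Fin X.g → ℂ)) ∘
        (Equiv.sumCongr eqv eqv).symm := by
      funext i
      rw [Basis.reindex_apply, Basis.map_apply, he,
        Submodule.coe_equivMapOfInjective_apply]
      rfl
    rw [h6]
    exact h5
  have hrat : ∀ w ∈ W.map φ, ∀ w' ∈ W.map φ,
      ∃ q : ℚ, (star w' ⬝ᵥ (Jm α β).mulVec w).im = q := by
    intro w hw w' hw'
    obtain ⟨z, hz, rfl⟩ := Submodule.mem_map.1 hw
    obtain ⟨z', hz', rfl⟩ := Submodule.mem_map.1 hw'
    obtain ⟨q, hq⟩ := hL.rat z hz z' hz'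
    refine ⟨q, ?_⟩
    rw [hφa, hφa, NFK_E, ← hC.herm]
    exact hq
  obtain ⟨g, r, q, hg, hR, hlat⟩ := h3 α β d (W.map φ) hL.pos hstab ⟨_, hb'⟩ hrat
  have hlat' : ∀ z, z ∈ W ↔ ∃ a b : α ⊕ β → ℚ,
      NFK_phi T z = g.mulVec fun s => (r s : ℂ) * ((a s : ℂ) + (b s : ℂ) * zd d) := by
    intro z
    rw [← hmem, hlat]
    rfl
  have hdet := NFK_det g hg
  rcases isEmpty_or_nonempty (α ⊕ β) with hE | hN
  · refine ⟨α, β, i1, i2, i3, i4, _, _, _, _, Ta, _, r, q,
      NFK_twist X d J T S Tp Tm Ta g r q W Jz hC hW hJ hg hR hlat' (fun _ => 1) ?_ ?_⟩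
    · intro s
      simp
    · rw [Matrix.det_isEmpty]
      simp
  · obtain ⟨s0⟩ := hN
    refine ⟨α, β, i1, i2, i3, i4, _, _, _, _, Ta, _, r, q,
      NFK_twist X d J T S Tp Tm Ta g r q W Jz hC hW hJ hg hR hlat'
        (fun s => if s = s0 then conj g.det else 1) ?_ ?_⟩
    · intro s
      by_cases hs : s = s0
      · simp only [hs, if_true, Complex.conj_conj]
        rw [mul_comm]
        exact hdet
      · simp [hs]
    · rw [Finset.prod_ite_eq' Finset.univ s0 (fun _ => conj g.det)]
      rw [if_pos (Finset.mem_univ _)]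
      exact hdet

end DWC
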