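import Pool.Agent.DWC.StG

/-!
# DWC: [Op2] elements of the group near the maximal compact subgroup (helper99)
-/

set_option autoImplicit false

namespace DWC

open scoped ComplexConjugate
open GAM (H E F pd pdl PLat IsTh OddTor IsDel Gro IsLat)
open PST Matrix

private theorem Op2_nn {ι : Type} [Fintype ι] (v : ι → ℂ) : 0 ≤ nq v :=
  Finset.sum_nonneg fun _ _ => by positivity

private theorem Op2_nqc {ι : Type} [Fintype ι] (v : ι → ℂ) :
    ((nq v : ℝ) : ℂ) = star v ⬝ᵥ v := by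
  unfold nq dotProduct
  push_cast
  refine Finset.sum_congr rfl fun i _ => ?_
  rw [Pi.star_apply, RCLike.star_def, Complex.conj_mul']

private theorem Op2_nqM {ι κ : Type} [Fintype ι] [Fintype κ] (M : Matrix ι κ ℂ) (v : κ → ℂ) :
    ((nq (M *ᵥ v) : ℝ) : ℂ) = star v ⬝ᵥ ((Mᴴ * M) *ᵥ v) := by
  rw [Op2_nqc, star_mulVec, ← mulVec_mulVec, dotProduct_mulVec (star v) Mᴴ]

private theorem Op2_rel {ι κ ν : Type} [Fintype ι] [Fintype κ] [Fintype ν] [DecidableEq κ]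
    {M : Matrix ι κ ℂ} {N : Matrix ν κ ℂ} (h : Mᴴ * M = 1 + Nᴴ * N) (v : κ → ℂ) :
    nq (M *ᵥ v) = nq v + nq (N *ᵥ v) := by
  apply Complex.ofReal_injective
  push_cast
  rw [Op2_nqM, Op2_nqM, Op2_nqc, h, add_mulVec, one_mulVec, dotProduct_add]

private theorem Op2_cs {ι : Type} [Fintype ι] (x y : ι → ℂ) :
    ‖star x ⬝ᵥ y‖ ^ 2 ≤ nq x * nq y := by
  have h1 : ‖star x ⬝ᵥ y‖ ≤ ∑ i, ‖x i‖ * ‖y i‖ := by
    unfold dotProduct
    refine (norm_sum_le _ _).trans (le_of_eq ?_)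
    refine Finset.sum_congr rfl fun i _ => ?_
    rw [norm_mul, Pi.star_apply, norm_star]
  have h2 := Finset.sum_mul_sq_le_sq_mul_sq Finset.univ (fun i => ‖x i‖) (fun i => ‖y i‖)
  exact (pow_le_pow_left₀ (norm_nonneg _) h1 2).trans h2

private theorem Op2_adj {ι κ : Type} [Fintype ι] [Fintype κ] {M : Matrix ι κ ℂ} {C : ℝ}
    (hC : 0 ≤ C) (h : ∀ v, nq (M *ᵥ v) ≤ C * nq v) (u : ι → ℂ) :
    nq (Mᴴ *ᵥ u) ≤ C * nq u := by
  obtain ⟨w, hw⟩ : ∃ w, w = Mᴴ *ᵥ u := ⟨_, rfl⟩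
  rw [← hw]
  have h1 : ((nq w : ℝ) : ℂ) = star (M *ᵥ w) ⬝ᵥ u := by
    have e1 : star w ⬝ᵥ w = star w ⬝ᵥ (Mᴴ *ᵥ u) := by rw [← hw]
    rw [Op2_nqc, e1, dotProduct_mulVec, star_mulVec]
  have h2 := Op2_cs (M *ᵥ w) u
  rw [← h1, Complex.norm_real, Real.norm_eq_abs, sq_abs] at h2
  have h3 := mul_le_mul_of_nonneg_right (h w) (Op2_nn u)
  have h4 : nq w ^ 2 ≤ nq w * (C * nq u) := by linarith
  rcases eq_or_lt_of_le (Op2_nn w) with h5 | h5
  · rw [← h5]
    exact mul_nonneg hC (Op2_nn u)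
  · rw [sq] at h4
    exact le_of_mul_le_mul_left h4 h5

private theorem Op2_add {ι : Type} [Fintype ι] (x y : ι → ℂ) :
    nq (x + y) ≤ 2 * nq x + 2 * nq y := by
  unfold nq
  rw [Finset.mul_sum, Finset.mul_sum, ← Finset.sum_add_distrib]
  refine Finset.sum_le_sum fun i _ => ?_
  have h := norm_add_le (x i) (y i)
  have h1 := norm_nonneg (x i + y i)
  rw [Pi.add_apply]
  nlinarith [sq_nonneg (‖x i‖ - ‖y i‖)]

private theorem Op2_zero {ι : Type} [Fintype ι] {v : ι → ℂ} (h : nq v = 0) : v = 0 := by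
  unfold nq at h
  rw [Finset.sum_eq_zero_iff_of_nonneg (fun _ _ => by positivity)] at h
  funext i
  have := h i (Finset.mem_univ i)
  simpa using this

section

variable {α β : Type} [Fintype α] [Fintype β] [DecidableEq α] [DecidableEq β]

private theorem Op2_sw {μ : Type} [Fintype μ] (x : Ix α β μ → ℂ) : nq (sw x) = nq x := by
  unfold nq
  refine Finset.sum_congr rfl fun p _ => ?_
  obtain ⟨s, k⟩ := p
  rcases s with i | j
  · rfl
  · show ‖conj (x (Sum.inr j, k))‖ ^ 2 = ‖x (Sum.inr j, k)‖ ^ 2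
    rw [RCLike.norm_conj]

private theorem Op2_ix (X : Ix α β Unit → ℂ) : nq X = nq fun s : α ⊕ β => X (s, ()) := by
  unfold nq
  rw [Fintype.sum_prod_type]
  simp

private theorem Op2_sum (v : α ⊕ β → ℂ) :
    nq v = nq (fun i => v (Sum.inl i)) + nq (fun j => v (Sum.inr j)) := by
  unfold nq
  rw [Fintype.sum_sum_type]

private theorem Op2_main (h1 : St_UGr) (h : Matrix (α ⊕ β) (α ⊕ β) ℂ) (hU : IsU h)
    (hz : mob h 0 ∈ OmC α β (1 / 4)) (v : α ⊕ β → ℂ) : nq (h *ᵥ v) ≤ 4 * nq v := by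
  obtain ⟨-, -, -, -, -, hG, -⟩ := h1 α β Unit
  obtain ⟨-, -, -, -, hG'⟩ := hG h hU
  obtain ⟨a, b, c, d, rfl⟩ : ∃ a b c d, h = fromBlocks a b c d :=
    ⟨_, _, _, _, (fromBlocks_toBlocks h).symm⟩
  -- relations
  have r1 : aᴴ * a = 1 + cᴴ * c := by
    have e := congrArg toBlocks₁₁ hU
    simp only [Jm, fromBlocks_conjTranspose, fromBlocks_multiply, toBlocks_fromBlocks₁₁] at e
    simp only [Matrix.mul_one, Matrix.mul_zero, add_zero, zero_add, Matrix.mul_neg,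
      Matrix.neg_mul] at e
    rw [← e]
    abel
  have r2 : dᴴ * d = 1 + bᴴ * b := by
    have e := congrArg toBlocks₂₂ hU
    simp only [Jm, fromBlocks_conjTranspose, fromBlocks_multiply, toBlocks_fromBlocks₂₂] at e
    simp only [Matrix.mul_one, Matrix.mul_zero, add_zero, zero_add, Matrix.mul_neg,
      Matrix.neg_mul] at e
    have e2 : (1 : Matrix β β ℂ) = -(bᴴ * b + -(dᴴ * d)) := by rw [e, neg_neg]
    rw [e2]
    abel
  have r3 : dᴴᴴ * dᴴ = 1 + cᴴᴴ * cᴴ := by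
    have e := congrArg toBlocks₂₂ hG'
    simp only [Jm, fromBlocks_conjTranspose, fromBlocks_multiply, toBlocks_fromBlocks₂₂] at e
    simp only [Matrix.mul_one, Matrix.mul_zero, add_zero, zero_add, Matrix.mul_neg,
      Matrix.neg_mul] at e
    rw [conjTranspose_conjTranspose, conjTranspose_conjTranspose]
    have e2 : (1 : Matrix β β ℂ) = -(c * cᴴ + -(d * dᴴ)) := by rw [e, neg_neg]
    rw [e2]
    abel
  -- `d` is invertible
  have hd : IsUnit d := by
    rw [← mulVec_injective_iff_isUnit]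
    intro y y' hy
    have e := Op2_rel r2 (y - y')
    have e1 : d *ᵥ (y - y') = 0 := by
      rw [mulVec_sub]
      exact sub_eq_zero.2 hy
    rw [e1] at e
    have e2 : nq (0 : β → ℂ) = 0 := by simp [nq]
    rw [e2] at e
    have e3 := Op2_nn (y - y')
    have e4 := Op2_nn (b *ᵥ (y - y'))
    exact sub_eq_zero.1 (Op2_zero (by linarith))
  have hdd : IsUnit d.det := (isUnit_iff_isUnit_det d).1 hd
  have hzb : ∀ y : β → ℂ, nq (b *ᵥ y) ≤ 1 / 16 * nq (d *ᵥ y) := by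
    intro y
    have e := hz (d *ᵥ y)
    have e1 : mt (mob (fromBlocks a b c d) 0) *ᵥ (d *ᵥ y) = b *ᵥ y := by
      have e2 : mt (mob (fromBlocks a b c d) 0) = b * d⁻¹ := by
        have e0 : mt (0 : α × β → ℂ) = 0 := rfl
        have e3 : mt (mob (fromBlocks a b c d) 0) = ((fromBlocks a b c d).toBlocks₁₁ *
          mt (0 : α × β → ℂ) + (fromBlocks a b c d).toBlocks₁₂) *
          ((fromBlocks a b c d).toBlocks₂₁ * mt (0 : α × β → ℂ) +
          (fromBlocks a b c d).toBlocks₂₂)⁻¹ := rfl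
        rw [e3, e0, toBlocks_fromBlocks₁₁, toBlocks_fromBlocks₁₂, toBlocks_fromBlocks₂₁,
          toBlocks_fromBlocks₂₂, Matrix.mul_zero, Matrix.mul_zero, zero_add, zero_add]
      rw [e2, mulVec_mulVec, Matrix.mul_assoc, nonsing_inv_mul _ hdd, Matrix.mul_one]
    have e3 : nq (mt (mob (fromBlocks a b c d) 0) *ᵥ (d *ᵥ y)) ≤ (1 / 4) ^ 2 * nq (d *ᵥ y) := e
    rw [e1] at e3
    norm_num at e3
    exact e3
  have hb : ∀ y : β → ℂ, nq (d *ᵥ y) ≤ 16 / 15 * nq y ∧ nq (b *ᵥ y) ≤ 1 / 15 * nq y := by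
    intro y
    have e1 := Op2_rel r2 y
    have e2 := hzb y
    constructor <;> linarith
  have hd' := Op2_adj (by norm_num) (fun y => (hb y).1)
  have hc' : ∀ y : β → ℂ, nq (cᴴ *ᵥ y) ≤ 1 / 15 * nq y := by
    intro y
    have e1 := Op2_rel r3 y
    have e2 := hd' y
    linarith
  have hc : ∀ x : α → ℂ, nq (c *ᵥ x) ≤ 1 / 15 * nq x := by
    intro x
    have e := Op2_adj (by norm_num) hc' x
    rwa [conjTranspose_conjTranspose] at e
  have ha : ∀ x : α → ℂ, nq (a *ᵥ x) ≤ 16 / 15 * nq x := by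
    intro x
    have e1 := Op2_rel r1 x
    have e2 := hc x
    linarith
  -- together
  set x : α → ℂ := fun i => v (Sum.inl i) with hx
  set y : β → ℂ := fun j => v (Sum.inr j) with hy
  have e1 : nq (fromBlocks a b c d *ᵥ v) = nq (a *ᵥ x + b *ᵥ y) + nq (c *ᵥ x + d *ᵥ y) := by
    rw [Op2_sum, fromBlocks_mulVec]
    rfl
  rw [e1, Op2_sum v]
  have e2 := Op2_add (a *ᵥ x) (b *ᵥ y)
  have e3 := Op2_add (c *ᵥ x) (d *ᵥ y)
  have e4 := ha x
  have e5 := hc x
  have e6 := (hb y).1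
  have e7 := (hb y).2
  have e8 := Op2_nn x
  have e9 := Op2_nn y
  linarith

end

theorem thm_Op2 (h1 : St_UGr) : St_Op2 := by
  intro α β _ _ _ _ h hU hz
  have key : ∀ x : Ix α β Unit → ℂ, nq (act h x) ≤ 4 * nq x := by
    intro x
    have e1 : nq (act h x) = nq (h *ᵥ fun s => sw x (s, ())) := by
      unfold act
      rw [Op2_sw, Op2_ix]
      rfl
    rw [e1]
    refine (Op2_main h1 h hU hz _).trans (le_of_eq ?_)
    rw [← Op2_ix, Op2_sw]
  refine ⟨key, fun i j => ?_⟩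
  have e := Op2_main h1 h hU hz (Pi.single j 1)
  have e1 : nq (Pi.single j (1 : ℂ) : α ⊕ β → ℂ) = 1 := by
    unfold nq
    rw [Finset.sum_eq_single j]
    · simp
    · intro k _ hk
      simp [Pi.single_eq_of_ne hk]
    · simp
  rw [e1] at e
  have e2 : ‖h i j‖ ^ 2 ≤ nq (h *ᵥ (Pi.single j (1 : ℂ))) := by
    unfold nq
    have e3 : ‖h i j‖ ^ 2 = ‖(h *ᵥ (Pi.single j (1 : ℂ))) i‖ ^ 2 := by
      rw [mulVec_single_one]
      rfl
    rw [e3]
    exact Finset.single_le_sum (f := fun i => ‖(h *ᵥ (Pi.single j (1 : ℂ))) i‖ ^ 2)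
      (fun _ _ => by positivity) (Finset.mem_univ i)
  have e3 := norm_nonneg (h i j)
  nlinarith

end DWC
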