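import Pool.Agent.DWC.StK

/-!
# DWC [OrtK]: orthogonal bases of Hermitian spaces over `ℚ(√-d)`
-/

set_option autoImplicit false
set_option linter.unusedSectionVars false

namespace DWC

open scoped ComplexConjugate
open GAM (H E F pd pdl PLat IsTh OddTor IsDel Gro IsLat)
open Module
open PST

section

variable {α β : Type} [Fintype α] [Fintype β] [DecidableEq α] [DecidableEq β]

/-- the Hermitian form -/
private noncomputable def OK_h (X Y : α ⊕ β → ℂ) : ℂ :=
  ∑ i, X (Sum.inl i) * conj (Y (Sum.inl i)) - ∑ j, X (Sum.inr j) * conj (Y (Sum.inr j))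

private theorem OK_h_eq (X Y : α ⊕ β → ℂ) :
    star Y ⬝ᵥ (Jm α β).mulVec X = OK_h X Y := by
  unfold Jm OK_h
  rw [Matrix.fromBlocks_mulVec]
  simp only [dotProduct, Fintype.sum_sum_type, Sum.elim_inl, Sum.elim_inr, Matrix.one_mulVec,
    Matrix.zero_mulVec, Matrix.neg_mulVec, add_zero, zero_add, Pi.neg_apply, Function.comp,
    Pi.star_apply, mul_neg, Finset.sum_neg_distrib, Complex.star_def]
  rw [← sub_eq_add_neg]
  congr 1
  · exact Finset.sum_congr rfl fun i _ => mul_comm _ _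
  · exact Finset.sum_congr rfl fun i _ => mul_comm _ _

private theorem OK_add_left (X X' Y : α ⊕ β → ℂ) : OK_h (X + X') Y = OK_h X Y + OK_h X' Y := by
  unfold OK_h
  simp only [Pi.add_apply, add_mul, Finset.sum_add_distrib]
  ring

private theorem OK_smul_left (c : ℂ) (X Y : α ⊕ β → ℂ) : OK_h (c • X) Y = c * OK_h X Y := by
  unfold OK_h
  simp only [Pi.smul_apply, smul_eq_mul, mul_assoc, ← Finset.mul_sum]
  ring

private theorem OK_conj (X Y : α ⊕ β → ℂ) : conj (OK_h X Y) = OK_h Y X := by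
  unfold OK_h
  rw [map_sub, map_sum, map_sum]
  congr 1
  · refine Finset.sum_congr rfl fun i _ => ?_
    rw [map_mul, Complex.conj_conj, mul_comm]
  · refine Finset.sum_congr rfl fun i _ => ?_
    rw [map_mul, Complex.conj_conj, mul_comm]

private theorem OK_add_right (X Y Y' : α ⊕ β → ℂ) : OK_h X (Y + Y') = OK_h X Y + OK_h X Y' := by
  rw [← OK_conj, OK_add_left, map_add, OK_conj, OK_conj]

private theorem OK_smul_right (c : ℂ) (X Y : α ⊕ β → ℂ) :
    OK_h X (c • Y) = conj c * OK_h X Y := by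
  rw [← OK_conj, OK_smul_left, map_mul, OK_conj]

private theorem OK_zero_left (Y : α ⊕ β → ℂ) : OK_h 0 Y = 0 := by
  unfold OK_h
  simp

private theorem OK_sub_left (X X' Y : α ⊕ β → ℂ) : OK_h (X - X') Y = OK_h X Y - OK_h X' Y := by
  have h1 := OK_add_left (X - X') X' Y
  rw [sub_add_cancel] at h1
  rw [h1]
  ring

private theorem OK_sum_left {κ : Type} (s : Finset κ) (c : κ → ℂ) (x : κ → α ⊕ β → ℂ)
    (Y : α ⊕ β → ℂ) : OK_h (∑ i ∈ s, c i • x i) Y = ∑ i ∈ s, c i * OK_h (x i) Y := by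
  classical
  induction s using Finset.induction_on with
  | empty => rw [Finset.sum_empty, Finset.sum_empty, OK_zero_left]
  | insert i s hi ih =>
    rw [Finset.sum_insert hi, Finset.sum_insert hi, OK_add_left, OK_smul_left, ih]

private theorem OK_zero_right (Y : α ⊕ β → ℂ) : OK_h Y 0 = 0 := by
  rw [← OK_conj, OK_zero_left, map_zero]

private theorem OK_self_re (X : α ⊕ β → ℂ) : (OK_h X X).re =
    ∑ i, ‖X (Sum.inl i)‖ ^ 2 - ∑ j, ‖X (Sum.inr j)‖ ^ 2 := by
  unfold OK_h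
  have h1 : ∀ z : ℂ, z * conj z = ((‖z‖ ^ 2 : ℝ) : ℂ) := by
    intro z
    rw [Complex.mul_conj, Complex.normSq_eq_norm_sq]
  simp only [h1]
  rw [← Complex.ofReal_sum, ← Complex.ofReal_sum, ← Complex.ofReal_sub, Complex.ofReal_re]

private theorem OK_self (X : α ⊕ β → ℂ) : OK_h X X = (((OK_h X X).re : ℝ) : ℂ) := by
  apply Complex.ext
  · rw [Complex.ofReal_re]
  · rw [Complex.ofReal_im]
    have h1 := congrArg Complex.im (OK_conj X X)
    rw [Complex.conj_im] at h1
    linarith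

private theorem OK_nondeg (X : α ⊕ β → ℂ) (h : ∀ Y, OK_h X Y = 0) : X = 0 := by
  have h1 := h (fun s => Sum.elim (fun i => X (Sum.inl i)) (fun j => -X (Sum.inr j)) s)
  have h2 : OK_h X (fun s => Sum.elim (fun i => X (Sum.inl i)) (fun j => -X (Sum.inr j)) s) =
      ((∑ i, ‖X (Sum.inl i)‖ ^ 2 + ∑ j, ‖X (Sum.inr j)‖ ^ 2 : ℝ) : ℂ) := by
    unfold OK_h
    have h3 : ∀ z : ℂ, z * conj z = ((‖z‖ ^ 2 : ℝ) : ℂ) := by
      intro z
      rw [Complex.mul_conj, Complex.normSq_eq_norm_sq]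
    simp only [Sum.elim_inl, Sum.elim_inr, map_neg, mul_neg, Finset.sum_neg_distrib,
      sub_neg_eq_add, h3]
    rw [← Complex.ofReal_sum, ← Complex.ofReal_sum, ← Complex.ofReal_add]
  rw [h2, Complex.ofReal_eq_zero] at h1
  have ha : 0 ≤ ∑ i, ‖X (Sum.inl i)‖ ^ 2 := Finset.sum_nonneg fun _ _ => sq_nonneg _
  have hb : 0 ≤ ∑ j, ‖X (Sum.inr j)‖ ^ 2 := Finset.sum_nonneg fun _ _ => sq_nonneg _
  have ha0 : ∑ i, ‖X (Sum.inl i)‖ ^ 2 = 0 := by linarith
  have hb0 : ∑ j, ‖X (Sum.inr j)‖ ^ 2 = 0 := by linarith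
  rw [Finset.sum_eq_zero_iff_of_nonneg (fun _ _ => sq_nonneg _)] at ha0 hb0
  funext s
  rcases s with i | j
  · have := ha0 i (Finset.mem_univ _)
    simpa using this
  · have := hb0 j (Finset.mem_univ _)
    simpa using this

private theorem OK_li {k : ℕ} (w : Fin k → α ⊕ β → ℂ) (h1 : ∀ i, OK_h (w i) (w i) ≠ 0)
    (h2 : ∀ i j, i ≠ j → OK_h (w i) (w j) = 0) : LinearIndependent ℂ w := by
  rw [Fintype.linearIndependent_iff]
  intro a ha j
  have h3 : OK_h (∑ i, a i • w i) (w j) = a j * OK_h (w j) (w j) := by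
    rw [OK_sum_left, Finset.sum_eq_single j]
    · intro i _ hij
      rw [h2 i j hij, mul_zero]
    · intro h
      exact absurd (Finset.mem_univ _) h
  rw [ha, OK_zero_left] at h3
  exact (mul_eq_zero.mp h3.symm).resolve_right (h1 j)

/-- values of the form -/
private theorem OK_rat (d : ℚ) (W : Submodule ℚ (α ⊕ β → ℂ)) (hK : ∀ w ∈ W, zd d • w ∈ W)
    (hr : ∀ w ∈ W, ∀ w' ∈ W, ∃ q : ℚ, (star w' ⬝ᵥ (Jm α β).mulVec w).im = q)
    (x y : α ⊕ β → ℂ) (hx : x ∈ W) (hy : y ∈ W) : ∃ a b : ℚ,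
      (Real.sqrt (d : ℝ) : ℂ) * OK_h x y = (a : ℂ) + (b : ℂ) * zd d := by
  obtain ⟨q1, h1⟩ := hr x hx y hy
  obtain ⟨q2, h2⟩ := hr (zd d • x) (hK x hx) y hy
  rw [OK_h_eq] at h1 h2
  rw [OK_smul_left] at h2
  have h3 : (zd d * OK_h x y).im = Real.sqrt (d : ℝ) * (OK_h x y).re := by
    unfold zd
    simp [Complex.mul_im]
  rw [h3] at h2
  refine ⟨q2, q1, ?_⟩
  apply Complex.ext
  · rw [Complex.re_ofReal_mul, h2]
    unfold zd
    simp
  · rw [Complex.im_ofReal_mul, h1]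
    unfold zd
    simp
    ring

private theorem OK_mem (d : ℚ) (W : Submodule ℚ (α ⊕ β → ℂ)) (hK : ∀ w ∈ W, zd d • w ∈ W)
    (a b : ℚ) (x : α ⊕ β → ℂ) (hx : x ∈ W) : ((a : ℂ) + (b : ℂ) * zd d) • x ∈ W := by
  rw [add_smul, mul_smul, Rat.cast_smul_eq_qsmul, Rat.cast_smul_eq_qsmul]
  exact W.add_mem (W.smul_mem _ hx) (W.smul_mem _ (hK x hx))

private theorem OK_val {κ : Type} [Fintype κ] (v : κ → α ⊕ β → ℂ) (c : κ → ℝ)
    (hc : ∀ i, OK_h (v i) (v i) = (c i : ℂ)) (h2 : ∀ i j, i ≠ j → OK_h (v i) (v j) = 0)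
    (a : κ → ℂ) : (OK_h (∑ i, a i • v i) (∑ i, a i • v i)).re = ∑ i, ‖a i‖ ^ 2 * c i := by
  have h3 : OK_h (∑ i, a i • v i) (∑ i, a i • v i) = ((∑ i, ‖a i‖ ^ 2 * c i : ℝ) : ℂ) := by
    rw [OK_sum_left, Complex.ofReal_sum]
    refine Finset.sum_congr rfl fun i _ => ?_
    rw [← OK_conj, OK_sum_left, Finset.sum_eq_single i]
    · rw [hc i, map_mul, Complex.conj_ofReal, ← mul_assoc, Complex.mul_conj,
        Complex.normSq_eq_norm_sq, Complex.ofReal_mul]
    · intro j _ hj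
      rw [h2 j i hj, mul_zero]
    · intro h
      exact absurd (Finset.mem_univ _) h
  rw [h3, Complex.ofReal_re]

private theorem OK_gen {κ γ : Type} [Fintype κ] [Fintype γ] (v : κ → α ⊕ β → ℂ)
    (e : (α ⊕ β → ℂ) →ₗ[ℂ] (γ → ℂ))
    (he : ∀ a : κ → ℂ, e (∑ i, a i • v i) = 0 → ∀ i, a i = 0) :
    Fintype.card κ ≤ Fintype.card γ := by
  have hli : LinearIndependent ℂ (fun i : κ => e (v i)) := by
    rw [Fintype.linearIndependent_iff]
    intro a ha
    apply he a
    rw [map_sum, ← ha]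
    exact Finset.sum_congr rfl fun i _ => by rw [map_smul]
  have h4 := hli.fintype_card_le_finrank
  rwa [Module.finrank_fintype_fun_eq_card] at h4

private theorem OK_card {k : ℕ} (w : Fin k → α ⊕ β → ℂ) (c : Fin k → ℝ)
    (hc : ∀ i, OK_h (w i) (w i) = (c i : ℂ))
    (hc0 : ∀ i, c i ≠ 0) (h2 : ∀ i j, i ≠ j → OK_h (w i) (w j) = 0) :
    Fintype.card {i // 0 < c i} ≤ Fintype.card α ∧
      Fintype.card {i // ¬ 0 < c i} ≤ Fintype.card β := by
  constructor
  · refine OK_gen (fun i : {i // 0 < c i} => w i.1) (LinearMap.funLeft ℂ ℂ Sum.inl) ?_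
    intro a ha
    have h6 := OK_val (fun i : {i // 0 < c i} => w i.1) (fun i => c i.1) (fun i => hc i.1)
      (fun i j hij => h2 i.1 j.1 fun h => hij (Subtype.ext h)) a
    rw [OK_self_re] at h6
    have h7 : ∀ s, (∑ i : {i // 0 < c i}, a i • w i.1) (Sum.inl s) = 0 := fun s => congrFun ha s
    have h8 : ∑ s : α, ‖(∑ i : {i // 0 < c i}, a i • w i.1) (Sum.inl s)‖ ^ 2 = 0 := by
      apply Finset.sum_eq_zero
      intro s _
      rw [h7 s]
      simp
    have h9 : 0 ≤ ∑ s : β, ‖(∑ i : {i // 0 < c i}, a i • w i.1) (Sum.inr s)‖ ^ 2 :=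
      Finset.sum_nonneg fun _ _ => sq_nonneg _
    have h10 : ∑ i : {i // 0 < c i}, ‖a i‖ ^ 2 * c i.1 ≤ 0 := by
      rw [← h6, h8]
      linarith
    have h11 : ∀ i : {i // 0 < c i}, 0 ≤ ‖a i‖ ^ 2 * c i.1 := fun i =>
      mul_nonneg (sq_nonneg _) i.2.le
    have h12 : ∑ i : {i // 0 < c i}, ‖a i‖ ^ 2 * c i.1 = 0 :=
      le_antisymm h10 (Finset.sum_nonneg fun i _ => h11 i)
    rw [Finset.sum_eq_zero_iff_of_nonneg (fun i _ => h11 i)] at h12
    intro i
    have h13 := h12 i (Finset.mem_univ _)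
    have h14 := (mul_eq_zero.mp h13).resolve_right i.2.ne'
    simpa using h14
  · refine OK_gen (fun i : {i // ¬ 0 < c i} => w i.1) (LinearMap.funLeft ℂ ℂ Sum.inr) ?_
    intro a ha
    have h6 := OK_val (fun i : {i // ¬ 0 < c i} => w i.1) (fun i => c i.1) (fun i => hc i.1)
      (fun i j hij => h2 i.1 j.1 fun h => hij (Subtype.ext h)) a
    rw [OK_self_re] at h6
    have h7 : ∀ s, (∑ i : {i // ¬ 0 < c i}, a i • w i.1) (Sum.inr s) = 0 :=
      fun s => congrFun ha s
    have h8 : ∑ s : β, ‖(∑ i : {i // ¬ 0 < c i}, a i • w i.1) (Sum.inr s)‖ ^ 2 = 0 := by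
      apply Finset.sum_eq_zero
      intro s _
      rw [h7 s]
      simp
    have h9 : 0 ≤ ∑ s : α, ‖(∑ i : {i // ¬ 0 < c i}, a i • w i.1) (Sum.inl s)‖ ^ 2 :=
      Finset.sum_nonneg fun _ _ => sq_nonneg _
    have hneg : ∀ i : {i // ¬ 0 < c i}, c i.1 < 0 := fun i =>
      lt_of_le_of_ne (not_lt.mp i.2) (hc0 i.1)
    have h10 : 0 ≤ ∑ i : {i // ¬ 0 < c i}, ‖a i‖ ^ 2 * c i.1 := by
      rw [← h6, h8]
      linarith
    have h11 : ∀ i : {i // ¬ 0 < c i}, 0 ≤ -(‖a i‖ ^ 2 * c i.1) := fun i => by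
      have := mul_nonneg (sq_nonneg ‖a i‖) (neg_nonneg.mpr (hneg i).le)
      linarith
    have h12 : ∑ i : {i // ¬ 0 < c i}, -(‖a i‖ ^ 2 * c i.1) = 0 := by
      apply le_antisymm
      · rw [Finset.sum_neg_distrib]
        linarith
      · exact Finset.sum_nonneg fun i _ => h11 i
    rw [Finset.sum_eq_zero_iff_of_nonneg (fun i _ => h11 i)] at h12
    intro i
    have h13 := h12 i (Finset.mem_univ _)
    rw [neg_eq_zero] at h13
    have h14 := (mul_eq_zero.mp h13).resolve_right (hneg i).ne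
    simpa using h14

end

/-- the maximal orthogonal family -/
private theorem OK_main (α β : Type) [Fintype α] [Fintype β] [DecidableEq α] [DecidableEq β]
    (d : ℚ) (W : Submodule ℚ (α ⊕ β → ℂ)) (hd : 0 < d) (hK : ∀ w ∈ W, zd d • w ∈ W)
    (hb : ∃ b : Basis ((α ⊕ β) ⊕ (α ⊕ β)) ℚ W, LinearIndependent ℝ fun i => (b i : α ⊕ β → ℂ))
    (hr : ∀ w ∈ W, ∀ w' ∈ W, ∃ q : ℚ, (star w' ⬝ᵥ (Jm α β).mulVec w).im = q) :
    ∃ (w : Fin (Fintype.card (α ⊕ β)) → α ⊕ β → ℂ) (c : Fin (Fintype.card (α ⊕ β)) → ℝ)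
      (q : Fin (Fintype.card (α ⊕ β)) → ℚ),
      (∀ i, w i ∈ W) ∧ (∀ i, OK_h (w i) (w i) = (c i : ℂ)) ∧ (∀ i, c i ≠ 0) ∧
      (∀ i, (q i : ℝ) = c i * Real.sqrt (d : ℝ)) ∧
      (∀ i j, i ≠ j → OK_h (w i) (w j) = 0) ∧
      ∀ v ∈ W, ∃ a b : Fin (Fintype.card (α ⊕ β)) → ℚ,
        v = ∑ i, ((a i : ℂ) + (b i : ℂ) * zd d) • w i := by
  have hd' : (0 : ℝ) < (d : ℝ) := by exact_mod_cast hd
  have hsq : 0 < Real.sqrt (d : ℝ) := Real.sqrt_pos.mpr hd'
  have hsqc : (Real.sqrt (d : ℝ) : ℂ) ≠ 0 := by exact_mod_cast hsq.ne'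
  obtain ⟨P, hP⟩ : ∃ P : ℕ → Prop, P = fun k => ∃ w : Fin k → α ⊕ β → ℂ,
      (∀ i, w i ∈ W) ∧ (∀ i, OK_h (w i) (w i) ≠ 0) ∧
      ∀ i j, i ≠ j → OK_h (w i) (w j) = 0 := ⟨_, rfl⟩
  have hPle : ∀ k, P k → k ≤ Fintype.card (α ⊕ β) := by
    intro k hk
    rw [hP] at hk
    obtain ⟨w, -, h1, h2⟩ := hk
    have h3 := (OK_li w h1 h2).fintype_card_le_finrank
    rwa [Module.finrank_fintype_fun_eq_card, Fintype.card_fin] at h3
  classical
  have hP0 : P 0 := by
    rw [hP]
    exact ⟨fun i => i.elim0, fun i => i.elim0, fun i => i.elim0, fun i => i.elim0⟩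
  obtain ⟨k, hk⟩ : ∃ k, k = Nat.findGreatest P (Fintype.card (α ⊕ β)) := ⟨_, rfl⟩
  have hPk : P k := by
    rw [hk]
    exact Nat.findGreatest_spec (Nat.zero_le _) hP0
  have hPk1 : ¬ P (k + 1) := by
    intro h
    have h1 := hPle _ h
    have h2 := Nat.le_findGreatest h1 h
    omega
  have hPk' := hPk
  rw [hP] at hPk'
  obtain ⟨w, hwW, hw0, hwo⟩ := hPk'
  obtain ⟨c, hc⟩ : ∃ c : Fin k → ℝ, c = fun i => (OK_h (w i) (w i)).re := ⟨_, rfl⟩
  have hcc : ∀ i, OK_h (w i) (w i) = (c i : ℂ) := by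
    intro i
    rw [hc]
    exact OK_self _
  have hc0 : ∀ i, c i ≠ 0 := by
    intro i h
    apply hw0 i
    rw [hcc i, h, Complex.ofReal_zero]
  have hq : ∀ i, ∃ q : ℚ, (q : ℝ) = c i * Real.sqrt (d : ℝ) := by
    intro i
    obtain ⟨a, b, hab⟩ := OK_rat d W hK hr (w i) (w i) (hwW i) (hwW i)
    refine ⟨a, ?_⟩
    have h1 := congrArg Complex.re hab
    rw [hcc i] at h1
    unfold zd at h1
    simp at h1
    linarith
  choose q hq using hq
  -- the orthogonal complement is totally isotropic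
  have hiso1 : ∀ u ∈ W, (∀ i, OK_h u (w i) = 0) → OK_h u u = 0 := by
    intro u hu hui
    by_contra hne
    apply hPk1
    rw [hP]
    refine ⟨Fin.cons u w, ?_, ?_, ?_⟩
    · intro i
      refine Fin.cases ?_ (fun j => ?_) i
      · exact hu
      · exact hwW j
    · intro i
      refine Fin.cases ?_ (fun j => ?_) i
      · exact hne
      · exact hw0 j
    · intro i j
      refine Fin.cases ?_ (fun i' => ?_) i
      · refine Fin.cases ?_ (fun j' => ?_) j
        · intro h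
          exact absurd rfl h
        · intro _
          exact hui j'
      · refine Fin.cases ?_ (fun j' => ?_) j
        · intro _
          show OK_h (w i') u = 0
          rw [← OK_conj, hui i', map_zero]
        · intro h
          exact hwo i' j' fun h' => h (by rw [h'])
  have hiso : ∀ u ∈ W, (∀ i, OK_h u (w i) = 0) → ∀ u' ∈ W, (∀ i, OK_h u' (w i) = 0) →
      OK_h u u' = 0 := by
    have hre : ∀ u ∈ W, (∀ i, OK_h u (w i) = 0) → ∀ u' ∈ W, (∀ i, OK_h u' (w i) = 0) →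
        (OK_h u u').re = 0 := by
      intro u hu hui u' hu' hui'
      have h1 := hiso1 (u + u') (W.add_mem hu hu') (fun i => by
        rw [OK_add_left, hui i, hui' i, add_zero])
      rw [OK_add_left, OK_add_right, OK_add_right, hiso1 u hu hui, hiso1 u' hu' hui',
        ← OK_conj u u'] at h1
      have h2 := congrArg Complex.re h1
      simp at h2
      linarith
    intro u hu hui u' hu' hui'
    apply Complex.ext
    · exact hre u hu hui u' hu' hui'
    · have h1 := hre (zd d • u) (hK u hu) (fun i => by rw [OK_smul_left, hui i, mul_zero])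
        u' hu' hui'
      rw [OK_smul_left] at h1
      have h3 : (zd d * OK_h u u').re = -(Real.sqrt (d : ℝ) * (OK_h u u').im) := by
        unfold zd
        simp [Complex.mul_re]
      rw [h3, neg_eq_zero] at h1
      exact (mul_eq_zero.mp h1).resolve_left hsq.ne'
  -- the projection
  have hproj : ∀ v ∈ W, ∃ (a b : Fin k → ℚ) (u : α ⊕ β → ℂ), u ∈ W ∧
      (∀ i, OK_h u (w i) = 0) ∧ v = ∑ i, ((a i : ℂ) + (b i : ℂ) * zd d) • w i + u := by
    intro v hv
    have h1 : ∀ i, ∃ a b : ℚ, OK_h v (w i) = ((a : ℂ) + (b : ℂ) * zd d) * (c i : ℂ) := by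
      intro i
      obtain ⟨a, b, hab⟩ := OK_rat d W hK hr v (w i) hv (hwW i)
      have hq0 : (q i : ℂ) ≠ 0 := by
        have h2 : (q i : ℝ) ≠ 0 := by
          rw [hq i]
          exact mul_ne_zero (hc0 i) hsq.ne'
        exact_mod_cast h2
      refine ⟨a / q i, b / q i, ?_⟩
      have h3 : (q i : ℂ) = (c i : ℂ) * (Real.sqrt (d : ℝ) : ℂ) := by
        have := hq i
        exact_mod_cast congrArg (fun t : ℝ => (t : ℂ)) this
      have h4 : ((((a / q i : ℚ) : ℂ) + ((b / q i : ℚ) : ℂ) * zd d) * (c i : ℂ)) *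
          (Real.sqrt (d : ℝ) : ℂ) = (a : ℂ) + (b : ℂ) * zd d := by
        push_cast
        rw [mul_assoc, ← h3]
        field_simp
      apply mul_right_cancel₀ hsqc
      rw [h4, mul_comm, hab]
    choose a b hab using h1
    refine ⟨a, b, v - ∑ i, ((a i : ℂ) + (b i : ℂ) * zd d) • w i, ?_, ?_, ?_⟩
    · exact W.sub_mem hv (W.sum_mem fun i _ => OK_mem d W hK _ _ _ (hwW i))
    · intro j
      rw [OK_sub_left, OK_sum_left, Finset.sum_eq_single j]
      · rw [hcc j, hab j, sub_self]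
      · intro i _ hij
        rw [hwo i j hij, mul_zero]
      · intro h
        exact absurd (Finset.mem_univ _) h
    · rw [add_sub_cancel]
  -- `W` spans over the reals
  obtain ⟨b, hbl⟩ := hb
  have hspan : Submodule.span ℝ (Set.range fun i => (b i : α ⊕ β → ℂ)) = ⊤ := by
    apply hbl.span_eq_top_of_card_eq_finrank'
    rw [Fintype.card_sum, Module.finrank_pi_fintype]
    simp only [Complex.finrank_real_complex, Finset.sum_const, Finset.card_univ, smul_eq_mul]
    omega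
  have hzero : ∀ u : α ⊕ β → ℂ, (∀ v ∈ W, OK_h u v = 0) → u = 0 := by
    intro u hu
    apply OK_nondeg
    intro Y
    have hY : Y ∈ Submodule.span ℝ (Set.range fun i => (b i : α ⊕ β → ℂ)) := by
      rw [hspan]
      exact Submodule.mem_top
    induction hY using Submodule.span_induction with
    | mem x hx =>
      obtain ⟨i, rfl⟩ := hx
      exact hu _ (b i).2
    | zero => exact OK_zero_right u
    | add x y _ _ hx hy => rw [OK_add_right, hx, hy, add_zero]
    | smul r x _ hx =>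
      have h4 : r • x = (r : ℂ) • x := by
        funext p
        simp
      rw [h4, OK_smul_right, hx, mul_zero]
  have hexp : ∀ v ∈ W, ∃ a b : Fin k → ℚ, v = ∑ i, ((a i : ℂ) + (b i : ℂ) * zd d) • w i := by
    intro v hv
    obtain ⟨a, b', u, huW, hui, hvu⟩ := hproj v hv
    have hu0 : u = 0 := by
      apply hzero
      intro v' hv'
      obtain ⟨a', b'', u', huW', hui', hvu'⟩ := hproj v' hv'
      rw [hvu', OK_add_right, hiso u huW hui u' huW' hui', add_zero, ← OK_conj, OK_sum_left]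
      have h5 : ∑ i, ((a' i : ℂ) + (b'' i : ℂ) * zd d) * OK_h (w i) u = 0 := by
        apply Finset.sum_eq_zero
        intro i _
        rw [← OK_conj, hui i, map_zero, mul_zero]
      rw [h5, map_zero]
    exact ⟨a, b', by rw [hvu, hu0, add_zero]⟩
  -- the dimension
  have hkn : k = Fintype.card (α ⊕ β) := by
    apply le_antisymm (hPle k hPk)
    have h6 : Submodule.span ℂ (Set.range w) = ⊤ := by
      rw [eq_top_iff]
      intro Y _
      have hY : Y ∈ Submodule.span ℝ (Set.range fun i => (b i : α ⊕ β → ℂ)) := by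
        rw [hspan]
        exact Submodule.mem_top
      induction hY using Submodule.span_induction with
      | mem x hx =>
        obtain ⟨i, rfl⟩ := hx
        obtain ⟨a, b', hv⟩ := hexp _ (b i).2
        show (b i : α ⊕ β → ℂ) ∈ Submodule.span ℂ (Set.range w)
        rw [hv]
        exact Submodule.sum_mem _ fun j _ => Submodule.smul_mem _ _
          (Submodule.subset_span ⟨j, rfl⟩)
      | zero => exact Submodule.zero_mem _
      | add x y _ _ hx hy => exact Submodule.add_mem _ (hx trivial) (hy trivial)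
      | smul r x _ hx =>
        have h4 : r • x = (r : ℂ) • x := by
          funext p
          simp
        rw [h4]
        exact Submodule.smul_mem _ _ (hx trivial)
    have h7 := finrank_range_le_card (R := ℂ) w
    unfold Set.finrank at h7
    rw [h6, finrank_top, Module.finrank_fintype_fun_eq_card, Fintype.card_fin] at h7
    exact h7
  subst hkn
  exact ⟨w, c, q, hwW, hcc, hc0, hq, hwo, hexp⟩

theorem thm_OrtK : St_OrtK := by
  intro α β _ _ _ _ d W hd hK hb hr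
  obtain ⟨w, c, q, hwW, hcc, hc0, hq, hwo, hexp⟩ := OK_main α β d W hd hK hb hr
  have hd' : (0 : ℝ) < (d : ℝ) := by exact_mod_cast hd
  have hsq : 0 < Real.sqrt (d : ℝ) := Real.sqrt_pos.mpr hd'
  obtain ⟨h1, h2⟩ := OK_card w c hcc hc0 hwo
  have h3 := Fintype.card_subtype_compl (fun i => 0 < c i)
  have h4 : Fintype.card {i // 0 < c i} ≤ Fintype.card (Fin (Fintype.card (α ⊕ β))) :=
    Fintype.card_subtype_le _
  rw [Fintype.card_fin] at h3 h4
  have h7' : Fintype.card (α ⊕ β) = Fintype.card α + Fintype.card β := Fintype.card_sum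
  have h5 : Fintype.card {i // 0 < c i} = Fintype.card α := by omega
  have h6 : Fintype.card {i // ¬ 0 < c i} = Fintype.card β := by omega
  obtain ⟨σ, hσ1, hσ2⟩ : ∃ σ : α ⊕ β ≃ Fin (Fintype.card (α ⊕ β)),
      (∀ i, 0 < c (σ (Sum.inl i))) ∧ ∀ j, ¬ 0 < c (σ (Sum.inr j)) := by
    refine ⟨(Equiv.sumCongr (Fintype.equivOfCardEq h5.symm) (Fintype.equivOfCardEq h6.symm)).trans
      (Equiv.sumCompl fun i => 0 < c i), ?_, ?_⟩
    · intro i
      simp only [Equiv.trans_apply, Equiv.sumCongr_apply, Sum.map_inl, Equiv.sumCompl_apply_inl]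
      exact (Fintype.equivOfCardEq h5.symm i).2
    · intro j
      simp only [Equiv.trans_apply, Equiv.sumCongr_apply, Sum.map_inr, Equiv.sumCompl_apply_inr]
      exact (Fintype.equivOfCardEq h6.symm j).2
  obtain ⟨r, hr'⟩ : ∃ r : α ⊕ β → ℝ, r = fun s => Real.sqrt |c (σ s)| := ⟨_, rfl⟩
  have hr0 : ∀ s, 0 < r s := by
    intro s
    rw [hr']
    exact Real.sqrt_pos.mpr (abs_pos.mpr (hc0 _))
  have hrsq : ∀ s, r s ^ 2 = |c (σ s)| := by
    intro s
    rw [hr']
    exact Real.sq_sqrt (abs_nonneg _)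
  obtain ⟨g, hg⟩ : ∃ g : Matrix (α ⊕ β) (α ⊕ β) ℂ,
      g = Matrix.of fun t s => ((r s : ℂ))⁻¹ * w (σ s) t := ⟨_, rfl⟩
  have hcol : ∀ s, g.mulVec (Pi.single s 1) = ((r s : ℂ))⁻¹ • w (σ s) := by
    intro s
    rw [Matrix.mulVec_single_one]
    funext t
    rw [hg]
    rfl
  refine ⟨g, r, fun s => |q (σ s)|, ?_, ⟨hd, hr0, ?_⟩, ?_⟩
  · show g.conjTranspose * Jm α β * g = Jm α β
    ext s t
    have h7 : ∀ A : Matrix (α ⊕ β) (α ⊕ β) ℂ,
        star (Pi.single s (1 : ℂ) : α ⊕ β → ℂ) ⬝ᵥ A.mulVec (Pi.single t 1) = A s t := by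
      intro A
      rw [Matrix.mulVec_single_one]
      unfold dotProduct
      rw [Finset.sum_eq_single s]
      · simp
      · intro k _ hk
        rw [Pi.star_apply, Pi.single_eq_of_ne hk, star_zero, zero_mul]
      · intro h
        exact absurd (Finset.mem_univ _) h
    rw [← h7 (g.conjTranspose * Jm α β * g), ← Matrix.mulVec_mulVec, ← Matrix.mulVec_mulVec,
      Matrix.dotProduct_mulVec,
      ← Matrix.star_mulVec, OK_h_eq, hcol, hcol, OK_smul_left, OK_smul_right]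
    have h8 : conj ((r s : ℂ))⁻¹ = ((r s : ℂ))⁻¹ := by
      rw [map_inv₀, Complex.conj_ofReal]
    rw [h8]
    by_cases hst : s = t
    · subst hst
      rw [hcc]
      have h9 : ((r s : ℂ))⁻¹ * (((r s : ℂ))⁻¹ * (c (σ s) : ℂ)) =
          ((c (σ s) / r s ^ 2 : ℝ) : ℂ) := by
        push_cast
        field_simp
      rw [h9, hrsq]
      unfold Jm
      rcases s with i | j
      · rw [Matrix.fromBlocks_apply₁₁, Matrix.one_apply_eq, abs_of_pos (hσ1 i),
          div_self (hσ1 i).ne', Complex.ofReal_one]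
      · have h10 : c (σ (Sum.inr j)) < 0 := lt_of_le_of_ne (not_lt.mp (hσ2 j)) (hc0 _)
        rw [Matrix.fromBlocks_apply₂₂, Matrix.neg_apply, Matrix.one_apply_eq, abs_of_neg h10,
          div_neg, div_self h10.ne, Complex.ofReal_neg, Complex.ofReal_one]
    · rw [hwo (σ t) (σ s) (fun h => hst (σ.injective h).symm), mul_zero, mul_zero]
      unfold Jm
      rcases s with i | j <;> rcases t with i' | j'
      · rw [Matrix.fromBlocks_apply₁₁, Matrix.one_apply_ne (fun h => hst (by rw [h]))]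
      · rw [Matrix.fromBlocks_apply₁₂, Matrix.zero_apply]
      · rw [Matrix.fromBlocks_apply₂₁, Matrix.zero_apply]
      · rw [Matrix.fromBlocks_apply₂₂, Matrix.neg_apply,
          Matrix.one_apply_ne (fun h => hst (by rw [h])), neg_zero]
  · intro s
    rw [hrsq]
    push_cast
    rw [hq, abs_mul, abs_of_pos hsq]
  · have hmv : ∀ a b : α ⊕ β → ℚ,
        (g.mulVec fun s => (r s : ℂ) * ((a s : ℂ) + (b s : ℂ) * zd d)) =
          ∑ s, ((a s : ℂ) + (b s : ℂ) * zd d) • w (σ s) := by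
      intro a b
      funext t
      rw [Finset.sum_apply]
      show ∑ s, g t s * ((r s : ℂ) * ((a s : ℂ) + (b s : ℂ) * zd d)) = _
      refine Finset.sum_congr rfl fun s _ => ?_
      rw [hg, Matrix.of_apply, Pi.smul_apply, smul_eq_mul]
      have h11 : (r s : ℂ) ≠ 0 := by exact_mod_cast (hr0 s).ne'
      field_simp
    intro v
    constructor
    · intro hv
      obtain ⟨a, b, hab⟩ := hexp v hv
      refine ⟨fun s => a (σ s), fun s => b (σ s), ?_⟩
      rw [hmv, hab]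
      exact (Equiv.sum_comp σ fun i => ((a i : ℂ) + (b i : ℂ) * zd d) • w i).symm
    · rintro ⟨a, b, hab⟩
      rw [hab, hmv]
      exact W.sum_mem fun s _ => OK_mem d W hK _ _ _ (hwW _)

end DWC
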