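import Pool.Agent.DWC.StG
import Pool.Agent.PST.Rel

/-!
# DWC [RelH]: the algebraic relation
-/

set_option autoImplicit false

namespace DWC

open scoped ComplexConjugate
open GAM (H E F pd pdl PLat IsTh OddTor IsDel Gro IsLat)
open PST

theorem thm_RelH (h1 : St_SieH) (h2 : St_MinP) (h3 : St_HomI) (h4 : St_Ell) (h5 : St_OmT)
    (_h6 : St_EllZ) : St_RelH := by
  classical
  intro α β μ _ _ _ _ _ _ L χ θ e k y x x' hP hT hne hC hy hx hx' hy0 hfp hfm hdet
  obtain ⟨ho, -, h0, -⟩ := h5 α β
  obtain ⟨g1, g2, -⟩ := GAM.thm_GroF GAM.thm_GroU GAM.thm_GroC (Ix α β μ)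
  have hG : ∀ x, Gro (F θ x) := g1 L χ θ hP hT
  have hE := fun i => h4 α β μ (F θ (y i)) (hG (y i))
  have hz : ∀ G : (Ix α β μ → ℂ) → ℂ, Gro G → ell 0 G = G 0 :=
    fun G hG => (h4 α β μ G hG).2.1
  have han : ∀ i, AnalyticAt ℂ (fun w => psi θ w (y i)) 0 := fun i =>
    GAM.analyticOnNhd_of_differentiableOn ho (hE i).1 0 h0
  have hM := h1 α β μ L χ θ e k y x x' hP hT hne hC hy hx hx'
  refine h2 (α × β → ℂ) (Option (α × β)) (fun i w => XF e k θ y x x' w i) (Om α β) ?_ hM
  intro m P hPm hPz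
  refine h3 (α × β) (fun i w => psi θ w (y i)) han ?_ m P hPm ?_
  · -- the determinant
    have e1 : (Matrix.of fun i j : Option (α × β) =>
        Option.elim j (psi θ 0 (y i)) fun p => pd p (fun w => psi θ w (y i)) 0) =
        Matrix.of fun i j : Option (α × β) =>
          (Option.elim j 1 fun _ => (1 / Real.pi : ℂ)) * (Matrix.of fun i j : Option (α × β) =>
            Option.elim j (F θ (y i) 0) fun p => Dij p (F θ (y i)) 0) i j := by
      ext i j
      cases j with
      | none =>
        show psi θ 0 (y i) = 1 * F θ (y i) 0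
        rw [one_mul]
        exact hz _ (hG (y i))
      | some p =>
        show pd p (fun w => psi θ w (y i)) 0 = (1 / Real.pi : ℂ) * Dij p (F θ (y i)) 0
        rw [← hz _ (Rel_gro_Dij (hG (y i)) p)]
        exact ((hE i).2.2 0 h0).1 p
    rw [e1, Matrix.det_mul_row]
    refine mul_ne_zero ?_ hdet
    refine Finset.prod_ne_zero_iff.mpr fun j _ => ?_
    cases j with
    | none => exact one_ne_zero
    | some p =>
      show (1 / Real.pi : ℂ) ≠ 0
      exact one_div_ne_zero (by exact_mod_cast Real.pi_ne_zero)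
  · -- the relation near zero
    have hnz : ∀ᶠ w in nhds (0 : α × β → ℂ), psi θ w (y none) ≠ 0 :=
      (han none).continuousAt.eventually_ne hy0
    have hnz' : ∀ᶠ w in nhds (0 : α × β → ℂ), fm k θ w x' ≠ 0 :=
      (Rel_fm h4 h5 hP hT k x').eventually_ne hfm
    filter_upwards [hnz, hnz', ho.mem_nhds h0] with w hw1 hw2 hw3
    have h := hPz w hw3
    have h' : (fun i : Option (α × β) => XF e k θ y x x' w (some i)) = fun i =>
        (psi θ w (y none) ^ (e * Fintype.card α) * fm k θ w x' ^ e) * psi θ w (y i) := by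
      funext i
      show psi θ w (y i) * psi θ w (y none) ^ (e * Fintype.card α) * fm k θ w x' ^ e = _
      ring
    rw [h', GAM.Rel_scale hPm] at h
    exact (mul_eq_zero.mp h).resolve_left
      (pow_ne_zero _ (mul_ne_zero (pow_ne_zero _ hw1) (pow_ne_zero _ hw2)))

end DWC
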