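import Pool.Agent.DWC.StG
import Pool.Agent.PST.UGr
import Pool.Agent.PST.MinkR

/-!
# DWC [Rk]: short lattice vectors in all directions
-/

set_option autoImplicit false

namespace DWC

open scoped ComplexConjugate
open GAM (H E F pd pdl PLat IsTh OddTor IsDel Gro IsLat)
open PST

section form

variable {ι : Type} [Fintype ι]

private theorem Rk_E_add_left (x y z : ι → ℂ) : E (x + y) z = E x z + E y z := by
  simp only [E, H, Pi.add_apply, add_mul, Finset.sum_add_distrib, Complex.add_im]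

private theorem Rk_E_add_right (x y z : ι → ℂ) : E x (y + z) = E x y + E x z := by
  simp only [E, H, Pi.add_apply, map_add, mul_add, Finset.sum_add_distrib, Complex.add_im]

private theorem Rk_E_smul_left (r : ℝ) (x y : ι → ℂ) : E (r • x) y = r * E x y := by
  simp only [E, H, Pi.smul_apply, Complex.real_smul, mul_assoc]
  rw [← Finset.mul_sum, Complex.im_ofReal_mul]

private theorem Rk_E_smul_right (r : ℝ) (x y : ι → ℂ) : E x (r • y) = r * E x y := by
  simp only [E, H, Pi.smul_apply, Complex.real_smul, map_mul, Complex.conj_ofReal]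
  rw [← Complex.im_ofReal_mul, Finset.mul_sum]
  congr 1
  refine Finset.sum_congr rfl fun a _ => ?_
  ring

private theorem Rk_E_I (x : ι → ℂ) : E x (Complex.I • x) = - nq x := by
  simp only [E, H, Pi.smul_apply, smul_eq_mul, map_mul, Complex.conj_I, nq, Complex.im_sum]
  rw [← Finset.sum_neg_distrib]
  refine Finset.sum_congr rfl fun a _ => ?_
  have h : x a * (-Complex.I * conj (x a)) = -(Complex.I * (x a * conj (x a))) := by ring
  rw [h, Complex.mul_conj, Complex.neg_im, Complex.I_mul_im, Complex.ofReal_re,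
    Complex.normSq_eq_norm_sq]

private theorem Rk_nq_nonneg (x : ι → ℂ) : 0 ≤ nq x :=
  Finset.sum_nonneg fun _ _ => sq_nonneg _

private theorem Rk_nq_zero (x : ι → ℂ) (h : nq x = 0) : x = 0 := by
  funext a
  have h1 := (Finset.sum_eq_zero_iff_of_nonneg (fun _ _ => sq_nonneg _)).1 h a (Finset.mem_univ a)
  have h2 : ‖x a‖ = 0 := by
    rcases pow_eq_zero_iff (two_ne_zero) |>.1 h1 with h3
    exact h3
  simpa using h2

/-- Cauchy-Schwarz -/
private theorem Rk_cs (x y : ι → ℂ) : (H x y).re ^ 2 ≤ nq x * nq y := by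
  have h1 : |(H x y).re| ≤ ∑ a, ‖x a‖ * ‖y a‖ := by
    calc |(H x y).re| ≤ ‖H x y‖ := Complex.abs_re_le_norm _
      _ ≤ ∑ a, ‖x a * conj (y a)‖ := norm_sum_le _ _
      _ = ∑ a, ‖x a‖ * ‖y a‖ := by
        refine Finset.sum_congr rfl fun a _ => ?_
        rw [norm_mul, RCLike.norm_conj]
  calc (H x y).re ^ 2 = |(H x y).re| ^ 2 := (sq_abs _).symm
    _ ≤ (∑ a, ‖x a‖ * ‖y a‖) ^ 2 := pow_le_pow_left₀ (abs_nonneg _) h1 2
    _ ≤ nq x * nq y := Finset.sum_mul_sq_le_sq_mul_sq _ _ _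

private theorem Rk_nq_le {x : ι → ℂ} {B : ℝ} (h : ‖x‖ ≤ B) : nq x ≤ Fintype.card ι * B ^ 2 := by
  unfold nq
  calc ∑ p, ‖x p‖ ^ 2 ≤ ∑ _p : ι, B ^ 2 := by
        refine Finset.sum_le_sum fun p _ => ?_
        exact pow_le_pow_left₀ (norm_nonneg _) ((norm_le_pi_norm x p).trans h) 2
    _ = Fintype.card ι * B ^ 2 := by
        rw [Finset.sum_const, Finset.card_univ, nsmul_eq_mul]

private theorem Rk_nq_add (x y : ι → ℂ) (c : ℝ) : nq (x + c • y) ≤ 2 * nq x + 2 * (c ^ 2 * nq y) := by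
  unfold nq
  rw [Finset.mul_sum, Finset.mul_sum, Finset.mul_sum, ← Finset.sum_add_distrib]
  refine Finset.sum_le_sum fun p _ => ?_
  rw [Pi.add_apply, Pi.smul_apply]
  have h1 : ‖x p + c • y p‖ ≤ ‖x p‖ + ‖c • y p‖ := norm_add_le _ _
  have h2 : ‖c • y p‖ ^ 2 = c ^ 2 * ‖y p‖ ^ 2 := by
    rw [norm_smul, mul_pow, Real.norm_eq_abs, sq_abs]
  have h3 := pow_le_pow_left₀ (norm_nonneg _) h1 2
  rw [← h2]
  nlinarith [sq_nonneg (‖x p‖ - ‖c • y p‖)]

/-- the bilinear form `E` -/
private noncomputable def Rk_B (ι : Type) [Fintype ι] : LinearMap.BilinForm ℝ (ι → ℂ) :=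
  LinearMap.mk₂ ℝ (fun x y => E x y) Rk_E_add_left
    (fun c x y => by rw [Rk_E_smul_left, smul_eq_mul])
    Rk_E_add_right
    (fun c x y => by rw [Rk_E_smul_right, smul_eq_mul])

private theorem Rk_B_nd (x : ι → ℂ) (h : ∀ y, Rk_B ι x y = 0) : x = 0 := by
  have h1 : E x (Complex.I • x) = 0 := h (Complex.I • x)
  rw [Rk_E_I] at h1
  exact Rk_nq_zero x (by linarith)

/-- the linear form `x ↦ Re H(x, u)` -/
private noncomputable def Rk_phi (u : ι → ℂ) : (ι → ℂ) →ₗ[ℝ] ℝ where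
  toFun x := (H x u).re
  map_add' x y := by
    simp only [H, Pi.add_apply, add_mul, Finset.sum_add_distrib, Complex.add_re]
  map_smul' r x := by
    simp only [H, Pi.smul_apply, Complex.real_smul, mul_assoc]
    rw [← Finset.mul_sum, Complex.re_ofReal_mul, RingHom.id_apply, smul_eq_mul]

private theorem Rk_phi_apply (u x : ι → ℂ) : Rk_phi u x = (H x u).re := rfl

private theorem Rk_phi_self (u : ι → ℂ) : Rk_phi u u = nq u := by
  rw [Rk_phi_apply]
  unfold H nq
  rw [Complex.re_sum]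
  refine Finset.sum_congr rfl fun a _ => ?_
  rw [Complex.mul_conj, Complex.ofReal_re, Complex.normSq_eq_norm_sq]

end form

section act

variable {α β : Type} [Fintype α] [Fintype β] [DecidableEq α] [DecidableEq β]

/-- the action of a matrix as a real linear map -/
private noncomputable def Rk_A (g : Matrix (α ⊕ β) (α ⊕ β) ℂ) :
    (Ix α β Unit → ℂ) →ₗ[ℝ] (Ix α β Unit → ℂ) where
  toFun := act g
  map_add' x y := ((thm_UGr α β Unit).2.2.2.1 g x y 0).1
  map_smul' r x := ((thm_UGr α β Unit).2.2.2.1 g x x r).2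

private theorem Rk_det {N : ℕ} (b : Module.Basis (Fin N) ℝ (Ix α β Unit → ℂ))
    {g : Matrix (α ⊕ β) (α ⊕ β) ℂ} (hg : IsU g) : |LinearMap.det (Rk_A g)| = 1 :=
  GAM.Mink_det b (Rk_B (Ix α β Unit)) Rk_B_nd (Rk_A g)
    (fun x y => (thm_UGr α β Unit).2.2.2.2.2.2 g hg x y)

end act

theorem thm_Rk : St_Rk := by
  intro α β _ _ _ _ L χ ε hL hε
  classical
  obtain ⟨b, hb⟩ := hL.basis
  rcases isEmpty_or_nonempty (Ix α β Unit) with hem | hne
  · refine ⟨0, fun g _ _ u hu => absurd (funext fun p => hem.elim p) hu⟩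
  set b' := b.reindex (Fintype.equivFin (Ix α β Unit ⊕ Ix α β Unit)) with hb'
  have hrange : Set.range b' = Set.range b := by
    rw [hb', Module.Basis.range_reindex]
  obtain ⟨C, hC⟩ := MinkR_gen b' Fintype.card_pos
  set D := Module.finrank ℝ (Ix α β Unit → ℂ) with hD
  set n : ℝ := (Fintype.card (Ix α β Unit) : ℝ) with hn
  have hn0 : 0 ≤ n := Nat.cast_nonneg _
  have hC0 : 0 ≤ C := by
    obtain ⟨x, -, -, hx⟩ := hC LinearMap.id (by rw [LinearMap.det_id, abs_one])
    exact (norm_nonneg _).trans hx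
  set a : ℝ := (C + 1) * (n + 1) / ε with ha
  have ha0 : 0 < a := by
    rw [ha]
    positivity
  set t : ℝ := (a ^ D)⁻¹ with ht
  have ht0 : 0 < t := by
    rw [ht]
    positivity
  have haC : n * (C / a) ^ 2 < ε ^ 2 := by
    have h1 : C / a = C * ε / ((C + 1) * (n + 1)) := by
      rw [ha]
      field_simp
    rw [h1, div_pow, mul_div_assoc', div_lt_iff₀ (by positivity)]
    have h2 : C ^ 2 < (C + 1) ^ 2 := by nlinarith
    have h3 : n < (n + 1) ^ 2 := by nlinarith
    have h4 : n * C ^ 2 < (C + 1) ^ 2 * (n + 1) ^ 2 := by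
      calc n * C ^ 2 ≤ (n + 1) ^ 2 * C ^ 2 := mul_le_mul_of_nonneg_right h3.le (sq_nonneg C)
        _ < (n + 1) ^ 2 * (C + 1) ^ 2 := mul_lt_mul_of_pos_left h2 (by positivity)
        _ = (C + 1) ^ 2 * (n + 1) ^ 2 := mul_comm _ _
    have h5 : 0 < ε ^ 2 := by positivity
    nlinarith [mul_lt_mul_of_pos_left h4 h5]
  refine ⟨2 * (n * (C / a) ^ 2) + 2 * (((1 - t) / t) ^ 2 * (n * (C / a) ^ 2)), ?_⟩
  intro g hg hSh u hu
  set q := nq u with hq
  have hq0 : 0 < q := by
    rcases (Rk_nq_nonneg u).lt_or_eq with h | h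
    · exact h
    · exact absurd (Rk_nq_zero u h.symm) hu
  obtain ⟨hg1, hg2, hg3, -, -⟩ := (thm_UGr α β Unit).2.2.2.2.2.1 g hg
  set g' := Jm α β * g.conjTranspose * Jm α β with hg'
  set T := LinearMap.transvection (((t - 1) / q) • Rk_phi u) u with hT
  have hTx : ∀ x, T x = x + ((t - 1) / q * (H x u).re) • u := by
    intro x
    rw [hT, LinearMap.transvection.apply, LinearMap.smul_apply, Rk_phi_apply, smul_eq_mul]
  have hTdet : LinearMap.det T = t := by
    rw [hT, LinearMap.transvection.det, LinearMap.smul_apply, Rk_phi_self, smul_eq_mul, ← hq]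
    field_simp
    ring
  obtain ⟨l, hl1, hl2, hl3⟩ := hC ((a • T) ∘ₗ Rk_A g') (by
    rw [LinearMap.det_comp, abs_mul, Rk_det b' hg1, mul_one, LinearMap.det_smul, hTdet, ← hD, ht,
      mul_inv_cancel₀ (by positivity), abs_one])
  rw [hrange, ← hb] at hl1
  set x := act g' l with hx
  have hgx : act g x = l := by
    rw [hx, ← (thm_UGr α β Unit).2.1, hg3, (thm_UGr α β Unit).2.2.1]
  have hx0 : x ≠ 0 := by
    intro h0
    apply hl2
    rw [← hgx, h0]
    exact (Rk_A g).map_zero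
  have hsh : ε ^ 2 ≤ nq x := hSh x hx0 (by rw [hgx]; exact hl1)
  set y := T x with hy
  have hya : ‖y‖ ≤ C / a := by
    have h1 : ‖a • y‖ ≤ C := hl3
    rw [norm_smul, Real.norm_eq_abs, abs_of_pos ha0] at h1
    rw [le_div_iff₀ ha0]
    linarith
  have hyn : nq y ≤ n * (C / a) ^ 2 := Rk_nq_le hya
  have hphi : (H y u).re = t * (H x u).re := by
    have h1 : Rk_phi u y = Rk_phi u x + (t - 1) / q * (H x u).re * Rk_phi u u := by
      rw [hy, hTx, map_add, map_smul, smul_eq_mul]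
    rw [Rk_phi_self, Rk_phi_apply, Rk_phi_apply, ← hq] at h1
    rw [h1]
    field_simp
    ring
  refine ⟨x, by rw [hgx]; exact hl1, ?_, ?_⟩
  · have h1 : x = y + ((1 - t) / (q * t) * (H y u).re) • u := by
      rw [hphi, hy, hTx]
      have h2 : (1 - t) / (q * t) * (t * (H x u).re) = -((t - 1) / q * (H x u).re) := by
        field_simp
        ring
      rw [h2, neg_smul, add_neg_cancel_right]
    have h2 := Rk_nq_add y u ((1 - t) / (q * t) * (H y u).re)
    rw [← h1, ← hq] at h2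
    have h3 := Rk_cs y u
    rw [← hq] at h3
    have h4 : ((1 - t) / (q * t) * (H y u).re) ^ 2 * q ≤ ((1 - t) / t) ^ 2 * nq y := by
      have h5 : ((1 - t) / (q * t) * (H y u).re) ^ 2 * q =
          ((1 - t) / t) ^ 2 * ((H y u).re ^ 2 / q) := by
        field_simp
      rw [h5]
      apply mul_le_mul_of_nonneg_left _ (sq_nonneg _)
      rw [div_le_iff₀ hq0]
      exact h3
    have h6 : ((1 - t) / t) ^ 2 * nq y ≤ ((1 - t) / t) ^ 2 * (n * (C / a) ^ 2) :=
      mul_le_mul_of_nonneg_left hyn (sq_nonneg _)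
    linarith
  · intro h0
    have h1 : y = x := by
      rw [hy, hTx, h0, mul_zero, zero_smul, add_zero]
    rw [h1] at hyn
    linarith

end DWC
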