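import Pool.Agent.DWC.StG
import Pool.Agent.PST.StF
import Pool.Agent.GAM.GroF
import Pool.Agent.GAM.GroC
import Pool.Agent.GAM.GroU
import Pool.Agent.GAM.Sieg

/-!
# DWC [SieH]: existence of an algebraic relation, from the half planes

The argument of `PST/SieR.lean`; the maximum principle on a fundamental domain is replaced by
`St_Bnd` and `St_SieA`.
-/

set_option autoImplicit false

namespace DWC

open scoped ComplexConjugate
open GAM (H E F pd pdl PLat IsTh OddTor IsDel Gro IsLat)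
open PST

section

variable {α β μ : Type} [Fintype α] [Fintype β] [Fintype μ]
  [DecidableEq α] [DecidableEq β] [DecidableEq μ]

private theorem SieH_F {L : Submodule ℤ (Ix α β μ → ℂ)} {χ θ : (Ix α β μ → ℂ) → ℂ}
    (hL : PLat L χ) (hθ : IsTh L χ θ) (x : Ix α β μ → ℂ) : Gro (F θ x) :=
  (GAM.thm_GroF GAM.thm_GroU GAM.thm_GroC (Ix α β μ)).1 L χ θ hL hθ x

private theorem SieH_psi (h3 : St_Ell) {L : Submodule ℤ (Ix α β μ → ℂ)}
    {χ θ : (Ix α β μ → ℂ) → ℂ} (hL : PLat L χ) (hθ : IsTh L χ θ) (x : Ix α β μ → ℂ) :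
    DifferentiableOn ℂ (fun w => psi θ w x) (Om α β) :=
  (h3 α β μ (F θ x) (SieH_F hL hθ x)).1

private theorem SieH_dpsi (h3 : St_Ell) {L : Submodule ℤ (Ix α β μ → ℂ)}
    {χ θ : (Ix α β μ → ℂ) → ℂ} (hL : PLat L χ) (hθ : IsTh L χ θ) (p : Ix α β μ)
    (x : Ix α β μ → ℂ) : DifferentiableOn ℂ (fun w => dpsi p θ w x) (Om α β) :=
  (h3 α β μ (pd p (F θ x)) ((GAM.thm_GroC (Ix α β μ)).1 _ (SieH_F hL hθ x) p)).1

private theorem SieH_prod {V : Type} [NormedAddCommGroup V] [NormedSpace ℂ V] {S : Set V}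
    {γ : Type} [DecidableEq γ] (s : Finset γ) (M : γ → V → ℂ)
    (hM : ∀ i, DifferentiableOn ℂ (M i) S) :
    DifferentiableOn ℂ (fun w => ∏ i ∈ s, M i w) S := by
  induction s using Finset.induction_on with
  | empty => simp
  | insert a s ha ih =>
    simp only [Finset.prod_insert ha]
    exact (hM a).fun_mul ih

private theorem SieH_det {V : Type} [NormedAddCommGroup V] [NormedSpace ℂ V] {S : Set V}
    {γ : Type} [Fintype γ] [DecidableEq γ] (M : γ → γ → V → ℂ)
    (hM : ∀ i j, DifferentiableOn ℂ (M i j) S) :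
    DifferentiableOn ℂ (fun w => (Matrix.of fun i j => M i j w).det) S := by
  simp only [Matrix.det_apply, Matrix.of_apply]
  refine DifferentiableOn.fun_sum fun σ _ => ?_
  refine DifferentiableOn.const_smul ?_ _
  exact SieH_prod _ _ fun i => hM _ _

private theorem SieH_XF (h3 : St_Ell) {L : Submodule ℤ (Ix α β μ → ℂ)}
    {χ θ : (Ix α β μ → ℂ) → ℂ} (hL : PLat L χ) (hθ : IsTh L χ θ) (e : ℕ) (k : μ)
    (y : Option (α × β) → Ix α β μ → ℂ) (x : α → Ix α β μ → ℂ) (x' : β → Ix α β μ → ℂ)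
    (o : Option (Option (α × β))) :
    DifferentiableOn ℂ (fun w => XF e k θ y x x' w o) (Om α β) := by
  have hp := SieH_psi h3 hL hθ
  have hd := SieH_dpsi h3 hL hθ
  rcases o with _ | i
  · show DifferentiableOn ℂ (fun w => psi θ w (y none) *
      psi θ w (y none) ^ (e * Fintype.card β) * fp k θ w x ^ e) (Om α β)
    refine ((hp _).fun_mul ((hp _).fun_pow _)).fun_mul (DifferentiableOn.fun_pow ?_ _)
    exact SieH_det (fun i b w => dpsi (Sum.inl i, k) θ w (x b)) fun i b => hd _ _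
  · show DifferentiableOn ℂ (fun w => psi θ w (y i) *
      psi θ w (y none) ^ (e * Fintype.card α) * fm k θ w x' ^ e) (Om α β)
    refine ((hp _).fun_mul ((hp _).fun_pow _)).fun_mul (DifferentiableOn.fun_pow ?_ _)
    exact SieH_det (fun i b w => dpsi (Sum.inr i, k) θ w (x' b)) fun i b => hd _ _

/-- the action is surjective -/
private theorem SieH_surj (h5 : St_UGr) {g : Matrix (α ⊕ β) (α ⊕ β) ℂ} (hg : IsU g)
    (x : Ix α β μ → ℂ) : ∃ y : Ix α β μ → ℂ, act g y = x := by
  obtain ⟨-, hmul, hone, -, -, hinv, -⟩ := h5 α β μ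
  obtain ⟨-, -, hr, -, -⟩ := hinv g hg
  exact ⟨act (Jm α β * g.conjTranspose * Jm α β) x, by rw [← hmul, hr, hone]⟩

/-- the growth of a determinant -/
private theorem SieH_detB {γ : Type} [Fintype γ] [DecidableEq γ] (M : γ → γ → ℂ) {B : ℝ}
    (hM : ∀ i j, ‖M i j‖ ≤ B) :
    ‖(Matrix.of fun i j => M i j).det‖ ≤ (Fintype.card γ).factorial * B ^ Fintype.card γ := by
  rw [Matrix.det_apply]
  have h1 : ∀ σ : Equiv.Perm γ,
      ‖Equiv.Perm.sign σ • ∏ i, (Matrix.of fun i j => M i j) (σ i) i‖ ≤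
        B ^ Fintype.card γ := by
    intro σ
    have h2 : ‖Equiv.Perm.sign σ • ∏ i, (Matrix.of fun i j => M i j) (σ i) i‖ =
        ∏ i, ‖M (σ i) i‖ := by
      rcases Int.units_eq_one_or (Equiv.Perm.sign σ) with h | h
      · rw [h, one_smul, norm_prod]
        rfl
      · rw [h, Units.neg_smul, one_smul, norm_neg, norm_prod]
        rfl
    rw [h2]
    calc ∏ i, ‖M (σ i) i‖ ≤ ∏ _i : γ, B :=
          Finset.prod_le_prod (fun i _ => norm_nonneg _) fun i _ => hM _ _
      _ = B ^ Fintype.card γ := by rw [Finset.prod_const, Finset.card_univ]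
  refine (norm_sum_le _ _).trans ?_
  refine (Finset.sum_le_sum fun σ _ => h1 σ).trans ?_
  rw [Finset.sum_const, Finset.card_univ, Fintype.card_perm, nsmul_eq_mul]

/-- the growth of the functions `XF` and of the exponents -/
private theorem SieH_grow {θ : (Ix α β μ → ℂ) → ℂ} {w : α × β → ℂ} {B : ℝ} (hB : 0 ≤ B)
    (hp : ∀ x, ‖psi θ w x‖ ≤ B) (hd : ∀ x p, ‖dpsi p θ w x‖ ≤ B) (e : ℕ) (k : μ)
    (y : Option (α × β) → Ix α β μ → ℂ) (x : α → Ix α β μ → ℂ) (x' : β → Ix α β μ → ℂ)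
    {a b : ℝ} (ha : IsLUB (Set.range fun x => ‖psi θ w x‖) a)
    (hb : IsLUB (Set.range fun x => ‖fm k θ w x‖) b) (ha0 : 0 ≤ a) (hb0 : 0 ≤ b) :
    a ^ (1 + e * Fintype.card α) * b ^ e ≤
      ((Fintype.card α).factorial ^ e + (Fintype.card β).factorial ^ e : ℝ) *
        B ^ (1 + e * (Fintype.card α + Fintype.card β)) ∧
    ∀ o, ‖XF e k θ y x x' w o‖ ≤
      ((Fintype.card α).factorial ^ e + (Fintype.card β).factorial ^ e : ℝ) *
        B ^ (1 + e * (Fintype.card α + Fintype.card β)) := by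
  have hfm : ∀ t, ‖fm k θ w t‖ ≤ (Fintype.card β).factorial * B ^ Fintype.card β :=
    fun t => SieH_detB (fun j b => dpsi (Sum.inr j, k) θ w (t b)) fun i j => hd _ _
  have hfp : ∀ t, ‖fp k θ w t‖ ≤ (Fintype.card α).factorial * B ^ Fintype.card α :=
    fun t => SieH_detB (fun j b => dpsi (Sum.inl j, k) θ w (t b)) fun i j => hd _ _
  have haB : a ≤ B := ha.2 (by rintro _ ⟨t, rfl⟩; exact hp t)
  have hbB : b ≤ (Fintype.card β).factorial * B ^ Fintype.card β :=
    hb.2 (by rintro _ ⟨t, rfl⟩; exact hfm t)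
  have hA : (0 : ℝ) ≤ (Fintype.card α).factorial ^ e := by positivity
  have hB' : (0 : ℝ) ≤ (Fintype.card β).factorial ^ e := by positivity
  have hBD : 0 ≤ B ^ (1 + e * (Fintype.card α + Fintype.card β)) := pow_nonneg hB _
  have hβ0 : (0 : ℝ) ≤ (Fintype.card β).factorial * B ^ Fintype.card β := by positivity
  have hα0 : (0 : ℝ) ≤ (Fintype.card α).factorial * B ^ Fintype.card α := by positivity
  have e1 : B ^ (1 + e * Fintype.card α) *
      ((Fintype.card β).factorial * B ^ Fintype.card β) ^ e =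
      (Fintype.card β).factorial ^ e * B ^ (1 + e * (Fintype.card α + Fintype.card β)) := by
    rw [mul_pow, ← pow_mul]
    have : 1 + e * (Fintype.card α + Fintype.card β) =
        (1 + e * Fintype.card α) + Fintype.card β * e := by ring
    rw [this, pow_add B (1 + e * Fintype.card α)]
    ring
  have e2 : B * B ^ (e * Fintype.card β) *
      ((Fintype.card α).factorial * B ^ Fintype.card α) ^ e =
      (Fintype.card α).factorial ^ e * B ^ (1 + e * (Fintype.card α + Fintype.card β)) := by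
    rw [mul_pow, ← pow_mul]
    have : 1 + e * (Fintype.card α + Fintype.card β) =
        1 + e * Fintype.card β + Fintype.card α * e := by ring
    rw [this, pow_add B (1 + e * Fintype.card β), pow_add B 1, pow_one]
    ring
  refine ⟨?_, ?_⟩
  · calc a ^ (1 + e * Fintype.card α) * b ^ e
        ≤ B ^ (1 + e * Fintype.card α) *
          ((Fintype.card β).factorial * B ^ Fintype.card β) ^ e :=
          mul_le_mul (pow_le_pow_left₀ ha0 haB _) (pow_le_pow_left₀ hb0 hbB _)
            (pow_nonneg hb0 _) (pow_nonneg hB _)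
      _ ≤ _ := by
          rw [e1]
          exact mul_le_mul_of_nonneg_right (by linarith) hBD
  · intro o
    rcases o with _ | i
    · show ‖psi θ w (y none) * psi θ w (y none) ^ (e * Fintype.card β) * fp k θ w x ^ e‖ ≤ _
      rw [norm_mul, norm_mul, norm_pow, norm_pow]
      calc ‖psi θ w (y none)‖ * ‖psi θ w (y none)‖ ^ (e * Fintype.card β) * ‖fp k θ w x‖ ^ e
          ≤ B * B ^ (e * Fintype.card β) *
            ((Fintype.card α).factorial * B ^ Fintype.card α) ^ e := by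
            refine mul_le_mul ?_ (pow_le_pow_left₀ (norm_nonneg _) (hfp x) _)
              (pow_nonneg (norm_nonneg _) _) (by positivity)
            exact mul_le_mul (hp _) (pow_le_pow_left₀ (norm_nonneg _) (hp _) _)
              (pow_nonneg (norm_nonneg _) _) hB
        _ ≤ _ := by
            rw [e2]
            exact mul_le_mul_of_nonneg_right (by linarith) hBD
    · show ‖psi θ w (y i) * psi θ w (y none) ^ (e * Fintype.card α) * fm k θ w x' ^ e‖ ≤ _
      rw [norm_mul, norm_mul, norm_pow, norm_pow]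
      calc ‖psi θ w (y i)‖ * ‖psi θ w (y none)‖ ^ (e * Fintype.card α) * ‖fm k θ w x'‖ ^ e
          ≤ B ^ (1 + e * Fintype.card α) *
            ((Fintype.card β).factorial * B ^ Fintype.card β) ^ e := by
            refine mul_le_mul ?_ (pow_le_pow_left₀ (norm_nonneg _) (hfm x') _)
              (pow_nonneg (norm_nonneg _) _) (by positivity)
            rw [pow_add, pow_one]
            exact mul_le_mul (hp _) (pow_le_pow_left₀ (norm_nonneg _) (hp _) _)
              (pow_nonneg (norm_nonneg _) _) hB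
        _ ≤ _ := by
            rw [e1]
            exact mul_le_mul_of_nonneg_right (by linarith) hBD

end

/-- comparison of suprema -/
private theorem SieH_lub {X : Type} (f f' : X → ℂ) (s : X → X) (hs : Function.Surjective s)
    (a b : ℂ) (ha : a ≠ 0) (h : ∀ x, a * f' (s x) = b * f x) {M M' : ℝ}
    (hM : IsLUB (Set.range fun x => ‖f x‖) M) (hM' : IsLUB (Set.range fun x => ‖f' x‖) M')
    (hb : b ≠ 0) : ‖a‖ * M' = ‖b‖ * M := by
  have ha' : 0 < ‖a‖ := norm_pos_iff.2 ha
  have hb' : 0 < ‖b‖ := norm_pos_iff.2 hb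
  apply le_antisymm
  · rw [← le_div_iff₀' ha']
    apply hM'.2
    rintro _ ⟨t, rfl⟩
    obtain ⟨t, rfl⟩ := hs t
    show ‖f' (s t)‖ ≤ _
    rw [le_div_iff₀' ha', ← norm_mul, h, norm_mul]
    exact mul_le_mul_of_nonneg_left (hM.1 ⟨t, rfl⟩) hb'.le
  · rw [← le_div_iff₀' hb']
    apply hM.2
    rintro _ ⟨t, rfl⟩
    show ‖f t‖ ≤ _
    rw [le_div_iff₀' hb', ← norm_mul, ← h, norm_mul]
    exact mul_le_mul_of_nonneg_left (hM'.1 ⟨s t, rfl⟩) ha'.le

/-- The module SieH. -/
theorem thm_SieH (h1 : St_GamI) (h2 : St_Sup) (h3 : St_Ell) (h4 : St_OmT) (h5 : St_UGr)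
    (h6 : St_SieA) (h7 : St_Bnd) (h8 : St_Grw) : St_SieH := by
  intro α β μ _ _ _ _ _ _ L χ θ e k y x x' hL hθ hne hcoc hy hx hx'
  classical
  -- the common order
  obtain ⟨n, hn, hc⟩ := GAM.exists_common_order (L := L) (κ := (Option (α × β)) ⊕ (α ⊕ β))
    (Sum.elim y (Sum.elim x x')) (by
      rintro (o | i | j)
      · exact hy o
      · exact hx i
      · exact hx' j)
  have hn0 : n ≠ 0 := by
    rintro rfl
    simp at hn
  obtain ⟨K, C, hK, hKne, hKΩ, hcoc⟩ := hcoc (2 * n ^ 2) (by positivity)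
  obtain ⟨⟨NP, hNP, hlubP⟩, hM⟩ := h2 α β μ L χ θ hL hθ hne
  obtain ⟨NM, hNM, hlubM⟩ := hM k
  obtain ⟨hopen, hconv, -, hcomp, -, -⟩ := h4 α β
  obtain ⟨C₀, k₀, hC₀, hgr⟩ := h8 α β μ L χ θ hL hθ
  obtain ⟨N, hN⟩ : ∃ N : (α × β → ℂ) → ℝ, N = fun w =>
      (1 + e * Fintype.card α : ℕ) * NP w + (e : ℕ) * NM w := ⟨_, rfl⟩
  have hNc : ContinuousOn N (Om α β) := by
    rw [hN]
    exact (continuousOn_const.mul hNP).add (continuousOn_const.mul hNM)
  have hNe : ∀ w, Real.exp (N w) =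
      Real.exp (NP w) ^ (1 + e * Fintype.card α) * Real.exp (NM w) ^ e := by
    intro w
    rw [hN]
    show Real.exp ((1 + e * Fintype.card α : ℕ) * NP w + (e : ℕ) * NM w) = _
    rw [Real.exp_add, Real.exp_nat_mul, Real.exp_nat_mul]
  obtain ⟨A, hA⟩ : ∃ A : ℝ, A =
    ((Fintype.card α).factorial ^ e + (Fintype.card β).factorial ^ e : ℝ) := ⟨_, rfl⟩
  obtain ⟨D, hD⟩ : ∃ D : ℕ, D = 1 + e * (Fintype.card α + Fintype.card β) := ⟨_, rfl⟩
  obtain ⟨C₁, hC₁⟩ := h7 α β (Option (Option (α × β))) K C (A * C₀ ^ D) (k₀ * D) N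
    (fun i w => XF e k θ y x x' w i) hK hKΩ hNc (fun i => SieH_XF h3 hL hθ e k y x x' i) (by
      intro ρ hρ hρ1 w hw
      have hwΩ : w ∈ Om α β := (hcomp ρ hρ hρ1).2 hw
      have hq : 0 < (1 - ρ) ^ k₀ := pow_pos (by linarith) _
      have hp' : ∀ t, ‖psi θ w t‖ ≤ C₀ / (1 - ρ) ^ k₀ := fun t => by
        rw [le_div_iff₀ hq]
        exact (hgr ρ hρ hρ1 w hw t).1
      have hd' : ∀ t p, ‖dpsi p θ w t‖ ≤ C₀ / (1 - ρ) ^ k₀ := fun t p => by
        rw [le_div_iff₀ hq]
        exact (hgr ρ hρ hρ1 w hw t).2 p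
      have hG := SieH_grow (θ := θ) (w := w) (div_nonneg hC₀.le hq.le) hp' hd' e k y x x'
        (hlubP w hwΩ) (hlubM w hwΩ) (Real.exp_pos _).le (Real.exp_pos _).le
      rw [← hA, ← hD, div_pow, ← pow_mul, ← mul_div_assoc] at hG
      have hq' : 0 < (1 - ρ) ^ (k₀ * D) := pow_pos (by linarith) _
      refine ⟨?_, fun o => ?_⟩
      · rw [hNe, ← le_div_iff₀ hq']
        exact hG.1
      · rw [← le_div_iff₀ hq']
        exact hG.2 o) (by
      intro p hp
      obtain ⟨U, hU, hz⟩ := hcoc p hp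
      refine ⟨U, hU, fun w hw => ?_⟩
      obtain ⟨z, hz1, hz2, hz3, hz4, hz5⟩ := hz w hw
      refine ⟨z, hz1, hz2, hz3, hz4, fun t => ?_⟩
      obtain ⟨g, hg, hdet, hgL, hgn, hgK⟩ := hz5 t
      have hzt : z t ∈ Om α β := by
        obtain ⟨ρ, hρ, hρ1, hzρ, -⟩ := hz4 t (by simp)
        exact (hcomp ρ hρ hρ1).2 hzρ
      obtain ⟨j, mm, hj0, hm0, hj1, hj2, hj3⟩ := h1 α β μ g L χ θ n e k y x x' hL hθ hne
        (fun i => hc (Sum.inl i)) (fun i => hc (Sum.inr (Sum.inl i)))
        (fun i => hc (Sum.inr (Sum.inr i))) hn0 hg hdet hgL hgn (z t) hzt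
      have hsurj : Function.Surjective (fun t : Ix α β μ → ℂ => act g t) :=
        fun t => SieH_surj h5 hg t
      have hsurjβ : Function.Surjective
          (fun (t : β → Ix α β μ → ℂ) (b : β) => act g (t b)) := by
        intro t
        choose t' ht' using fun b => SieH_surj h5 hg (t b)
        exact ⟨t', funext ht'⟩
      refine ⟨mob g (z t), hgK,
        mm ^ e * (j ^ (1 + e * (Fintype.card α + Fintype.card β)))⁻¹, ?_, ?_⟩
      · have h7 := SieH_lub (fun s => psi θ (z t) s) (fun s => psi θ (mob g (z t)) s) _ hsurj 1 j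
          one_ne_zero (fun s => by rw [one_mul]; exact hj1 s) (hlubP (z t) hzt)
          (hlubP _ (hKΩ hgK)) hj0
        have h8 := SieH_lub (fun s => fm k θ (z t) s) (fun s => fm k θ (mob g (z t)) s) _ hsurjβ
          mm (j ^ Fintype.card β) hm0 hj2 (hlubM (z t) hzt) (hlubM _ (hKΩ hgK))
          (pow_ne_zero _ hj0)
        rw [norm_one, one_mul] at h7
        rw [norm_pow] at h8
        have hjn : 0 < ‖j‖ := norm_pos_iff.2 hj0
        have hmn : 0 < ‖mm‖ := norm_pos_iff.2 hm0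
        rw [hNe, hNe, h7]
        have h9 : Real.exp (NM (mob g (z t))) =
            ‖j‖ ^ Fintype.card β * Real.exp (NM (z t)) / ‖mm‖ := by
          rw [eq_div_iff hmn.ne', mul_comm, h8]
        rw [h9, norm_mul, norm_inv, norm_pow, norm_pow, mul_pow, div_pow, mul_pow, ← pow_mul]
        have e1 : 1 + e * (Fintype.card α + Fintype.card β) =
            (1 + e * Fintype.card α) + Fintype.card β * e := by ring
        rw [e1, pow_add ‖j‖]
        field_simp
      · intro i
        have h7 := hj3 i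
        have hj' : j ^ (1 + e * (Fintype.card α + Fintype.card β)) ≠ 0 := pow_ne_zero _ hj0
        show XF e k θ y x x' (z t) i = _ * XF e k θ y x x' (mob g (z t)) i
        rw [mul_right_comm, h7]
        field_simp)
  exact h6 (α × β) (Option (Option (α × β))) (by simp) (Om α β) K C₁
    (fun i w => XF e k θ y x x' w i) hopen hconv hK hKne hKΩ
    (fun i => SieH_XF h3 hL hθ e k y x x' i) hC₁

end DWC
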