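import Pool.Agent.DWC.StK
import Pool.Agent.GAM.ThEx
import Pool.Agent.PST.Det

/-!
# DWC [TorK]: the torus part (assembly)
-/

set_option autoImplicit false

namespace DWC

open scoped ComplexConjugate
open GAM (H E F pd pdl PLat IsTh OddTor IsDel Gro IsLat Pre QD qd jac HasExp CMF CMT IsExp IsCM)
open Pool.Agent.GPC (AbVar hermForm bilForm)
open Module
open PST

theorem TorK_trace (h1 : St_CoreH) (h2 : St_CocK) (h3 : St_LatK) (h4 : St_ExpK)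
    (h6 : St_HatK) (h7 : St_TrK) (h9 : St_MapE) (h10 : St_UGr)
    (X : AbVar) (d : ℚ) (J : Module.End ℂ X.H1) (hJ : IsKs X d J)
    (α β : Type) [Fintype α] [Fintype β] [DecidableEq α] [DecidableEq β]
    (T : Matrix (Ix α β Unit) (Fin X.g) ℂ) (S : Matrix (Fin X.g) (Ix α β Unit) ℂ)
    (Tp : Matrix α α ℂ) (Tm : Matrix β β ℂ) (Ta : Matrix (Ix α β Unit) (Fin X.g) ℂ)
    (g : Matrix (α ⊕ β) (α ⊕ β) ℂ) (r : α ⊕ β → ℝ) (q : α ⊕ β → ℚ)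
    (hne : Nonempty (α ⊕ β)) (hN : NFK X d J α β T S Tp Tm Ta g r q) :
    ∃ A : Derivation ℚ ℂ ℂ → ℂ,
    (∃ δ : Derivation ℚ ℂ ℂ, A δ - δ Real.pi / (2 * Real.pi) ≠ 0) ∧
    ∀ δ : Derivation ℚ ℂ ℂ,
      LinearMap.trace ℂ X.H1 ((Pool.Agent.Helper7.pData X).N δ * J) =
        2 * zd d * (((Fintype.card α : ℂ) - Fintype.card β) *
          (A δ - δ Real.pi / (2 * Real.pi))) := by
  obtain ⟨L₁, χ₁, N, hP₁, hL₁, hN0, hK₁⟩ := h3 α β d r q hN.isR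
  obtain ⟨-, u2, u3, -, -, u6, -⟩ := h10 α β Unit
  obtain ⟨hiU, hig, hgi, -, -⟩ := u6 g hN.uni
  obtain ⟨gi, hgie⟩ : ∃ gi, gi = Jm α β * g.conjTranspose * Jm α β := ⟨_, rfl⟩
  rw [← hgie] at hiU hig hgi
  have e1 : ∀ x : Ix α β Unit → ℂ, act gi (act g x) = x := fun x => by rw [← u2, hig, u3]
  have e2 : ∀ x : Ix α β Unit → ℂ, act g (act gi x) = x := fun x => by rw [← u2, hgi, u3]
  obtain ⟨L₀, χ₀, hP₀, hM'⟩ := h9 α β Unit gi L₁ χ₁ hiU hP₁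
  have hM : Maps g L₁ L₀ χ₁ χ₀ := by
    refine ⟨hN.uni, fun x => ?_, fun l hl => ?_⟩
    · rw [hM'.lat (act g x), e1]
    · have h11 : act g l ∈ L₀ := by rw [hM'.lat, e1]; exact hl
      have h12 := hM'.chi (act g l) h11
      rw [e1] at h12
      exact h12.symm
  have hK₀ : KL d N L₀ := by
    intro l hl
    rw [hM'.lat] at hl ⊢
    have h11 : act gi (act (kap α β d N) l) = act (kap α β d N) (act gi l) := by
      rw [← u2, ← u2, kap, Matrix.mul_smul, Matrix.smul_mul, Matrix.mul_one, Matrix.one_mul]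
    rw [h11]
    exact hK₁ _ hl
  obtain ⟨θ₀, hT₀, hz₀⟩ := GAM.thm_ThEx (Ix α β Unit) L₀ χ₀ hP₀
  obtain ⟨θ₁, hT₁, hz₁⟩ := GAM.thm_ThEx (Ix α β Unit) L₁ χ₁ hP₁
  have hC : CocH 12 L₀ := h2 α β d N L₀ χ₀ hJ.pos hN0 hP₀ hK₀
  obtain ⟨A, hA1, hA2⟩ := h4 α β d r q L₁ χ₁ θ₁ hN.isR hne hP₁ hL₁ hT₁ hz₁
  refine ⟨A, hA1, fun δ => ?_⟩
  obtain ⟨k₀, c₀, hh₀⟩ := h6 X d J α β T S Tp Tm Ta g r q L₀ χ₀ θ₀ δ hJ hN hP₀ hT₀ hz₀ (by
    intro l hl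
    rw [hM'.lat] at hl
    obtain ⟨a, b, hab⟩ := (hL₁ _).1 hl
    refine ⟨fun s => a s, fun s => (b s : ℚ) / q s, ?_⟩
    rw [← e2 l, hab]
    congr 2
    funext p
    push_cast
    rfl)
  obtain ⟨k₁, hh₁⟩ := hA2 δ
  have hdet : δ g.det = 0 := by
    rw [hN.det]
    exact Derivation.map_one_eq_zero δ
  have key := h1 α β Unit δ g L₀ L₁ χ₀ θ₀ χ₁ θ₁ 12 k₀ k₁ _ _ _ _ c₀ 0 ⟨()⟩ (by norm_num) hP₀ hP₁
    hT₀ hT₁ hz₀ hz₁ hM hdet hC hh₀ hh₁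
  rw [Matrix.trace_smul, Matrix.trace_smul, Matrix.trace_one, Matrix.trace_one, smul_eq_mul,
    smul_eq_mul] at key
  rw [h7 X d J α β T S Tp Tm Ta g r q δ hJ hN, key]
  have hpi : (Real.pi : ℂ) ≠ 0 := by exact_mod_cast Real.pi_ne_zero
  have e3 : δ Real.pi / (2 * Real.pi) = 1 / 2 * (δ Real.pi / Real.pi) := by
    field_simp
  rw [e3]
  ring

theorem thm_TorK (h1 : St_CoreH) (h2 : St_CocK) (h3 : St_LatK) (h4 : St_ExpK) (h5 : St_NFK)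
    (h6 : St_HatK) (h7 : St_TrK) (h8 : St_BalK) (h9 : St_MapE) (h10 : St_UGr) : St_TorK := by
  intro X d J hX hJ
  obtain ⟨α, β, _, _, _, _, T, S, Tp, Tm, Ta, g, r, q, hN⟩ := h5 X d J hJ
  have hne : Nonempty (α ⊕ β) := by
    by_contra hne
    rw [not_nonempty_iff] at hne
    have e1 : S * T = 0 := by
      ext i j
      rw [Matrix.mul_apply]
      exact Finset.sum_eq_zero fun p _ => (hne.false p.1).elim
    have e2 := hN.st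
    rw [e1] at e2
    have e3 := congrFun (congrFun e2 ⟨0, by omega⟩) ⟨0, by omega⟩
    simp at e3
  obtain ⟨A, ⟨δ₀, hδ₀⟩, hA⟩ := TorK_trace h1 h2 h3 h4 h6 h7 h9 h10 X d J hJ α β T S Tp Tm Ta g r q
    hne hN
  have hB := h8 X d J α β T S Tp Tm Ta g r q hX hJ hN
  constructor
  · intro hb δ
    rw [hA δ, hB.1 hb, sub_self, zero_mul, mul_zero]
  · intro hb
    refine ⟨δ₀, ?_⟩
    rw [hA δ₀]
    have hc : (Fintype.card α : ℂ) - Fintype.card β ≠ 0 := by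
      intro h
      apply hb
      apply hB.2
      exact_mod_cast sub_eq_zero.1 h
    exact mul_ne_zero (mul_ne_zero two_ne_zero (zd_ne_zero hJ.pos)) (mul_ne_zero hc hδ₀)

end DWC
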