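import Pool.Agent.DWC.StK
import Pool.Agent.PST.AnR

/-!
# DWC: the trace of the comparison operator
-/

set_option autoImplicit false
set_option linter.unusedSectionVars false

namespace DWC

open scoped ComplexConjugate
open GAM (H E F pd pdl PLat IsTh OddTor IsDel Gro IsLat Pre QD qd jac HasExp CMF CMT IsExp IsCM)
open Pool.Agent.GPC (AbVar hermForm bilForm)
open Module
open PST
open Pool.Agent.Helper7 (PData pData isAlg_sum periodHom period_add isBetti_iff mem_pData_Q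
  derivation_eq_zero nabla_eq_zero opN_apply)
open Pool.Agent.Helper71.AF (VR zz_period period_VR VR_period VR_map)

/-! ## Derivations and determinants -/

section det

variable {ν : Type} [Fintype ν] [DecidableEq ν] (δ : Derivation ℚ ℂ ℂ)

private theorem TrK_prod (s : Finset ν) (g : ν → ℂ) :
    δ (∏ i ∈ s, g i) = ∑ b ∈ s, ∏ i ∈ s, if i = b then δ (g i) else g i := by
  induction s using Finset.induction_on with
  | empty => simp
  | insert a s ha ih =>
    rw [Finset.prod_insert ha, Derivation.leibniz, ih, Finset.sum_insert ha,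
      Finset.prod_insert ha, if_pos rfl, smul_eq_mul, smul_eq_mul, add_comm, Finset.mul_sum,
      mul_comm (δ (g a))]
    congr 1
    · congr 1
      refine Finset.prod_congr rfl fun i hi => ?_
      rw [if_neg]
      rintro rfl
      exact ha hi
    · refine Finset.sum_congr rfl fun b hb => ?_
      rw [Finset.prod_insert ha, if_neg]
      rintro rfl
      exact ha hb

private theorem TrK_adj (M V : Matrix ν ν ℂ) :
    ∑ σ : Equiv.Perm ν, ((Equiv.Perm.sign σ : ℤ) : ℂ) *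
      ∑ b, ∏ i, (if i = b then V (σ i) i else M (σ i) i) = (M.adjugate * V).trace := by
  have h1 : ∀ b, (M.adjugate * V) b b = ∑ σ : Equiv.Perm ν, ((Equiv.Perm.sign σ : ℤ) : ℂ) *
      ∏ i, (if i = b then V (σ i) i else M (σ i) i) := by
    intro b
    have h2 : (M.adjugate * V) b b = (M.adjugate.mulVec fun i => V i b) b := rfl
    rw [h2, ← Matrix.cramer_eq_adjugate_mulVec, Matrix.cramer_apply, Matrix.det_apply']
    refine Finset.sum_congr rfl fun σ _ => ?_
    congr 1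
    refine Finset.prod_congr rfl fun i _ => ?_
    rw [Matrix.updateCol_apply]
    split_ifs with h
    · rw [h]
    · rfl
  unfold Matrix.trace
  simp only [Matrix.diag_apply]
  rw [Finset.sum_congr rfl fun b _ => h1 b, Finset.sum_comm]
  refine Finset.sum_congr rfl fun σ _ => ?_
  rw [Finset.mul_sum]

private theorem TrK_det (M : Matrix ν ν ℂ) : δ M.det = (M.adjugate * M.map δ).trace := by
  rw [← TrK_adj, Matrix.det_apply', map_sum]
  refine Finset.sum_congr rfl fun σ _ => ?_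
  rw [Derivation.leibniz, TrK_prod, derivation_eq_zero δ _ (isAlgebraic_intCast _), smul_zero,
    add_zero, smul_eq_mul]
  rfl

private theorem TrK_tr (M : Matrix ν ν ℂ) (h : IsAlgebraic ℚ M.det) :
    (M.map δ * M⁻¹).trace = 0 := by
  rw [Matrix.inv_def, Matrix.mul_smul, Matrix.trace_smul, Matrix.trace_mul_comm, ← TrK_det,
    derivation_eq_zero δ _ h, smul_zero]

private theorem TrK_conj (x : ℂ) (h : IsAlgebraic ℚ x) : IsAlgebraic ℚ (conj x) :=
  h.algHom (Complex.conjAe.toAlgHom.restrictScalars ℚ)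

private theorem TrK_prodalg (f : ν → ℂ) (h : ∀ s, IsAlgebraic ℚ (f s)) :
    IsAlgebraic ℚ (∏ s, f s) := by
  classical
  have h1 : ∀ t : Finset ν, IsAlgebraic ℚ (∏ s ∈ t, f s) := by
    intro t
    induction t using Finset.induction_on with
    | empty => simpa using isAlgebraic_one
    | insert a s ha ih =>
      rw [Finset.prod_insert ha]
      exact (h a).mul ih
  exact h1 _

private theorem TrK_kalg {d : ℚ} (hd : 0 ≤ d) (a b : ℚ) :
    IsAlgebraic ℚ ((a : ℂ) + (b : ℂ) * zd d) := by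
  have h1 : IsAlgebraic ℚ (zd d) := by
    apply IsAlgebraic.of_pow (n := 2) (by norm_num)
    have h2 : zd d ^ 2 = ((-d : ℚ) : ℂ) := by
      have h3 : (Real.sqrt (d : ℝ)) ^ 2 = (d : ℝ) := Real.sq_sqrt (by exact_mod_cast hd)
      have h4 : ((Real.sqrt (d : ℝ) : ℝ) : ℂ) ^ 2 = (d : ℂ) := by exact_mod_cast h3
      rw [zd, mul_pow, Complex.I_sq, h4]
      push_cast
      ring
    rw [h2]
    exact isAlgebraic_ratCast ℚ _
  exact (isAlgebraic_ratCast ℚ a).add ((isAlgebraic_ratCast ℚ b).mul h1)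

end det

/-! ## Leibniz rules for matrices -/

section mat

variable {l m n : Type} [Fintype l] [Fintype m] [Fintype n] (δ : Derivation ℚ ℂ ℂ)

private theorem TrK_mul (M : Matrix l m ℂ) (N : Matrix m n ℂ) :
    (M * N).map δ = M.map δ * N + M * N.map δ := by
  ext i j
  simp only [Matrix.map_apply, Matrix.mul_apply, Matrix.add_apply, map_sum,
    ← Finset.sum_add_distrib]
  refine Finset.sum_congr rfl fun k _ => ?_
  rw [Derivation.leibniz, smul_eq_mul, smul_eq_mul]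
  ring

private theorem TrK_mulVec (M : Matrix l m ℂ) (v : m → ℂ) :
    (fun i => δ (M.mulVec v i)) = (M.map δ).mulVec v + M.mulVec fun i => δ (v i) := by
  funext i
  simp only [Matrix.mulVec, dotProduct, Matrix.map_apply, Pi.add_apply, map_sum,
    ← Finset.sum_add_distrib]
  refine Finset.sum_congr rfl fun k _ => ?_
  rw [Derivation.leibniz, smul_eq_mul, smul_eq_mul]
  ring

private theorem TrK_trB (A : Matrix l l ℂ) (B : Matrix l m ℂ) (C : Matrix m l ℂ)
    (D : Matrix m m ℂ) : (Matrix.fromBlocks A B C D).trace = A.trace + D.trace := by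
  simp only [Matrix.trace, Matrix.diag_apply, Fintype.sum_sum_type]
  rfl

private theorem TrK_alg (M : Matrix l m ℂ) (h : ∀ i j, IsAlgebraic ℚ (M i j)) : M.map δ = 0 := by
  ext i j
  exact derivation_eq_zero δ _ (h i j)

end mat

/-! ## Coordinates -/

section coord

variable {α β : Type} [Fintype α] [Fintype β] [DecidableEq α] [DecidableEq β]

/-- exchange of the coordinates of the second kind -/
private def TrK_pi : Ix α β Unit ⊕ Ix α β Unit → Ix α β Unit ⊕ Ix α β Unit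
  | Sum.inl (Sum.inl i, k) => Sum.inl (Sum.inl i, k)
  | Sum.inl (Sum.inr j, k) => Sum.inr (Sum.inr j, k)
  | Sum.inr (Sum.inl i, k) => Sum.inr (Sum.inl i, k)
  | Sum.inr (Sum.inr j, k) => Sum.inl (Sum.inr j, k)

private theorem TrK_pi2 (s : Ix α β Unit ⊕ Ix α β Unit) : TrK_pi (TrK_pi s) = s := by
  rcases s with ⟨i | j, k⟩ | ⟨i | j, k⟩ <;> rfl

/-- the same as a permutation -/
private def TrK_e : (Ix α β Unit ⊕ Ix α β Unit) ≃ (Ix α β Unit ⊕ Ix α β Unit) :=
  ⟨TrK_pi, TrK_pi, TrK_pi2, TrK_pi2⟩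

/-- left multiplication -/
private def TrK_lm (A : Matrix (α ⊕ β) (α ⊕ β) ℂ) :
    Matrix (Ix α β Unit) (Ix α β Unit) ℂ :=
  Matrix.of fun p q => if p.2 = q.2 then A p.1 q.1 else 0

private theorem TrK_lm_mulVec (A : Matrix (α ⊕ β) (α ⊕ β) ℂ) (y : α ⊕ β → ℂ) :
    (TrK_lm A).mulVec (fun p : Ix α β Unit => y p.1) = fun p => A.mulVec y p.1 := by
  funext p
  simp [Matrix.mulVec, dotProduct, TrK_lm, Matrix.of_apply, Fintype.sum_prod_type]

/-- the signs of the coordinates -/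
private noncomputable def TrK_sg (d : ℚ) (p : Ix α β Unit) : ℂ :=
  Sum.elim (fun _ => zd d) (fun _ => -zd d) p.1

/-- the same as a matrix -/
private noncomputable def TrK_Ds (d : ℚ) : Matrix (Ix α β Unit) (Ix α β Unit) ℂ :=
  Matrix.diagonal (TrK_sg d)

private theorem TrK_conj_zd (d : ℚ) : conj (zd d) = -zd d := by
  unfold zd
  rw [map_mul, Complex.conj_ofReal, Complex.conj_I]
  ring

private theorem TrK_rgt (d : ℚ) (x : Ix α β Unit → ℂ) (p : Ix α β Unit) :
    (rgt α β (zd d • (1 : Matrix Unit Unit ℂ))).mulVec x p = TrK_sg d p * x p := by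
  simp only [Matrix.mulVec, dotProduct, rgt, Matrix.of_apply]
  rw [Finset.sum_eq_single p]
  · obtain ⟨i | j, k⟩ := p
    · simp [TrK_sg]
    · simp [TrK_sg, TrK_conj_zd]
  · intro q _ hq
    have h1 : p.1 ≠ q.1 := fun h1 => hq (Prod.ext h1.symm (Subsingleton.elim _ _))
    rw [if_neg h1, zero_mul]
  · intro h
    exact absurd (Finset.mem_univ _) h

private theorem TrK_blk_mul (P P' : Matrix α α ℂ) (Q Q' : Matrix β β ℂ) :
    blk Unit P Q * blk Unit P' Q' = blk Unit (P * P') (Q * Q') := by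
  ext p q
  have h1 : Matrix.fromBlocks (P * P') 0 0 (Q * Q') =
      Matrix.fromBlocks P 0 0 Q * Matrix.fromBlocks P' 0 0 Q' := by
    rw [Matrix.fromBlocks_multiply]
    simp
  have h2 : blk Unit (P * P') (Q * Q') p q =
      (Matrix.fromBlocks (P * P') 0 0 (Q * Q') : Matrix (α ⊕ β) (α ⊕ β) ℂ) p.1 q.1 := by
    simp [blk]
  rw [h2, h1, Matrix.mul_apply, Matrix.mul_apply, Fintype.sum_prod_type]
  refine Finset.sum_congr rfl fun s _ => ?_
  simp [blk]

private theorem TrK_blk_one :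
    blk Unit (1 : Matrix α α ℂ) (1 : Matrix β β ℂ) = 1 := by
  ext p q
  have h2 : blk Unit (1 : Matrix α α ℂ) (1 : Matrix β β ℂ) p q =
      (Matrix.fromBlocks 1 0 0 1 : Matrix (α ⊕ β) (α ⊕ β) ℂ) p.1 q.1 := by
    simp [blk]
  rw [h2, Matrix.fromBlocks_one, Matrix.one_apply, Matrix.one_apply]
  by_cases h : p = q
  · rw [if_pos h, if_pos (by rw [h])]
  · rw [if_neg h, if_neg fun h1 => h (Prod.ext h1 (Subsingleton.elim _ _))]

private theorem TrK_blk_map (δ : Derivation ℚ ℂ ℂ) (P : Matrix α α ℂ) (Q : Matrix β β ℂ) :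
    (blk Unit P Q).map δ = blk Unit (P.map δ) (Q.map δ) := by
  ext p q
  obtain ⟨i | i, k⟩ := p <;> obtain ⟨j | j, l⟩ := q <;> by_cases h : k = l <;>
    simp [blk, h]

private theorem TrK_blk_tr (d : ℚ) (P : Matrix α α ℂ) (Q : Matrix β β ℂ) :
    (blk Unit P Q * TrK_Ds d).trace = zd d * (P.trace - Q.trace) := by
  have h1 : ∀ p : Ix α β Unit, (blk Unit P Q * TrK_Ds d :
      Matrix (Ix α β Unit) (Ix α β Unit) ℂ) p p =
      Matrix.fromBlocks P 0 0 Q p.1 p.1 * TrK_sg d p := by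
    intro p
    rw [TrK_Ds, Matrix.mul_diagonal]
    simp [blk]
  rw [Matrix.trace]
  simp only [Matrix.diag_apply, h1, Fintype.sum_prod_type]
  have h2 : ∀ s : α ⊕ β, ∑ k : Unit, Matrix.fromBlocks P 0 0 Q s s *
      TrK_sg d ((s, k) : Ix α β Unit) =
        Matrix.fromBlocks P 0 0 Q s s * Sum.elim (fun _ => zd d) (fun _ => -zd d) s := by
    intro s
    simp only [TrK_sg, Finset.univ_unique, Finset.sum_singleton]
  simp only [h2]
  rw [Fintype.sum_sum_type]
  simp only [Matrix.fromBlocks_apply₁₁, Matrix.fromBlocks_apply₂₂, Sum.elim_inl, Sum.elim_inr]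
  rw [← Finset.sum_mul, ← Finset.sum_mul]
  simp only [Matrix.trace, Matrix.diag_apply]
  ring

private theorem TrK_sg_tr (d : ℚ) :
    (TrK_Ds d : Matrix (Ix α β Unit) (Ix α β Unit) ℂ).trace =
      zd d * ((Fintype.card α : ℂ) - Fintype.card β) := by
  have h := TrK_blk_tr d (1 : Matrix α α ℂ) (1 : Matrix β β ℂ)
  rwa [TrK_blk_one, Matrix.one_mul, Matrix.trace_one, Matrix.trace_one] at h

/-- the derivation of the lattice vectors -/
private noncomputable def TrK_N (δ : Derivation ℚ ℂ ℂ) (X₀ : Matrix (α ⊕ β) (α ⊕ β) ℂ) :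
    Matrix (Ix α β Unit ⊕ Ix α β Unit) (Ix α β Unit ⊕ Ix α β Unit) ℂ :=
  (Matrix.fromBlocks (TrK_lm (X₀.map δ * X₀⁻¹)) 0 0
    (TrK_lm ((X₀.map conj).map δ * (X₀.map conj)⁻¹))).submatrix TrK_e TrK_e

/-- the diagonal matrix of `J` -/
private noncomputable def TrK_J (d : ℚ) : Ix α β Unit ⊕ Ix α β Unit → ℂ :=
  Sum.elim (TrK_sg d) fun p => -TrK_sg d p

/-- the same as a matrix -/
private noncomputable def TrK_D (d : ℚ) :
    Matrix (Ix α β Unit ⊕ Ix α β Unit) (Ix α β Unit ⊕ Ix α β Unit) ℂ :=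
  Matrix.diagonal (TrK_J d)

private theorem TrK_N_tr (δ : Derivation ℚ ℂ ℂ) (d : ℚ) (X₀ : Matrix (α ⊕ β) (α ⊕ β) ℂ)
    (h : IsAlgebraic ℚ X₀.det) : (TrK_N δ X₀ * TrK_D d).trace = 0 := by
  have hA := TrK_tr δ X₀ h
  have hB : ((X₀.map conj).map δ * (X₀.map conj)⁻¹).trace = 0 := by
    apply TrK_tr
    have h1 : (X₀.map conj).det = conj X₀.det := (RingHom.map_det _ _).symm
    rw [h1]
    exact TrK_conj _ h
  obtain ⟨g, hg⟩ : ∃ g : Ix α β Unit ⊕ Ix α β Unit → ℂ, g =
      fun t => (Matrix.fromBlocks (TrK_lm (X₀.map δ * X₀⁻¹)) 0 0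
        (TrK_lm ((X₀.map conj).map δ * (X₀.map conj)⁻¹)) :
        Matrix (Ix α β Unit ⊕ Ix α β Unit) (Ix α β Unit ⊕ Ix α β Unit) ℂ) t t *
        (Sum.elim (fun _ => zd d) (fun _ => -zd d) t : ℂ) := ⟨_, rfl⟩
  have h1 : ∀ s, (TrK_N δ X₀ * TrK_D d :
      Matrix (Ix α β Unit ⊕ Ix α β Unit) (Ix α β Unit ⊕ Ix α β Unit) ℂ) s s =
      g (TrK_e s) := by
    intro s
    rw [TrK_D, Matrix.mul_diagonal, hg]
    show _ * TrK_J d s = _ * _
    congr 1
    rcases s with ⟨i | j, k⟩ | ⟨i | j, k⟩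
    · rfl
    · rfl
    · rfl
    · exact neg_neg _
  have h3 : (TrK_N δ X₀ * TrK_D d).trace = ∑ t, g t :=
    (Finset.sum_congr rfl fun s _ => h1 s).trans (Equiv.sum_comp TrK_e g)
  rw [h3, Fintype.sum_sum_type, hg]
  simp only [Matrix.fromBlocks_apply₁₁, Matrix.fromBlocks_apply₂₂, Sum.elim_inl, Sum.elim_inr,
    Fintype.sum_prod_type]
  have h2 : ∀ Y : Matrix (α ⊕ β) (α ⊕ β) ℂ, Y.trace = 0 →
      ∑ s : α ⊕ β, ∑ k : Unit, TrK_lm Y (s, k) (s, k) = 0 := by
    intro Y hY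
    have h3 : ∀ (s : α ⊕ β) (k : Unit), TrK_lm Y (s, k) (s, k) = Y s s := by
      intro s k
      simp [TrK_lm]
    simp only [h3]
    rw [Finset.sum_comm]
    refine Finset.sum_eq_zero fun k _ => hY
  simp only [← Finset.sum_mul]
  rw [h2 _ hA, h2 _ hB, zero_mul, zero_mul, add_zero]

/-- the vector of the coordinates and their conjugates -/
private def TrK_v (x : Ix α β Unit → ℂ) : Ix α β Unit ⊕ Ix α β Unit → ℂ :=
  Sum.elim x fun p => conj (x p)

private theorem TrK_del (δ : Derivation ℚ ℂ ℂ) (X₀ : Matrix (α ⊕ β) (α ⊕ β) ℂ)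
    (κ : α ⊕ β → ℂ) (h0 : X₀.det ≠ 0) (hr : ∀ i, IsAlgebraic ℚ (κ i)) :
    (fun s => δ (TrK_v (sw fun p : Ix α β Unit => X₀.mulVec κ p.1) s)) =
      (TrK_N δ X₀).mulVec (TrK_v (sw fun p : Ix α β Unit => X₀.mulVec κ p.1)) := by
  have hY : ∀ (Y : Matrix (α ⊕ β) (α ⊕ β) ℂ) (y : α ⊕ β → ℂ), Y.det ≠ 0 →
      (∀ i, IsAlgebraic ℚ (y i)) →
      (Y.map δ * Y⁻¹).mulVec (Y.mulVec y) = fun i => δ (Y.mulVec y i) := by
    intro Y y h1 h2
    have h3 : (fun i => δ (y i)) = 0 := by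
      funext i
      exact derivation_eq_zero δ _ (h2 i)
    rw [TrK_mulVec, h3, Matrix.mulVec_zero, add_zero, Matrix.mulVec_mulVec, Matrix.mul_assoc,
      Matrix.nonsing_inv_mul Y (IsUnit.mk0 _ h1), Matrix.mul_one]
  have h1 : TrK_v (sw fun p : Ix α β Unit => X₀.mulVec κ p.1) ∘ TrK_e.symm =
      Sum.elim (fun p : Ix α β Unit => X₀.mulVec κ p.1)
        (fun p => (X₀.map conj).mulVec (fun i => conj (κ i)) p.1) := by
    have hc : ∀ i, (X₀.map conj).mulVec (fun i => conj (κ i)) i = conj (X₀.mulVec κ i) := by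
      intro i
      simp only [Matrix.mulVec, dotProduct, Matrix.map_apply, map_sum, map_mul]
    funext s
    rcases s with ⟨i | j, k⟩ | ⟨i | j, k⟩
    · rfl
    · show conj (conj (X₀.mulVec κ (Sum.inr j))) = _
      rw [Complex.conj_conj]
      rfl
    · show conj (X₀.mulVec κ (Sum.inl i)) = _
      rw [Sum.elim_inr, hc]
    · show conj (X₀.mulVec κ (Sum.inr j)) = _
      rw [Sum.elim_inr, hc]
  have h0' : (X₀.map conj).det ≠ 0 := by
    have h2 : (X₀.map conj).det = conj X₀.det := (RingHom.map_det _ _).symm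
    rw [h2]
    exact fun h3 => h0 ((map_eq_zero _).mp h3)
  rw [TrK_N, Matrix.submatrix_mulVec_equiv, h1, Matrix.fromBlocks_mulVec]
  simp only [Sum.elim_comp_inl, Sum.elim_comp_inr, Matrix.zero_mulVec, add_zero, zero_add]
  rw [TrK_lm_mulVec, TrK_lm_mulVec, hY X₀ κ h0 hr,
    hY (X₀.map conj) (fun i => conj (κ i)) h0' fun i => TrK_conj _ (hr i)]
  funext s
  have h2 := congrFun h1 (TrK_e s)
  rw [Function.comp_apply, Equiv.symm_apply_apply] at h2
  rw [h2, Function.comp_apply]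
  rcases TrK_e s with t | t
  · rfl
  · rfl

end coord

/-! ## The comparison operator on periods -/

section per

variable (X : AbVar)

private theorem TrK_per (δ : Derivation ℚ ℂ ℂ) (u : X.H1) (hu : X.IsBetti u) :
    (pData X).N δ u = fun j => δ (u j) := by
  have h1 : (pData X).N δ u = Pool.Agent.Helper7.nabla (Pi.basisFun ℂ (Fin X.g ⊕ Fin X.g)) δ u -
      Pool.Agent.Helper7.nabla (pData X).bB δ u := rfl
  rw [h1, nabla_eq_zero (pData X).bB δ u (fun k => by
    obtain ⟨q, hq⟩ := (pData X).repr_rat u ((mem_pData_Q X u).mpr hu) k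
    rw [hq]
    exact isAlgebraic_ratCast ℚ q), sub_zero]
  funext j
  have h2 := Pool.Agent.Helper7.repr_nabla (Pi.basisFun ℂ (Fin X.g ⊕ Fin X.g)) δ u j
  rwa [Pi.basisFun_repr, Pi.basisFun_repr] at h2

variable {α β : Type} [Fintype α] [Fintype β] [DecidableEq α] [DecidableEq β]
  (T : Matrix (Ix α β Unit) (Fin X.g) ℂ) (S : Matrix (Fin X.g) (Ix α β Unit) ℂ)

/-- the period matrix in the coordinates -/
private noncomputable def TrK_Phi :
    Matrix (Fin X.g ⊕ Fin X.g) (Ix α β Unit ⊕ Ix α β Unit) ℂ :=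
  Matrix.fromBlocks S 0 (X.q * S) ((Real.pi : ℂ) • T.transpose)

/-- its inverse -/
private noncomputable def TrK_Psi :
    Matrix (Ix α β Unit ⊕ Ix α β Unit) (Fin X.g ⊕ Fin X.g) ℂ :=
  Matrix.fromBlocks T 0 (-((Real.pi : ℂ)⁻¹ • (S.transpose * X.q)))
    ((Real.pi : ℂ)⁻¹ • S.transpose)

private theorem TrK_pi0 : (Real.pi : ℂ) ≠ 0 := by exact_mod_cast Real.pi_ne_zero

private theorem TrK_PsiPhi (hts : T * S = 1) : TrK_Psi X T S * TrK_Phi X T S = 1 := by
  rw [TrK_Psi, TrK_Phi, Matrix.fromBlocks_multiply, ← Matrix.fromBlocks_one]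
  have h1 : S.transpose * T.transpose = 1 := by
    rw [← Matrix.transpose_mul, hts, Matrix.transpose_one]
  congr 1
  · rw [hts, Matrix.zero_mul, add_zero]
  · rw [Matrix.mul_zero, Matrix.zero_mul, add_zero]
  · rw [Matrix.neg_mul, Matrix.smul_mul, Matrix.smul_mul, Matrix.mul_assoc, neg_add_cancel]
  · rw [Matrix.mul_zero, zero_add, Matrix.smul_mul, Matrix.mul_smul, smul_smul,
      inv_mul_cancel₀ TrK_pi0, one_smul, h1]

private theorem TrK_PhiPsi (hst : S * T = 1) : TrK_Phi X T S * TrK_Psi X T S = 1 := by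
  rw [TrK_Psi, TrK_Phi, Matrix.fromBlocks_multiply, ← Matrix.fromBlocks_one]
  have h1 : T.transpose * S.transpose = 1 := by
    rw [← Matrix.transpose_mul, hst, Matrix.transpose_one]
  congr 1
  · rw [hst, Matrix.zero_mul, add_zero]
  · rw [Matrix.mul_zero, Matrix.zero_mul, add_zero]
  · rw [Matrix.mul_assoc, hst, Matrix.mul_one, Matrix.mul_neg, Matrix.smul_mul, Matrix.mul_smul,
      smul_smul, mul_inv_cancel₀ TrK_pi0, one_smul, ← Matrix.mul_assoc, h1, Matrix.one_mul,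
      add_neg_cancel]
  · rw [Matrix.mul_zero, zero_add, Matrix.smul_mul, Matrix.mul_smul, smul_smul,
      mul_inv_cancel₀ TrK_pi0, one_smul, h1]

private theorem TrK_period (hst : S * T = 1)
    (hherm : ∀ z w, hermForm X.H z w = H (T.mulVec z) (T.mulVec w)) (z : Fin X.g → ℂ) :
    X.period z = (TrK_Phi X T S).mulVec (TrK_v (T.mulVec z)) := by
  rw [TrK_Phi, Matrix.fromBlocks_mulVec]
  have e1 : TrK_v (T.mulVec z) ∘ Sum.inl = T.mulVec z := rfl
  have e2 : TrK_v (T.mulVec z) ∘ Sum.inr = fun p => conj (T.mulVec z p) := rfl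
  rw [e1, e2, Matrix.zero_mulVec, add_zero, Matrix.mulVec_mulVec, Matrix.mulVec_mulVec, hst,
    Matrix.one_mulVec, Matrix.mul_assoc, hst, Matrix.mul_one]
  funext j
  rcases j with a | a
  · rfl
  · show X.eta z a = (X.q.mulVec z + ((Real.pi : ℂ) • T.transpose).mulVec _) a
    rw [AbVar.eta, hherm, Pool.Agent.Helper7.bilForm_single, Matrix.smul_mulVec, Pi.add_apply,
      Pi.smul_apply, smul_eq_mul, add_comm]
    congr 1
    congr 1
    rw [H, Matrix.mulVec_single_one]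
    rfl

private theorem TrK_span (hts : T * S = 1) (hst : S * T = 1)
    (hherm : ∀ z w, hermForm X.H z w = H (T.mulVec z) (T.mulVec w))
    (M : Matrix (Fin X.g ⊕ Fin X.g) (Ix α β Unit ⊕ Ix α β Unit) ℂ)
    (hM : ∀ z, X.IsBetti (X.period z) → M.mulVec (TrK_v (T.mulVec z)) = 0) : M = 0 := by
  have h1 : M * TrK_Psi X T S = 0 := by
    apply Matrix.toLin'.injective
    rw [map_zero]
    apply LinearMap.ext
    intro u
    rw [Matrix.toLin'_apply, LinearMap.zero_apply]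
    have hu := Pool.Agent.GPC.span_betti X u
    induction hu using Submodule.span_induction with
    | mem u hu =>
      have h2 := VR_period X (Pool.Agent.Helper71.AF.betti_VR X hu)
      rw [← h2] at hu
      rw [← h2, TrK_period X T S hst hherm, Matrix.mulVec_mulVec, Matrix.mul_assoc,
        TrK_PsiPhi X T S hts, Matrix.mul_one]
      exact hM _ hu
    | zero => exact Matrix.mulVec_zero _
    | add x y _ _ hx hy => rw [Matrix.mulVec_add, hx, hy, add_zero]
    | smul c x _ hx => rw [Matrix.mulVec_smul, hx, smul_zero]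
  rw [← Matrix.mul_one M, ← TrK_PsiPhi X T S hts, ← Matrix.mul_assoc, h1, Matrix.zero_mul]

private theorem TrK_sgconj (d : ℚ) (p : Ix α β Unit) : conj (TrK_sg d p) = -TrK_sg d p := by
  obtain ⟨i | j, k⟩ := p
  · exact TrK_conj_zd d
  · show conj (-zd d) = -(-zd d)
    rw [map_neg, TrK_conj_zd]

private theorem TrK_fac (δ : Derivation ℚ ℂ ℂ) (Tp : Matrix α α ℂ) (Tm : Matrix β β ℂ)
    (Ta : Matrix (Ix α β Unit) (Fin X.g) ℂ) (hts : T * S = 1) (dp : Tp.det ≠ 0)
    (dm : Tm.det ≠ 0) (fac : T = blk Unit Tp Tm * Ta) (alg : ∀ q a, IsAlgebraic ℚ (Ta q a)) :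
    T * S.map δ = blk Unit (Tp * Tp⁻¹.map δ) (Tm * Tm⁻¹.map δ) := by
  have hb : blk Unit Tp Tm * blk Unit Tp⁻¹ Tm⁻¹ = 1 := by
    rw [TrK_blk_mul, Matrix.mul_nonsing_inv _ (IsUnit.mk0 _ dp),
      Matrix.mul_nonsing_inv _ (IsUnit.mk0 _ dm), TrK_blk_one]
  have hb' : blk Unit Tp⁻¹ Tm⁻¹ * blk Unit Tp Tm = 1 := by
    rw [TrK_blk_mul, Matrix.nonsing_inv_mul _ (IsUnit.mk0 _ dp),
      Matrix.nonsing_inv_mul _ (IsUnit.mk0 _ dm), TrK_blk_one]
  -- `Ta S = blk⁻¹`
  have h1 : Ta * S = blk Unit Tp⁻¹ Tm⁻¹ := by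
    have h2 : blk Unit Tp⁻¹ Tm⁻¹ * (T * S) = Ta * S := by
      rw [fac, ← Matrix.mul_assoc, ← Matrix.mul_assoc, hb', Matrix.one_mul]
    rw [← h2, hts, Matrix.mul_one]
  -- `Ta δS = δ (blk⁻¹)`
  have h3 : Ta * S.map δ = (blk Unit Tp⁻¹ Tm⁻¹).map δ := by
    rw [← h1, TrK_mul, TrK_alg δ Ta alg, Matrix.zero_mul, zero_add]
  rw [fac, Matrix.mul_assoc, h3, TrK_blk_map, TrK_blk_mul]

private theorem TrK_main (d : ℚ) (δ : Derivation ℚ ℂ ℂ) (hts : T * S = 1) :
    (TrK_Psi X T S * (TrK_Phi X T S).map δ * TrK_D d).trace =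
      2 * (T * S.map δ * TrK_Ds d).trace -
        δ Real.pi / Real.pi * (TrK_Ds d : Matrix (Ix α β Unit) (Ix α β Unit) ℂ).trace := by
  have h0 : S.transpose * T.transpose = 1 := by
    rw [← Matrix.transpose_mul, hts, Matrix.transpose_one]
  have hD : (TrK_D d : Matrix (Ix α β Unit ⊕ Ix α β Unit)
      (Ix α β Unit ⊕ Ix α β Unit) ℂ) = Matrix.fromBlocks
      (TrK_Ds d : Matrix (Ix α β Unit) (Ix α β Unit) ℂ) 0 0
      (-(TrK_Ds d : Matrix (Ix α β Unit) (Ix α β Unit) ℂ)) := by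
    rw [TrK_Ds, Matrix.diagonal_neg, Matrix.fromBlocks_diagonal]
    rfl
  have hT : (T.map δ) * S = -(T * S.map δ) := by
    have h1 := TrK_mul δ T S
    rw [hts] at h1
    have h2 : (1 : Matrix (Ix α β Unit) (Ix α β Unit) ℂ).map δ = 0 := by
      apply TrK_alg
      intro i j
      by_cases h : i = j
      · subst h
        rw [Matrix.one_apply_eq]
        exact isAlgebraic_one
      · rw [Matrix.one_apply_ne h]
        exact isAlgebraic_zero
    rw [h2] at h1
    exact eq_neg_of_add_eq_zero_left h1.symm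
  have h4 : ((Real.pi : ℂ)⁻¹ • S.transpose) * ((Real.pi : ℂ) • T.transpose).map δ =
      (δ Real.pi / Real.pi) • 1 - (T * S.map δ).transpose := by
    have h5 : ((Real.pi : ℂ) • T.transpose).map δ =
        (δ Real.pi) • T.transpose + (Real.pi : ℂ) • (T.map δ).transpose := by
      ext i j
      simp only [Matrix.map_apply, Matrix.smul_apply, Matrix.transpose_apply, Matrix.add_apply,
        smul_eq_mul, Derivation.leibniz]
      ring
    rw [h5, Matrix.mul_add, Matrix.smul_mul, Matrix.mul_smul, h0, Matrix.smul_mul,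
      Matrix.mul_smul, smul_smul, smul_smul, inv_mul_cancel₀ TrK_pi0, one_smul,
      ← Matrix.transpose_mul, hT, Matrix.transpose_neg, ← sub_eq_add_neg, mul_comm, div_eq_mul_inv]
  rw [hD, TrK_Psi, TrK_Phi, Matrix.fromBlocks_map, Matrix.fromBlocks_multiply,
    Matrix.fromBlocks_multiply, TrK_trB, h4]
  simp only [Matrix.zero_mul, Matrix.mul_zero, add_zero, zero_add]
  have h6 : (0 : Matrix (Fin X.g) (Ix α β Unit) ℂ).map δ = 0 :=
    TrK_alg δ _ fun i j => isAlgebraic_zero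
  rw [h6, Matrix.mul_zero, zero_add, Matrix.mul_neg, Matrix.sub_mul, Matrix.smul_mul,
    Matrix.one_mul, Matrix.trace_neg, Matrix.trace_sub, Matrix.trace_smul, smul_eq_mul]
  have h7 : ((T * S.map δ).transpose * TrK_Ds d).trace =
      (T * S.map δ * TrK_Ds d).trace := by
    rw [← Matrix.trace_transpose, Matrix.transpose_mul, Matrix.transpose_transpose, TrK_Ds,
      Matrix.diagonal_transpose, Matrix.trace_mul_comm]
  rw [h7]
  ring

end per

/-- lattice vectors in the normal form -/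
private theorem TrK_act {α β : Type} [Fintype α] [Fintype β] [DecidableEq α] [DecidableEq β]
    (g : Matrix (α ⊕ β) (α ⊕ β) ℂ) (r : α ⊕ β → ℝ) (κ : α ⊕ β → ℂ) :
    act g (sw fun p : Ix α β Unit => (r p.1 : ℂ) * κ p.1) =
      sw fun p : Ix α β Unit => (g * Matrix.diagonal fun s => (r s : ℂ)).mulVec κ p.1 := by
  have h1 : sw (sw fun p : Ix α β Unit => (r p.1 : ℂ) * κ p.1) =
      fun p : Ix α β Unit => (r p.1 : ℂ) * κ p.1 := by
    funext p
    rcases p with ⟨i | j, k⟩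
    · rfl
    · show conj (conj _) = _
      rw [Complex.conj_conj]
  rw [act, h1]
  congr 1
  funext p
  rw [← Matrix.mulVec_mulVec]
  simp only [mu, Matrix.mulVec, dotProduct, Matrix.diagonal_apply, ite_mul, zero_mul,
    Finset.sum_ite_eq, Finset.mem_univ, if_true]

theorem thm_TrK : St_TrK := by
  intro X d J α β _ _ _ _ T S Tp Tm Ta g r q δ hJ hN
  obtain ⟨X₀, hX₀⟩ : ∃ X₀ : Matrix (α ⊕ β) (α ⊕ β) ℂ,
      X₀ = g * Matrix.diagonal fun s => (r s : ℂ) := ⟨_, rfl⟩
  have hralg : ∀ s, IsAlgebraic ℚ (r s : ℂ) := by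
    intro s
    have hd : (0 : ℝ) < Real.sqrt (d : ℝ) :=
      Real.sqrt_pos.2 (by exact_mod_cast hN.isR.pos)
    have h1 : ((r s : ℂ)) ^ 4 = ((q s ^ 2 / d : ℚ) : ℂ) := by
      have h2 : r s ^ 4 * (d : ℝ) = (q s : ℝ) ^ 2 := by
        rw [hN.isR.rq s, mul_pow, Real.sq_sqrt (by exact_mod_cast hN.isR.pos.le)]
        ring
      have h3 : r s ^ 4 = ((q s ^ 2 / d : ℚ) : ℝ) := by
        have hd' : (d : ℝ) ≠ 0 := by exact_mod_cast hN.isR.pos.ne'
        push_cast
        rw [eq_div_iff hd', h2]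
      exact_mod_cast h3
    apply IsAlgebraic.of_pow (n := 4) (by norm_num)
    rw [h1]
    exact isAlgebraic_ratCast ℚ _
  have hdet : X₀.det = ∏ s, (r s : ℂ) := by
    rw [hX₀, Matrix.det_mul, hN.det, one_mul, Matrix.det_diagonal]
  have hdet0 : X₀.det ≠ 0 := by
    rw [hdet]
    refine Finset.prod_ne_zero_iff.2 fun s _ => ?_
    exact_mod_cast (hN.isR.rpos s).ne'
  have hdetA : IsAlgebraic ℚ X₀.det := by
    rw [hdet]
    exact TrK_prodalg _ hralg
  have hts := hN.ts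
  have hst := hN.st
  have hherm := hN.herm
  have hper := TrK_period X T S hst hherm
  obtain ⟨Nm, hNm⟩ : ∃ Nm, Nm = LinearMap.toMatrix' ((pData X).N δ) := ⟨_, rfl⟩
  obtain ⟨Jm', hJm⟩ : ∃ Jm', Jm' = LinearMap.toMatrix' J := ⟨_, rfl⟩
  obtain ⟨Dm, hDm⟩ : ∃ Dm : Matrix (Ix α β Unit ⊕ Ix α β Unit)
      (Ix α β Unit ⊕ Ix α β Unit) ℂ, Dm = TrK_D d := ⟨_, rfl⟩
  -- the operator in the coordinates
  have hE1 : Nm * TrK_Phi X T S = (TrK_Phi X T S).map δ + TrK_Phi X T S * TrK_N δ X₀ := by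
    rw [← sub_eq_zero]
    apply TrK_span X T S hts hst hherm
    intro z hz
    obtain ⟨a, b, hzr⟩ := (hN.lat z).1 ((AnR_W_iff X z).1 ((AnR_memW X z).2 hz))
    rw [TrK_act g r (fun s => (a s : ℂ) + (b s : ℂ) * zd d), ← hX₀] at hzr
    have h1 : Nm.mulVec (X.period z) = fun j => δ (X.period z j) := by
      rw [hNm, LinearMap.toMatrix'_mulVec]
      exact TrK_per X δ _ hz
    rw [Matrix.sub_mulVec, Matrix.add_mulVec, ← Matrix.mulVec_mulVec, ← Matrix.mulVec_mulVec,
      ← hper, h1]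
    have h2 : (fun j => δ (X.period z j)) =
        fun j => δ ((TrK_Phi X T S).mulVec (TrK_v (T.mulVec z)) j) := by
      rw [← hper]
    rw [h2, TrK_mulVec, hzr, TrK_del δ X₀ _ hdet0 fun i => TrK_kalg hN.isR.pos.le _ _, sub_self]
  have hE2 : Jm' * TrK_Phi X T S = TrK_Phi X T S * Dm := by
    rw [← sub_eq_zero]
    apply TrK_span X T S hts hst hherm
    intro z hz
    rw [Matrix.sub_mulVec, ← Matrix.mulVec_mulVec, ← Matrix.mulVec_mulVec, ← hper, hJm,
      LinearMap.toMatrix'_mulVec]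
    have h1 := VR_map X J hJ.endo.betti (period_VR X z)
    rw [← VR_period X h1, hper]
    have h2 : T.mulVec (X.zz (J (X.period z))) = fun q => TrK_sg d q * T.mulVec z q := by
      rw [hN.jj, zz_period]
      funext q
      exact TrK_rgt d _ q
    have h3 : TrK_v (T.mulVec (X.zz (J (X.period z)))) =
        Dm.mulVec (TrK_v (T.mulVec z)) := by
      rw [h2]
      funext s
      rw [hDm, TrK_D, Matrix.mulVec_diagonal]
      rcases s with s | s
      · rfl
      · show conj (TrK_sg d s * T.mulVec z s) = -TrK_sg d s * conj (T.mulVec z s)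
        rw [map_mul, TrK_sgconj]
    rw [h3, sub_self]
  have hF := TrK_PhiPsi X T S hst
  have hG := TrK_PsiPhi X T S hts
  have htr : LinearMap.trace ℂ X.H1 ((pData X).N δ * J) = (Nm * Jm').trace := by
    rw [LinearMap.trace_eq_matrix_trace ℂ (Pi.basisFun ℂ (Fin X.g ⊕ Fin X.g)),
      LinearMap.toMatrix_eq_toMatrix', LinearMap.toMatrix'_mul, hNm, hJm]
  have h1 : (Nm * Jm').trace = ((TrK_Psi X T S * (TrK_Phi X T S).map δ *
      Dm).trace + (TrK_N δ X₀ * Dm).trace) := by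
    have h2 : Nm * Jm' = ((TrK_Phi X T S).map δ + TrK_Phi X T S * TrK_N δ X₀) *
        Dm * TrK_Psi X T S := by
      rw [← hE1, Matrix.mul_assoc Nm, ← hE2, Matrix.mul_assoc, Matrix.mul_assoc, hF,
        Matrix.mul_one]
    rw [h2, Matrix.trace_mul_comm, ← Matrix.mul_assoc, Matrix.mul_add, ← Matrix.mul_assoc, hG,
      Matrix.one_mul, Matrix.add_mul, Matrix.trace_add]
  rw [htr, h1, hDm, TrK_N_tr δ d X₀ hdetA, add_zero, TrK_main X T S d δ hts,
    TrK_fac X T S δ Tp Tm Ta hts hN.dp hN.dm hN.fac hN.alg, TrK_blk_tr, TrK_sg_tr]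
  ring

end DWC
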