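import Pool.Agent.DWC.StG
import Pool.Agent.PST.MobB
import Pool.Agent.PST.UGr

/-!
# DWC [Zt]: the half plane in the domain
-/

set_option autoImplicit false
set_option linter.unusedVariables false
set_option linter.unusedSectionVars false

namespace DWC

open scoped ComplexConjugate
open PST

section

variable {α β : Type} [Fintype α] [Fintype β] [DecidableEq α] [DecidableEq β]

private theorem Zt_J (v : α ⊕ β → ℂ) : star v ⬝ᵥ (Jm α β).mulVec v =
    ((∑ i, ‖v (Sum.inl i)‖ ^ 2 - ∑ j, ‖v (Sum.inr j)‖ ^ 2 : ℝ) : ℂ) := by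
  have h1 : (Jm α β).mulVec v = Sum.elim (fun i => v (Sum.inl i)) (fun j => - v (Sum.inr j)) := by
    have h2 : v = Sum.elim (fun i => v (Sum.inl i)) (fun j => v (Sum.inr j)) := by
      funext p
      rcases p with p | p <;> rfl
    unfold Jm
    conv_lhs => rw [h2]
    rw [Matrix.fromBlocks_mulVec]
    funext p
    rcases p with p | p
    · simp
    · simp [Matrix.neg_mulVec]
  rw [h1]
  simp only [dotProduct, Fintype.sum_sum_type, Sum.elim_inl, Sum.elim_inr, Pi.star_apply,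
    Complex.star_def, mul_neg, Complex.conj_mul', Finset.sum_neg_distrib]
  push_cast
  ring

/-- the basic inequality -/
private theorem Zt_id {A P : Matrix (α ⊕ β) (α ⊕ β) ℂ} {s : ℝ} (hs : 0 ≤ s) (hP : IsoP P)
    (hA : A.conjTranspose * Jm α β * A = Jm α β - (s : ℂ) • (Jm α β * P * Jm α β)) (y : β → ℂ) :
    ∑ i, ‖A.toBlocks₁₂.mulVec y i‖ ^ 2 + ∑ j, ‖y j‖ ^ 2 ≤
      ∑ j, ‖A.toBlocks₂₂.mulVec y j‖ ^ 2 := by
  let v : α ⊕ β → ℂ := Sum.elim 0 y
  have hAv : A.mulVec v = Sum.elim (A.toBlocks₁₂.mulVec y) (A.toBlocks₂₂.mulVec y) := by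
    conv_lhs => rw [← Matrix.fromBlocks_toBlocks A]
    rw [Matrix.fromBlocks_mulVec]
    have h1 : v ∘ Sum.inl = 0 := rfl
    have h2 : v ∘ Sum.inr = y := rfl
    rw [h1, h2, Matrix.mulVec_zero, Matrix.mulVec_zero, zero_add, zero_add]
  have h1 := congrArg (fun M : Matrix (α ⊕ β) (α ⊕ β) ℂ => star v ⬝ᵥ M.mulVec v) hA
  have h2 : star v ⬝ᵥ (A.conjTranspose * Jm α β * A).mulVec v =
      ((∑ i, ‖A.toBlocks₁₂.mulVec y i‖ ^ 2 - ∑ j, ‖A.toBlocks₂₂.mulVec y j‖ ^ 2 : ℝ) : ℂ) := by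
    rw [← Matrix.mulVec_mulVec, ← Matrix.mulVec_mulVec, Matrix.dotProduct_mulVec,
      ← Matrix.star_mulVec, Zt_J, hAv]
    rfl
  have h3 : star v ⬝ᵥ (Jm α β).mulVec v = ((- ∑ j, ‖y j‖ ^ 2 : ℝ) : ℂ) := by
    rw [Zt_J]
    congr 1
    have : ∀ i, ‖v (Sum.inl i)‖ ^ 2 = 0 := fun i => by
      show ‖(0 : ℂ)‖ ^ 2 = 0
      simp
    rw [Finset.sum_congr rfl fun i _ => this i, Finset.sum_const_zero, zero_sub]
    rfl
  have h4 : Jm α β * P * Jm α β = (P * Jm α β).conjTranspose * (P * Jm α β) := by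
    rw [Matrix.conjTranspose_mul, UGr_J_star, hP.herm]
    calc Jm α β * P * Jm α β = Jm α β * (P * P) * Jm α β := by rw [hP.idem]
      _ = Jm α β * P * (P * Jm α β) := by simp only [Matrix.mul_assoc]
  have h5 : star v ⬝ᵥ (Jm α β * P * Jm α β).mulVec v =
      ((∑ p, ‖(P * Jm α β).mulVec v p‖ ^ 2 : ℝ) : ℂ) := by
    rw [h4, ← Matrix.mulVec_mulVec, Matrix.dotProduct_mulVec, ← Matrix.star_mulVec, UTr_self]
  have h6 : star v ⬝ᵥ (Jm α β - (s : ℂ) • (Jm α β * P * Jm α β)).mulVec v =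
      ((- ∑ j, ‖y j‖ ^ 2 - s * ∑ p, ‖(P * Jm α β).mulVec v p‖ ^ 2 : ℝ) : ℂ) := by
    rw [Matrix.sub_mulVec, Matrix.smul_mulVec, dotProduct_sub, dotProduct_smul, h3, h5]
    push_cast
    rfl
  have h7 : ∑ i, ‖A.toBlocks₁₂.mulVec y i‖ ^ 2 - ∑ j, ‖A.toBlocks₂₂.mulVec y j‖ ^ 2 =
      - ∑ j, ‖y j‖ ^ 2 - s * ∑ p, ‖(P * Jm α β).mulVec v p‖ ^ 2 := by
    have h8 : star v ⬝ᵥ (A.conjTranspose * Jm α β * A).mulVec v =
      star v ⬝ᵥ (Jm α β - (s : ℂ) • (Jm α β * P * Jm α β)).mulVec v := h1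
    rw [h2, h6] at h8
    exact_mod_cast h8
  have h8 : 0 ≤ s * ∑ p, ‖(P * Jm α β).mulVec v p‖ ^ 2 :=
    mul_nonneg hs (Finset.sum_nonneg fun i _ => sq_nonneg _)
  linarith

private theorem Zt_P {P : Matrix (α ⊕ β) (α ⊕ β) ℂ} (hP : IsoP P) (i j : α ⊕ β) :
    ‖P i j‖ ≤ 1 := by
  have h1 : ∀ k, P k i = conj (P i k) := by
    intro k
    have h2 := congrFun (congrFun hP.herm k) i
    rw [Matrix.conjTranspose_apply] at h2
    exact h2.symm
  have h2 : P i i = ((∑ k, ‖P i k‖ ^ 2 : ℝ) : ℂ) := by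
    conv_lhs => rw [← hP.idem]
    rw [Matrix.mul_apply]
    push_cast
    refine Finset.sum_congr rfl fun k _ => ?_
    rw [h1 k, Complex.mul_conj']
  have h3 : 0 ≤ ∑ k, ‖P i k‖ ^ 2 := Finset.sum_nonneg fun k _ => sq_nonneg _
  have h4 : ‖P i i‖ = ∑ k, ‖P i k‖ ^ 2 := by
    conv_lhs => rw [h2]
    rw [Complex.norm_real, Real.norm_eq_abs, abs_of_nonneg h3]
  have h5 : ∀ k, ‖P i k‖ ^ 2 ≤ ∑ k, ‖P i k‖ ^ 2 := fun k =>
    Finset.single_le_sum (f := fun k => ‖P i k‖ ^ 2) (fun k _ => sq_nonneg _) (Finset.mem_univ k)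
  have h6 : ‖P i i‖ ≤ 1 := by
    have h7 := h5 i
    rw [← h4] at h7
    have h8 : 0 ≤ ‖P i i‖ := norm_nonneg _
    by_contra hcon
    push Not at hcon
    nlinarith
  have h7 := h5 j
  rw [← h4] at h7
  have h8 : ‖P i j‖ ^ 2 ≤ 1 ^ 2 := by rw [one_pow]; exact h7.trans h6
  exact (sq_le_sq₀ (norm_nonneg _) zero_le_one).1 h8

private theorem Zt_mul {n : Type} [Fintype n] {M N : Matrix n n ℂ} {a b : ℝ} (ha : 0 ≤ a)
    (hM : ∀ i j, ‖M i j‖ ≤ a) (hN : ∀ i j, ‖N i j‖ ≤ b) (i j : n) :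
    ‖(M * N) i j‖ ≤ Fintype.card n * (a * b) := by
  rw [Matrix.mul_apply]
  refine (norm_sum_le _ _).trans ?_
  have h1 : ∀ k ∈ Finset.univ, ‖M i k * N k j‖ ≤ a * b := by
    intro k _
    rw [norm_mul]
    exact mul_le_mul (hM i k) (hN k j) (norm_nonneg _) ha
  refine (Finset.sum_le_sum h1).trans ?_
  rw [Finset.sum_const, Finset.card_univ, nsmul_eq_mul]

private theorem Zt_Jb (i j : α ⊕ β) : ‖Jm α β i j‖ ≤ 1 := by
  unfold Jm
  rcases i with i | i <;> rcases j with j | j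
  · rw [Matrix.fromBlocks_apply₁₁, Matrix.one_apply]
    split_ifs <;> simp
  · rw [Matrix.fromBlocks_apply₁₂]
    simp
  · rw [Matrix.fromBlocks_apply₂₁]
    simp
  · rw [Matrix.fromBlocks_apply₂₂, Matrix.neg_apply, norm_neg, Matrix.one_apply]
    split_ifs <;> simp

private theorem Zt_one {n : Type} [DecidableEq n] (i j : n) : ‖(1 : Matrix n n ℂ) i j‖ ≤ 1 := by
  rw [Matrix.one_apply]
  split_ifs <;> simp

private theorem Zt_Bt {P : Matrix (α ⊕ β) (α ⊕ β) ℂ} (hP : IsoP P) (t : ℂ) (n : ℝ)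
    (hn : n = Fintype.card (α ⊕ β)) (i j : α ⊕ β) :
    ‖Bt P t i j‖ ≤ n * (((1 + n) * (1 + ‖t‖)) * (5 / 2 + 3 * n ^ 2)) := by
  have hn0 : 0 ≤ n := by rw [hn]; positivity
  have ht : 0 ≤ ‖t‖ := norm_nonneg _
  have hPJ : ∀ i j, ‖(P * Jm α β) i j‖ ≤ n := by
    intro i j
    have := Zt_mul zero_le_one (fun i j => Zt_P hP i j) Zt_Jb i j
    rw [← hn] at this
    linarith
  have hJP : ∀ i j, ‖(Jm α β * P) i j‖ ≤ n := by
    intro i j
    have := Zt_mul zero_le_one Zt_Jb (fun i j => Zt_P hP i j) i j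
    rw [← hn] at this
    linarith
  have hJPJ : ∀ i j, ‖(Jm α β * P * Jm α β) i j‖ ≤ n ^ 2 := by
    intro i j
    have := Zt_mul hn0 hJP Zt_Jb i j
    rw [← hn] at this
    linarith
  unfold Bt
  rw [hn]
  refine Zt_mul (by positivity) ?_ ?_ i j
  · intro i j
    rw [← hn, Matrix.add_apply, Matrix.smul_apply]
    refine (norm_add_le _ _).trans ?_
    rw [norm_smul, norm_mul, norm_mul, Complex.norm_I]
    have h1 := Zt_one i j
    have h2 := hPJ i j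
    have h3 : ‖(3 / 4 : ℂ)‖ = 3 / 4 := by norm_num
    rw [h3]
    have h4 : ‖t‖ * ‖(P * Jm α β) i j‖ ≤ ‖t‖ * n := mul_le_mul_of_nonneg_left h2 ht
    have h5 : 0 ≤ ‖t‖ * n := mul_nonneg ht hn0
    nlinarith
  · intro i j
    rw [← hn, Matrix.add_apply, Matrix.add_apply, Matrix.smul_apply, Matrix.smul_apply,
      Matrix.sub_apply, Matrix.sub_apply]
    refine (norm_add_le _ _).trans ?_
    have h1 := norm_add_le ((1 / 2 : ℂ) • P i j) ((2 : ℂ) • (Jm α β * P * Jm α β) i j)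
    rw [norm_smul, norm_smul] at h1
    have h2 := norm_sub_le ((1 : Matrix (α ⊕ β) (α ⊕ β) ℂ) i j - P i j)
      ((Jm α β * P * Jm α β) i j)
    have h3 := norm_sub_le ((1 : Matrix (α ⊕ β) (α ⊕ β) ℂ) i j) (P i j)
    have h4 := Zt_one i j
    have h5 := Zt_P hP i j
    have h6 := hJPJ i j
    have h7 : ‖(1 / 2 : ℂ)‖ = 1 / 2 := by norm_num
    have h8 : ‖(2 : ℂ)‖ = 2 := by norm_num
    rw [h7, h8] at h1
    linarith

private theorem Zt_prod {S : Set ℂ} {κ : Type} (s : Finset κ) (M : κ → ℂ → ℂ)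
    (hM : ∀ i, DifferentiableOn ℂ (M i) S) :
    DifferentiableOn ℂ (fun w => ∏ i ∈ s, M i w) S := by
  classical
  induction s using Finset.induction_on with
  | empty => simp
  | insert a s ha ih =>
    simp only [Finset.prod_insert ha]
    exact (hM a).fun_mul ih

private theorem Zt_det {S : Set ℂ} {γ : Type} [Fintype γ] [DecidableEq γ]
    (M : ℂ → Matrix γ γ ℂ) (hM : ∀ i j, DifferentiableOn ℂ (fun t => M t i j) S) :
    DifferentiableOn ℂ (fun t => (M t).det) S := by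
  simp only [Matrix.det_apply]
  refine DifferentiableOn.fun_sum fun σ _ => ?_
  refine DifferentiableOn.const_smul ?_ _
  exact Zt_prod _ _ fun i => hM _ _

private theorem Zt_inv {S : Set ℂ} {γ : Type} [Fintype γ] [DecidableEq γ]
    (M : ℂ → Matrix γ γ ℂ) (hM : ∀ i j, DifferentiableOn ℂ (fun t => M t i j) S)
    (h0 : ∀ t ∈ S, (M t).det ≠ 0) (i j : γ) :
    DifferentiableOn ℂ (fun t => (M t)⁻¹ i j) S := by
  have h1 : (fun t => (M t)⁻¹ i j) = fun t =>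
      (M t).det⁻¹ * ((M t).updateRow j (Pi.single i 1)).det := by
    funext t
    rw [Matrix.inv_def, Matrix.smul_apply, Ring.inverse_eq_inv', smul_eq_mul,
      Matrix.adjugate_apply]
  rw [h1]
  refine DifferentiableOn.fun_mul ?_ ?_
  · exact (Zt_det M hM).inv h0
  · refine Zt_det _ fun k l => ?_
    by_cases hk : k = j
    · subst hk
      simp only [Matrix.updateRow_self]
      exact differentiableOn_const _
    · simp only [Matrix.updateRow_ne hk]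
      exact hM k l

private theorem Zt_ent (g P : Matrix (α ⊕ β) (α ⊕ β) ℂ) (i j : α ⊕ β) :
    Differentiable ℂ fun t => (g * Bt P t) i j := by
  obtain ⟨M, hM⟩ : ∃ M : Matrix (α ⊕ β) (α ⊕ β) ℂ, M = ((1 / 2 : ℂ) • P +
    (2 : ℂ) • (Jm α β * P * Jm α β) + (1 - P - Jm α β * P * Jm α β)) := ⟨_, rfl⟩
  have h1 : (fun t => (g * Bt P t) i j) = fun t : ℂ =>
      (g * M) i j + (Complex.I * t * (3 / 4)) * (g * ((P * Jm α β) * M)) i j := by
    funext t
    unfold Bt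
    rw [← hM, Matrix.add_mul, Matrix.one_mul, Matrix.mul_add, Matrix.add_apply, Matrix.smul_mul,
      Matrix.mul_smul, Matrix.smul_apply, smul_eq_mul]
  rw [h1]
  fun_prop

private theorem Zt_mob (g : Matrix (α ⊕ β) (α ⊕ β) ℂ) (i : α) (j : β) :
    mob g 0 (i, j) = (g.toBlocks₁₂ * (g.toBlocks₂₂)⁻¹) i j := by
  have hmt : mt (0 : α × β → ℂ) = 0 := rfl
  show ((g.toBlocks₁₁ * mt (0 : α × β → ℂ) + g.toBlocks₁₂) *
    (g.toBlocks₂₁ * mt (0 : α × β → ℂ) + g.toBlocks₂₂)⁻¹) i j = _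
  rw [hmt, Matrix.mul_zero, Matrix.mul_zero, zero_add, zero_add]

end

/-- the half plane in the domain -/
theorem thm_Zt (h1 : St_Trv) : St_Zt := by
  intro α β _ _ _ _ R
  obtain ⟨n, hn⟩ : ∃ n : ℝ, n = Fintype.card (α ⊕ β) := ⟨_, rfl⟩
  have hn0 : 0 ≤ n := by rw [hn]; positivity
  obtain ⟨E, hE⟩ : ∃ E : ℝ, E = n * (|R| * (n * ((1 + n) * (5 / 2 + 3 * n ^ 2)))) := ⟨_, rfl⟩
  have hE0 : 0 ≤ E := by rw [hE]; positivity
  obtain ⟨Q, hQ⟩ : ∃ Q : ℝ, Q = Fintype.card β * (Fintype.card β * E ^ 2) + 1 := ⟨_, rfl⟩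
  have hQ1 : 1 ≤ Q := by
    have : (0 : ℝ) ≤ Fintype.card β * (Fintype.card β * E ^ 2) := by positivity
    linarith
  refine ⟨2 * Q, fun g P hg hR hP => ?_⟩
  obtain ⟨hT1, ⟨hT2, hT3⟩, hT4, -⟩ := h1 α β P hP
  -- the basic identity
  have hA : ∀ t : ℂ, (g * Bt P t).conjTranspose * Jm α β * (g * Bt P t) =
      Jm α β - ((6 * t.im : ℝ) : ℂ) • (Jm α β * P * Jm α β) := by
    intro t
    have hg' : g.conjTranspose * Jm α β * g = Jm α β := hg
    rw [Matrix.conjTranspose_mul]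
    calc (Bt P t).conjTranspose * g.conjTranspose * Jm α β * (g * Bt P t) =
          (Bt P t).conjTranspose * (g.conjTranspose * Jm α β * g) * Bt P t := by
          simp only [Matrix.mul_assoc]
      _ = _ := by rw [hg', hT1 t]
  have hid : ∀ t : ℂ, 0 ≤ t.im → ∀ y : β → ℂ,
      ∑ i, ‖(g * Bt P t).toBlocks₁₂.mulVec y i‖ ^ 2 + ∑ j, ‖y j‖ ^ 2 ≤
        ∑ j, ‖(g * Bt P t).toBlocks₂₂.mulVec y j‖ ^ 2 := fun t ht y =>
    Zt_id (by positivity) hP (hA t) y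
  have hdet : ∀ t : ℂ, 0 ≤ t.im → (g * Bt P t).toBlocks₂₂.det ≠ 0 := by
    intro t ht h0
    obtain ⟨v, hv, hv0⟩ := Matrix.exists_mulVec_eq_zero_iff.2 h0
    have h2 := hid t ht v
    rw [hv0] at h2
    have h3 : ∑ j, ‖(0 : β → ℂ) j‖ ^ 2 = 0 := by simp
    rw [h3] at h2
    have h4 := UTr_nz hv
    have h5 : 0 ≤ ∑ i, ‖(g * Bt P t).toBlocks₁₂.mulVec v i‖ ^ 2 :=
      Finset.sum_nonneg fun i _ => sq_nonneg _
    linarith
  have hdiff : DifferentiableOn ℂ (fun t => mob (g * Bt P t) 0) {t | 0 ≤ t.im} ∧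
      ∀ t : ℂ, 0 ≤ t.im → DifferentiableAt ℂ (fun t => mob (g * Bt P t) 0) t := by
    have h2 : ∀ S : Set ℂ, (∀ t ∈ S, (g * Bt P t).toBlocks₂₂.det ≠ 0) →
        DifferentiableOn ℂ (fun t => mob (g * Bt P t) 0) S := by
      intro S hS
      rw [differentiableOn_pi]
      rintro ⟨i, j⟩
      have h3 : (fun t => mob (g * Bt P t) 0 (i, j)) = fun t =>
          ∑ k, (g * Bt P t) (Sum.inl i) (Sum.inr k) * ((g * Bt P t).toBlocks₂₂)⁻¹ k j := by
        funext t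
        rw [Zt_mob, Matrix.mul_apply]
        rfl
      rw [h3]
      refine DifferentiableOn.fun_sum fun k _ => ?_
      refine (Zt_ent g P _ _).differentiableOn.fun_mul ?_
      exact Zt_inv (fun t => (g * Bt P t).toBlocks₂₂)
        (fun a b => (Zt_ent g P (Sum.inr a) (Sum.inr b)).differentiableOn) hS k j
    refine ⟨h2 _ fun t ht => hdet t ht, fun t ht => ?_⟩
    have h4 : Continuous fun t => (g * Bt P t).toBlocks₂₂.det := by
      have h5 := Zt_det (S := Set.univ) (fun t => (g * Bt P t).toBlocks₂₂)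
        (fun a b => (Zt_ent g P (Sum.inr a) (Sum.inr b)).differentiableOn)
      exact (differentiableOn_univ.1 h5).continuous
    have h5 : IsOpen {t | (g * Bt P t).toBlocks₂₂.det ≠ 0} := h4.isOpen_preimage _ isOpen_ne
    exact (h2 _ fun t ht => ht).differentiableAt (h5.mem_nhds (hdet t ht))
  refine ⟨?_, ?_, ?_, ?_⟩
  · funext p
    obtain ⟨i, j⟩ := p
    rw [Zt_mob, Zt_mob]
    obtain ⟨B, hB⟩ : ∃ B, B = Bt P Complex.I := ⟨_, rfl⟩
    rw [← hB] at hT2 hT3 ⊢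
    have h2 : (g * B).toBlocks₁₂ = g.toBlocks₁₂ * B.toBlocks₂₂ := by
      conv_lhs => rw [← Matrix.fromBlocks_toBlocks g, ← Matrix.fromBlocks_toBlocks B,
        Matrix.fromBlocks_multiply]
      rw [Matrix.toBlocks_fromBlocks₁₂, hT2, Matrix.mul_zero, zero_add]
    have h3 : (g * B).toBlocks₂₂ = g.toBlocks₂₂ * B.toBlocks₂₂ := by
      conv_lhs => rw [← Matrix.fromBlocks_toBlocks g, ← Matrix.fromBlocks_toBlocks B,
        Matrix.fromBlocks_multiply]
      rw [Matrix.toBlocks_fromBlocks₂₂, hT2, Matrix.mul_zero, zero_add]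
    rw [h2, h3, Matrix.mul_inv_rev]
    have h4 : g.toBlocks₁₂ * B.toBlocks₂₂ * ((B.toBlocks₂₂)⁻¹ * (g.toBlocks₂₂)⁻¹) =
        g.toBlocks₁₂ * (g.toBlocks₂₂)⁻¹ := by
      calc g.toBlocks₁₂ * B.toBlocks₂₂ * ((B.toBlocks₂₂)⁻¹ * (g.toBlocks₂₂)⁻¹) =
            g.toBlocks₁₂ * (B.toBlocks₂₂ * (B.toBlocks₂₂)⁻¹) * (g.toBlocks₂₂)⁻¹ := by
            simp only [Matrix.mul_assoc]
        _ = _ := by rw [Matrix.mul_nonsing_inv _ hT3, Matrix.mul_one]
    rw [h4]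
  · exact hdiff.1.mono fun t (ht : 0 < t.im) => le_of_lt ht
  · exact hdiff.1.continuousOn
  · intro t ht
    have htn : 0 ≤ ‖t‖ := norm_nonneg _
    obtain ⟨K, hK⟩ : ∃ K : ℝ, K = Q * (1 + ‖t‖) ^ 2 := ⟨_, rfl⟩
    have hK1 : 1 ≤ K := by
      have h2 : (1 : ℝ) ≤ (1 + ‖t‖) ^ 2 := by nlinarith
      rw [hK]
      nlinarith
    have hK0 : 0 < K := by linarith
    have hinv : 1 / K ≤ 1 := by
      rw [div_le_one hK0]
      exact hK1
    have hinv0 : 0 < 1 / K := by positivity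
    have hent : ∀ i j, ‖(g * Bt P t) i j‖ ≤ E * (1 + ‖t‖) := by
      intro i j
      have h2 := Zt_mul (abs_nonneg R) (fun i j => (hR i j).trans (le_abs_self R))
        (fun i j => Zt_Bt hP t n hn i j) i j
      rw [← hn] at h2
      refine h2.trans (le_of_eq ?_)
      rw [hE]
      ring
    have hρ : Real.sqrt (1 - 1 / K) < 1 := by
      rw [Real.sqrt_lt' one_pos]
      linarith
    refine ⟨Real.sqrt (1 - 1 / K), Real.sqrt_nonneg _, hρ, ?_, ?_⟩
    · intro y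
      have hd := hdet t ht
      obtain ⟨u, hu⟩ : ∃ u, u = ((g * Bt P t).toBlocks₂₂)⁻¹.mulVec y := ⟨_, rfl⟩
      have hdu : (g * Bt P t).toBlocks₂₂.mulVec u = y := by
        rw [hu, Matrix.mulVec_mulVec, Matrix.mul_nonsing_inv _ (isUnit_iff_ne_zero.2 hd),
          Matrix.one_mulVec]
      have h3 : ∀ i, ∑ j, mob (g * Bt P t) 0 (i, j) * y j =
          (g * Bt P t).toBlocks₁₂.mulVec u i := by
        intro i
        rw [hu, Matrix.mulVec_mulVec]
        exact Finset.sum_congr rfl fun j _ => by rw [Zt_mob]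
      have h4 := hid t ht u
      rw [hdu] at h4
      have h5 := MobB_bd (g * Bt P t).toBlocks₂₂ (E * (1 + ‖t‖))
        (fun i j => hent (Sum.inr i) (Sum.inr j)) u
      rw [hdu] at h5
      have hS : 0 ≤ ∑ j, ‖u j‖ ^ 2 := Finset.sum_nonneg fun i _ => sq_nonneg _
      have h6 : ∑ j, ‖y j‖ ^ 2 ≤ K * ∑ j, ‖u j‖ ^ 2 := by
        refine h5.trans (mul_le_mul_of_nonneg_right ?_ hS)
        rw [hK, hQ]
        have h7 : (0 : ℝ) ≤ (1 + ‖t‖) ^ 2 := by positivity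
        nlinarith
      have h7 : (1 / K) * ∑ j, ‖y j‖ ^ 2 ≤ ∑ j, ‖u j‖ ^ 2 := by
        calc (1 / K) * ∑ j, ‖y j‖ ^ 2 ≤ (1 / K) * (K * ∑ j, ‖u j‖ ^ 2) :=
              mul_le_mul_of_nonneg_left h6 hinv0.le
          _ = ∑ j, ‖u j‖ ^ 2 := by
              field_simp
      rw [Real.sq_sqrt (by linarith)]
      simp only [h3]
      linarith
    · have h2 : 1 / (2 * K) ≤ 1 - Real.sqrt (1 - 1 / K) := by
        obtain ⟨r, hr⟩ : ∃ r, r = Real.sqrt (1 - 1 / K) := ⟨_, rfl⟩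
        have hr2 : r ^ 2 = 1 - 1 / K := by rw [hr, Real.sq_sqrt (by linarith)]
        have hr0 : 0 ≤ r := by rw [hr]; exact Real.sqrt_nonneg _
        rw [← hr] at hρ ⊢
        have h3 : (1 - r) * (1 + r) = 1 / K := by
          have : (1 - r) * (1 + r) = 1 - r ^ 2 := by ring
          rw [this, hr2]
          ring
        have h4 : 1 / (2 * K) = (1 / K) / 2 := by field_simp
        rw [h4, ← h3]
        nlinarith
      have h3 : (1 + ‖t‖) ^ 2 = K / Q := by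
        rw [hK]
        field_simp
      rw [h3]
      have h4 : 2 * Q * (1 / (2 * K)) * (K / Q) = 1 := by
        have hQ0 : Q ≠ 0 := by positivity
        field_simp
      have h5 : 0 ≤ 2 * Q := by linarith
      have h6 : 0 ≤ K / Q := by positivity
      calc (1 : ℝ) = 2 * Q * (1 / (2 * K)) * (K / Q) := h4.symm
        _ ≤ 2 * Q * (1 - Real.sqrt (1 - 1 / K)) * (K / Q) :=
            mul_le_mul_of_nonneg_right (mul_le_mul_of_nonneg_left h2 h5) h6

end DWC
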