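import Pool.Agent.PST.All
import Pool.Agent.DWC.AnK
import Pool.Agent.DWC.BalK
import Pool.Agent.DWC.BasK
import Pool.Agent.DWC.Bdf
import Pool.Agent.DWC.Bnd
import Pool.Agent.DWC.Brg
import Pool.Agent.DWC.CMK
import Pool.Agent.DWC.CocK
import Pool.Agent.DWC.CoreH
import Pool.Agent.DWC.Cpt
import Pool.Agent.DWC.DetK
import Pool.Agent.DWC.EqK
import Pool.Agent.DWC.ExpK
import Pool.Agent.DWC.Ext
import Pool.Agent.DWC.FldK
import Pool.Agent.DWC.Gap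
import Pool.Agent.DWC.Gn
import Pool.Agent.DWC.GrF
import Pool.Agent.DWC.Grw
import Pool.Agent.DWC.HatK
import Pool.Agent.DWC.LatK
import Pool.Agent.DWC.Mah
import Pool.Agent.DWC.NFK
import Pool.Agent.DWC.Op2
import Pool.Agent.DWC.OrtK
import Pool.Agent.DWC.PLh
import Pool.Agent.DWC.RelH
import Pool.Agent.DWC.Rk
import Pool.Agent.DWC.SieA
import Pool.Agent.DWC.SieH
import Pool.Agent.DWC.TorK
import Pool.Agent.DWC.TrK
import Pool.Agent.DWC.Trv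
import Pool.Agent.DWC.Zt

/-!
# DWC: assembly
-/

set_option autoImplicit false

namespace DWC

namespace All

theorem AnK_ : St_AnK := thm_AnK
theorem BalK_ : St_BalK := thm_BalK
theorem BasK_ : St_BasK := thm_BasK
theorem Bdf_ : St_Bdf := thm_Bdf
theorem PLh_ : St_PLh := thm_PLh
theorem Bnd_ : St_Bnd := thm_Bnd PLh_ PST.All.OmT_
theorem CMK_ : St_CMK := thm_CMK
theorem Rk_ : St_Rk := thm_Rk
theorem Gn_ : St_Gn := thm_Gn Rk_
theorem Ext_ : St_Ext := thm_Ext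
theorem DetK_ : St_DetK := thm_DetK
theorem Mah_ : St_Mah := thm_Mah Gn_ Ext_ Bdf_ DetK_ PST.All.UGr_
theorem Gap_ : St_Gap := thm_Gap
theorem Trv_ : St_Trv := thm_Trv
theorem Zt_ : St_Zt := thm_Zt Trv_
theorem Op2_ : St_Op2 := thm_Op2 PST.All.UGr_
theorem Cpt_ : St_Cpt := thm_Cpt Op2_ PST.All.UGr_ PST.All.UAl_ PST.All.UTr_ PST.All.OmT_
theorem CocK_ : St_CocK := thm_CocK Mah_ Gap_ Trv_ Zt_ Cpt_ PST.All.UGr_ PST.All.UAl_ PST.All.MapE_
theorem SieA_ : St_SieA := thm_SieA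
theorem GrF_ : St_GrF := thm_GrF
theorem Grw_ : St_Grw := thm_Grw GrF_ PST.All.Gau_
theorem SieH_ : St_SieH := thm_SieH PST.All.GamI_ PST.All.Sup_ PST.All.Ell_ PST.All.OmT_ PST.All.UGr_ SieA_ Bnd_ Grw_
theorem RelH_ : St_RelH := thm_RelH SieH_ PST.All.MinP_ PST.All.HomI_ PST.All.Ell_ PST.All.OmT_ PST.All.EllZ_
theorem CoreH_ : St_CoreH := thm_CoreH RelH_ PST.All.Pts_ PST.All.DelX_ PST.All.DelPG_ PST.All.DelGR_ PST.All.Equi_ PST.All.UGr_ PST.All.UAl_ PST.All.UTr_ PST.All.Ell_ PST.All.OmT_ PST.All.EllZ_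
theorem EqK_ : St_EqK := thm_EqK PST.All.GopR_
theorem FldK_ : St_FldK := thm_FldK
theorem ExpK_ : St_ExpK := thm_ExpK CMK_ FldK_ EqK_ PST.All.ExpS_ PST.All.FinQ_
theorem HatK_ : St_HatK := thm_HatK PST.All.HatA_ PST.All.QRel_ PST.All.HatC_
theorem LatK_ : St_LatK := thm_LatK
theorem OrtK_ : St_OrtK := thm_OrtK
theorem NFK_ : St_NFK := thm_NFK AnK_ BasK_ OrtK_
theorem TrK_ : St_TrK := thm_TrK
theorem TorK_ : St_TorK := thm_TorK CoreH_ CocK_ LatK_ ExpK_ NFK_ HatK_ TrK_ BalK_ PST.All.MapE_ PST.All.UGr_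

end All

end DWC
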