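import Pool.Agent.PST.StN

/-!
# DWC: determinants of periods for imaginary quadratic multiplication (definitions)

Campaign: abelian fourfolds without the alternative (ii). The arithmetic group of a Hermitian
lattice over an imaginary quadratic field is not cocompact; the maximum principle is replaced by the
Phragmen-Lindeloef principle on half planes in the domain.
-/

set_option autoImplicit false

namespace DWC

open scoped ComplexConjugate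
open GAM (H E F pd pdl PLat IsTh OddTor IsDel Gro IsLat)
open PST

section defs

variable {α β μ : Type} [Fintype α] [Fintype β] [Fintype μ]
  [DecidableEq α] [DecidableEq β] [DecidableEq μ]

/-- The square of the euclidean norm. -/
noncomputable def nq {ι : Type} [Fintype ι] (x : ι → ℂ) : ℝ := ∑ p, ‖x p‖ ^ 2

/-- Cocompactness up to half planes: every point `w` near the compact set `K` lies on a
half plane `z` in the domain, `w = z(i)`, whose boundary is mapped into `K` by congruence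
subgroups. -/
def CocH (e : ℕ) (L : Submodule ℤ (Ix α β μ → ℂ)) : Prop :=
  ∀ n : ℕ, n ≠ 0 → ∃ (K : Set (α × β → ℂ)) (C : ℝ), IsCompact K ∧ K.Nonempty ∧ K ⊆ Om α β ∧
    ∀ p ∈ K, ∃ U ∈ nhds p, ∀ w ∈ U, ∃ z : ℂ → α × β → ℂ, z Complex.I = w ∧
      DifferentiableOn ℂ z {t | 0 < t.im} ∧ ContinuousOn z {t | 0 ≤ t.im} ∧
      (∀ t : ℂ, 0 ≤ t.im → ∃ ρ : ℝ, 0 ≤ ρ ∧ ρ < 1 ∧ z t ∈ OmC α β ρ ∧
        1 ≤ C * (1 - ρ) * (1 + ‖t‖) ^ 2) ∧
      ∀ t : ℝ, ∃ g : Matrix (α ⊕ β) (α ⊕ β) ℂ, IsU g ∧ g.det ^ e = 1 ∧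
        (∀ x : Ix α β μ → ℂ, x ∈ L ↔ act g x ∈ L) ∧
        (∀ l ∈ L, ∃ m ∈ L, act g l = l + (n : ℤ) • m) ∧ mob g (z t) ∈ K

/-- The scalar matrix `N i √d`. -/
noncomputable def kap (α β : Type) [DecidableEq α] [DecidableEq β] (d : ℚ) (N : ℕ) :
    Matrix (α ⊕ β) (α ⊕ β) ℂ := ((N : ℂ) * zd d) • 1

/-- `L` is stable under `N i √d`. -/
def KL (d : ℚ) (N : ℕ) (L : Submodule ℤ (Ix α β μ → ℂ)) : Prop :=
  ∀ l ∈ L, act (kap α β d N) l ∈ L

/-- The lattice `g⁻¹ L` has no non zero vector of norm less than `ε`. -/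
def Sh (L : Submodule ℤ (Ix α β μ → ℂ)) (g : Matrix (α ⊕ β) (α ⊕ β) ℂ) (ε : ℝ) : Prop :=
  ∀ x : Ix α β μ → ℂ, x ≠ 0 → act g x ∈ L → ε ^ 2 ≤ nq x

/-- The congruence subgroup. -/
structure Gam (e n : ℕ) (L : Submodule ℤ (Ix α β μ → ℂ)) (γ : Matrix (α ⊕ β) (α ⊕ β) ℂ) :
    Prop where
  uni : IsU γ
  det : γ.det ^ e = 1
  lat : ∀ x : Ix α β μ → ℂ, x ∈ L ↔ act γ x ∈ L
  cong : ∀ l ∈ L, ∃ m ∈ L, act γ l = l + (n : ℤ) • m

/-- `P` is a Hermitian projection on a totally isotropic subspace. -/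
structure IsoP (P : Matrix (α ⊕ β) (α ⊕ β) ℂ) : Prop where
  herm : P.conjTranspose = P
  idem : P * P = P
  iso : P * Jm α β * P = 0

/-- The half plane attached to the cusp `P`. -/
noncomputable def Bt (P : Matrix (α ⊕ β) (α ⊕ β) ℂ) (t : ℂ) : Matrix (α ⊕ β) (α ⊕ β) ℂ :=
  (1 + (Complex.I * t * (3 / 4)) • (P * Jm α β)) *
    ((1 / 2 : ℂ) • P + (2 : ℂ) • (Jm α β * P * Jm α β) + (1 - P - Jm α β * P * Jm α β))

/-- The compact set. -/
def Kc (L : Submodule ℤ (Ix α β μ → ℂ)) (ε R : ℝ) : Set (α × β → ℂ) :=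
  {w | ∃ g : Matrix (α ⊕ β) (α ⊕ β) ℂ, IsU g ∧ (∀ i j, ‖g i j‖ ≤ R) ∧ Sh L g ε ∧ mob g 0 = w}

end defs

end DWC
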