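import Pool.Agent.DWC.StG

/-!
# DWC: the gap in the sequence of the minima
-/

set_option autoImplicit false

namespace DWC

open scoped ComplexConjugate
open GAM (H E F pd pdl PLat IsTh OddTor IsDel Gro IsLat)
open PST

section core

variable {ι : Type} [Fintype ι] [DecidableEq ι]

/-- the form -/
private noncomputable def Gap_h (J : ι → ℂ) (X Y : EuclideanSpace ℂ ι) : ℂ :=
  ∑ s, J s * X s * conj (Y s)

omit [DecidableEq ι] in
private theorem Gap_add_left (J : ι → ℂ) (X X' Y : EuclideanSpace ℂ ι) :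
    Gap_h J (X + X') Y = Gap_h J X Y + Gap_h J X' Y := by
  unfold Gap_h
  rw [← Finset.sum_add_distrib]
  refine Finset.sum_congr rfl fun s _ => ?_
  rw [PiLp.add_apply]
  ring

omit [DecidableEq ι] in
private theorem Gap_add_right (J : ι → ℂ) (X Y Y' : EuclideanSpace ℂ ι) :
    Gap_h J X (Y + Y') = Gap_h J X Y + Gap_h J X Y' := by
  unfold Gap_h
  rw [← Finset.sum_add_distrib]
  refine Finset.sum_congr rfl fun s _ => ?_
  rw [PiLp.add_apply, map_add]
  ring

omit [DecidableEq ι] in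
private theorem Gap_smul_left (J : ι → ℂ) (c : ℂ) (X Y : EuclideanSpace ℂ ι) :
    Gap_h J (c • X) Y = c * Gap_h J X Y := by
  unfold Gap_h
  rw [Finset.mul_sum]
  refine Finset.sum_congr rfl fun s _ => ?_
  rw [PiLp.smul_apply, smul_eq_mul]
  ring

omit [DecidableEq ι] in
private theorem Gap_smul_right (J : ι → ℂ) (c : ℂ) (X Y : EuclideanSpace ℂ ι) :
    Gap_h J X (c • Y) = conj c * Gap_h J X Y := by
  unfold Gap_h
  rw [Finset.mul_sum]
  refine Finset.sum_congr rfl fun s _ => ?_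
  rw [PiLp.smul_apply, smul_eq_mul, map_mul]
  ring

omit [DecidableEq ι] in
private theorem Gap_zero_left (J : ι → ℂ) (Y : EuclideanSpace ℂ ι) : Gap_h J 0 Y = 0 := by
  have h := Gap_smul_left J 0 (0 : EuclideanSpace ℂ ι) Y
  rwa [zero_smul, zero_mul] at h

omit [DecidableEq ι] in
private theorem Gap_zero_right (J : ι → ℂ) (Y : EuclideanSpace ℂ ι) : Gap_h J Y 0 = 0 := by
  have h := Gap_smul_right J 0 Y (0 : EuclideanSpace ℂ ι)
  rwa [zero_smul, map_zero, zero_mul] at h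

omit [DecidableEq ι] in
private theorem Gap_norm (J : ι → ℂ) (hJ : ∀ s, ‖J s‖ ≤ 1) (X Y : EuclideanSpace ℂ ι) :
    ‖Gap_h J X Y‖ ≤ ‖X‖ * ‖Y‖ := by
  unfold Gap_h
  calc ‖∑ s, J s * X s * conj (Y s)‖ ≤ ∑ s, ‖J s * X s * conj (Y s)‖ := norm_sum_le _ _
    _ ≤ ∑ s, ‖X s‖ * ‖Y s‖ := by
        refine Finset.sum_le_sum fun s _ => ?_
        rw [norm_mul, norm_mul, RCLike.norm_conj]
        have h := mul_le_mul_of_nonneg_right (hJ s) (norm_nonneg (X s))
        rw [one_mul] at h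
        exact mul_le_mul_of_nonneg_right h (norm_nonneg _)
    _ ≤ √(∑ s, ‖X s‖ ^ 2) * √(∑ s, ‖Y s‖ ^ 2) := Real.sum_mul_le_sqrt_mul_sqrt _ _ _
    _ = ‖X‖ * ‖Y‖ := by rw [EuclideanSpace.norm_eq, EuclideanSpace.norm_eq]

omit [DecidableEq ι] in
private theorem Gap_iso (J : ι → ℂ) (S : Set (EuclideanSpace ℂ ι))
    (hS : ∀ X ∈ S, ∀ Y ∈ S, Gap_h J X Y = 0) :
    ∀ X ∈ Submodule.span ℂ S, ∀ Y ∈ Submodule.span ℂ S, Gap_h J X Y = 0 := by
  have h1 : ∀ X ∈ S, ∀ Y ∈ Submodule.span ℂ S, Gap_h J X Y = 0 := by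
    intro X hX Y hY
    induction hY using Submodule.span_induction with
    | mem Y hY => exact hS X hX Y hY
    | zero => exact Gap_zero_right J X
    | add Y Y' _ _ h h' => rw [Gap_add_right, h, h', add_zero]
    | smul c Y _ h => rw [Gap_smul_right, h, mul_zero]
  intro X hX Y hY
  induction hX using Submodule.span_induction with
  | mem X hX => exact h1 X hX Y hY
  | zero => exact Gap_zero_left J Y
  | add X X' _ _ h h' => rw [Gap_add_left, h, h', add_zero]
  | smul c X _ h => rw [Gap_smul_left, h, mul_zero]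

omit [DecidableEq ι] in
private theorem Gap_chain (W : ℕ → Submodule ℂ (EuclideanSpace ℂ ι)) (hW : ∀ k, W k ≤ W (k + 1)) :
    ∃ k, k ≤ Fintype.card ι ∧ W k = W (k + 1) := by
  by_contra hcon
  have h0 : ∀ k, k ≤ Fintype.card ι → W k < W (k + 1) := fun k hk =>
    lt_of_le_of_ne (hW k) fun h => hcon ⟨k, hk, h⟩
  have h1 : ∀ k, k ≤ Fintype.card ι + 1 → k ≤ Module.finrank ℂ (W k) := by
    intro k
    induction k with
    | zero => intro _; exact Nat.zero_le _
    | succ k ih =>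
      intro hk
      have h2 := ih (by omega)
      have h3 := Submodule.finrank_lt_finrank_of_lt (h0 k (by omega))
      omega
  have h4 := h1 _ le_rfl
  have h5 := Submodule.finrank_le (W (Fintype.card ι + 1))
  rw [finrank_euclideanSpace] at h5
  omega

omit [DecidableEq ι] in
private theorem Gap_coef (S : Set (EuclideanSpace ℂ ι)) (X : EuclideanSpace ℂ ι)
    (hX : X ∈ Submodule.span ℂ S) : ∃ b : Finset (EuclideanSpace ℂ ι), (∀ s ∈ b, s ∈ S) ∧
    b.card ≤ Fintype.card ι ∧ ∃ c : EuclideanSpace ℂ ι → ℂ, ∑ s ∈ b, c s • s = X := by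
  obtain ⟨b, hbS, hspan, hli⟩ := exists_linearIndependent ℂ S
  have hfin : b.Finite := hli.setFinite
  refine ⟨hfin.toFinset, fun s hs => hbS (hfin.mem_toFinset.1 hs), ?_, ?_⟩
  · have h1 : Module.finrank ℂ (Submodule.span ℂ b) = hfin.toFinset.card := by
      have h2 := hfin.fintype
      rw [finrank_span_set_eq_card hli]
      congr 1
      ext x
      simp
    have h3 := Submodule.finrank_le (Submodule.span ℂ b)
    rw [finrank_euclideanSpace, h1] at h3
    exact h3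
  · rw [← hspan] at hX
    have h2 : X ∈ Submodule.span ℂ ((hfin.toFinset : Finset _) : Set (EuclideanSpace ℂ ι)) := by
      rw [hfin.coe_toFinset]
      exact hX
    obtain ⟨c, -, hc⟩ := Submodule.mem_span_finset.1 h2
    exact ⟨c, hc⟩

/-- the constants -/
private noncomputable def Gap_c (n : ℕ) (κ : ℝ) : ℕ → ℝ
  | 0 => 1
  | k + 1 => 2 + (n * (1 + κ) + 1) * Gap_c n κ k

private theorem Gap_c_pos (n : ℕ) (κ : ℝ) (hκ : 0 < κ) : ∀ k, 1 ≤ Gap_c n κ k
  | 0 => le_rfl
  | k + 1 => by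
    have h := Gap_c_pos n κ hκ k
    have h1 : 0 ≤ (n * (1 + κ) + 1) * Gap_c n κ k := by positivity
    show 1 ≤ 2 + (n * (1 + κ) + 1) * Gap_c n κ k
    linarith

private theorem Gap_c_succ (n : ℕ) (κ : ℝ) (hκ : 0 < κ) (k : ℕ) :
    Gap_c n κ k ≤ Gap_c n κ (k + 1) := by
  have h := Gap_c_pos n κ hκ k
  have h1 : 0 ≤ (n * (1 + κ)) * Gap_c n κ k := by positivity
  show Gap_c n κ k ≤ 2 + (n * (1 + κ) + 1) * Gap_c n κ k
  linarith

private theorem Gap_c_mono (n : ℕ) (κ : ℝ) (hκ : 0 < κ) : Monotone (Gap_c n κ) :=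
  monotone_nat_of_le_succ (Gap_c_succ n κ hκ)

private theorem Gap_int (x : ℝ) (k : ℤ) (hk : x = k) (hx : |x| < 1) : x = 0 := by
  rw [hk] at hx ⊢
  rw [← Int.cast_abs] at hx
  have h : |k| < 1 := by exact_mod_cast hx
  rw [Int.abs_lt_one_iff.1 h, Int.cast_zero]

omit [DecidableEq ι] in
private theorem Gap_core (κ : ℝ) (hκ : 0 < κ) : ∃ ε₀ : ℝ, 0 < ε₀ ∧ ∀ ε : ℝ, 0 < ε → ε ≤ ε₀ →
    ∀ J : ι → ℂ, (∀ s, ‖J s‖ ≤ 1) → ∀ Λ : AddSubgroup (EuclideanSpace ℂ ι),
    (∀ X ∈ Λ, ((κ : ℂ) * Complex.I) • X ∈ Λ) →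
    (∀ X ∈ Λ, ∀ Y ∈ Λ, ∃ k : ℤ, (Gap_h J X Y).im = k) →
    ∃ W : Submodule ℂ (EuclideanSpace ℂ ι), (∀ X ∈ W, ∀ Y ∈ W, Gap_h J X Y = 0) ∧
      ∀ X ∈ Λ, X ∈ W ∨ 2 * ε ≤ ‖X - W.starProjection X‖ := by
  set n := Fintype.card ι with hn
  set D := Gap_c n κ (n + 1) with hD
  have hD1 : 1 ≤ D := Gap_c_pos n κ hκ (n + 1)
  have hD0 : 0 < D := by linarith
  refine ⟨1 / (D * (2 + κ)), by positivity, ?_⟩
  intro ε hε hε0 J hJ Λ hΛκ hΛi
  have hDε : (D * ε) * (2 + κ) ≤ 1 := by
    rw [le_div_iff₀ (by positivity)] at hε0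
    linarith
  have hDε0 : 0 < D * ε := by positivity
  have hsq : (D * ε) * (D * ε) * (1 + κ) < 1 := by
    have h1 : D * ε < 1 := by nlinarith
    have h2 : (D * ε) * (1 + κ) < 1 := by nlinarith
    have h3 : (D * ε) * ((D * ε) * (1 + κ)) < 1 * 1 :=
      mul_lt_mul'' h1 h2 hDε0.le (by positivity)
    linarith
  -- the filtration
  let S : ℕ → Set (EuclideanSpace ℂ ι) := fun k => {X | X ∈ Λ ∧ ‖X‖ ≤ Gap_c n κ k * ε}
  let W : ℕ → Submodule ℂ (EuclideanSpace ℂ ι) := fun k => Submodule.span ℂ (S k)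
  have hSmono : ∀ k, S k ⊆ S (k + 1) := fun k X hX =>
    ⟨hX.1, hX.2.trans (mul_le_mul_of_nonneg_right (Gap_c_succ n κ hκ k) hε.le)⟩
  obtain ⟨k, hk, hWk⟩ := Gap_chain W fun k => Submodule.span_mono (hSmono k)
  have hiso : ∀ X ∈ S k, ∀ Y ∈ S k, Gap_h J X Y = 0 := by
    intro X hX Y hY
    have hck : Gap_c n κ k ≤ D := Gap_c_mono n κ hκ (by omega)
    have hXn : ‖X‖ ≤ D * ε := hX.2.trans (mul_le_mul_of_nonneg_right hck hε.le)
    have hYn : ‖Y‖ ≤ D * ε := hY.2.trans (mul_le_mul_of_nonneg_right hck hε.le)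
    have hnorm : ‖Gap_h J X Y‖ ≤ (D * ε) * (D * ε) :=
      (Gap_norm J hJ X Y).trans (mul_le_mul hXn hYn (norm_nonneg _) hDε0.le)
    have hlt : ‖Gap_h J X Y‖ * (1 + κ) < 1 :=
      lt_of_le_of_lt (mul_le_mul_of_nonneg_right hnorm (by linarith)) hsq
    have hnn := norm_nonneg (Gap_h J X Y)
    have him : (Gap_h J X Y).im = 0 := by
      obtain ⟨m, hm⟩ := hΛi X hX.1 Y hY.1
      refine Gap_int _ m hm ?_
      refine lt_of_le_of_lt (Complex.abs_im_le_norm _) ?_
      nlinarith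
    have hre : κ * (Gap_h J X Y).re = 0 := by
      obtain ⟨m, hm⟩ := hΛi _ (hΛκ X hX.1) Y hY.1
      have h1 : (Gap_h J (((κ : ℂ) * Complex.I) • X) Y).im = κ * (Gap_h J X Y).re := by
        rw [Gap_smul_left]
        simp [Complex.mul_im]
      rw [h1] at hm
      refine Gap_int _ m hm ?_
      rw [abs_mul, abs_of_pos hκ]
      have h2 := Complex.abs_re_le_norm (Gap_h J X Y)
      nlinarith
    have hre0 : (Gap_h J X Y).re = 0 := by
      rcases mul_eq_zero.1 hre with h | h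
      · exact absurd h hκ.ne'
      · exact h
    exact Complex.ext hre0 him
  refine ⟨W k, Gap_iso J (S k) hiso, ?_⟩
  intro X hX
  by_cases hlt : 2 * ε ≤ ‖X - (W k).starProjection X‖
  · exact Or.inr hlt
  left
  have hlt' : ‖X - (W k).starProjection X‖ < 2 * ε := lt_of_not_ge hlt
  have hPX : (W k).starProjection X ∈ W k := Submodule.starProjection_apply_mem _ _
  obtain ⟨b, hbS, hbc, c, hc⟩ := Gap_coef (S k) _ hPX
  -- rounding
  let a : EuclideanSpace ℂ ι → ℤ := fun s => ⌊(c s).re⌋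
  let a' : EuclideanSpace ℂ ι → ℤ := fun s => ⌊(c s).im / κ⌋
  let T : EuclideanSpace ℂ ι :=
    ∑ s ∈ b, (a s • s + a' s • (((κ : ℂ) * Complex.I) • s))
  have hTΛ : T ∈ Λ := by
    refine Λ.sum_mem fun s hs => ?_
    exact Λ.add_mem (Λ.zsmul_mem (hbS s hs).1 _) (Λ.zsmul_mem (hΛκ s (hbS s hs).1) _)
  have hTW : T ∈ W k := by
    refine Submodule.sum_mem _ fun s hs => ?_
    have hsW : s ∈ W k := Submodule.subset_span (hbS s hs)
    exact Submodule.add_mem _ (zsmul_mem hsW _) (zsmul_mem (Submodule.smul_mem _ _ hsW) _)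
  have hdiff : X - T = (X - (W k).starProjection X) +
      ∑ s ∈ b, (c s - a s - a' s * ((κ : ℂ) * Complex.I)) • s := by
    have h1 : ∑ s ∈ b, (c s - a s - a' s * ((κ : ℂ) * Complex.I)) • s =
        (W k).starProjection X - T := by
      rw [← hc]
      show _ = ∑ s ∈ b, c s • s - ∑ s ∈ b, (a s • s + a' s • (((κ : ℂ) * Complex.I) • s))
      rw [← Finset.sum_sub_distrib]
      refine Finset.sum_congr rfl fun s _ => ?_
      rw [sub_smul, sub_smul, mul_smul, ← Int.cast_smul_eq_zsmul ℂ (a s) s,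
        ← Int.cast_smul_eq_zsmul ℂ (a' s), sub_sub]
    rw [h1]
    abel
  have hcoef : ∀ s, ‖c s - a s - a' s * ((κ : ℂ) * Complex.I)‖ ≤ 1 + κ := by
    intro s
    have h1 : c s - a s - a' s * ((κ : ℂ) * Complex.I) =
        ((Int.fract (c s).re : ℝ) : ℂ) + ((Int.fract ((c s).im / κ) * κ : ℝ) : ℂ) * Complex.I := by
      apply Complex.ext
      · simp [a, a']
      · have h9 : (c s).im - ⌊(c s).im / κ⌋ * κ = Int.fract ((c s).im / κ) * κ := by
          rw [← Int.self_sub_floor, sub_mul, div_mul_cancel₀ _ hκ.ne']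
        simp [a, a', h9]
    rw [h1]
    refine (norm_add_le _ _).trans ?_
    rw [norm_mul, Complex.norm_I, mul_one, Complex.norm_real, Complex.norm_real,
      Real.norm_of_nonneg (Int.fract_nonneg _),
      Real.norm_of_nonneg (mul_nonneg (Int.fract_nonneg _) hκ.le)]
    have h2 := (Int.fract_lt_one (c s).re).le
    have h3 := mul_le_mul_of_nonneg_right (Int.fract_lt_one ((c s).im / κ)).le hκ.le
    linarith
  have hXT : ‖X - T‖ ≤ Gap_c n κ (k + 1) * ε := by
    have h0 := Gap_c_pos n κ hκ k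
    rw [hdiff]
    refine (norm_add_le _ _).trans ?_
    have h1 : ‖∑ s ∈ b, (c s - a s - a' s * ((κ : ℂ) * Complex.I)) • s‖ ≤
        n * ((1 + κ) * (Gap_c n κ k * ε)) := by
      refine (norm_sum_le _ _).trans ?_
      have h2 : ∀ s ∈ b, ‖(c s - a s - a' s * ((κ : ℂ) * Complex.I)) • s‖ ≤
          (1 + κ) * (Gap_c n κ k * ε) := by
        intro s hs
        rw [norm_smul]
        exact mul_le_mul (hcoef s) (hbS s hs).2 (norm_nonneg _) (by linarith)
      refine (Finset.sum_le_card_nsmul b _ _ h2).trans ?_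
      rw [nsmul_eq_mul]
      have h3 : (b.card : ℝ) ≤ n := by exact_mod_cast hbc
      exact mul_le_mul_of_nonneg_right h3 (by positivity)
    have h4 : 0 ≤ Gap_c n κ k * ε := by positivity
    show _ ≤ (2 + (n * (1 + κ) + 1) * Gap_c n κ k) * ε
    nlinarith
  have hXTW : X - T ∈ W k := by
    rw [hWk]
    exact Submodule.subset_span ⟨Λ.sub_mem hX hTΛ, hXT⟩
  have h := Submodule.add_mem _ hXTW hTW
  rwa [sub_add_cancel] at h

end core

section final

variable {α β : Type} [Fintype α] [Fintype β] [DecidableEq α] [DecidableEq β]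

/-- the coordinates `X` -/
private def Gap_v (x : Ix α β Unit → ℂ) : EuclideanSpace ℂ (α ⊕ β) :=
  WithLp.toLp 2 fun s => sw x (s, ())

/-- the signs -/
private def Gap_J (α β : Type) (s : α ⊕ β) : ℂ := Sum.elim (fun _ => 1) (fun _ => -1) s

omit [Fintype α] [Fintype β] [DecidableEq α] [DecidableEq β] in
private theorem Gap_v_apply (x : Ix α β Unit → ℂ) (s : α ⊕ β) : Gap_v x s = sw x (s, ()) := rfl

omit [Fintype α] [Fintype β] [DecidableEq α] [DecidableEq β] in
private theorem Gap_v_add (x y : Ix α β Unit → ℂ) : Gap_v (x + y) = Gap_v x + Gap_v y := by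
  ext s
  rcases s with i | j
  · simp [Gap_v, sw]
  · simp [Gap_v, sw]

omit [Fintype α] [Fintype β] [DecidableEq α] [DecidableEq β] in
private theorem Gap_v_inj (x y : Ix α β Unit → ℂ) (h : Gap_v x = Gap_v y) : x = y := by
  funext p
  obtain ⟨s, u⟩ := p
  have h1 : Gap_v x s = Gap_v y s := by rw [h]
  rw [Gap_v_apply, Gap_v_apply] at h1
  rcases s with i | j
  · exact h1
  · exact star_injective h1

omit [DecidableEq α] [DecidableEq β] in
private theorem Gap_nq (x : Ix α β Unit → ℂ) : nq x = ‖Gap_v x‖ ^ 2 := by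
  rw [EuclideanSpace.norm_sq_eq, nq, Fintype.sum_prod_type]
  refine Finset.sum_congr rfl fun s _ => ?_
  rw [Fintype.sum_unique]
  rcases s with i | j
  · rfl
  · rw [Gap_v_apply]
    show _ = ‖conj (x (Sum.inr j, ()))‖ ^ 2
    rw [RCLike.norm_conj]

omit [DecidableEq α] [DecidableEq β] in
private theorem Gap_E (x y : Ix α β Unit → ℂ) :
    E x y = (Gap_h (Gap_J α β) (Gap_v x) (Gap_v y)).im := by
  unfold E H Gap_h
  rw [Complex.im_sum, Complex.im_sum, Fintype.sum_prod_type]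
  refine Finset.sum_congr rfl fun s _ => ?_
  rw [Fintype.sum_unique]
  rcases s with i | j
  · rw [Gap_v_apply, Gap_v_apply]
    show (x (Sum.inl i, ()) * conj (y (Sum.inl i, ()))).im =
      (1 * x (Sum.inl i, ()) * conj (y (Sum.inl i, ()))).im
    rw [one_mul]
  · rw [Gap_v_apply, Gap_v_apply]
    show (x (Sum.inr j, ()) * conj (y (Sum.inr j, ()))).im =
      (-1 * conj (x (Sum.inr j, ())) * conj (conj (y (Sum.inr j, ())))).im
    simp only [Complex.mul_im, Complex.mul_re, Complex.conj_re, Complex.conj_im, Complex.neg_re,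
      Complex.neg_im, Complex.one_re, Complex.one_im]
    ring

private theorem Gap_act (g : Matrix (α ⊕ β) (α ⊕ β) ℂ) (x : Ix α β Unit → ℂ) :
    Gap_v (act g x) = Matrix.toEuclideanCLM (n := α ⊕ β) (𝕜 := ℂ) g (Gap_v x) := by
  ext s
  rw [Matrix.ofLp_toEuclideanCLM, Gap_v_apply]
  have h : sw (act g x) = mu g (sw x) := by
    funext p
    obtain ⟨t, u⟩ := p
    rcases t with i | j
    · rfl
    · show conj (conj (mu g (sw x) (Sum.inr j, u))) = _
      rw [Complex.conj_conj]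
  rw [h]
  rfl

end final

theorem thm_Gap : St_Gap := by
  intro α β _ _ _ _ d N hd hN
  have hκ : (0 : ℝ) < N * Real.sqrt d := by
    have h1 : (0 : ℝ) < (d : ℝ) := by exact_mod_cast hd
    have h2 : (0 : ℝ) < N := by exact_mod_cast Nat.pos_of_ne_zero hN
    have h3 := Real.sqrt_pos.2 h1
    positivity
  obtain ⟨ε₀, hε₀, hcore⟩ := Gap_core (ι := α ⊕ β) (N * Real.sqrt d) hκ
  refine ⟨ε₀, hε₀, fun ε hε hεε L hint hKL => ?_⟩
  have hcast : (((N * Real.sqrt d : ℝ) : ℂ) * Complex.I) = (N : ℂ) * zd d := by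
    unfold zd
    push_cast
    ring
  let f : (Ix α β Unit → ℂ) →+ EuclideanSpace ℂ (α ⊕ β) := AddMonoidHom.mk' Gap_v Gap_v_add
  let Λ : AddSubgroup (EuclideanSpace ℂ (α ⊕ β)) := L.toAddSubgroup.map f
  have hJ : ∀ s, ‖Gap_J α β s‖ ≤ 1 := by
    intro s
    rcases s with i | j
    · simp [Gap_J]
    · simp [Gap_J]
  obtain ⟨W, hW, hgap⟩ := hcore ε hε hεε (Gap_J α β) hJ Λ (by
    rintro _ ⟨x, hx, rfl⟩
    refine ⟨act (kap α β d N) x, hKL x hx, ?_⟩
    show Gap_v (act (kap α β d N) x) = _ • Gap_v x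
    rw [Gap_act, hcast]
    ext s
    rw [Matrix.ofLp_toEuclideanCLM]
    unfold kap
    rw [Matrix.smul_mulVec, Matrix.one_mulVec]
    rfl) (by
    rintro _ ⟨x, hx, rfl⟩ _ ⟨y, hy, rfl⟩
    obtain ⟨k, hk⟩ := hint x hx y hy
    exact ⟨k, by rw [← hk]; exact (Gap_E x y).symm⟩)
  set Φ := Matrix.toEuclideanCLM (n := α ⊕ β) (𝕜 := ℂ) with hΦ
  set P : Matrix (α ⊕ β) (α ⊕ β) ℂ := Φ.symm W.starProjection with hP
  have hΦP : Φ P = W.starProjection := Φ.apply_symm_apply _
  have hinj : ∀ A B : Matrix (α ⊕ β) (α ⊕ β) ℂ, Φ A = Φ B → A = B := fun A B h =>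
    Φ.injective h
  have hmul : ∀ A B : Matrix (α ⊕ β) (α ⊕ β) ℂ, Φ (A * B) = Φ A * Φ B := fun A B =>
    Φ.map_mul' A B
  have hst : ∀ A : Matrix (α ⊕ β) (α ⊕ β) ℂ, Φ (star A) = star (Φ A) := fun A =>
    Φ.map_star' A
  have hstar : P.conjTranspose = P := by
    apply hinj
    show Φ (star P) = Φ P
    rw [hst, hΦP]
    exact (isSelfAdjoint_starProjection W).star_eq
  have hcol : ∀ b s, P s b = (W.starProjection (EuclideanSpace.single b 1)) s := by
    intro b s
    rw [← hΦP, Matrix.ofLp_toEuclideanCLM]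
    show P s b = (P.mulVec (Pi.single b 1)) s
    rw [Matrix.mulVec_single_one]
    rfl
  refine ⟨P, ⟨hstar, ?_, ?_⟩, ?_⟩
  · apply hinj
    rw [hmul, hΦP]
    exact Submodule.isIdempotentElem_starProjection W
  · ext a b
    rw [Matrix.mul_assoc, Matrix.mul_apply, Matrix.zero_apply]
    have h1 := hW _ (Submodule.starProjection_apply_mem W (EuclideanSpace.single b 1)) _
      (Submodule.starProjection_apply_mem W (EuclideanSpace.single a 1))
    rw [← h1]
    unfold Gap_h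
    refine Finset.sum_congr rfl fun s _ => ?_
    rw [← hcol, ← hcol]
    have h2 : P a s = conj (P s a) := by
      have h3 : P.conjTranspose a s = P a s := by rw [hstar]
      rw [← h3]
      rfl
    have h4 : (Jm α β * P) s b = Gap_J α β s * P s b := by
      have h5 : Jm α β = Matrix.diagonal (Gap_J α β) := by
        ext i j
        rcases i with i | i <;> rcases j with j | j
        · simp [Jm, Gap_J, Matrix.one_apply, Matrix.diagonal_apply]
        · simp [Jm, Gap_J, Matrix.diagonal_apply]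
        · simp [Jm, Gap_J, Matrix.diagonal_apply]
        · by_cases hij : i = j
          · simp [Jm, Gap_J, Matrix.one_apply, Matrix.diagonal_apply, hij]
          · simp [Jm, Gap_J, Matrix.one_apply, Matrix.diagonal_apply, hij]
      rw [h5, Matrix.diagonal_mul]
    rw [h2, h4]
    ring
  · intro x hx
    rcases hgap (Gap_v x) ⟨x, hx, rfl⟩ with h | h
    · left
      apply Gap_v_inj
      rw [Gap_act, ← hΦ, hΦP]
      exact Submodule.starProjection_eq_self_iff.2 h
    · right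
      rw [Gap_nq, Gap_act, ← hΦ, map_sub, map_one, hΦP]
      have h1 : (1 - W.starProjection) (Gap_v x) = Gap_v x - W.starProjection (Gap_v x) := rfl
      rw [h1]
      exact pow_le_pow_left₀ (by positivity) h 2

end DWC
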