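import Pool.Agent.DWC.StG
import Pool.Agent.Helper7.AFT.Defs

/-!
# DWC: frozen statements, abelian varieties with imaginary quadratic multiplication
-/

set_option autoImplicit false

namespace DWC

open scoped ComplexConjugate
open GAM (H E F pd pdl PLat IsTh OddTor IsDel Gro IsLat Pre QD qd jac HasExp CMF CMT IsExp IsCM)
open Pool.Agent.GPC (AbVar hermForm bilForm)
open Module
open PST

/-! ## The CM point -/

section defs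

variable {α β : Type} [Fintype α] [Fintype β] [DecidableEq α] [DecidableEq β]

/-- `L` consists of the points `r_s (a_s + b_s i √d / q_s)`, `a_s` and `b_s` integers. -/
def IsLK (d : ℚ) (r : α ⊕ β → ℝ) (q : α ⊕ β → ℚ) (L : Submodule ℤ (Ix α β Unit → ℂ)) : Prop :=
  ∀ x, x ∈ L ↔ ∃ a b : α ⊕ β → ℤ, x = sw fun p =>
    (r p.1 : ℂ) * ((a p.1 : ℂ) + (b p.1 : ℂ) / (q p.1 : ℂ) * zd d)

/-- The numbers `r_s`. -/
structure IsR (d : ℚ) (r : α ⊕ β → ℝ) (q : α ⊕ β → ℚ) : Prop where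
  pos : 0 < d
  rpos : ∀ s, 0 < r s
  rq : ∀ s, (q s : ℝ) = r s ^ 2 * Real.sqrt (d : ℝ)

end defs

/-- [LatK] the lattice of the CM point -/
def St_LatK : Prop := ∀ (α β : Type) [Fintype α] [Fintype β] [DecidableEq α] [DecidableEq β]
  (d : ℚ) (r : α ⊕ β → ℝ) (q : α ⊕ β → ℚ), IsR d r q →
  ∃ (L : Submodule ℤ (Ix α β Unit → ℂ)) (χ : (Ix α β Unit → ℂ) → ℂ) (N : ℕ), PLat L χ ∧
    IsLK d r q L ∧ N ≠ 0 ∧ KL d N L

/-- [CMK] complex multiplication at the CM point -/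
def St_CMK : Prop := ∀ (α β : Type) [Fintype α] [Fintype β] [DecidableEq α] [DecidableEq β]
  (d : ℚ) (r : α ⊕ β → ℝ) (q : α ⊕ β → ℚ) (L : Submodule ℤ (Ix α β Unit → ℂ)), IsR d r q →
  IsLK d r q L → ∃ s, IsCM L s

/-- [FldK] the imaginary quadratic field -/
def St_FldK : Prop := ∀ d : ℚ, 0 < d → ∃ (K : Type) (_ : Field K) (_ : NumberField K)
  (c : K →+* K) (φ : Unit ⊕ Empty → K →+* ℂ) (J₀ : K), CMF K c ∧ CMT K c φ ∧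
  (∀ i, φ (Sum.inl i) J₀ = zd d) ∧ ∃ D : ℕ, D ≠ 0 ∧
    ∀ (s : Unit ⊕ Empty) (x : NumberField.RingOfIntegers K), ∃ a b : ℤ,
      φ s ((D : K) * (x : K)) = (a : ℂ) + (b : ℂ) * zd d

/-- [EqK] the exponents are equal -/
def St_EqK : Prop := ∀ (α β : Type) [Fintype α] [Fintype β] [DecidableEq α] [DecidableEq β]
  (d : ℚ) (r : α ⊕ β → ℝ) (q : α ⊕ β → ℚ) (δ : Derivation ℚ ℂ ℂ)
  (L : Submodule ℤ (Ix α β Unit → ℂ)) (χ θ : (Ix α β Unit → ℂ) → ℂ)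
  (A : Ix α β Unit → ℂ) (k : ℂ), IsR d r q → PLat L χ → IsLK d r q L → IsTh L χ θ →
  (∃ v, θ v ≠ 0) → HasExp δ L θ A k → (∀ p p', A p = A p') ∧ ∀ p, HasHat δ L θ k
    (A p • (1 : Matrix α α ℂ)) (A p • (1 : Matrix β β ℂ)) 0

/-- [ExpK] the exponents of the CM point -/
def St_ExpK : Prop := ∀ (α β : Type) [Fintype α] [Fintype β] [DecidableEq α] [DecidableEq β]
  (d : ℚ) (r : α ⊕ β → ℝ) (q : α ⊕ β → ℚ) (L : Submodule ℤ (Ix α β Unit → ℂ))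
  (χ θ : (Ix α β Unit → ℂ) → ℂ), IsR d r q → Nonempty (α ⊕ β) → PLat L χ → IsLK d r q L →
  IsTh L χ θ → (∃ v, θ v ≠ 0) → ∃ A : Derivation ℚ ℂ ℂ → ℂ,
    (∃ δ : Derivation ℚ ℂ ℂ, A δ - δ Real.pi / (2 * Real.pi) ≠ 0) ∧
    ∀ δ, ∃ k : ℂ, HasHat δ L θ k (A δ • (1 : Matrix α α ℂ)) (A δ • (1 : Matrix β β ℂ)) 0

/-! ## Normal form -/

/-- `J`, `J^2 = -d < 0`, is an endomorphism with adjoint `-J`. -/
structure IsKs (X : AbVar) (d : ℚ) (J : Module.End ℂ X.H1) : Prop where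
  pos : 0 < d
  endo : X.IsEnd J
  sq : ∀ v, J (J v) = (-(d : ℂ)) • v
  adj : ∀ u v, X.pol (J u) v = - X.pol u (J v)

/-- The analytic representation. -/
structure LJ (g : ℕ) (d : ℚ) (Hm : Matrix (Fin g) (Fin g) ℂ) (W : Submodule ℚ (Fin g → ℂ))
    (J : Matrix (Fin g) (Fin g) ℂ) : Prop where
  pos : 0 < d
  herm : Hm.IsHermitian
  pd : ∀ z, z ≠ 0 → 0 < (hermForm Hm z z).re
  alg : ∀ i j, IsAlgebraic ℚ (J i j)
  J2 : J * J = -((d : ℂ) • (1 : Matrix (Fin g) (Fin g) ℂ))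
  Jadj : ∀ z w, hermForm Hm (J.mulVec z) w = -hermForm Hm z (J.mulVec w)
  stab : ∀ w ∈ W, J.mulVec w ∈ W
  basis : ∃ b : Basis (Fin g ⊕ Fin g) ℚ W, LinearIndependent ℝ fun i => (b i : Fin g → ℂ)
  rat : ∀ w ∈ W, ∀ w' ∈ W, ∃ q : ℚ, (hermForm Hm w w').im = q

/-- [AnK] the analytic representation of `J` -/
def St_AnK : Prop := ∀ (X : AbVar) (d : ℚ) (J : Module.End ℂ X.H1), IsKs X d J →
  ∃ (W : Submodule ℚ (Fin X.g → ℂ)) (Jz : Matrix (Fin X.g) (Fin X.g) ℂ), LJ X.g d X.H W Jz ∧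
    (∀ z, z ∈ W ↔ ∃ n : ℕ, n ≠ 0 ∧ (n : ℤ) • z ∈ X.Λ) ∧
    ∀ v, X.zz (J v) = Jz.mulVec (X.zz v)

/-- Coordinates adapted to the eigenspaces of `J`. -/
structure Crd {g : ℕ} (d : ℚ) (Hm Jz : Matrix (Fin g) (Fin g) ℂ) (α β : Type) [Fintype α]
    [Fintype β] [DecidableEq α] [DecidableEq β] (T : Matrix (Ix α β Unit) (Fin g) ℂ)
    (S : Matrix (Fin g) (Ix α β Unit) ℂ) (Tp : Matrix α α ℂ) (Tm : Matrix β β ℂ)
    (Ta : Matrix (Ix α β Unit) (Fin g) ℂ) : Prop where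
  ts : T * S = 1
  st : S * T = 1
  herm : ∀ z w, hermForm Hm z w = H (T.mulVec z) (T.mulVec w)
  dp : Tp.det ≠ 0
  dm : Tm.det ≠ 0
  fac : T = blk Unit Tp Tm * Ta
  alg : ∀ q a, IsAlgebraic ℚ (Ta q a)
  jj : ∀ z, T.mulVec (Jz.mulVec z) =
    (rgt α β (zd d • (1 : Matrix Unit Unit ℂ))).mulVec (T.mulVec z)

/-- [BasK] adapted coordinates -/
def St_BasK : Prop := ∀ (g : ℕ) (d : ℚ) (Hm : Matrix (Fin g) (Fin g) ℂ)
  (W : Submodule ℚ (Fin g → ℂ)) (J : Matrix (Fin g) (Fin g) ℂ), LJ g d Hm W J →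
  ∃ (α β : Type) (_ : Fintype α) (_ : Fintype β) (_ : DecidableEq α) (_ : DecidableEq β)
    (T : Matrix (Ix α β Unit) (Fin g) ℂ) (S : Matrix (Fin g) (Ix α β Unit) ℂ)
    (Tp : Matrix α α ℂ) (Tm : Matrix β β ℂ) (Ta : Matrix (Ix α β Unit) (Fin g) ℂ),
    Crd d Hm J α β T S Tp Tm Ta

/-- [OrtK] orthogonal bases of Hermitian spaces over `ℚ(√-d)` -/
def St_OrtK : Prop := ∀ (α β : Type) [Fintype α] [Fintype β] [DecidableEq α] [DecidableEq β]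
  (d : ℚ) (W : Submodule ℚ (α ⊕ β → ℂ)), 0 < d → (∀ w ∈ W, zd d • w ∈ W) →
  (∃ b : Basis ((α ⊕ β) ⊕ (α ⊕ β)) ℚ W, LinearIndependent ℝ fun i => (b i : α ⊕ β → ℂ)) →
  (∀ w ∈ W, ∀ w' ∈ W, ∃ q : ℚ, (star w' ⬝ᵥ (Jm α β).mulVec w).im = q) →
  ∃ (g : Matrix (α ⊕ β) (α ⊕ β) ℂ) (r : α ⊕ β → ℝ) (q : α ⊕ β → ℚ), IsU g ∧ IsR d r q ∧
    ∀ w, w ∈ W ↔ ∃ a b : α ⊕ β → ℚ,
      w = g.mulVec fun s => (r s : ℂ) * ((a s : ℂ) + (b s : ℂ) * zd d)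

/-- Normal form. -/
structure NFK (X : AbVar) (d : ℚ) (J : Module.End ℂ X.H1) (α β : Type) [Fintype α]
    [Fintype β] [DecidableEq α] [DecidableEq β] (T : Matrix (Ix α β Unit) (Fin X.g) ℂ)
    (S : Matrix (Fin X.g) (Ix α β Unit) ℂ) (Tp : Matrix α α ℂ) (Tm : Matrix β β ℂ)
    (Ta : Matrix (Ix α β Unit) (Fin X.g) ℂ) (g : Matrix (α ⊕ β) (α ⊕ β) ℂ)
    (r : α ⊕ β → ℝ) (q : α ⊕ β → ℚ) : Prop where
  ts : T * S = 1
  st : S * T = 1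
  herm : ∀ z w, hermForm X.H z w = H (T.mulVec z) (T.mulVec w)
  dp : Tp.det ≠ 0
  dm : Tm.det ≠ 0
  fac : T = blk Unit Tp Tm * Ta
  alg : ∀ q a, IsAlgebraic ℚ (Ta q a)
  uni : IsU g
  det : g.det = 1
  isR : IsR d r q
  lat : ∀ z, (∃ n : ℕ, n ≠ 0 ∧ (n : ℤ) • z ∈ X.Λ) ↔ ∃ a b : α ⊕ β → ℚ, T.mulVec z =
    act g (sw fun p : Ix α β Unit => (r p.1 : ℂ) * ((a p.1 : ℂ) + (b p.1 : ℂ) * zd d))
  jj : ∀ v, T.mulVec (X.zz (J v)) =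
    (rgt α β (zd d • (1 : Matrix Unit Unit ℂ))).mulVec (T.mulVec (X.zz v))

/-- [NFK] the normal form exists -/
def St_NFK : Prop := ∀ (X : AbVar) (d : ℚ) (J : Module.End ℂ X.H1), IsKs X d J →
  ∃ (α β : Type) (_ : Fintype α) (_ : Fintype β) (_ : DecidableEq α) (_ : DecidableEq β)
    (T : Matrix (Ix α β Unit) (Fin X.g) ℂ) (S : Matrix (Fin X.g) (Ix α β Unit) ℂ)
    (Tp : Matrix α α ℂ) (Tm : Matrix β β ℂ) (Ta : Matrix (Ix α β Unit) (Fin X.g) ℂ)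
    (g : Matrix (α ⊕ β) (α ⊕ β) ℂ) (r : α ⊕ β → ℝ) (q : α ⊕ β → ℚ),
    NFK X d J α β T S Tp Tm Ta g r q

/-- [HatK] the operator in the normal form -/
def St_HatK : Prop := ∀ (X : AbVar) (d : ℚ) (J : Module.End ℂ X.H1)
  (α β : Type) [Fintype α] [Fintype β] [DecidableEq α] [DecidableEq β]
  (T : Matrix (Ix α β Unit) (Fin X.g) ℂ) (S : Matrix (Fin X.g) (Ix α β Unit) ℂ)
  (Tp : Matrix α α ℂ) (Tm : Matrix β β ℂ) (Ta : Matrix (Ix α β Unit) (Fin X.g) ℂ)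
  (g : Matrix (α ⊕ β) (α ⊕ β) ℂ) (r : α ⊕ β → ℝ) (q : α ⊕ β → ℚ)
  (L : Submodule ℤ (Ix α β Unit → ℂ)) (χ θ : (Ix α β Unit → ℂ) → ℂ) (δ : Derivation ℚ ℂ ℂ),
  IsKs X d J → NFK X d J α β T S Tp Tm Ta g r q → PLat L χ → IsTh L χ θ → (∃ v, θ v ≠ 0) →
  (∀ l ∈ L, ∃ a b : α ⊕ β → ℚ, l =
    act g (sw fun p : Ix α β Unit => (r p.1 : ℂ) * ((a p.1 : ℂ) + (b p.1 : ℂ) * zd d))) →
  ∃ (k : ℂ) (c : Matrix α β ℂ), HasHat δ L θ k (Tp * Tp⁻¹.map δ) (Tm * Tm⁻¹.map δ) c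

/-- [TrK] the trace of the comparison operator -/
def St_TrK : Prop := ∀ (X : AbVar) (d : ℚ) (J : Module.End ℂ X.H1)
  (α β : Type) [Fintype α] [Fintype β] [DecidableEq α] [DecidableEq β]
  (T : Matrix (Ix α β Unit) (Fin X.g) ℂ) (S : Matrix (Fin X.g) (Ix α β Unit) ℂ)
  (Tp : Matrix α α ℂ) (Tm : Matrix β β ℂ) (Ta : Matrix (Ix α β Unit) (Fin X.g) ℂ)
  (g : Matrix (α ⊕ β) (α ⊕ β) ℂ) (r : α ⊕ β → ℝ) (q : α ⊕ β → ℚ) (δ : Derivation ℚ ℂ ℂ),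
  IsKs X d J → NFK X d J α β T S Tp Tm Ta g r q →
  LinearMap.trace ℂ X.H1 ((Pool.Agent.Helper7.pData X).N δ * J) =
    2 * zd d * ((Tp * Tp⁻¹.map δ).trace - (Tm * Tm⁻¹.map δ).trace -
      ((Fintype.card α : ℂ) - Fintype.card β) / 2 * (δ Real.pi / Real.pi))

/-- [BalK] the signature -/
def St_BalK : Prop := ∀ (X : AbVar) (d : ℚ) (J : Module.End ℂ X.H1)
  (α β : Type) [Fintype α] [Fintype β] [DecidableEq α] [DecidableEq β]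
  (T : Matrix (Ix α β Unit) (Fin X.g) ℂ) (S : Matrix (Fin X.g) (Ix α β Unit) ℂ)
  (Tp : Matrix α α ℂ) (Tm : Matrix β β ℂ) (Ta : Matrix (Ix α β Unit) (Fin X.g) ℂ)
  (g : Matrix (α ⊕ β) (α ⊕ β) ℂ) (r : α ⊕ β → ℝ) (q : α ⊕ β → ℚ),
  X.g = 4 → IsKs X d J → NFK X d J α β T S Tp Tm Ta g r q →
  (X.IsBalanced d J ↔ Fintype.card α = Fintype.card β)

/-- [TorK] the torus part -/
def St_TorK : Prop := ∀ (X : AbVar) (d : ℚ) (J : Module.End ℂ X.H1), X.g = 4 → IsKs X d J →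
  (X.IsBalanced d J → ∀ δ : Derivation ℚ ℂ ℂ,
    LinearMap.trace ℂ X.H1 ((Pool.Agent.Helper7.pData X).N δ * J) = 0) ∧
  (¬ X.IsBalanced d J → ∃ δ : Derivation ℚ ℂ ℂ,
    LinearMap.trace ℂ X.H1 ((Pool.Agent.Helper7.pData X).N δ * J) ≠ 0)

/-! ## Weil classes -/

/-- [Wgr] a Weil class from the vanishing of the traces -/
def St_Wgr : Prop := ∀ (X : AbVar) (d : ℚ) (J : Module.End ℂ X.H1), X.g = 4 →
  X.IsWeilStructure d J → (∀ δ : Derivation ℚ ℂ ℂ,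
    LinearMap.trace ℂ X.H1 ((Pool.Agent.Helper7.pData X).N δ * J) = 0) →
  ∃ w : X.Class (2 * 2), w ≠ 0 ∧ X.IsWeil 2 w ∧ X.IsGrothendieckClass 2 w

/-- [Wno] no Weil class if one trace does not vanish -/
def St_Wno : Prop := ∀ (X : AbVar) (d : ℚ) (J : Module.End ℂ X.H1), X.g = 4 →
  X.IsWeilStructure d J → (∃ δ : Derivation ℚ ℂ ℂ,
    LinearMap.trace ℂ X.H1 ((Pool.Agent.Helper7.pData X).N δ * J) ≠ 0) →
  ∀ w : X.Class (2 * 2), X.IsGrothendieckClass 2 w →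
    (∀ v r s, w (Function.update v r (J (v r))) = w (Function.update v s (J (v s)))) → w = 0

end DWC
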