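import Pool.Agent.DWC.StG

/-!
# DWC Trv: matrix algebra of the half plane attached to a cusp
-/

set_option autoImplicit false
set_option linter.unusedSimpArgs false

namespace DWC

open scoped ComplexConjugate
open PST

section

variable {α β : Type} [Fintype α] [Fintype β] [DecidableEq α] [DecidableEq β]

private theorem Trv_JJ : Jm α β * Jm α β = 1 := by
  simp [Jm, Matrix.fromBlocks_multiply]

private theorem Trv_JH : (Jm α β).conjTranspose = Jm α β := by
  simp [Jm, Matrix.fromBlocks_conjTranspose]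

/-- The diagonal factor. -/
private noncomputable def Trv_D (P : Matrix (α ⊕ β) (α ⊕ β) ℂ) : Matrix (α ⊕ β) (α ⊕ β) ℂ :=
  (1 / 2 : ℂ) • P + (2 : ℂ) • (Jm α β * P * Jm α β) + (1 - P - Jm α β * P * Jm α β)

/-- Its inverse. -/
private noncomputable def Trv_E (P : Matrix (α ⊕ β) (α ⊕ β) ℂ) : Matrix (α ⊕ β) (α ⊕ β) ℂ :=
  (2 : ℂ) • P + (1 / 2 : ℂ) • (Jm α β * P * Jm α β) + (1 - P - Jm α β * P * Jm α β)

private theorem Trv_words {P : Matrix (α ⊕ β) (α ⊕ β) ℂ} (h : IsoP P) :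
    P * P = P ∧ (∀ x, P * (P * x) = P * x) ∧ (∀ x, Jm α β * (Jm α β * x) = x) ∧
    P * (Jm α β * P) = 0 ∧ (∀ x, P * (Jm α β * (P * x)) = 0) := by
  refine ⟨h.idem, fun x => ?_, fun x => ?_, ?_, fun x => ?_⟩
  · rw [← mul_assoc, h.idem]
  · rw [← mul_assoc, Trv_JJ, one_mul]
  · rw [← mul_assoc, h.iso]
  · rw [← mul_assoc, ← mul_assoc, h.iso, zero_mul]

private theorem Trv_DJD {P : Matrix (α ⊕ β) (α ⊕ β) ℂ} (h : IsoP P) :
    Trv_D P * Jm α β * Trv_D P = Jm α β := by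
  obtain ⟨h1, h2, h3, h4, h5⟩ := Trv_words h
  simp only [Trv_D, mul_add, add_mul, mul_sub, sub_mul, mul_assoc, smul_mul_assoc,
    mul_smul_comm, h1, h2, h3, h4, h5, Trv_JJ, mul_one, one_mul, mul_zero, zero_mul, smul_zero]
  module

private theorem Trv_DQD {P : Matrix (α ⊕ β) (α ⊕ β) ℂ} (h : IsoP P) :
    Trv_D P * (Jm α β * P * Jm α β) * Trv_D P = (4 : ℂ) • (Jm α β * P * Jm α β) := by
  obtain ⟨h1, h2, h3, h4, h5⟩ := Trv_words h
  simp only [Trv_D, mul_add, add_mul, mul_sub, sub_mul, mul_assoc, smul_mul_assoc,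
    mul_smul_comm, h1, h2, h3, h4, h5, Trv_JJ, mul_one, one_mul, mul_zero, zero_mul, smul_zero]
  module

private theorem Trv_DH {P : Matrix (α ⊕ β) (α ⊕ β) ℂ} (h : IsoP P) :
    (Trv_D P).conjTranspose = Trv_D P := by
  simp only [Trv_D, Matrix.conjTranspose_add, Matrix.conjTranspose_sub, Matrix.conjTranspose_smul,
    Matrix.conjTranspose_mul, h.herm, Trv_JH, Matrix.conjTranspose_one, mul_assoc]
  simp

private theorem Trv_mid {P : Matrix (α ⊕ β) (α ⊕ β) ℂ} (h : IsoP P) (s s' : ℂ) :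
    (1 + s' • (Jm α β * P)) * Jm α β * (1 + s • (P * Jm α β)) =
      Jm α β + (s + s') • (Jm α β * P * Jm α β) := by
  obtain ⟨h1, h2, h3, h4, h5⟩ := Trv_words h
  simp only [mul_add, add_mul, mul_assoc, smul_mul_assoc,
    mul_smul_comm, h1, h2, h3, h4, h5, Trv_JJ, mul_one, one_mul, mul_zero, zero_mul, smul_zero]
  module

private theorem Trv_Bt (P : Matrix (α ⊕ β) (α ⊕ β) ℂ) (t : ℂ) :
    Bt P t = (1 + (Complex.I * t * (3 / 4)) • (P * Jm α β)) * Trv_D P := rfl

private theorem Trv_one {P : Matrix (α ⊕ β) (α ⊕ β) ℂ} (h : IsoP P) (t : ℂ) :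
    (Bt P t).conjTranspose * Jm α β * Bt P t =
      Jm α β - ((6 * t.im : ℝ) : ℂ) • (Jm α β * P * Jm α β) := by
  have e1 : (Bt P t).conjTranspose =
      Trv_D P * (1 + (starRingEnd ℂ (Complex.I * t * (3 / 4))) • (Jm α β * P)) := by
    rw [Trv_Bt, Matrix.conjTranspose_mul, Trv_DH h]
    simp only [Matrix.conjTranspose_add, Matrix.conjTranspose_smul, Matrix.conjTranspose_mul,
      h.herm, Trv_JH, Matrix.conjTranspose_one]
    rfl
  have e2 : (Complex.I * t * (3 / 4)) + starRingEnd ℂ (Complex.I * t * (3 / 4)) =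
      (-(3 / 2) * t.im : ℝ) := by
    have h34 : starRingEnd ℂ (3 / 4 : ℂ) = 3 / 4 := by
      have h : (3 / 4 : ℂ) = ((3 / 4 : ℝ) : ℂ) := by push_cast; rfl
      rw [h]
      exact Complex.conj_ofReal _
    rw [map_mul, map_mul, Complex.conj_I, h34]
    apply Complex.ext
    · simp
      ring
    · simp
      try ring
  rw [e1, Trv_Bt]
  calc Trv_D P * (1 + (starRingEnd ℂ (Complex.I * t * (3 / 4))) • (Jm α β * P)) * Jm α β *
        ((1 + (Complex.I * t * (3 / 4)) • (P * Jm α β)) * Trv_D P)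
      = Trv_D P * ((1 + (starRingEnd ℂ (Complex.I * t * (3 / 4))) • (Jm α β * P)) * Jm α β *
        (1 + (Complex.I * t * (3 / 4)) • (P * Jm α β))) * Trv_D P := by
        simp only [mul_assoc]
    _ = Trv_D P * Jm α β * Trv_D P + ((-(3 / 2) * t.im : ℝ) : ℂ) •
        (Trv_D P * (Jm α β * P * Jm α β) * Trv_D P) := by
        rw [Trv_mid h, e2]
        simp only [mul_add, add_mul, mul_smul_comm, smul_mul_assoc]
    _ = _ := by
        rw [Trv_DJD h, Trv_DQD h, smul_smul, sub_eq_add_neg, ← neg_smul]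
        congr 2
        push_cast
        ring

private theorem Trv_comm {S : Matrix (α ⊕ β) (α ⊕ β) ℂ} (h : Jm α β * S = S * Jm α β) :
    S.toBlocks₁₂ = 0 := by
  have e : (Jm α β * S).toBlocks₁₂ = (S * Jm α β).toBlocks₁₂ := by rw [h]
  have e1 : (Jm α β * S).toBlocks₁₂ = S.toBlocks₁₂ := by
    conv_lhs => rw [← Matrix.fromBlocks_toBlocks S]
    simp [Jm, Matrix.fromBlocks_multiply]
  have e2 : (S * Jm α β).toBlocks₁₂ = -S.toBlocks₁₂ := by
    conv_lhs => rw [← Matrix.fromBlocks_toBlocks S]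
    simp [Jm, Matrix.fromBlocks_multiply]
  rw [e1, e2] at e
  ext i j
  have e3 := congrFun (congrFun e i) j
  simp only [Matrix.neg_apply] at e3
  simp only [Matrix.zero_apply]
  linear_combination (1 / 2) * e3

private theorem Trv_twoA {P : Matrix (α ⊕ β) (α ⊕ β) ℂ} (h : IsoP P) :
    Bt P Complex.I = (1 + P + Jm α β * P * Jm α β) -
      (3 / 2 : ℂ) • (P + P * Jm α β) := by
  obtain ⟨h1, h2, h3, h4, h5⟩ := Trv_words h
  have e : Complex.I * Complex.I * (3 / 4) = -(3 / 4) := by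
    rw [Complex.I_mul_I]
    ring
  rw [Trv_Bt, e]
  simp only [Trv_D, mul_add, add_mul, mul_sub, sub_mul, mul_assoc, smul_mul_assoc,
    mul_smul_comm, h1, h2, h3, h4, h5, Trv_JJ, mul_one, one_mul, mul_zero, zero_mul, smul_zero]
  module

private theorem Trv_twoB (P : Matrix (α ⊕ β) (α ⊕ β) ℂ) :
    (P + P * Jm α β).toBlocks₁₂ = 0 ∧ (P + P * Jm α β).toBlocks₂₂ = 0 := by
  constructor
  · conv_lhs => rw [← Matrix.fromBlocks_toBlocks P]
    simp [Jm, Matrix.fromBlocks_multiply, Matrix.fromBlocks_add]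
  · conv_lhs => rw [← Matrix.fromBlocks_toBlocks P]
    simp [Jm, Matrix.fromBlocks_multiply, Matrix.fromBlocks_add]

private theorem Trv_two {P : Matrix (α ⊕ β) (α ⊕ β) ℂ} (h : IsoP P) :
    (Bt P Complex.I).toBlocks₁₂ = 0 ∧ IsUnit (Bt P Complex.I).toBlocks₂₂.det := by
  obtain ⟨h1, h2, h3, h4, h5⟩ := Trv_words h
  set S : Matrix (α ⊕ β) (α ⊕ β) ℂ := 1 + P + Jm α β * P * Jm α β with hS
  set S' : Matrix (α ⊕ β) (α ⊕ β) ℂ := 1 - (1 / 2 : ℂ) • (P + Jm α β * P * Jm α β) with hS'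
  have c1 : Jm α β * S = S * Jm α β := by
    simp only [hS, mul_add, add_mul, mul_assoc, h3, Trv_JJ, mul_one, one_mul]
    abel
  have c2 : Jm α β * S' = S' * Jm α β := by
    simp only [hS', mul_add, add_mul, mul_sub, sub_mul, mul_smul_comm, smul_mul_assoc, mul_assoc,
      h3, Trv_JJ, mul_one, one_mul]
    module
  have c3 : S * S' = 1 := by
    simp only [hS, hS', mul_add, add_mul, mul_sub, sub_mul, mul_assoc, smul_mul_assoc,
      mul_smul_comm, h1, h2, h3, h4, h5, Trv_JJ, mul_one, one_mul, mul_zero, zero_mul, smul_zero]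
    module
  have d1 := Trv_comm c1
  have d2 := Trv_comm c2
  have d3 : S.toBlocks₂₂ * S'.toBlocks₂₂ = 1 := by
    have e : (S * S').toBlocks₂₂ = (1 : Matrix (α ⊕ β) (α ⊕ β) ℂ).toBlocks₂₂ := by rw [c3]
    have e1 : (S * S').toBlocks₂₂ =
        S.toBlocks₂₁ * S'.toBlocks₁₂ + S.toBlocks₂₂ * S'.toBlocks₂₂ := by
      conv_lhs => rw [← Matrix.fromBlocks_toBlocks S, ← Matrix.fromBlocks_toBlocks S']
      rw [Matrix.fromBlocks_multiply, Matrix.toBlocks_fromBlocks₂₂]
    have e2 : (1 : Matrix (α ⊕ β) (α ⊕ β) ℂ).toBlocks₂₂ = 1 := by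
      rw [← Matrix.fromBlocks_one, Matrix.toBlocks_fromBlocks₂₂]
    rw [e1, e2, d2, Matrix.mul_zero, zero_add] at e
    exact e
  obtain ⟨b1, b2⟩ := Trv_twoB P
  have k1 : (Bt P Complex.I).toBlocks₁₂ = S.toBlocks₁₂ := by
    rw [Trv_twoA h]
    ext i j
    have := congrFun (congrFun b1 i) j
    simp only [Matrix.toBlocks₁₂, Matrix.of_apply, Matrix.zero_apply] at this ⊢
    rw [Matrix.sub_apply, Matrix.smul_apply, this]
    simp [hS]
  have k2 : (Bt P Complex.I).toBlocks₂₂ = S.toBlocks₂₂ := by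
    rw [Trv_twoA h]
    ext i j
    have := congrFun (congrFun b2 i) j
    simp only [Matrix.toBlocks₂₂, Matrix.of_apply, Matrix.zero_apply] at this ⊢
    rw [Matrix.sub_apply, Matrix.smul_apply, this]
    simp [hS]
  refine ⟨by rw [k1, d1], ?_⟩
  rw [k2]
  have := congrArg Matrix.det d3
  rw [Matrix.det_mul, Matrix.det_one] at this
  exact IsUnit.of_mul_eq_one _ this

private theorem Trv_nqsw (x : Ix α β Unit → ℂ) : nq (sw x) = nq x := by
  unfold nq
  refine Finset.sum_congr rfl fun p _ => ?_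
  obtain ⟨a | b, u⟩ := p
  · simp [sw]
  · simp [sw]

private theorem Trv_swsw (x : Ix α β Unit → ℂ) : sw (sw x) = x := by
  funext p
  obtain ⟨a | b, u⟩ := p
  · simp [sw]
  · simp [sw]

/-- The vector attached to a point. -/
private def Trv_v (X : Ix α β Unit → ℂ) : α ⊕ β → ℂ := fun a => X (a, ())

private theorem Trv_nqv (X : Ix α β Unit → ℂ) : nq X = nq (Trv_v X) := by
  unfold nq Trv_v
  rw [Fintype.sum_prod_type]
  simp

private theorem Trv_muv (g : Matrix (α ⊕ β) (α ⊕ β) ℂ) (X : Ix α β Unit → ℂ) :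
    Trv_v (mu g X) = g.mulVec (Trv_v X) := rfl

private theorem Trv_dot {ι : Type} [Fintype ι] (v : ι → ℂ) :
    ((nq v : ℝ) : ℂ) = star v ⬝ᵥ v := by
  simp only [nq, dotProduct, Pi.star_apply, Complex.ofReal_sum]
  refine Finset.sum_congr rfl fun p _ => ?_
  rw [Complex.star_def, mul_comm, Complex.mul_conj, Complex.normSq_eq_norm_sq]

private theorem Trv_pyt {ι : Type} [Fintype ι] [DecidableEq ι] {R : Matrix ι ι ℂ}
    (h1 : R.conjTranspose = R) (h2 : R * R = R) (v : ι → ℂ) :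
    nq v = nq (R.mulVec v) + nq ((1 - R).mulVec v) := by
  have a : ∀ S : Matrix ι ι ℂ, S.conjTranspose = S → S * S = S →
      ((nq (S.mulVec v) : ℝ) : ℂ) = star v ⬝ᵥ S.mulVec v := by
    intro S s1 s2
    rw [Trv_dot, Matrix.star_mulVec, s1, ← Matrix.dotProduct_mulVec, Matrix.mulVec_mulVec, s2]
  have b := a R h1 h2
  have c := a (1 - R) (by rw [Matrix.conjTranspose_sub, Matrix.conjTranspose_one, h1])
    (by rw [mul_sub, sub_mul, sub_mul, h2]; simp)
  have d : ((nq v : ℝ) : ℂ) = ((nq (R.mulVec v) + nq ((1 - R).mulVec v) : ℝ) : ℂ) := by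
    rw [Complex.ofReal_add, b, c, Trv_dot, ← dotProduct_add, Matrix.sub_mulVec, Matrix.one_mulVec]
    simp
  exact_mod_cast d

private theorem Trv_nqnn {ι : Type} [Fintype ι] (v : ι → ℂ) : 0 ≤ nq v :=
  Finset.sum_nonneg fun _ _ => by positivity

private theorem Trv_nqsm {ι : Type} [Fintype ι] (c : ℂ) (v : ι → ℂ) :
    nq (c • v) = ‖c‖ ^ 2 * nq v := by
  simp only [nq, Pi.smul_apply, smul_eq_mul, norm_mul, mul_pow, Finset.mul_sum]

private theorem Trv_inv {P : Matrix (α ⊕ β) (α ⊕ β) ℂ} (h : IsoP P) (t : ℂ) :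
    (Trv_E P * (1 - (Complex.I * t * (3 / 4)) • (P * Jm α β))) * Bt P t = 1 := by
  obtain ⟨h1, h2, h3, h4, h5⟩ := Trv_words h
  have e1 : (1 - (Complex.I * t * (3 / 4)) • (P * Jm α β)) *
      (1 + (Complex.I * t * (3 / 4)) • (P * Jm α β)) = 1 := by
    simp only [mul_add, sub_mul, mul_assoc, smul_mul_assoc,
      mul_smul_comm, h5, mul_one, one_mul, smul_zero]
    module
  have e2 : Trv_E P * Trv_D P = 1 := by
    simp only [Trv_D, Trv_E, mul_add, add_mul, mul_sub, sub_mul, mul_assoc, smul_mul_assoc,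
      mul_smul_comm, h1, h2, h3, h4, h5, mul_one, one_mul, mul_zero, zero_mul, smul_zero]
    module
  rw [Trv_Bt]
  calc _ = Trv_E P * ((1 - (Complex.I * t * (3 / 4)) • (P * Jm α β)) *
      (1 + (Complex.I * t * (3 / 4)) • (P * Jm α β))) * Trv_D P := by simp only [mul_assoc]
    _ = 1 := by rw [e1, mul_one, e2]

private theorem Trv_last {P : Matrix (α ⊕ β) (α ⊕ β) ℂ} (h : IsoP P) (t : ℂ) (ε : ℝ)
    (X Y : α ⊕ β → ℂ) (hY : Y = (Bt P t).mulVec X) (h0 : 0 < ε) (hn : (ε / 2) ^ 2 ≤ nq Y)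
    (hc : P.mulVec Y = Y ∨ (2 * ε) ^ 2 ≤ nq ((1 - P).mulVec Y)) : ε ^ 2 ≤ nq X := by
  obtain ⟨h1, h2, h3, h4, h5⟩ := Trv_words h
  set s : ℂ := Complex.I * t * (3 / 4) with hs
  have hX : X = (Trv_E P * (1 - s • (P * Jm α β))).mulVec Y := by
    rw [hY, Matrix.mulVec_mulVec, hs, Trv_inv h, Matrix.one_mulVec]
  rcases hc with hc | hc
  · have e1 : X = (2 : ℂ) • Y := by
      have e2 : (Trv_E P * (1 - s • (P * Jm α β))) * P = (2 : ℂ) • P := by
        simp only [Trv_E, mul_add, add_mul, mul_sub, sub_mul, mul_assoc, smul_mul_assoc,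
          mul_smul_comm, h1, h2, h3, h4, h5, mul_one, one_mul, mul_zero, zero_mul, smul_zero]
        module
      rw [hX, ← hc, Matrix.mulVec_mulVec, e2, Matrix.smul_mulVec]
    rw [e1, Trv_nqsm]
    have e3 : ‖(2 : ℂ)‖ = 2 := by simp
    rw [e3]
    nlinarith
  · set Z := (1 - P).mulVec Y with hZ
    set Q : Matrix (α ⊕ β) (α ⊕ β) ℂ := Jm α β * P * Jm α β with hQ
    have q1 : Q.conjTranspose = Q := by
      rw [hQ, Matrix.conjTranspose_mul, Matrix.conjTranspose_mul, Trv_JH, h.herm, mul_assoc]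
    have q2 : Q * Q = Q := by
      simp only [hQ, mul_assoc, h2, h3]
    have f1 : (1 - P).mulVec X = (Trv_E P).mulVec Z := by
      rw [hX, hZ, Matrix.mulVec_mulVec, Matrix.mulVec_mulVec]
      congr 1
      simp only [Trv_E, mul_add, add_mul, mul_sub, sub_mul, mul_assoc, smul_mul_assoc,
        mul_smul_comm, h1, h2, h3, h4, h5, mul_one, one_mul, mul_zero, zero_mul, smul_zero]
      module
    have f2 : Q.mulVec ((Trv_E P).mulVec Z) = (1 / 2 : ℂ) • Q.mulVec Z := by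
      rw [Matrix.mulVec_mulVec, ← Matrix.smul_mulVec]
      congr 1
      simp only [Trv_E, hQ, mul_add, mul_sub, mul_assoc,
        mul_smul_comm, h1, h2, h3, h4, h5, mul_one, mul_zero, zero_mul, smul_zero]
      module
    have f3 : (1 - Q).mulVec ((Trv_E P).mulVec Z) = (1 - Q).mulVec Z := by
      rw [Matrix.mulVec_mulVec, hZ, Matrix.mulVec_mulVec, Matrix.mulVec_mulVec]
      congr 1
      simp only [Trv_E, hQ, mul_add, add_mul, mul_sub, sub_mul, mul_assoc, smul_mul_assoc,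
        mul_smul_comm, h1, h2, h3, h4, h5, mul_one, one_mul, mul_zero, zero_mul, smul_zero]
      module
    have g1 := Trv_pyt h.herm h.idem X
    have g2 := Trv_pyt q1 q2 ((Trv_E P).mulVec Z)
    have g3 := Trv_pyt q1 q2 Z
    rw [f2, f3, Trv_nqsm] at g2
    rw [f1] at g1
    have e3 : ‖(1 / 2 : ℂ)‖ = 1 / 2 := by simp
    rw [e3] at g2
    have n1 := Trv_nqnn (P.mulVec X)
    have n2 := Trv_nqnn ((1 - Q).mulVec Z)
    nlinarith

end

/-- [Trv] algebra of the half plane attached to a cusp -/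
theorem thm_Trv : St_Trv := by
  intro α β _ _ _ _ P h
  refine ⟨fun t => Trv_one h t, Trv_two h, fun t => ?_, fun t ε x h0 hn hc => ?_⟩
  · have e := Trv_one h (t : ℂ)
    unfold IsU
    rw [e]
    simp
  · have hY : Trv_v (sw (act (Bt P t) x)) = (Bt P t).mulVec (Trv_v (sw x)) := by
      unfold act
      rw [Trv_swsw, Trv_muv]
    have e1 : ∀ z : Ix α β Unit → ℂ, nq z = nq (Trv_v (sw z)) := fun z => by
      rw [← Trv_nqv, Trv_nqsw]
    have e2 : ∀ (g : Matrix (α ⊕ β) (α ⊕ β) ℂ) (z : Ix α β Unit → ℂ),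
        Trv_v (sw (act g z)) = g.mulVec (Trv_v (sw z)) := fun g z => by
      unfold act
      rw [Trv_swsw, Trv_muv]
    rw [e1 x]
    refine Trv_last h t ε (Trv_v (sw x)) (Trv_v (sw (act (Bt P t) x))) hY h0 ?_ ?_
    · rw [← e1]
      exact hn
    · rcases hc with hc | hc
      · left
        rw [← e2, hc]
      · right
        rw [← e2, ← e1]
        exact hc

end DWC
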